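import Mathlib

/-!
# Chinese remainder theorem for the coordinates
-/

namespace Pool.Agent.Lib.Pinwheel

open Finset

theorem modEq_prod {ι : Type*} [DecidableEq ι] (m : ι → ℕ)
    (hc : ∀ i j, i ≠ j → Nat.Coprime (m i) (m j)) (S : Finset ι) (a b : ℕ) :
    a ≡ b [MOD ∏ i ∈ S, m i] ↔ ∀ i ∈ S, a ≡ b [MOD m i] := by
  induction S using Finset.induction_on with
  | empty => simp [Nat.modEq_one]
  | insert i S hi ih =>
    rw [Finset.prod_insert hi, ← Nat.modEq_and_modEq_iff_modEq_mul, ih]
    · simp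
    · exact Nat.Coprime.prod_right fun j hj => hc i j fun h => hi (h ▸ hj)

/-- Given pairwise coprime moduli and a condition on each residue, there is a number whose residues
satisfy the conditions. -/
theorem crt_pred {ι : Type*} [Fintype ι] [DecidableEq ι] (m : ι → ℕ)
    (hc : ∀ i j, i ≠ j → Nat.Coprime (m i) (m j)) (Pd : ι → ℕ → Prop)
    (h : ∀ i, ∃ c < m i, Pd i c) : ∃ u : ℕ, ∀ i, Pd i (u % m i) := by
  choose c hc1 hc2 using h
  have key := Nat.chineseRemainderOfFinset c m Finset.univ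
    (fun i _ => by have := hc1 i; omega) (fun i _ j _ hij => hc i j hij)
  refine ⟨key.1, fun i => ?_⟩
  have := key.2 i (Finset.mem_univ i)
  rw [Nat.ModEq, Nat.mod_eq_of_lt (hc1 i)] at this
  rw [this]
  exact hc2 i

end Pool.Agent.Lib.Pinwheel
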