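import Pool.Agent.Lib.Pinwheel.TokDefs

/-!
# Chains of assignments and programs
-/

namespace Pool.Agent.Lib.Pinwheel

/-- A chain of length `T` of assignments of `N` variables: consecutive assignments satisfy the
clauses `cl`, where the variables `< N` are the variables of the first, and the variables
`N ≤ v < 2 N` the variables of the second assignment. -/
def ChainRun (N : ℕ) (cl : List (List (ℕ × Bool))) (T : ℕ) (σ : ℕ → ℕ → Bool) : Prop :=
  ∀ i < T, ∀ c ∈ cl, ∃ l ∈ c, (if l.1 < N then σ i l.1 else σ (i + 1) (l.1 - N)) = l.2

/-- The bit of the literal `l`: the bits `x`, `N + x`, `2 N + x`, `3 N + x` are: first copy of `x`,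
its negation, second copy of `x`, its negation; the second copy is the new one if
`half = false`. -/
def litBit (N : ℕ) (half : Bool) (l : ℕ × Bool) : ℕ :=
  if l.1 < N then (if half then 2 * N else 0) + (if l.2 then l.1 else N + l.1)
  else (if half then 0 else 2 * N) + (if l.2 then l.1 - N else l.1)

/-- half of the program: guess the new assignment and check -/
def halfProg (N : ℕ) (cl : List (List (ℕ × Bool))) (half : Bool) : List Instr :=
  (List.range N).flatMap (fun x => [(0, [(if half then 0 else 2 * N) + x]),
    (0, [(if half then 0 else 2 * N) + (N + x)])]) ++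
  ((List.range N).flatMap (fun x =>
    [(1, [(if half then 0 else 2 * N) + x, (if half then 0 else 2 * N) + (N + x)]),
     (2, [(if half then 0 else 2 * N) + x, (if half then 0 else 2 * N) + (N + x)])]) ++
  cl.map (fun c => (1, c.map (litBit N half))))

/-- the program -/
def progOf (N : ℕ) (cl : List (List (ℕ × Bool))) : List Instr :=
  halfProg N cl false ++ halfProg N cl true

end Pool.Agent.Lib.Pinwheel
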