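import Pool.Agent.Lib.Pinwheel.ChainDefs

/-!
# Chains of assignments and programs: equivalence
-/

namespace Pool.Agent.Lib.Pinwheel

/-! ## Runs of lists of instructions -/

/-- Run of a list of instructions. -/
def RunL (n : ℕ) : List Instr → (ℕ → Bool) → (ℕ → Bool) → Prop
  | [], s, s' => s = s'
  | a :: l, s, s' => ∃ s1, Rel n a s s1 ∧ RunL n l s1 s'

theorem runL_append (n : ℕ) (l l' : List Instr) (s s' : ℕ → Bool) :
    RunL n (l ++ l') s s' ↔ ∃ s1, RunL n l s s1 ∧ RunL n l' s1 s' := by
  induction l generalizing s with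
  | nil => simp [RunL]
  | cons a l ih =>
    simp only [List.cons_append, RunL, ih]
    constructor
    · rintro ⟨s1, h1, s2, h2, h3⟩
      exact ⟨s2, ⟨s1, h1, h2⟩, h3⟩
    · rintro ⟨s2, ⟨s1, h1, h2⟩, h3⟩
      exact ⟨s1, h1, s2, h2, h3⟩

theorem runL_of_seq (n : ℕ) (l : List Instr) (f : ℕ → ℕ → Bool)
    (h : ∀ j < l.length, Rel n (l.getD j (1, [])) (f j) (f (j + 1))) :
    RunL n l (f 0) (f l.length) := by
  induction l generalizing f with
  | nil => simp [RunL]
  | cons a l ih =>
    refine ⟨f 1, by simpa using h 0 (by simp), ?_⟩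
    have := ih (fun j => f (j + 1)) (fun j hj => by
      have := h (j + 1) (by simpa using hj)
      simpa using this)
    simpa using this

theorem seq_of_runL (n : ℕ) (l : List Instr) (s s' : ℕ → Bool) (h : RunL n l s s') :
    ∃ f : ℕ → ℕ → Bool, f 0 = s ∧ f l.length = s' ∧
      ∀ j < l.length, Rel n (l.getD j (1, [])) (f j) (f (j + 1)) := by
  induction l generalizing s with
  | nil => exact ⟨fun _ => s, rfl, h, by simp⟩
  | cons a l ih =>
    obtain ⟨s1, h1, h2⟩ := h
    obtain ⟨f, hf0, hfl, hf⟩ := ih s1 h2
    refine ⟨fun j => if j = 0 then s else f (j - 1), by simp, by simp [hfl], ?_⟩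
    intro j hj
    rcases j with _ | j
    · simpa [hf0] using h1
    · have := hf j (by simpa using hj)
      simpa using this

/-- resets change only the bits which are reset -/
theorem runL_reset (n : ℕ) (l : List Instr) (A : ℕ → Prop)
    (hl : ∀ a ∈ l, a.1 = 0 ∧ A (a.2.headD 0)) (s s' : ℕ → Bool) (h : RunL n l s s') :
    ∀ g < n, ¬ A g → s' g = s g := by
  induction l generalizing s with
  | nil =>
    intro g _ _
    rw [show s = s' from h]
  | cons a l ih =>
    obtain ⟨s1, h1, h2⟩ := h
    intro g hg hA
    rw [ih (fun b hb => hl b (List.mem_cons_of_mem _ hb)) s1 h2 g hg hA]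
    have ha := hl a List.mem_cons_self
    rw [Rel, if_pos ha.1] at h1
    refine h1 g hg ?_
    rintro rfl
    exact hA ha.2

theorem runL_reset' (n : ℕ) (l : List Instr) (hl : ∀ a ∈ l, a.1 = 0) (s s' : ℕ → Bool)
    (h : ∀ g, (∀ a ∈ l, a.2.headD 0 ≠ g) → s' g = s g) : RunL n l s s' := by
  induction l generalizing s with
  | nil =>
    exact funext fun g => (h g (by simp)).symm
  | cons a l ih =>
    refine ⟨Function.update s (a.2.headD 0) (s' (a.2.headD 0)), ?_, ?_⟩
    · rw [Rel, if_pos (hl a List.mem_cons_self)]
      intro g _ hg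
      rw [Function.update_of_ne hg]
    · refine ih (fun b hb => hl b (List.mem_cons_of_mem _ hb)) _ ?_
      intro g hg
      by_cases hga : g = a.2.headD 0
      · subst hga
        simp
      · rw [Function.update_of_ne hga]
        refine h g ?_
        intro b hb
        rcases List.mem_cons.mp hb with rfl | hb
        · exact fun h => hga h.symm
        · exact hg b hb

/-- checks do not change the state -/
theorem runL_check (n : ℕ) (l : List Instr) (hl : ∀ a ∈ l, a.1 ≠ 0) (s s' : ℕ → Bool)
    (h : RunL n l s s') :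
    (∀ g < n, s' g = s g) ∧ ∀ a ∈ l, ∃ g ∈ a.2, g < n ∧ s' g = decide (a.1 = 1) := by
  induction l generalizing s with
  | nil =>
    rw [show s = s' from h]
    simp
  | cons a l ih =>
    obtain ⟨s1, h1, h2⟩ := h
    obtain ⟨ih1, ih2⟩ := ih (fun b hb => hl b (List.mem_cons_of_mem _ hb)) s1 h2
    rw [Rel, if_neg (hl a List.mem_cons_self)] at h1
    obtain ⟨h3, g, hg, hgn, hgs⟩ := h1
    refine ⟨fun g hg => (ih1 g hg).trans (h3 g hg), ?_⟩
    intro b hb
    rcases List.mem_cons.mp hb with rfl | hb
    · exact ⟨g, hg, hgn, by rw [ih1 g hgn, h3 g hgn, hgs]⟩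
    · exact ih2 b hb

theorem runL_check' (n : ℕ) (l : List Instr) (s : ℕ → Bool)
    (hl : ∀ a ∈ l, a.1 ≠ 0 ∧ ∃ g ∈ a.2, g < n ∧ s g = decide (a.1 = 1)) : RunL n l s s := by
  induction l with
  | nil => rfl
  | cons a l ih =>
    refine ⟨s, ?_, ih (fun b hb => hl b (List.mem_cons_of_mem _ hb))⟩
    obtain ⟨h1, h2⟩ := hl a List.mem_cons_self
    rw [Rel, if_neg h1]
    exact ⟨fun _ _ => rfl, h2⟩

/-! ## The half program -/

/-- offset of the new copy -/
def newOff (N : ℕ) (half : Bool) : ℕ := if half then 0 else 2 * N

/-- offset of the old copy -/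
def oldOff (N : ℕ) (half : Bool) : ℕ := if half then 2 * N else 0

theorem litBit_lt {N : ℕ} {half : Bool} {l : ℕ × Bool} (hl : l.1 < 2 * N) :
    litBit N half l < 4 * N := by
  unfold litBit
  cases half <;> cases l.2 <;> simp <;> split_ifs <;> omega

theorem half_length (N : ℕ) (cl : List (List (ℕ × Bool))) (half : Bool) :
    (halfProg N cl half).length = 4 * N + cl.length := by
  unfold halfProg
  simp [List.length_flatMap]
  omega

theorem half_sound (N : ℕ) (cl : List (List (ℕ × Bool))) (half : Bool) (s s' : ℕ → Bool)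
    (h : RunL (4 * N) (halfProg N cl half) s s') :
    (∀ g < 4 * N, ¬ (newOff N half ≤ g ∧ g < newOff N half + 2 * N) → s' g = s g) ∧
    (∀ x < N, s' (newOff N half + (N + x)) = !(s' (newOff N half + x))) ∧
    ∀ c ∈ cl, ∃ l ∈ c, s' (litBit N half l) = true := by
  unfold halfProg at h
  rw [runL_append] at h
  obtain ⟨s1, h1, h2⟩ := h
  have hA := runL_reset (4 * N) _ (fun g => newOff N half ≤ g ∧ g < newOff N half + 2 * N)
    (by
      intro a ha
      simp only [List.mem_flatMap, List.mem_range, List.mem_cons, List.not_mem_nil, or_false] at ha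
      obtain ⟨x, hx, rfl | rfl⟩ := ha
      · refine ⟨rfl, ?_⟩
        simp only [List.headD_cons, newOff]
        omega
      · refine ⟨rfl, ?_⟩
        simp only [List.headD_cons, newOff]
        omega) s s1 h1
  have hB := runL_check (4 * N) _ (by
    intro a ha
    simp only [List.mem_append, List.mem_flatMap, List.mem_range, List.mem_cons,
      List.not_mem_nil, or_false, List.mem_map] at ha
    rcases ha with ⟨x, hx, rfl | rfl⟩ | ⟨c, hc, rfl⟩ <;> simp) s1 s' h2
  obtain ⟨hB1, hB2⟩ := hB
  refine ⟨fun g hg hg' => (hB1 g hg).trans (hA g hg hg'), ?_, ?_⟩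
  · intro x hx
    have e1 := hB2 (1, [(if half then 0 else 2 * N) + x, (if half then 0 else 2 * N) + (N + x)])
      (by
        rw [List.mem_append]
        left
        rw [List.mem_flatMap]
        exact ⟨x, List.mem_range.mpr hx, by simp⟩)
    have e2 := hB2 (2, [(if half then 0 else 2 * N) + x, (if half then 0 else 2 * N) + (N + x)])
      (by
        rw [List.mem_append]
        left
        rw [List.mem_flatMap]
        exact ⟨x, List.mem_range.mpr hx, by simp⟩)
    simp only [List.mem_cons, List.not_mem_nil, or_false] at e1 e2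
    change s' ((if half then 0 else 2 * N) + (N + x)) = !(s' ((if half then 0 else 2 * N) + x))
    obtain ⟨g, hg, -, hg1⟩ := e1
    obtain ⟨g', hg', -, hg1'⟩ := e2
    rcases hg with rfl | rfl <;> rcases hg' with rfl | rfl <;> simp_all
  · intro c hc
    obtain ⟨g, hg, -, hgs⟩ := hB2 (1, c.map (litBit N half)) (by
      rw [List.mem_append]
      right
      exact List.mem_map.mpr ⟨c, hc, rfl⟩)
    obtain ⟨l, hl, rfl⟩ := List.mem_map.mp hg
    exact ⟨l, hl, by simpa using hgs⟩

theorem half_complete (N : ℕ) (cl : List (List (ℕ × Bool))) (half : Bool) (s s' : ℕ → Bool)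
    (hcl : ∀ c ∈ cl, ∀ l ∈ c, l.1 < 2 * N)
    (h1 : ∀ g, ¬ (newOff N half ≤ g ∧ g < newOff N half + 2 * N) → s' g = s g)
    (h2 : ∀ x < N, s' (newOff N half + (N + x)) = !(s' (newOff N half + x)))
    (h3 : ∀ c ∈ cl, ∃ l ∈ c, s' (litBit N half l) = true) :
    RunL (4 * N) (halfProg N cl half) s s' := by
  unfold halfProg
  rw [runL_append]
  refine ⟨s', ?_, ?_⟩
  · refine runL_reset' _ _ ?_ _ _ ?_
    · intro a ha
      simp only [List.mem_flatMap, List.mem_range, List.mem_cons, List.not_mem_nil, or_false] at ha
      obtain ⟨x, hx, rfl | rfl⟩ := ha <;> rfl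
    · intro g hg
      refine h1 g ?_
      rintro ⟨hg1, hg2⟩
      by_cases hgN : g < newOff N half + N
      · refine hg (0, [(if half then 0 else 2 * N) + (g - newOff N half)]) ?_ ?_
        · rw [List.mem_flatMap]
          exact ⟨g - newOff N half, List.mem_range.mpr (by omega), by simp⟩
        · simp only [List.headD_cons]
          change newOff N half + (g - newOff N half) = g
          omega
      · refine hg (0, [(if half then 0 else 2 * N) + (N + (g - newOff N half - N))]) ?_ ?_
        · rw [List.mem_flatMap]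
          exact ⟨g - newOff N half - N, List.mem_range.mpr (by omega), by simp⟩
        · simp only [List.headD_cons]
          change newOff N half + (N + (g - newOff N half - N)) = g
          omega
  · refine runL_check' _ _ _ ?_
    have hoff : newOff N half + 2 * N ≤ 4 * N := by
      unfold newOff
      split_ifs <;> omega
    intro a ha
    simp only [List.mem_append, List.mem_flatMap, List.mem_range, List.mem_cons,
      List.not_mem_nil, or_false, List.mem_map] at ha
    rcases ha with ⟨x, hx, rfl | rfl⟩ | ⟨c, hc, rfl⟩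
    · refine ⟨by simp, ?_⟩
      have := h2 x hx
      cases hb : s' (newOff N half + x)
      · refine ⟨newOff N half + (N + x), by simp [newOff], by omega, ?_⟩
        rw [this, hb]
        simp
      · refine ⟨newOff N half + x, by simp [newOff], by omega, ?_⟩
        rw [hb]
        simp
    · refine ⟨by simp, ?_⟩
      have := h2 x hx
      cases hb : s' (newOff N half + x)
      · refine ⟨newOff N half + x, by simp [newOff], by omega, ?_⟩
        rw [hb]
        simp
      · refine ⟨newOff N half + (N + x), by simp [newOff], by omega, ?_⟩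
        rw [this, hb]
        simp
    · refine ⟨by simp, ?_⟩
      obtain ⟨l, hl, hs⟩ := h3 c hc
      exact ⟨litBit N half l, List.mem_map.mpr ⟨l, hl, rfl⟩, litBit_lt (hcl c hc l hl),
        by simpa using hs⟩

/-! ## The program -/

/-- which half is executed -/
def halfOf (i : ℕ) : Bool := decide (i % 2 = 1)

theorem progOf_getD (N : ℕ) (cl : List (List (ℕ × Bool))) (i j : ℕ)
    (hj : j < 4 * N + cl.length) :
    (progOf N cl).getD ((i * (4 * N + cl.length) + j) % (progOf N cl).length) (1, []) =
      (halfProg N cl (halfOf i)).getD j (1, []) := by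
  have hlen : (progOf N cl).length = 2 * (4 * N + cl.length) := by
    unfold progOf
    rw [List.length_append, half_length, half_length]
    ring
  rw [hlen]
  set h := 4 * N + cl.length with hh
  have hmod : (i * h + j) % (2 * h) = (i % 2) * h + j := by
    conv_lhs => rw [← Nat.div_add_mod i 2]
    rw [show (2 * (i / 2) + i % 2) * h + j = ((i % 2) * h + j) + (2 * h) * (i / 2) by ring,
      Nat.add_mul_mod_self_left, Nat.mod_eq_of_lt]
    have : i % 2 < 2 := Nat.mod_lt _ (by norm_num)
    have : i % 2 * h ≤ 1 * h := Nat.mul_le_mul_right _ (by omega)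
    omega
  rw [hmod]
  unfold progOf halfOf
  rcases Nat.mod_two_eq_zero_or_one i with hi | hi
  · rw [hi]
    simp only [zero_mul, zero_add]
    rw [List.getD_append _ _ _ _ (by rw [half_length]; exact hj)]
    simp
  · rw [hi]
    rw [List.getD_append_right _ _ _ _ (by rw [half_length]; omega), half_length]
    simp [← hh]

theorem pRun_of_runL (N : ℕ) (cl : List (List (ℕ × Bool))) (hN : 0 < N)
    (S : ℕ → ℕ → Bool) (hS : ∀ i, RunL (4 * N) (halfProg N cl (halfOf i)) (S i) (S (i + 1))) :
    ∃ σ', ∀ T, PRun (4 * N) (progOf N cl) T σ' := by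
  choose f hf0 hfl hf using fun i => seq_of_runL _ _ _ _ (hS i)
  simp only [half_length] at hfl hf
  set h := 4 * N + cl.length with hh
  have hpos : 0 < h := by omega
  refine ⟨fun t => f (t / h) (t % h), ?_⟩
  intro T t _
  have hlt : t % h < h := Nat.mod_lt _ hpos
  have hdecomp : t = t / h * h + t % h := by
    rw [mul_comm]
    exact (Nat.div_add_mod t h).symm
  have hget := progOf_getD N cl (t / h) (t % h) hlt
  rw [← hh, ← hdecomp] at hget
  rw [hget]
  have hstep := hf (t / h) (t % h) hlt
  convert hstep using 1
  by_cases hlast : t % h + 1 = h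
  · have h1 : t + 1 = (t / h + 1) * h := by
      calc t + 1 = t / h * h + t % h + 1 := by rw [← hdecomp]
        _ = t / h * h + h := by omega
        _ = (t / h + 1) * h := by ring
    have h2 : (t + 1) / h = t / h + 1 := by
      rw [h1]
      exact Nat.mul_div_cancel _ hpos
    have h3 : (t + 1) % h = 0 := by
      rw [h1]
      exact Nat.mul_mod_left _ _
    change f ((t + 1) / h) ((t + 1) % h) = _
    rw [h2, h3, hf0, hlast, hfl]
  · have h1 : t + 1 = (t % h + 1) + h * (t / h) := by
      have := Nat.div_add_mod t h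
      omega
    have h2 : (t + 1) / h = t / h := by
      rw [h1, Nat.add_mul_div_left _ _ hpos, Nat.div_eq_of_lt (by omega), zero_add]
    have h3 : (t + 1) % h = t % h + 1 := by
      rw [h1, Nat.add_mul_mod_self_left, Nat.mod_eq_of_lt (by omega)]
    change f ((t + 1) / h) ((t + 1) % h) = _
    rw [h2, h3]

theorem progOf_wf (N : ℕ) (cl : List (List (ℕ × Bool))) (hN : 0 < N)
    (hcl : ∀ c ∈ cl, ∀ l ∈ c, l.1 < 2 * N) :
    progOf N cl ≠ [] ∧ ∀ ins ∈ progOf N cl, ins.1 = 0 → ins.2.headD 0 < 4 * N := by
  constructor
  · intro h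
    have := congrArg List.length h
    unfold progOf at this
    rw [List.length_append, half_length, half_length] at this
    simp at this
    omega
  · intro ins hins h0
    unfold progOf at hins
    have key : ∀ half, ins ∈ halfProg N cl half → ins.2.headD 0 < 4 * N := by
      intro half hi
      unfold halfProg at hi
      simp only [List.mem_append, List.mem_flatMap, List.mem_range, List.mem_cons,
        List.not_mem_nil, or_false, List.mem_map] at hi
      rcases hi with ⟨x, hx, rfl | rfl⟩ | ⟨x, hx, rfl | rfl⟩ | ⟨c, hc, rfl⟩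
      · simp only [List.headD_cons]
        split_ifs <;> omega
      · simp only [List.headD_cons]
        split_ifs <;> omega
      · simp at h0
      · simp at h0
      · simp at h0
    rcases List.mem_append.mp hins with h | h
    · exact key _ h
    · exact key _ h

theorem newOff_succ (N i : ℕ) : oldOff N (halfOf (i + 1)) = newOff N (halfOf i) := by
  unfold oldOff newOff halfOf
  rcases Nat.mod_two_eq_zero_or_one i with hi | hi
  · have : (i + 1) % 2 = 1 := by omega
    simp [hi, this]
  · have : (i + 1) % 2 = 0 := by omega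
    simp [hi, this]

theorem litBit_old {N : ℕ} {half : Bool} {l : ℕ × Bool} (hl : l.1 < N) :
    litBit N half l = oldOff N half + (if l.2 then l.1 else N + l.1) := by
  unfold litBit oldOff
  rw [if_pos hl]

theorem litBit_new {N : ℕ} {half : Bool} {l : ℕ × Bool} (hl : ¬ l.1 < N) :
    litBit N half l = newOff N half + (if l.2 then l.1 - N else N + (l.1 - N)) := by
  unfold litBit newOff
  rw [if_neg hl]
  have : N + (l.1 - N) = l.1 := by omega
  rw [this]

theorem chain_sound (N : ℕ) (cl : List (List (ℕ × Bool))) (hN : 0 < N)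
    (hcl : ∀ c ∈ cl, ∀ l ∈ c, l.1 < 2 * N)
    (h : ∀ T, ∃ σ, PRun (4 * N) (progOf N cl) T σ) : ∀ T, ∃ σ, ChainRun N cl T σ := by
  intro T
  set h' := 4 * N + cl.length with hh
  obtain ⟨σ, hσ⟩ := h ((T + 1) * h')
  have hrun : ∀ i < T + 1, RunL (4 * N) (halfProg N cl (halfOf i)) (σ (i * h'))
      (σ ((i + 1) * h')) := by
    intro i hi
    have := runL_of_seq (4 * N) (halfProg N cl (halfOf i)) (fun j => σ (i * h' + j)) (by
      intro j hj
      rw [half_length, ← hh] at hj
      have hlt : i * h' + j < (T + 1) * h' := by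
        calc i * h' + j < i * h' + h' := by omega
          _ = (i + 1) * h' := by ring
          _ ≤ (T + 1) * h' := Nat.mul_le_mul_right _ (by omega)
      have := hσ (i * h' + j) hlt
      rw [hh, progOf_getD N cl i j hj] at this
      exact this)
    rw [half_length] at this
    have e : i * h' + (4 * N + cl.length) = (i + 1) * h' := by
      rw [← hh]
      ring
    simp only [add_zero, e] at this
    exact this
  refine ⟨fun i x => σ ((i + 1) * h') (newOff N (halfOf i) + x), ?_⟩
  intro i hi c hc
  obtain ⟨-, hcons, -⟩ := half_sound N cl _ _ _ (hrun i (by omega))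
  obtain ⟨hsame, hcons', hclause⟩ := half_sound N cl _ _ _ (hrun (i + 1) (by omega))
  obtain ⟨l, hl, hl'⟩ := hclause c hc
  refine ⟨l, hl, ?_⟩
  by_cases hlN : l.1 < N
  · rw [if_pos hlN]
    rw [litBit_old hlN, newOff_succ] at hl'
    have hout : ∀ y < 2 * N, σ ((i + 1 + 1) * h') (newOff N (halfOf i) + y) =
        σ ((i + 1) * h') (newOff N (halfOf i) + y) := by
      intro y hy
      apply hsame
      · unfold newOff
        split_ifs <;> omega
      · unfold newOff halfOf
        rcases Nat.mod_two_eq_zero_or_one i with hi | hi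
        · have : (i + 1) % 2 = 1 := by omega
          simp [hi, this]
        · have : (i + 1) % 2 = 0 := by omega
          simp [hi, this]
          omega
    cases hb : l.2
    · rw [hb] at hl'
      simp only [Bool.false_eq_true, if_false] at hl'
      rw [hout _ (by omega), hcons _ hlN] at hl'
      simpa using hl'
    · rw [hb] at hl'
      simp only [if_true] at hl'
      rw [hout _ (by omega)] at hl'
      exact hl'
  · rw [if_neg hlN]
    have hl2 : l.1 < 2 * N := hcl c hc l hl
    rw [litBit_new hlN] at hl'
    cases hb : l.2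
    · rw [hb] at hl'
      simp only [Bool.false_eq_true, if_false] at hl'
      rw [hcons' _ (by omega)] at hl'
      simpa using hl'
    · rw [hb] at hl'
      simp only [if_true] at hl'
      exact hl'

/-- encoding of an assignment in one copy -/
def encA (N : ℕ) (τ : ℕ → Bool) (g : ℕ) : Bool := if g < N then τ g else !(τ (g - N))

/-- the state before the half `i` -/
def stateA (N : ℕ) (σ : ℕ → ℕ → Bool) (i g : ℕ) : Bool :=
  if g < 2 * N then encA N (σ (if i % 2 = 0 then i else i - 1)) g
  else if g < 4 * N then encA N (σ (if i % 2 = 1 then i else i - 1)) (g - 2 * N)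
  else false

theorem stateA_new (N : ℕ) (σ : ℕ → ℕ → Bool) (i y : ℕ) (hy : y < 2 * N) :
    stateA N σ (i + 1) (newOff N (halfOf i) + y) = encA N (σ (i + 1)) y := by
  unfold stateA newOff halfOf
  rcases Nat.mod_two_eq_zero_or_one i with hi | hi
  · have h1 : (i + 1) % 2 = 1 := by omega
    simp only [hi, h1, zero_ne_one, decide_false, Bool.false_eq_true, if_false, if_true,
      one_ne_zero]
    rw [if_neg (by omega), if_pos (by omega)]
    congr 1
    omega
  · have h1 : (i + 1) % 2 = 0 := by omega
    simp only [hi, h1, decide_true, if_true, zero_add]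
    rw [if_pos hy]

theorem stateA_old (N : ℕ) (σ : ℕ → ℕ → Bool) (i y : ℕ) (hy : y < 2 * N) :
    stateA N σ (i + 1) (oldOff N (halfOf i) + y) = encA N (σ i) y := by
  unfold stateA oldOff halfOf
  rcases Nat.mod_two_eq_zero_or_one i with hi | hi
  · have h1 : (i + 1) % 2 = 1 := by omega
    simp only [hi, h1, zero_ne_one, decide_false, Bool.false_eq_true, if_false,
      one_ne_zero, zero_add]
    rw [if_pos hy]
    simp
  · have h1 : (i + 1) % 2 = 0 := by omega
    simp only [hi, h1, decide_true, if_true, zero_ne_one, if_false]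
    rw [if_neg (by omega), if_pos (by omega)]
    have : 2 * N + y - 2 * N = y := by omega
    rw [this]
    simp

theorem stateA_step (N : ℕ) (σ : ℕ → ℕ → Bool) (i g : ℕ)
    (hg : ¬ (newOff N (halfOf i) ≤ g ∧ g < newOff N (halfOf i) + 2 * N)) :
    stateA N σ (i + 1) g = stateA N σ i g := by
  unfold newOff halfOf at hg
  unfold stateA
  rcases Nat.mod_two_eq_zero_or_one i with hi | hi
  · have h1 : (i + 1) % 2 = 1 := by omega
    simp only [hi, zero_ne_one, decide_false, Bool.false_eq_true, if_false] at hg
    simp only [hi, h1, zero_ne_one, if_false, if_true, one_ne_zero]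
    by_cases h2 : g < 2 * N
    · simp [h2]
    · have h4 : ¬ g < 4 * N := by omega
      simp [h2, h4]
  · have h1 : (i + 1) % 2 = 0 := by omega
    simp only [hi, decide_true, if_true] at hg
    simp only [hi, h1, zero_ne_one, if_false, if_true, one_ne_zero]
    have h2 : ¬ g < 2 * N := by omega
    simp [h2]

theorem chain_complete (N : ℕ) (cl : List (List (ℕ × Bool))) (hN : 0 < N)
    (hcl : ∀ c ∈ cl, ∀ l ∈ c, l.1 < 2 * N)
    (σ : ℕ → ℕ → Bool) (hσ : ∀ T, ChainRun N cl T σ) :
    ∃ σ', ∀ T, PRun (4 * N) (progOf N cl) T σ' := by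
  refine pRun_of_runL N cl hN (stateA N σ) ?_
  intro i
  refine half_complete N cl _ _ _ hcl (fun g hg => stateA_step N σ i g hg) ?_ ?_
  · intro x hx
    rw [stateA_new _ _ _ _ (by omega), stateA_new _ _ _ _ (by omega)]
    unfold encA
    rw [if_neg (by omega), if_pos hx]
    congr 2
    omega
  · intro c hc
    obtain ⟨l, hl, hl'⟩ := hσ (i + 1) i (by omega) c hc
    refine ⟨l, hl, ?_⟩
    by_cases hlN : l.1 < N
    · rw [if_pos hlN] at hl'
      rw [litBit_old hlN]
      cases hb : l.2
      · rw [hb] at hl'
        simp only [Bool.false_eq_true, if_false]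
        rw [stateA_old _ _ _ _ (by omega)]
        unfold encA
        rw [if_neg (by omega)]
        have : N + l.1 - N = l.1 := by omega
        rw [this, hl']
        rfl
      · rw [hb] at hl'
        simp only [if_true]
        rw [stateA_old _ _ _ _ (by omega)]
        unfold encA
        rw [if_pos hlN, hl']
    · rw [if_neg hlN] at hl'
      have hl2 : l.1 < 2 * N := hcl c hc l hl
      rw [litBit_new hlN]
      cases hb : l.2
      · rw [hb] at hl'
        simp only [Bool.false_eq_true, if_false]
        rw [stateA_new _ _ _ _ (by omega)]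
        unfold encA
        rw [if_neg (by omega)]
        have : N + (l.1 - N) - N = l.1 - N := by omega
        rw [this, hl']
        rfl
      · rw [hb] at hl'
        simp only [if_true]
        rw [stateA_new _ _ _ _ (by omega)]
        unfold encA
        rw [if_pos (by omega), hl']

end Pool.Agent.Lib.Pinwheel
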