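import Pool.Agent.Lib.Pinwheel.Defs

/-!
# Completeness of the environment: from an infinite run to a schedule
-/

namespace Pool.Agent.Lib.Pinwheel

/-! ### generalities -/

lemma cpl_window (n : ℕ) (hn : 0 < n) (r t : ℕ) : ∃ s, t ≤ s ∧ s < t + n ∧ s % n = r % n := by
  refine ⟨t + (r + n * t - t) % n, by omega, ?_, ?_⟩
  · have := Nat.mod_lt (r + n * t - t) hn
    omega
  · have h1 : t ≤ n * t := Nat.le_mul_of_pos_left t hn
    have h2 : (t + (r + n * t - t) % n) % n = (t + (r + n * t - t)) % n := by
      rw [Nat.add_mod, Nat.mod_mod, ← Nat.add_mod]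
    rw [h2]
    have h3 : t + (r + n * t - t) = r + n * t := by omega
    rw [h3, Nat.add_mul_mod_self_left]

lemma cpl_feasible {ι : Type*} [Nonempty ι] (f : ι → ℕ) (D : ι → ℕ → Prop)
    (hD : ∀ j j' t, D j t → D j' t → j = j')
    (h : ∀ j t, ∃ s, t ≤ s ∧ s < t + f j ∧ D j s) : Feasible f := by
  classical
  refine ⟨fun t => if h : ∃ j, D j t then h.choose else Classical.arbitrary ι, fun j t => ?_⟩
  obtain ⟨s, h1, h2, h3⟩ := h j t
  refine ⟨s, h1, h2, ?_⟩
  have hex : ∃ j, D j s := ⟨j, h3⟩
  simp only [dif_pos hex]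
  exact hD _ _ _ hex.choose_spec h3

lemma cpl_visits (v : ℕ → ℕ) (hmono : ∀ i, v i < v (i + 1)) (f : ℕ) (h0 : v 0 < f)
    (hstep : ∀ i, v (i + 1) ≤ v i + f) (t : ℕ) : ∃ s, t ≤ s ∧ s < t + f ∧ ∃ i, s = v i := by
  have hge : ∀ i, i ≤ v i := by
    intro i
    induction i with
    | zero => omega
    | succ i ih => have := hmono i; omega
  have hex : ∃ i, t ≤ v i := ⟨t, hge t⟩
  classical
  set i := Nat.find hex with hi
  have h1 : t ≤ v i := Nat.find_spec hex
  refine ⟨v i, h1, ?_, i, rfl⟩
  rcases Nat.eq_zero_or_pos i with h2 | h2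
  · rw [h2]; omega
  · obtain ⟨k, hk⟩ : ∃ k, i = k + 1 := ⟨i - 1, by omega⟩
    have h3 : ¬ t ≤ v k := Nat.find_min hex (by omega)
    have h4 := hstep k
    rw [hk]
    omega

/-- the `e`-th number different from `r` -/
def cplSkip (r e : ℕ) : ℕ := if e < r then e else e + 1

lemma cplSkip_ne (r e : ℕ) : cplSkip r e ≠ r := by
  unfold cplSkip; split_ifs <;> omega

lemma cplSkip_le (r e : ℕ) : cplSkip r e ≤ e + 1 := by
  unfold cplSkip; split_ifs <;> omega

lemma cplSkip_inj {r e e' : ℕ} (h : cplSkip r e = cplSkip r e') : e = e' := by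
  unfold cplSkip at h; split_ifs at h <;> omega

namespace Env

variable (E : Env) (Q : ℕ)

/-- the `R`-residue of the cluster `z` -/
def cplRz (z : ℕ) : ℕ := Q * z % E.m .R

/-- the residues of a blocked cell -/
def cplCell (g : ∀ z : Fin E.Z, Fin (E.mult z .b3) → ℕ) (z : Fin E.Z) :
    (b : Cell E.X) → Fin (E.mult z b) → Idx E.Z E.X → ℕ
  | .b1, c, .R => cplSkip (E.cplRz Q z) c.1
  | .b2, _, .R => E.cplRz Q z
  | .b2, c, .k => c.1 + 1 + (if E.mo z then 1 else 0)
  | .b3, _, .R => E.cplRz Q z
  | .b3, _, .k => 0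
  | .b3, c, .A => g z c
  | .b4 _, _, .R => E.cplRz Q z
  | .b4 _, _, .k => 0
  | .b4 x, _, .A => x.1
  | .b4 _, c, .kx _ => c.1 + 1
  | .b5, _, .R => E.cplRz Q z
  | .b5, _, .k => 1
  | .b5, c, .kM => c.1 + 1
  | _, _, _ => 0

/-- the residues of an open cell -/
def cplOpen (z : Fin E.Z) : Cell E.X → Idx E.Z E.X → ℕ
  | .b4 _, .R => E.cplRz Q z
  | .b4 _, .k => 0
  | .b4 x, .A => x.1
  | .b4 _, .kx _ => 0
  | .b5, .R => E.cplRz Q z
  | .b5, .k => 1
  | .b5, .kM => 0
  | _, _ => 0

/-- the block `u` is in the blocked cell -/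
def cplBlk (g : ∀ z : Fin E.Z, Fin (E.mult z .b3) → ℕ) (z : Fin E.Z) (u : ℕ) :
    (b : Cell E.X) → Fin (E.mult z b) → Prop
  | .b1, c => u % E.m .R = cplSkip (E.cplRz Q z) c.1
  | .b2, c => u % E.m .R = E.cplRz Q z ∧ u % E.m .k = c.1 + 1 + (if E.mo z then 1 else 0)
  | .b3, c => u % E.m .R = E.cplRz Q z ∧ u % E.m .k = 0 ∧ u % E.m .A = g z c
  | .b4 x, c => u % E.m .R = E.cplRz Q z ∧ u % E.m .k = 0 ∧ u % E.m .A = x.1 ∧
      u % E.m (.kx x) = c.1 + 1
  | .b5, c => u % E.m .R = E.cplRz Q z ∧ u % E.m .k = 1 ∧ u % E.m .kM = c.1 + 1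

/-- the block `u` is in the open cell -/
def cplOpn (z : Fin E.Z) (u : ℕ) : Cell E.X → Prop
  | .b4 x => u % E.m .R = E.cplRz Q z ∧ u % E.m .k = 0 ∧ u % E.m .A = x.1 ∧ u % E.m (.kx x) = 0
  | .b5 => u % E.m .R = E.cplRz Q z ∧ u % E.m .k = 1 ∧ u % E.m .kM = 0
  | _ => False

variable {E Q}

lemma cplBlk_of {g : ∀ z : Fin E.Z, Fin (E.mult z .b3) → ℕ} {z : Fin E.Z} {u : ℕ}
    {b : Cell E.X} {c : Fin (E.mult z b)}
    (h : ∀ i ∈ (b.supp : Finset (Idx E.Z E.X)), u % E.m i = E.cplCell Q g z b c i) :
    E.cplBlk Q g z u b c := by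
  cases b with
  | b1 => exact h .R (by simp [Cell.supp])
  | b2 => exact ⟨h .R (by simp [Cell.supp]), h .k (by simp [Cell.supp])⟩
  | b3 => exact ⟨h .R (by simp [Cell.supp]), h .k (by simp [Cell.supp]), h .A (by simp [Cell.supp])⟩
  | b4 x => exact ⟨h .R (by simp [Cell.supp]), h .k (by simp [Cell.supp]),
      h .A (by simp [Cell.supp]), h (.kx x) (by simp [Cell.supp])⟩
  | b5 => exact ⟨h .R (by simp [Cell.supp]), h .k (by simp [Cell.supp]), h .kM (by simp [Cell.supp])⟩

lemma cplOpn_of {z : Fin E.Z} {u : ℕ} {o : {o : Cell E.X // E.isOp z o = true}}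
    (h : ∀ i ∈ (o.1.supp : Finset (Idx E.Z E.X)), u % E.m i = E.cplOpen Q z o.1 i) :
    E.cplOpn Q z u o.1 := by
  obtain ⟨o, ho⟩ := o
  cases o with
  | b1 => simp [isOp] at ho
  | b2 => simp [isOp] at ho
  | b3 => simp [isOp] at ho
  | b4 x => exact ⟨h .R (by simp [Cell.supp]), h .k (by simp [Cell.supp]),
      h .A (by simp [Cell.supp]), h (.kx x) (by simp [Cell.supp])⟩
  | b5 => exact ⟨h .R (by simp [Cell.supp]), h .k (by simp [Cell.supp]), h .kM (by simp [Cell.supp])⟩

lemma cpl_inC_of {z : Fin E.Z} {x : Fin E.X} (c : Fin (E.mult z (.b4 x))) : E.inC x z = true := by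
  by_contra h
  have h1 := c.2
  simp only [mult, h] at h1
  simp at h1

lemma cpl_mo_of {z : Fin E.Z} (c : Fin (E.mult z .b5)) : E.mo z = true := by
  by_contra h
  have h1 := c.2
  simp only [mult, h] at h1
  simp at h1

/-- a block is in at most one blocked cell of a cluster -/
lemma cplBlk_unique {g : ∀ z : Fin E.Z, Fin (E.mult z .b3) → ℕ}
    (hginj : ∀ z, Function.Injective (g z))
    (hgC : ∀ z c (x : Fin E.X), E.inC x z = true → g z c ≠ x.1) {z : Fin E.Z} {u : ℕ}
    {b b' : Cell E.X} {c : Fin (E.mult z b)} {c' : Fin (E.mult z b')}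
    (h : E.cplBlk Q g z u b c) (h' : E.cplBlk Q g z u b' c') :
    (⟨b, c⟩ : Σ b, Fin (E.mult z b)) = ⟨b', c'⟩ := by
  cases b with
  | b1 =>
    cases b' with
    | b1 =>
      simp only [cplBlk] at h h'
      have := cplSkip_inj (h.symm.trans h')
      have h2 : c = c' := Fin.ext this
      rw [h2]
    | _ =>
      simp only [cplBlk] at h h'
      exact absurd (h.symm.trans h'.1) (cplSkip_ne _ _)
  | b2 =>
    cases b' with
    | b1 =>
      simp only [cplBlk] at h h'
      exact absurd (h'.symm.trans h.1) (cplSkip_ne _ _)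
    | b2 =>
      simp only [cplBlk] at h h'
      have h2 : c = c' := Fin.ext (by omega)
      rw [h2]
    | b3 => simp only [cplBlk] at h h'; omega
    | b4 x => simp only [cplBlk] at h h'; omega
    | b5 =>
      have hmo := cpl_mo_of c'
      simp only [cplBlk, hmo, if_true] at h h'
      omega
  | b3 =>
    cases b' with
    | b1 =>
      simp only [cplBlk] at h h'
      exact absurd (h'.symm.trans h.1) (cplSkip_ne _ _)
    | b2 => simp only [cplBlk] at h h'; omega
    | b3 =>
      simp only [cplBlk] at h h'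
      have h2 : c = c' := hginj z (h.2.2.symm.trans h'.2.2)
      rw [h2]
    | b4 x =>
      simp only [cplBlk] at h h'
      exact absurd (h.2.2.symm.trans h'.2.2.1) (hgC z c x (cpl_inC_of c'))
    | b5 => simp only [cplBlk] at h h'; omega
  | b4 x =>
    cases b' with
    | b1 =>
      simp only [cplBlk] at h h'
      exact absurd (h'.symm.trans h.1) (cplSkip_ne _ _)
    | b2 => simp only [cplBlk] at h h'; omega
    | b3 =>
      simp only [cplBlk] at h h'
      exact absurd (h'.2.2.symm.trans h.2.2.1) (hgC z c' x (cpl_inC_of c))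
    | b4 x' =>
      simp only [cplBlk] at h h'
      have hx : x = x' := Fin.ext (h.2.2.1.symm.trans h'.2.2.1)
      subst hx
      have h2 : c = c' := Fin.ext (by omega)
      rw [h2]
    | b5 => simp only [cplBlk] at h h'; omega
  | b5 =>
    cases b' with
    | b1 =>
      simp only [cplBlk] at h h'
      exact absurd (h'.symm.trans h.1) (cplSkip_ne _ _)
    | b2 =>
      have hmo := cpl_mo_of c
      simp only [cplBlk, hmo, if_true] at h h'
      omega
    | b3 => simp only [cplBlk] at h h'; omega
    | b4 x => simp only [cplBlk] at h h'; omega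
    | b5 =>
      simp only [cplBlk] at h h'
      have h2 : c = c' := Fin.ext (by omega)
      rw [h2]

/-- blocked and open cells are disjoint -/
lemma cplBlk_not_open {g : ∀ z : Fin E.Z, Fin (E.mult z .b3) → ℕ}
    (hgC : ∀ z c (x : Fin E.X), E.inC x z = true → g z c ≠ x.1) {z : Fin E.Z} {u : ℕ}
    {b : Cell E.X} {c : Fin (E.mult z b)} {o : {o : Cell E.X // E.isOp z o = true}}
    (h : E.cplBlk Q g z u b c) (h' : E.cplOpn Q z u o.1) : False := by
  obtain ⟨o, ho⟩ := o
  cases o with
  | b1 => simp [isOp] at ho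
  | b2 => simp [isOp] at ho
  | b3 => simp [isOp] at ho
  | b4 x =>
    simp only [cplOpn] at h'
    simp only [isOp] at ho
    cases b with
    | b1 =>
      simp only [cplBlk] at h
      exact absurd (h.symm.trans h'.1) (cplSkip_ne _ _)
    | b2 => simp only [cplBlk] at h; omega
    | b3 =>
      simp only [cplBlk] at h
      exact absurd (h.2.2.symm.trans h'.2.2.1) (hgC z c x ho)
    | b4 x' =>
      simp only [cplBlk] at h
      have hx : x = x' := Fin.ext (h'.2.2.1.symm.trans h.2.2.1)
      subst hx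
      omega
    | b5 => simp only [cplBlk] at h; omega
  | b5 =>
    simp only [cplOpn] at h'
    simp only [isOp] at ho
    cases b with
    | b1 =>
      simp only [cplBlk] at h
      exact absurd (h.symm.trans h'.1) (cplSkip_ne _ _)
    | b2 =>
      simp only [cplBlk, ho, if_true] at h
      omega
    | b3 => simp only [cplBlk] at h; omega
    | b4 x' => simp only [cplBlk] at h; omega
    | b5 => simp only [cplBlk] at h; omega

/-- a block is in at most one open cell of a cluster -/
lemma cplOpn_unique {z : Fin E.Z} {u : ℕ} {o o' : {o : Cell E.X // E.isOp z o = true}}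
    (h : E.cplOpn Q z u o.1) (h' : E.cplOpn Q z u o'.1) : o = o' := by
  obtain ⟨o, ho⟩ := o
  obtain ⟨o', ho'⟩ := o'
  simp only at h h'
  cases o with
  | b1 => simp [isOp] at ho
  | b2 => simp [isOp] at ho
  | b3 => simp [isOp] at ho
  | b4 x =>
    cases o' with
    | b1 => simp [isOp] at ho'
    | b2 => simp [isOp] at ho'
    | b3 => simp [isOp] at ho'
    | b4 x' =>
      simp only [cplOpn] at h h'
      have hx : x = x' := Fin.ext (h.2.2.1.symm.trans h'.2.2.1)
      subst hx
      rfl
    | b5 => simp only [cplOpn] at h h'; omega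
  | b5 =>
    cases o' with
    | b1 => simp [isOp] at ho'
    | b2 => simp [isOp] at ho'
    | b3 => simp [isOp] at ho'
    | b4 x' => simp only [cplOpn] at h h'; omega
    | b5 => rfl

/-! ### the rigid jobs -/

variable (E Q)

/-- the residues of a rigid job -/
def cplRes (g : ∀ z : Fin E.Z, Fin (E.mult z .b3) → ℕ) : E.RJ → Idx E.Z E.X → ℕ
  | .lab z a, i => if i = .nu z then a.toNat else 0
  | .main z a b e c, i => if i = .s z a then e.1 + 1 else E.cplCell Q g z b c i
  | .res z a b e c, i =>
      if i = .nu z then cplSkip a.toNat e.1 else if i = .s z a then 0 else E.cplCell Q g z b c i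
  | .fila z a o e, i =>
      if i = .nu z then a.toNat else if i = .s z a then e.1 + 1 else E.cplOpen Q z o.1 i
  | .filb z o e, i => if i = .nu z then e.1 + 2 else E.cplOpen Q z o.1 i

/-- the second coordinate of the lane of a rigid job -/
def cplBit : E.RJ → Bool
  | .lab _ a => a
  | .main _ a _ _ _ => a
  | .res _ a _ _ _ => a
  | .fila _ a _ _ => a
  | .filb _ _ _ => false

/-- the block `u` is covered by the rigid job -/
def cplCov (g : ∀ z : Fin E.Z, Fin (E.mult z .b3) → ℕ) (u : ℕ) : E.RJ → Prop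
  | .lab z a => u % E.m (.nu z) = a.toNat ∧ u % E.m (.s z a) = 0
  | .main z a b e c => u % E.m (.s z a) = e.1 + 1 ∧ E.cplBlk Q g z u b c
  | .res z a b e c => u % E.m (.nu z) = cplSkip a.toNat e.1 ∧ u % E.m (.s z a) = 0 ∧
      E.cplBlk Q g z u b c
  | .fila z a o e => u % E.m (.nu z) = a.toNat ∧ u % E.m (.s z a) = e.1 + 1 ∧
      E.cplOpn Q z u o.1
  | .filb z o e => u % E.m (.nu z) = e.1 + 2 ∧ E.cplOpn Q z u o.1

variable {E Q}

lemma cpl_supp_nu (b : Cell E.X) (z : Fin E.Z) : Idx.nu z ∉ (b.supp : Finset (Idx E.Z E.X)) := by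
  cases b <;> simp [Cell.supp]

lemma cpl_supp_s (b : Cell E.X) (z : Fin E.Z) (a : Bool) :
    Idx.s z a ∉ (b.supp : Finset (Idx E.Z E.X)) := by
  cases b <;> simp [Cell.supp]

lemma cplCov_of {g : ∀ z : Fin E.Z, Fin (E.mult z .b3) → ℕ} {u : ℕ} {j : E.RJ}
    (h : ∀ i ∈ j.supp, u % E.m i = E.cplRes Q g j i) : E.cplCov Q g u j := by
  cases j with
  | lab z a =>
    have h1 := h (.nu z) (by simp [RJ.supp])
    have h2 := h (.s z a) (by simp [RJ.supp])
    simp only [cplRes, if_true] at h1
    simp only [cplRes, reduceCtorEq, if_false] at h2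
    exact ⟨h1, h2⟩
  | main z a b e c =>
    have h1 := h (.s z a) (by simp [RJ.supp])
    simp only [cplRes, if_true] at h1
    refine ⟨h1, cplBlk_of fun i hi => ?_⟩
    have h2 := h i (by simp only [RJ.supp, Finset.mem_insert]; exact Or.inr hi)
    have h3 : i ≠ .s z a := fun h3 => cpl_supp_s b z a (h3 ▸ hi)
    simpa only [cplRes, if_neg h3] using h2
  | res z a b e c =>
    have h1 := h (.nu z) (by simp [RJ.supp])
    have h2 := h (.s z a) (by simp [RJ.supp])
    simp only [cplRes, if_true] at h1
    simp only [cplRes, reduceCtorEq, if_false, if_true] at h2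
    refine ⟨h1, h2, cplBlk_of fun i hi => ?_⟩
    have h2 := h i (by simp only [RJ.supp, Finset.mem_insert]; exact Or.inr (Or.inr hi))
    have h3 : i ≠ .s z a := fun h3 => cpl_supp_s b z a (h3 ▸ hi)
    have h4 : i ≠ .nu z := fun h3 => cpl_supp_nu b z (h3 ▸ hi)
    simpa only [cplRes, if_neg h3, if_neg h4] using h2
  | fila z a o e =>
    have h1 := h (.nu z) (by simp [RJ.supp])
    have h2 := h (.s z a) (by simp [RJ.supp])
    simp only [cplRes, if_true] at h1
    simp only [cplRes, reduceCtorEq, if_false, if_true] at h2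
    refine ⟨h1, h2, cplOpn_of fun i hi => ?_⟩
    have h2 := h i (by simp only [RJ.supp, Finset.mem_insert]; exact Or.inr (Or.inr hi))
    have h3 : i ≠ .s z a := fun h3 => cpl_supp_s o.1 z a (h3 ▸ hi)
    have h4 : i ≠ .nu z := fun h3 => cpl_supp_nu o.1 z (h3 ▸ hi)
    simpa only [cplRes, if_neg h3, if_neg h4] using h2
  | filb z o e =>
    have h1 := h (.nu z) (by simp [RJ.supp])
    simp only [cplRes, if_true] at h1
    refine ⟨h1, cplOpn_of fun i hi => ?_⟩
    have h2 := h i (by simp only [RJ.supp, Finset.mem_insert]; exact Or.inr hi)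
    have h4 : i ≠ .nu z := fun h3 => cpl_supp_nu o.1 z (h3 ▸ hi)
    simpa only [cplRes, if_neg h4] using h2

/-- two rigid jobs never meet -/
lemma cplCov_unique {g : ∀ z : Fin E.Z, Fin (E.mult z .b3) → ℕ}
    (hginj : ∀ z, Function.Injective (g z))
    (hgC : ∀ z c (x : Fin E.X), E.inC x z = true → g z c ≠ x.1) {u : ℕ} {j j' : E.RJ}
    (hcl : j.cl = j'.cl) (hbit : E.cplBit j = E.cplBit j')
    (h : E.cplCov Q g u j) (h' : E.cplCov Q g u j') : j = j' := by
  cases j with
  | lab z a =>
    cases j' with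
    | lab z' a' =>
      simp only [RJ.cl, cplBit] at hcl hbit
      subst hcl; subst hbit; rfl
    | main z' a' b e c =>
      simp only [RJ.cl, cplBit] at hcl hbit
      subst hcl; subst hbit
      simp only [cplCov] at h h'
      omega
    | res z' a' b e c =>
      simp only [RJ.cl, cplBit] at hcl hbit
      subst hcl; subst hbit
      simp only [cplCov] at h h'
      exact absurd (h'.1.symm.trans h.1) (cplSkip_ne _ _)
    | fila z' a' o e =>
      simp only [RJ.cl, cplBit] at hcl hbit
      subst hcl; subst hbit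
      simp only [cplCov] at h h'
      omega
    | filb z' o e =>
      simp only [RJ.cl, cplBit] at hcl hbit
      subst hcl; subst hbit
      simp only [cplCov, Bool.toNat_false] at h h'
      omega
  | main z a b e c =>
    cases j' with
    | lab z' a' =>
      simp only [RJ.cl, cplBit] at hcl hbit
      subst hcl; subst hbit
      simp only [cplCov] at h h'
      omega
    | main z' a' b' e' c' =>
      simp only [RJ.cl, cplBit] at hcl hbit
      subst hcl; subst hbit
      simp only [cplCov] at h h'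
      have h1 : e = e' := Fin.ext (by omega)
      have h2 := cplBlk_unique hginj hgC h.2 h'.2
      subst h1
      cases h2
      rfl
    | res z' a' b' e' c' =>
      simp only [RJ.cl, cplBit] at hcl hbit
      subst hcl; subst hbit
      simp only [cplCov] at h h'
      omega
    | fila z' a' o e' =>
      simp only [RJ.cl, cplBit] at hcl hbit
      subst hcl; subst hbit
      simp only [cplCov] at h h'
      exact (cplBlk_not_open hgC h.2 h'.2.2).elim
    | filb z' o e' =>
      simp only [RJ.cl, cplBit] at hcl hbit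
      subst hcl; subst hbit
      simp only [cplCov] at h h'
      exact (cplBlk_not_open hgC h.2 h'.2).elim
  | res z a b e c =>
    cases j' with
    | lab z' a' =>
      simp only [RJ.cl, cplBit] at hcl hbit
      subst hcl; subst hbit
      simp only [cplCov] at h h'
      exact absurd (h.1.symm.trans h'.1) (cplSkip_ne _ _)
    | main z' a' b' e' c' =>
      simp only [RJ.cl, cplBit] at hcl hbit
      subst hcl; subst hbit
      simp only [cplCov] at h h'
      omega
    | res z' a' b' e' c' =>
      simp only [RJ.cl, cplBit] at hcl hbit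
      subst hcl; subst hbit
      simp only [cplCov] at h h'
      have h1 : e = e' := Fin.ext (cplSkip_inj (h.1.symm.trans h'.1))
      have h2 := cplBlk_unique hginj hgC h.2.2 h'.2.2
      subst h1
      cases h2
      rfl
    | fila z' a' o e' =>
      simp only [RJ.cl, cplBit] at hcl hbit
      subst hcl; subst hbit
      simp only [cplCov] at h h'
      exact (cplBlk_not_open hgC h.2.2 h'.2.2).elim
    | filb z' o e' =>
      simp only [RJ.cl, cplBit] at hcl hbit
      subst hcl; subst hbit
      simp only [cplCov] at h h'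
      exact (cplBlk_not_open hgC h.2.2 h'.2).elim
  | fila z a o e =>
    cases j' with
    | lab z' a' =>
      simp only [RJ.cl, cplBit] at hcl hbit
      subst hcl; subst hbit
      simp only [cplCov] at h h'
      omega
    | main z' a' b' e' c' =>
      simp only [RJ.cl, cplBit] at hcl hbit
      subst hcl; subst hbit
      simp only [cplCov] at h h'
      exact (cplBlk_not_open hgC h'.2 h.2.2).elim
    | res z' a' b' e' c' =>
      simp only [RJ.cl, cplBit] at hcl hbit
      subst hcl; subst hbit
      simp only [cplCov] at h h'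
      exact (cplBlk_not_open hgC h'.2.2 h.2.2).elim
    | fila z' a' o' e' =>
      simp only [RJ.cl, cplBit] at hcl hbit
      subst hcl; subst hbit
      simp only [cplCov] at h h'
      have h1 : e = e' := Fin.ext (by omega)
      have h2 := cplOpn_unique h.2.2 h'.2.2
      subst h1; subst h2
      rfl
    | filb z' o' e' =>
      simp only [RJ.cl, cplBit] at hcl hbit
      subst hcl; subst hbit
      simp only [cplCov, Bool.toNat_false] at h h'
      omega
  | filb z o e =>
    cases j' with
    | lab z' a' =>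
      simp only [RJ.cl, cplBit] at hcl hbit
      subst hcl; subst hbit
      simp only [cplCov, Bool.toNat_false] at h h'
      omega
    | main z' a' b' e' c' =>
      simp only [RJ.cl, cplBit] at hcl hbit
      subst hcl; subst hbit
      simp only [cplCov] at h h'
      exact (cplBlk_not_open hgC h'.2 h.2).elim
    | res z' a' b' e' c' =>
      simp only [RJ.cl, cplBit] at hcl hbit
      subst hcl; subst hbit
      simp only [cplCov] at h h'
      exact (cplBlk_not_open hgC h'.2.2 h.2).elim
    | fila z' a' o' e' =>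
      simp only [RJ.cl, cplBit] at hcl hbit
      subst hcl; subst hbit
      simp only [cplCov, Bool.toNat_false] at h h'
      omega
    | filb z' o' e' =>
      simp only [RJ.cl] at hcl
      subst hcl
      simp only [cplCov] at h h'
      have h1 : e = e' := Fin.ext (by omega)
      have h2 := cplOpn_unique h.2 h'.2
      subst h1; subst h2
      rfl

/-- the free lane of an open cluster is not covered by a rigid job -/
lemma cplCov_free {g : ∀ z : Fin E.Z, Fin (E.mult z .b3) → ℕ}
    (hgC : ∀ z c (x : Fin E.X), E.inC x z = true → g z c ≠ x.1) {u : ℕ} {j : E.RJ}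
    {o : {o : Cell E.X // E.isOp j.cl o = true}} (ho : E.cplOpn Q j.cl u o.1)
    (hbit : (E.cplBit j = true ↔ u % E.m (.nu j.cl) ≠ 1))
    (h : E.cplCov Q g u j) : False := by
  cases j with
  | lab z a =>
    simp only [RJ.cl, cplBit, cplCov] at *
    cases a <;> simp_all
  | main z a b e c =>
    simp only [RJ.cl, cplBit, cplCov] at *
    exact cplBlk_not_open hgC h.2 ho
  | res z a b e c =>
    simp only [RJ.cl, cplBit, cplCov] at *
    exact cplBlk_not_open hgC h.2.2 ho
  | fila z a o' e =>
    simp only [RJ.cl, cplBit, cplCov] at *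
    cases a <;> simp_all
  | filb z o' e =>
    simp only [RJ.cl, cplBit, cplCov] at *
    have h1 := h.1
    simp only [Bool.false_eq_true, false_iff, not_not] at hbit
    omega

/-! ### residues and the Chinese remainder theorem -/

lemma cpl_m_pos (hE : E.Good Q) (i : Idx E.Z E.X) : 0 < E.m i := by
  by_cases hR : i = .R
  · subst hR
    have := hE.two_le
    unfold R at this
    omega
  by_cases hA : i = .A
  · subst hA
    have := hE.A_lt
    omega
  · have := hE.big i hR hA
    omega

lemma cpl_rz_lt (hE : E.Good Q) (z : ℕ) : E.cplRz Q z < E.m .R :=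
  Nat.mod_lt _ (cpl_m_pos hE .R)

lemma cplCell_lt (hE : E.Good Q) {g : ∀ z : Fin E.Z, Fin (E.mult z .b3) → ℕ}
    (hgm : ∀ z c, g z c < E.m .A) (z : Fin E.Z) (b : Cell E.X) (c : Fin (E.mult z b)) :
    ∀ i ∈ (b.supp : Finset (Idx E.Z E.X)), E.cplCell Q g z b c i < E.m i := by
  have hR := cpl_rz_lt hE z
  have hk := hE.big .k (by simp) (by simp)
  cases b with
  | b1 =>
    intro i hi
    simp only [Cell.supp, Finset.mem_singleton] at hi
    subst hi
    have h1 := c.2
    have h2 := cplSkip_le (E.cplRz Q z) c.1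
    simp only [mult, R] at h1
    simp only [cplCell]
    omega
  | b2 =>
    intro i hi
    simp only [Cell.supp, Finset.mem_insert, Finset.mem_singleton] at hi
    rcases hi with hi | hi <;> subst hi
    · exact hR
    · have h1 := c.2
      simp only [mult] at h1
      simp only [cplCell]
      omega
  | b3 =>
    intro i hi
    simp only [Cell.supp, Finset.mem_insert, Finset.mem_singleton] at hi
    rcases hi with hi | hi | hi <;> subst hi
    · exact hR
    · simp only [cplCell]; omega
    · exact hgm z c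
  | b4 x =>
    intro i hi
    simp only [Cell.supp, Finset.mem_insert, Finset.mem_singleton] at hi
    rcases hi with hi | hi | hi | hi <;> subst hi
    · exact hR
    · simp only [cplCell]; omega
    · simp only [cplCell]
      have := hE.A_lt
      omega
    · have h1 := c.2
      simp only [mult] at h1
      simp only [cplCell]
      split_ifs at h1 <;> omega
  | b5 =>
    intro i hi
    simp only [Cell.supp, Finset.mem_insert, Finset.mem_singleton] at hi
    rcases hi with hi | hi | hi <;> subst hi
    · exact hR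
    · simp only [cplCell]; omega
    · have h1 := c.2
      simp only [mult] at h1
      simp only [cplCell]
      split_ifs at h1 <;> omega

lemma cplOpen_lt (hE : E.Good Q) (z : Fin E.Z) (b : Cell E.X) :
    ∀ i ∈ (b.supp : Finset (Idx E.Z E.X)), E.cplOpen Q z b i < E.m i := by
  have hR := cpl_rz_lt hE z
  have hk := hE.big .k (by simp) (by simp)
  have hpos := cpl_m_pos hE
  cases b with
  | b1 =>
    intro i hi
    simp only [cplOpen]
    exact hpos i
  | b2 =>
    intro i hi
    simp only [cplOpen]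
    exact hpos i
  | b3 =>
    intro i hi
    simp only [cplOpen]
    exact hpos i
  | b4 x =>
    intro i hi
    simp only [Cell.supp, Finset.mem_insert, Finset.mem_singleton] at hi
    rcases hi with hi | hi | hi | hi <;> subst hi
    · exact hR
    · simp only [cplOpen]; omega
    · simp only [cplOpen]
      have := hE.A_lt
      omega
    · simp only [cplOpen]
      exact hpos _
  | b5 =>
    intro i hi
    simp only [Cell.supp, Finset.mem_insert, Finset.mem_singleton] at hi
    rcases hi with hi | hi | hi <;> subst hi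
    · exact hR
    · simp only [cplOpen]; omega
    · simp only [cplOpen]
      exact hpos _

lemma cplRes_lt (hE : E.Good Q) {g : ∀ z : Fin E.Z, Fin (E.mult z .b3) → ℕ}
    (hgm : ∀ z c, g z c < E.m .A) (j : E.RJ) : ∀ i ∈ j.supp, E.cplRes Q g j i < E.m i := by
  have hpos := cpl_m_pos hE
  have hnu : ∀ z, 16 ≤ E.m (.nu z) := fun z => hE.big _ (by simp) (by simp)
  cases j with
  | lab z a =>
    intro i hi
    simp only [RJ.supp, Finset.mem_insert, Finset.mem_singleton] at hi
    have h1 := hnu z
    have h2 := Bool.toNat_le a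
    simp only [cplRes]
    split_ifs with h
    · subst h; omega
    · exact hpos i
  | main z a b e c =>
    intro i hi
    simp only [RJ.supp, Finset.mem_insert] at hi
    simp only [cplRes]
    split_ifs with h
    · subst h
      have := e.2
      omega
    · exact cplCell_lt hE hgm z b c i (hi.resolve_left h)
  | res z a b e c =>
    intro i hi
    simp only [RJ.supp, Finset.mem_insert] at hi
    simp only [cplRes]
    split_ifs with h h'
    · subst h
      have := e.2
      have h2 := cplSkip_le a.toNat e.1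
      omega
    · exact hpos i
    · exact cplCell_lt hE hgm z b c i ((hi.resolve_left h).resolve_left h')
  | fila z a o e =>
    intro i hi
    simp only [RJ.supp, Finset.mem_insert] at hi
    simp only [cplRes]
    split_ifs with h h'
    · subst h
      have h1 := hnu z
      have h2 := Bool.toNat_le a
      omega
    · subst h'
      have := e.2
      omega
    · exact cplOpen_lt hE z o.1 i ((hi.resolve_left h).resolve_left h')
  | filb z o e =>
    intro i hi
    simp only [RJ.supp, Finset.mem_insert] at hi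
    simp only [cplRes]
    split_ifs with h
    · subst h
      have := e.2
      omega
    · exact cplOpen_lt hE z o.1 i (hi.resolve_left h)

lemma cpl_crt (hE : E.Good Q) (S : Finset (Idx E.Z E.X)) (r : Idx E.Z E.X → ℕ)
    (hr : ∀ i ∈ S, r i < E.m i) : ∃ u < E.Mod S, ∀ i ∈ S, u % E.m i = r i := by
  have hne : ∀ i ∈ S, E.m i ≠ 0 := fun i _ => (cpl_m_pos hE i).ne'
  have hpp : Set.Pairwise (↑S : Set (Idx E.Z E.X)) (Function.onFun Nat.Coprime E.m) :=
    fun i _ j _ hij => hE.cop i j hij
  refine ⟨Nat.chineseRemainderOfFinset r E.m S hne hpp,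
    Nat.chineseRemainderOfFinset_lt_prod r E.m hne hpp, fun i hi => ?_⟩
  have h1 := (Nat.chineseRemainderOfFinset r E.m S hne hpp).2 i hi
  unfold Nat.ModEq at h1
  rw [h1, Nat.mod_eq_of_lt (hr i hi)]

lemma cpl_dvd (S : Finset (Idx E.Z E.X)) {i : Idx E.Z E.X} (hi : i ∈ S) : E.m i ∣ E.Mod S :=
  Finset.dvd_prod_of_mem _ hi

lemma cpl_Mod_pos (hE : E.Good Q) (S : Finset (Idx E.Z E.X)) : 0 < E.Mod S :=
  Finset.prod_pos fun i _ => cpl_m_pos hE i

lemma cpl_day {B M u l s : ℕ} (hl : l < B) (hu : u < M)
    (hs : s % (B * M) = (B * u + l) % (B * M)) : s % B = l ∧ (s / B) % M = u := by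
  have hB : 0 < B := by omega
  constructor
  · have h1 : s % (B * M) % B = s % B := Nat.mod_mul_right_mod s B M
    have h2 : (B * u + l) % (B * M) % B = (B * u + l) % B := Nat.mod_mul_right_mod _ B M
    rw [← h1, hs, h2, Nat.mul_add_mod, Nat.mod_eq_of_lt hl]
  · have h1 : s % (B * M) / B = s / B % M := Nat.mod_mul_right_div_self s B M
    have h2 : (B * u + l) % (B * M) / B = (B * u + l) / B % M := Nat.mod_mul_right_div_self _ B M
    rw [← h1, hs, h2, Nat.mul_add_div hB, Nat.div_eq_of_lt hl, Nat.add_zero, Nat.mod_eq_of_lt hu]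

/-- an injective enumeration of the `A`-residues of the cells of type `b3` -/
lemma cpl_exists_g (hE : E.Good Q) : ∃ g : ∀ z : Fin E.Z, Fin (E.mult z .b3) → ℕ,
    (∀ z, Function.Injective (g z)) ∧ (∀ z c (x : Fin E.X), E.inC x z = true → g z c ≠ x.1) ∧
    (∀ z c, g z c < E.m .A) := by
  classical
  have key : ∀ z : Fin E.Z, ∃ f : Fin (E.mult z .b3) → ℕ, Function.Injective f ∧
      (∀ c (x : Fin E.X), E.inC x z = true → f c ≠ x.1) ∧ (∀ c, f c < E.m .A) := by
    intro z
    set T : Finset ℕ := (Finset.univ.filter fun x : Fin E.X => E.inC x z = true).image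
      (fun x => x.1) with hT
    have hTcard : T.card = E.numC z :=
      Finset.card_image_of_injective _ Fin.val_injective
    have hTsub : T ⊆ Finset.range (E.m .A) := by
      intro y hy
      obtain ⟨x, -, hx⟩ := Finset.mem_image.mp hy
      have := hE.A_lt
      rw [Finset.mem_range]
      omega
    have hcard : (Finset.range (E.m .A) \ T).card = E.mult z .b3 := by
      rw [Finset.card_sdiff_of_subset hTsub, Finset.card_range, hTcard]
      rfl
    refine ⟨fun c => (Finset.range (E.m .A) \ T).orderEmbOfFin hcard c,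
      fun c c' h => ((Finset.range (E.m .A) \ T).orderEmbOfFin hcard).injective h, ?_, ?_⟩
    · intro c x hx h
      dsimp only at h
      have h1 := Finset.orderEmbOfFin_mem (Finset.range (E.m .A) \ T) hcard c
      rw [h] at h1
      exact (Finset.mem_sdiff.mp h1).2 (Finset.mem_image.mpr ⟨x, by simp [hx], rfl⟩)
    · intro c
      have h1 := Finset.orderEmbOfFin_mem (Finset.range (E.m .A) \ T) hcard c
      exact Finset.mem_range.mp (Finset.mem_sdiff.mp h1).1
  choose g h1 h2 h3 using key
  exact ⟨g, h1, h2, h3⟩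

/-! ### the tokens -/

lemma cpl_coprime (hE : E.Good Q) : Nat.Coprime Q E.R := by
  have hX : 0 < E.X := by
    have := hE.XZ
    have := hE.Z4
    have := hE.two_le
    omega
  have h1 := hE.stride (.inl ⟨0, hX⟩)
  have h2 : Nat.Coprime (E.Mod (E.suppT (.inl ⟨0, hX⟩))) E.R := by
    refine Nat.Coprime.prod_left fun i hi => hE.cop i .R ?_
    rintro rfl
    simp [suppT] at hi
  have h3 : E.Mod (E.suppT (.inl ⟨0, hX⟩)) ≡ Q [MOD E.R] := h1
  unfold Nat.Coprime at h2 ⊢
  rw [← h3.gcd_eq]
  exact h2

/-- solve `Q z = u` modulo `R` -/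
lemma cpl_solve (hE : E.Good Q) (x u : ℕ) : ∃ z, x ≤ z ∧ z < x + E.R ∧ Q * z % E.R = u % E.R := by
  have h2 := hE.two_le
  obtain ⟨m, -, hm⟩ := Nat.exists_mul_mod_eq_one_of_coprime (cpl_coprime hE) (by omega)
  obtain ⟨z, h3, h4, h5⟩ := cpl_window E.R (by omega) (m * u) x
  refine ⟨z, h3, h4, ?_⟩
  rw [Nat.mul_mod, h5, ← Nat.mul_mod, ← mul_assoc, Nat.mul_mod, hm, one_mul, Nat.mod_mod]

lemma cpl_cancel (hE : E.Good Q) {z z' : ℕ} (h : Q * z % E.R = Q * z' % E.R) :
    z % E.R = z' % E.R := by
  have h1 : Q * z ≡ Q * z' [MOD E.R] := h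
  exact Nat.ModEq.cancel_left_of_coprime ((cpl_coprime hE).symm) h1

lemma cpl_add_mod {a i K m : ℕ} (h : m ∣ K) : (a + i * K) % m = a % m := by
  obtain ⟨q, rfl⟩ := h
  have : a + i * (m * q) = a + m * (i * q) := by ring
  rw [this, Nat.add_mul_mod_self_left]

lemma cpl_tok (hE : E.Good Q) (al : ℕ → ℕ) (c : ℕ → ℕ → ℕ)
    (hc : ∀ N, CRun E.R E.Z E.mo E.n al N c) :
    ∃ (ub : E.Tok → ℕ → ℕ) (zc : E.Tok → ℕ → Fin E.Z),
      (∀ τ, ub τ 0 < E.Mod (E.suppT τ)) ∧
      (∀ τ i, ub τ (i + 1) = ub τ i + E.Mod (E.suppT τ)) ∧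
      (∀ τ i, ∃ o : {o : Cell E.X // E.isOp (zc τ i) o = true},
        E.cplOpn Q (zc τ i) (ub τ i) o.1) ∧
      (∀ τ i, 2 * (zc τ (i + 1)).1 + 1 ≤ 2 * (zc τ i).1 + E.dT al τ) ∧
      (∀ τ τ' i i', ub τ i = ub τ' i' → zc τ i = zc τ' i' → τ = τ') := by
  have hR2 := hE.two_le
  have hk := hE.big .k (by simp) (by simp)
  have hpos := cpl_m_pos hE
  -- the auxiliary tokens
  have hx : ∀ x : Fin E.X, ∃ u < E.Mod (E.suppT (.inl x)), u % E.m .k = 0 ∧ u % E.m .A = x.1 ∧
      u % E.m (.kx x) = 0 := by
    intro x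
    obtain ⟨u, h1, h2⟩ := cpl_crt hE (E.suppT (.inl x)) (fun i => if i = .A then x.1 else 0) (by
      intro i hi
      split_ifs with h
      · subst h
        have := hE.A_lt
        omega
      · exact hpos i)
    refine ⟨u, h1, ?_, ?_, ?_⟩
    · have := h2 .k (by simp [suppT])
      simpa using this
    · have := h2 .A (by simp [suppT])
      simpa using this
    · have := h2 (.kx x) (by simp [suppT])
      simpa using this
  choose ux hux1 hux2 hux3 hux4 using hx
  have hzx : ∀ (x : Fin E.X) (i : ℕ), ∃ z : Fin E.Z, x.1 ≤ z.1 ∧ z.1 < x.1 + E.R ∧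
      Q * z.1 % E.R = (ux x + i * E.Mod (E.suppT (.inl x))) % E.R := by
    intro x i
    obtain ⟨z, h1, h2, h3⟩ := cpl_solve hE x.1 (ux x + i * E.Mod (E.suppT (.inl x)))
    have hXZ := hE.XZ
    have := x.2
    exact ⟨⟨z, by omega⟩, h1, h2, h3⟩
  choose zx hzx1 hzx2 hzx3 using hzx
  -- the machine tokens
  obtain ⟨uM, huM1, huM2⟩ := cpl_crt hE {.k, .kM} (fun i => if i = .k then 1 else 0) (by
      intro i hi
      split_ifs with h
      · subst h
        omega
      · exact hpos i)
  have huMk : uM % E.m .k = 1 := by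
    have := huM2 .k (by simp)
    simpa using this
  have huMM : uM % E.m .kM = 0 := by
    have := huM2 .kM (by simp)
    simpa using this
  obtain ⟨i0, -, -, hi0⟩ := cpl_solve hE 0 uM
  set KM := E.Mod ({.k, .kM} : Finset (Idx E.Z E.X)) with hKM
  have hcz : ∀ i (t : Fin E.n), c i t.1 < E.Z ∧ E.mo (c i t.1) = true ∧ c i t.1 % E.R = i % E.R :=
    fun i t => (hc i).1 i le_rfl t.1 t.2
  refine ⟨fun τ i => match τ with
      | .inl x => ux x + i * E.Mod (E.suppT (.inl x))
      | .inr _ => uM + i * KM,
    fun τ i => match τ with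
      | .inl x => zx x i
      | .inr t => ⟨c (i + i0) t.1, (hcz _ t).1⟩, ?_, ?_, ?_, ?_, ?_⟩
  · rintro (x | t)
    · simpa using hux1 x
    · simp only [zero_mul, add_zero]
      exact huM1
  · rintro (x | t) i
    · simp only
      ring
    · simp only
      have : E.Mod (E.suppT (.inr t)) = KM := rfl
      rw [this]
      ring
  · rintro (x | t) i
    · refine ⟨⟨.b4 x, ?_⟩, ?_⟩
      · simp only [isOp, inC, decide_eq_true_eq]
        exact ⟨hzx1 x i, hzx2 x i⟩
      · simp only [cplOpn, cplRz]
        refine ⟨(hzx3 x i).symm, ?_, ?_, ?_⟩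
        · rw [cpl_add_mod (cpl_dvd _ (by simp [suppT])), hux2]
        · rw [cpl_add_mod (cpl_dvd _ (by simp [suppT])), hux3]
        · rw [cpl_add_mod (cpl_dvd _ (by simp [suppT])), hux4]
    · refine ⟨⟨.b5, ?_⟩, ?_⟩
      · simp only [isOp]
        exact (hcz _ t).2.1
      · simp only [cplOpn, cplRz]
        refine ⟨?_, ?_, ?_⟩
        · have h1 := (hcz (i + i0) t).2.2
          have h2 : Q * c (i + i0) t.1 % E.R = Q * (i + i0) % E.R := by
            rw [Nat.mul_mod, h1, ← Nat.mul_mod]
          change (uM + i * KM) % E.R = Q * c (i + i0) t.1 % E.R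
          have hst : KM % E.R = Q % E.R := hE.stride (.inr t)
          rw [h2, Nat.add_mod, ← hi0, Nat.mul_mod i, hst, ← Nat.mul_mod, ← Nat.add_mod]
          congr 1
          ring
        · rw [cpl_add_mod (cpl_dvd _ (by simp)), huMk]
        · rw [cpl_add_mod (cpl_dvd _ (by simp)), huMM]
  · rintro (x | t) i
    · simp only [dT]
      have h1 := hzx1 x i
      have h2 := hzx2 x i
      have h3 := hzx3 x i
      have h4 := hzx1 x (i + 1)
      have h5 := hzx2 x (i + 1)
      have h6 := hzx3 x (i + 1)
      have h7 : Q * (zx x (i + 1)).1 % E.R = Q * ((zx x i).1 + 1) % E.R := by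
        rw [h6, add_mul, one_mul, ← add_assoc, Nat.add_mod, ← h3, hE.stride (.inl x),
          ← Nat.add_mod]
        congr 1
      have h8 := cpl_cancel hE h7
      by_contra hcon
      have h9 : (zx x i).1 + 1 < (zx x (i + 1)).1 := by omega
      have h10 : E.R ∣ (zx x (i + 1)).1 - ((zx x i).1 + 1) :=
        (Nat.modEq_iff_dvd' h9.le).mp h8.symm
      have h11 := Nat.le_of_dvd (by omega) h10
      omega
    · simp only [dT]
      have h1 := (hc (i + i0 + 1)).2.2 (i + i0) (by omega) t.1 t.2
      have h2 : i + 1 + i0 = i + i0 + 1 := by ring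
      rw [h2]
      generalize E.R * al t.1 = w at h1 ⊢
      omega
  · rintro (x | t) (x' | t') i i' hu hz
    · simp only at hu hz
      have h1 : (ux x + i * E.Mod (E.suppT (.inl x))) % E.m .A = x.1 := by
        rw [cpl_add_mod (cpl_dvd _ (by simp [suppT])), hux3]
      have h2 : (ux x' + i' * E.Mod (E.suppT (.inl x'))) % E.m .A = x'.1 := by
        rw [cpl_add_mod (cpl_dvd _ (by simp [suppT])), hux3]
      rw [hu, h2] at h1
      rw [Fin.ext h1.symm]
    · simp only at hu hz
      have h1 : (ux x + i * E.Mod (E.suppT (.inl x))) % E.m .k = 0 := by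
        rw [cpl_add_mod (cpl_dvd _ (by simp [suppT])), hux2]
      have h2 : (uM + i' * KM) % E.m .k = 1 := by
        rw [cpl_add_mod (cpl_dvd _ (by simp)), huMk]
      rw [hu] at h1
      omega
    · simp only at hu hz
      have h1 : (ux x' + i' * E.Mod (E.suppT (.inl x'))) % E.m .k = 0 := by
        rw [cpl_add_mod (cpl_dvd _ (by simp [suppT])), hux2]
      have h2 : (uM + i * KM) % E.m .k = 1 := by
        rw [cpl_add_mod (cpl_dvd _ (by simp)), huMk]
      rw [← hu] at h1
      omega
    · simp only at hu hz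
      have hKpos : 0 < KM := cpl_Mod_pos hE _
      have h1 : i = i' := by
        have : i * KM = i' * KM := by omega
        exact Nat.eq_of_mul_eq_mul_right hKpos this
      subst h1
      have h2 : c (i + i0) t.1 = c (i + i0) t'.1 := by simpa using congrArg Fin.val hz
      have h3 := (hc (i + i0)).2.1 (i + i0) le_rfl t.1 t.2 t'.1 t'.2 h2
      rw [Fin.ext h3]

/-! ### the schedule -/

theorem env_complete (E : Env) {Q B : ℕ} (al : ℕ → ℕ) (hE : E.Good Q) (hB : 2 * E.Z ≤ B)
    (c : ℕ → ℕ → ℕ) (hc : ∀ N, CRun E.R E.Z E.mo E.n al N c) : Feasible (E.freq B al) := by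
  obtain ⟨g, hginj, hgC, hgm⟩ := cpl_exists_g hE
  obtain ⟨ub, zc, h0, hs, hop, hstep, huniq⟩ := cpl_tok hE al c hc
  have hZ : 0 < E.Z := by
    have := hE.Z4
    have := hE.two_le
    omega
  have hB0 : 0 < B := by omega
  have : Nonempty (E.Job B) := ⟨.inr (.inl (.lab ⟨0, hZ⟩ false))⟩
  set pos : E.Tok → ℕ → ℕ := fun τ i =>
    2 * (zc τ i).1 + (if ub τ i % E.m (.nu (zc τ i)) = 1 then 0 else 1) with hpos
  have hposlt : ∀ τ i, pos τ i < 2 * E.Z := by
    intro τ i
    have := (zc τ i).2
    simp only [hpos]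
    split_ifs <;> omega
  have hmod : ∀ τ i, (B * ub τ i + pos τ i) % B = pos τ i := by
    intro τ i
    rw [Nat.mul_add_mod, Nat.mod_eq_of_lt ((hposlt τ i).trans_le hB)]
  have hdiv : ∀ τ i, (B * ub τ i + pos τ i) / B = ub τ i := by
    intro τ i
    rw [Nat.mul_add_div hB0, Nat.div_eq_of_lt ((hposlt τ i).trans_le hB), Nat.add_zero]
  have hlane : ∀ j : E.RJ, 2 * j.cl.1 + (E.cplBit j).toNat < 2 * E.Z := by
    intro j
    have := j.cl.2
    have := Bool.toNat_le (E.cplBit j)
    omega
  -- a rigid job and a token do not meet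
  have hrt : ∀ (j : E.RJ) (τ : E.Tok) (i : ℕ),
      (B * ub τ i + pos τ i) % B = 2 * j.cl.1 + (E.cplBit j).toNat →
      (∀ i' ∈ j.supp, ((B * ub τ i + pos τ i) / B) % E.m i' = E.cplRes Q g j i') → False := by
    intro j τ i h1 h2
    rw [hmod] at h1
    rw [hdiv] at h2
    have hcov := cplCov_of h2
    have h3 : j.cl = zc τ i := by
      apply Fin.ext
      have := Bool.toNat_le (E.cplBit j)
      simp only [hpos] at h1
      split_ifs at h1 <;> omega
    have h4 : (E.cplBit j).toNat = if ub τ i % E.m (.nu (zc τ i)) = 1 then 0 else 1 := by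
      have h5 : j.cl.1 = (zc τ i).1 := congrArg Fin.val h3
      simp only [hpos] at h1
      omega
    have hop' := hop τ i
    rw [← h3] at hop' h4
    obtain ⟨o, ho⟩ := hop'
    refine cplCov_free hgC ho ?_ hcov
    split_ifs at h4 with h5
    · have : E.cplBit j = false := by
        cases hb : E.cplBit j
        · rfl
        · rw [hb] at h4; simp at h4
      simp [this, h5]
    · have : E.cplBit j = true := by
        cases hb : E.cplBit j
        · rw [hb] at h4; simp at h4
        · rfl
      simp [this, h5]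
  refine cpl_feasible (E.freq B al) (fun j t => match j with
    | .inl w => t % B = 2 * E.Z + w.1
    | .inr (.inl j) => t % B = 2 * j.cl.1 + (E.cplBit j).toNat ∧
        ∀ i ∈ j.supp, (t / B) % E.m i = E.cplRes Q g j i
    | .inr (.inr τ) => ∃ i, t = B * ub τ i + pos τ i) ?_ ?_
  · rintro (w | j | τ) (w' | j' | τ') t h h'
    · simp only at h h'
      rw [Fin.ext (show w.1 = w'.1 by omega)]
    · simp only at h h'
      have := hlane j'
      omega
    · simp only at h h'
      obtain ⟨i, rfl⟩ := h'
      rw [hmod] at h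
      have := hposlt τ' i
      omega
    · simp only at h h'
      have := hlane j
      omega
    · simp only at h h'
      have h1 := Bool.toNat_le (E.cplBit j)
      have h2 := Bool.toNat_le (E.cplBit j')
      have h3 : j.cl = j'.cl := Fin.ext (by omega)
      have h4 : (E.cplBit j).toNat = (E.cplBit j').toNat := by omega
      have h5 : E.cplBit j = E.cplBit j' := by
        cases hb : E.cplBit j <;> cases hb' : E.cplBit j' <;> simp_all
      rw [cplCov_unique hginj hgC h3 h5 (cplCov_of h.2) (cplCov_of h'.2)]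
    · simp only at h h'
      obtain ⟨i, rfl⟩ := h'
      exact (hrt j τ' i h.1 h.2).elim
    · simp only at h h'
      obtain ⟨i, rfl⟩ := h
      rw [hmod] at h'
      have := hposlt τ i
      omega
    · simp only at h h'
      obtain ⟨i, rfl⟩ := h
      exact (hrt j' τ i h'.1 h'.2).elim
    · simp only at h h'
      obtain ⟨i, hi⟩ := h
      obtain ⟨i', hi'⟩ := h'
      have h1 : ub τ i = ub τ' i' := by
        rw [← hdiv τ i, ← hdiv τ' i', ← hi, ← hi']
      have h2 : pos τ i = pos τ' i' := by
        rw [← hmod τ i, ← hmod τ' i', ← hi, ← hi']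
      have h3 : zc τ i = zc τ' i' := by
        apply Fin.ext
        simp only [hpos] at h2
        split_ifs at h2 <;> omega
      rw [huniq τ τ' i i' h1 h3]
  · rintro (w | j | τ) t
    · simp only [freq]
      obtain ⟨s, h1, h2, h3⟩ := cpl_window B hB0 (2 * E.Z + w.1) t
      refine ⟨s, h1, h2, ?_⟩
      rw [h3]
      have := w.2
      exact Nat.mod_eq_of_lt (by omega)
    · simp only [freq]
      obtain ⟨u, hu1, hu2⟩ := cpl_crt hE j.supp (E.cplRes Q g j) (cplRes_lt hE hgm j)
      obtain ⟨s, h1, h2, h3⟩ := cpl_window (B * E.Mod j.supp)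
        (Nat.mul_pos hB0 (cpl_Mod_pos hE _)) (B * u + (2 * j.cl.1 + (E.cplBit j).toNat)) t
      obtain ⟨h4, h5⟩ := cpl_day ((hlane j).trans_le hB) hu1 h3
      refine ⟨s, h1, h2, h4, fun i hi => ?_⟩
      rw [← Nat.mod_mod_of_dvd (s / B) (cpl_dvd j.supp hi), h5, hu2 i hi]
    · simp only [freq]
      refine cpl_visits (fun i => B * ub τ i + pos τ i) ?_ _ ?_ ?_ t
      · intro i
        rw [hs τ i, mul_add]
        have h1 := hposlt τ i
        have h2 : B * 1 ≤ B * E.Mod (E.suppT τ) := Nat.mul_le_mul_left _ (cpl_Mod_pos hE _)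
        omega
      · have h1 := hposlt τ 0
        have h2 : B * (ub τ 0 + 1) ≤ B * E.Mod (E.suppT τ) := Nat.mul_le_mul_left _ (h0 τ)
        rw [mul_add] at h2
        omega
      · intro i
        rw [hs τ i, mul_add]
        have h1 := hstep τ i
        have h2 : pos τ (i + 1) ≤ pos τ i + E.dT al τ := by
          simp only [hpos]
          split_ifs <;> omega
        omega

end Env

end Pool.Agent.Lib.Pinwheel
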