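import Mathlib

/-!
# Pinwheel scheduling: the environment of the PSPACE-hardness proof

`Env` is the data of an environment: `Z` clusters (a cluster `z` consists of the two lanes
`2 z`, `2 z + 1`), `X` auxiliary classes, `n` machine tokens, pairwise coprime moduli `m i`, the
predicate `mo` (the cluster is open for machine tokens).  The blocks of `B` consecutive days are
numbered by `u`; the coordinates of `u` are the residues `u % m i`.
-/

namespace Pool.Agent.Lib.Pinwheel

/-- There is a schedule in which the job `i` occurs in any `f i` consecutive days. -/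
def Feasible {ι : Type*} (f : ι → ℕ) : Prop :=
  ∃ S : ℕ → ι, ∀ i t, ∃ s, t ≤ s ∧ s < t + f i ∧ S s = i

/-- The coordinates. -/
inductive Idx (Z X : ℕ)
  | R | k | A | kM
  | kx (x : Fin X)
  | nu (z : Fin Z)
  | s (z : Fin Z) (a : Bool)
  deriving DecidableEq, Fintype

/-- The types of cells of a cluster. -/
inductive Cell (X : ℕ)
  | b1 | b2 | b3 | b5
  | b4 (x : Fin X)
  deriving DecidableEq, Fintype

/-- The coordinates which a cell depends on. -/
def Cell.supp {Z X : ℕ} : Cell X → Finset (Idx Z X)
  | .b1 => {.R}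
  | .b2 => {.R, .k}
  | .b3 => {.R, .k, .A}
  | .b5 => {.R, .k, .kM}
  | .b4 x => {.R, .k, .A, .kx x}

/-- The data of an environment. -/
structure Env where
  /-- number of clusters -/
  Z : ℕ
  /-- number of auxiliary classes (tracks) -/
  X : ℕ
  /-- number of machine tokens -/
  n : ℕ
  /-- the moduli -/
  m : Idx Z X → ℕ
  /-- the clusters which are open for machine tokens -/
  mo : ℕ → Bool

namespace Env

variable (E : Env)

/-- number of phases -/
def R : ℕ := E.m .R

/-- The cluster `z` belongs to the track `x`. -/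
def inC (x : Fin E.X) (z : Fin E.Z) : Bool := decide (x.1 ≤ z.1 ∧ z.1 < x.1 + E.R)

/-- the number of tracks which contain the cluster `z` -/
def numC (z : Fin E.Z) : ℕ := (Finset.univ.filter fun x : Fin E.X => E.inC x z = true).card

/-- the number of blocked cells of a given type of a cluster -/
def mult (z : Fin E.Z) : Cell E.X → ℕ
  | .b1 => E.R - 1
  | .b2 => E.m .k - 1 - (if E.mo z then 1 else 0)
  | .b3 => E.m .A - E.numC z
  | .b4 x => if E.inC x z then E.m (.kx x) - 1 else 0
  | .b5 => if E.mo z then E.m .kM - 1 else 0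

/-- the open cells of a cluster -/
def isOp (z : Fin E.Z) : Cell E.X → Bool
  | .b4 x => E.inC x z
  | .b5 => E.mo z
  | _ => false

/-- The rigid jobs (without the walls). -/
inductive RJ
  | lab (z : Fin E.Z) (a : Bool)
  | main (z : Fin E.Z) (a : Bool) (b : Cell E.X) (e : Fin (E.m (.s z a) - 1))
      (c : Fin (E.mult z b))
  | res (z : Fin E.Z) (a : Bool) (b : Cell E.X) (e : Fin (E.m (.nu z) - 1)) (c : Fin (E.mult z b))
  | fila (z : Fin E.Z) (a : Bool) (o : {o : Cell E.X // E.isOp z o = true})
      (e : Fin (E.m (.s z a) - 1))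
  | filb (z : Fin E.Z) (o : {o : Cell E.X // E.isOp z o = true}) (e : Fin (E.m (.nu z) - 2))
  deriving DecidableEq, Fintype

namespace RJ

variable {E}

/-- the cluster of a job -/
def cl : E.RJ → Fin E.Z
  | lab z _ => z
  | main z _ _ _ _ => z
  | res z _ _ _ _ => z
  | fila z _ _ _ => z
  | filb z _ _ => z

/-- the job is not a main job -/
def nonmain : E.RJ → Bool
  | main _ _ _ _ _ => false
  | _ => true

/-- the coordinates which a job depends on -/
def supp : E.RJ → Finset (Idx E.Z E.X)
  | lab z a => {.nu z, .s z a}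
  | main z a b _ _ => insert (.s z a) b.supp
  | res z a b _ _ => insert (.nu z) (insert (.s z a) b.supp)
  | fila z a o _ => insert (.nu z) (insert (.s z a) o.1.supp)
  | filb z o _ => insert (.nu z) o.1.supp

end RJ

/-- The tokens: one for each track, and the machine tokens. -/
abbrev Tok : Type := Fin E.X ⊕ Fin E.n

/-- the coordinates which a token depends on -/
def suppT : E.Tok → Finset (Idx E.Z E.X)
  | .inl x => {.k, .A, .kx x}
  | .inr _ => {.k, .kM}

/-- the modulus of a set of coordinates -/
def Mod (S : Finset (Idx E.Z E.X)) : ℕ := ∏ i ∈ S, E.m i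

/-- The index set of all jobs, `B` is the length of the blocks. -/
abbrev Job (B : ℕ) : Type := Fin (B - 2 * E.Z) ⊕ E.RJ ⊕ E.Tok

/-- The allowances of the tokens in days; `al t` is the allowance of the machine token `t` in
columns. -/
def dT (al : ℕ → ℕ) : E.Tok → ℕ
  | .inl _ => 3
  | .inr t => 2 * (E.R * al t + 1) + 1

/-- The frequencies. -/
def freq (B : ℕ) (al : ℕ → ℕ) : E.Job B → ℕ
  | .inl _ => B
  | .inr (.inl j) => B * E.Mod j.supp
  | .inr (.inr t) => B * E.Mod (E.suppT t) + E.dT al t

/-- The general hypotheses on an environment; all tokens advance by `Q` phases. -/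
structure Good (Q : ℕ) : Prop where
  two_le : 2 ≤ E.R
  big : ∀ i, i ≠ .R → i ≠ .A → 16 ≤ E.m i
  cop : ∀ i j, i ≠ j → Nat.Coprime (E.m i) (E.m j)
  XZ : E.X + E.R = E.Z + 1
  Z4 : 4 * E.R ≤ E.Z
  A_lt : E.X < E.m .A
  kM_n : 2 * E.n < E.m .kM
  kM_s : ∀ z a, E.m (.s z a) < E.m .kM
  mo_le : ∀ z < E.Z, E.mo z = true → E.R ≤ z ∧ z + E.R < E.Z
  count : ∀ r < E.R, ((Finset.range E.Z).filter fun z => E.mo z = true ∧ z % E.R = r).card = E.n
  stride : ∀ t, E.Mod (E.suppT t) % E.R = Q % E.R

/-- The arrangement of the rigid jobs and the tokens in the lanes: lane and residues of the rigid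
jobs, residues of the tokens (only the residues at the coordinates of the support matter). -/
structure Arr (Lane : Type) [Fintype Lane] [DecidableEq Lane] where
  /-- the lane of a rigid job -/
  lane : E.RJ → Lane
  /-- the residues of a rigid job -/
  res : E.RJ → ∀ i, Fin (E.m i)
  /-- the residues of a token -/
  tres : E.Tok → ∀ i, Fin (E.m i)
  disj : ∀ j j', j ≠ j' → lane j = lane j' → ∃ i, i ∈ j.supp ∧ i ∈ j'.supp ∧ res j i ≠ res j' i
  count : ∀ κ : (∀ i, Fin (E.m i)),
    (Finset.univ.filter fun ℓ => ∀ j, lane j = ℓ → ∃ i ∈ j.supp, κ i ≠ res j i).card =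
    (Finset.univ.filter fun τ : E.Tok => ∀ i ∈ E.suppT τ, κ i = tres τ i).card

namespace Arr

variable {E} {Lane : Type} [Fintype Lane] [DecidableEq Lane] (A : E.Arr Lane)

/-- The token `τ` is active at the point `κ`. -/
def Act (τ : E.Tok) (κ : ∀ i, Fin (E.m i)) : Prop := ∀ i ∈ E.suppT τ, κ i = A.tres τ i

/-- The lane `ℓ` is free at the point `κ`. -/
def Free (ℓ : Lane) (κ : ∀ i, Fin (E.m i)) : Prop :=
  ∀ j, A.lane j = ℓ → ∃ i ∈ j.supp, κ i ≠ A.res j i

end Arr

end Env

/-- A run of length `N` of the cluster machine: the tokens `t < T` occupy at time `i` exactly the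
open clusters which are congruent to `i` modulo `R` (there are `T` of them), and move up by at
most `R * al t + 1` in one step. -/
def CRun (R Z : ℕ) (mo : ℕ → Bool) (T : ℕ) (al : ℕ → ℕ) (N : ℕ) (c : ℕ → ℕ → ℕ) : Prop :=
  (∀ i ≤ N, ∀ t < T, c i t < Z ∧ mo (c i t) = true ∧ c i t % R = i % R) ∧
  (∀ i ≤ N, ∀ t < T, ∀ t' < T, c i t = c i t' → t = t') ∧
  (∀ i < N, ∀ t < T, c (i + 1) t ≤ c i t + R * al t + 1)

end Pool.Agent.Lib.Pinwheel
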