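import Pool.Agent.Lib.Pinwheel.Defs

/-!
# Densities
-/

namespace Pool.Agent.Lib.Pinwheel

open Finset

namespace Env

variable (E : Env)

/-! ## Decomposition of the sums over the rigid jobs -/

/-- The rigid jobs as an iterated sigma type. -/
def rjEquiv : (Σ z : Fin E.Z, Bool ⊕
      (Σ a : Bool, Σ b : Cell E.X, Fin (E.m (.s z a) - 1) × Fin (E.mult z b)) ⊕
      (Σ _ : Bool, Σ b : Cell E.X, Fin (E.m (.nu z) - 1) × Fin (E.mult z b)) ⊕
      (Σ a : Bool, {o : Cell E.X // E.isOp z o = true} × Fin (E.m (.s z a) - 1)) ⊕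
      ({o : Cell E.X // E.isOp z o = true} × Fin (E.m (.nu z) - 2))) ≃ E.RJ where
  toFun x := match x with
    | ⟨z, .inl a⟩ => .lab z a
    | ⟨z, .inr (.inl ⟨a, b, e, c⟩)⟩ => .main z a b e c
    | ⟨z, .inr (.inr (.inl ⟨a, b, e, c⟩))⟩ => .res z a b e c
    | ⟨z, .inr (.inr (.inr (.inl ⟨a, o, e⟩)))⟩ => .fila z a o e
    | ⟨z, .inr (.inr (.inr (.inr ⟨o, e⟩)))⟩ => .filb z o e
  invFun j := match j with
    | .lab z a => ⟨z, .inl a⟩
    | .main z a b e c => ⟨z, .inr (.inl ⟨a, b, e, c⟩)⟩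
    | .res z a b e c => ⟨z, .inr (.inr (.inl ⟨a, b, e, c⟩))⟩
    | .fila z a o e => ⟨z, .inr (.inr (.inr (.inl ⟨a, o, e⟩)))⟩
    | .filb z o e => ⟨z, .inr (.inr (.inr (.inr ⟨o, e⟩)))⟩
  left_inv x := by
    rcases x with ⟨z, a | ⟨a, b, e, c⟩ | ⟨a, b, e, c⟩ | ⟨a, o, e⟩ | ⟨o, e⟩⟩ <;> rfl
  right_inv j := by cases j <;> rfl

theorem sum_RJ (F : E.RJ → ℚ) :
    ∑ j, F j = ∑ z : Fin E.Z, (∑ a, F (.lab z a) +
      (∑ a, ∑ b, ∑ e, ∑ c, F (.main z a b e c) +
      (∑ a, ∑ b, ∑ e, ∑ c, F (.res z a b e c) +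
      (∑ a, ∑ o, ∑ e, F (.fila z a o e) + ∑ o, ∑ e, F (.filb z o e))))) := by
  rw [← Equiv.sum_comp (rjEquiv E) F]
  simp only [Fintype.sum_sigma, Fintype.sum_sum_type, Fintype.sum_prod_type]
  rfl

theorem sum_Cell {X : ℕ} (F : Cell X → ℚ) :
    ∑ b, F b = F .b1 + F .b2 + F .b3 + F .b5 + ∑ x, F (.b4 x) := by
  let e : (Fin 4 ⊕ Fin X) ≃ Cell X :=
    { toFun := fun y => match y with
        | .inl 0 => .b1
        | .inl 1 => .b2
        | .inl 2 => .b3
        | .inl 3 => .b5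
        | .inr x => .b4 x
      invFun := fun c => match c with
        | .b1 => .inl 0
        | .b2 => .inl 1
        | .b3 => .inl 2
        | .b5 => .inl 3
        | .b4 x => .inr x
      left_inv := by
        rintro (y | x)
        · fin_cases y <;> rfl
        · rfl
      right_inv := by
        intro c
        cases c <;> rfl }
  rw [← Equiv.sum_comp e F, Fintype.sum_sum_type, Fin.sum_univ_four]
  rfl

/-! ## The moduli of the supports -/

variable {E}

theorem mod_insert {i : Idx E.Z E.X} {S : Finset (Idx E.Z E.X)} (h : i ∉ S) :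
    (E.Mod (insert i S) : ℚ) = (E.m i : ℚ) * E.Mod S := by
  unfold Mod
  rw [Finset.prod_insert h]
  push_cast
  rfl

theorem s_notMem (z : Fin E.Z) (a : Bool) (b : Cell E.X) :
    (Idx.s z a : Idx E.Z E.X) ∉ (b.supp : Finset (Idx E.Z E.X)) := by
  cases b <;> simp [Cell.supp]

theorem nu_notMem (z : Fin E.Z) (b : Cell E.X) :
    (Idx.nu z : Idx E.Z E.X) ∉ (b.supp : Finset (Idx E.Z E.X)) := by
  cases b <;> simp [Cell.supp]

theorem mod_lab (z : Fin E.Z) (a : Bool) :
    (E.Mod (RJ.lab z a : E.RJ).supp : ℚ) = (E.m (.nu z) : ℚ) * E.m (.s z a) := by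
  unfold RJ.supp
  rw [mod_insert (by simp)]
  simp [Mod]

theorem mod_main (z : Fin E.Z) (a : Bool) (b : Cell E.X) (e c) :
    (E.Mod (RJ.main z a b e c : E.RJ).supp : ℚ) = (E.m (.s z a) : ℚ) * E.Mod b.supp := by
  unfold RJ.supp
  rw [mod_insert (s_notMem z a b)]

theorem mod_res (z : Fin E.Z) (a : Bool) (b : Cell E.X) (e c) :
    (E.Mod (RJ.res z a b e c : E.RJ).supp : ℚ) =
      (E.m (.nu z) : ℚ) * ((E.m (.s z a) : ℚ) * E.Mod b.supp) := by
  unfold RJ.supp
  rw [mod_insert, mod_insert (s_notMem z a b)]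
  simp only [Finset.mem_insert, not_or]
  exact ⟨by simp, nu_notMem z b⟩

theorem mod_fila (z : Fin E.Z) (a : Bool) (o : {o : Cell E.X // E.isOp z o = true}) (e) :
    (E.Mod (RJ.fila z a o e : E.RJ).supp : ℚ) =
      (E.m (.nu z) : ℚ) * ((E.m (.s z a) : ℚ) * E.Mod o.1.supp) := by
  unfold RJ.supp
  rw [mod_insert, mod_insert (s_notMem z a o.1)]
  simp only [Finset.mem_insert, not_or]
  exact ⟨by simp, nu_notMem z o.1⟩

theorem mod_filb (z : Fin E.Z) (o : {o : Cell E.X // E.isOp z o = true}) (e) :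
    (E.Mod (RJ.filb z o e : E.RJ).supp : ℚ) = (E.m (.nu z) : ℚ) * E.Mod o.1.supp := by
  unfold RJ.supp
  rw [mod_insert (nu_notMem z o.1)]

theorem mod_b1 : (E.Mod (Cell.b1 : Cell E.X).supp : ℚ) = E.m .R := by
  simp [Mod, Cell.supp]

theorem mod_b2 : (E.Mod (Cell.b2 : Cell E.X).supp : ℚ) = (E.m .R : ℚ) * E.m .k := by
  simp [Mod, Cell.supp]

theorem mod_b3 : (E.Mod (Cell.b3 : Cell E.X).supp : ℚ) = (E.m .R : ℚ) * (E.m .k * E.m .A) := by
  simp [Mod, Cell.supp]

theorem mod_b5 : (E.Mod (Cell.b5 : Cell E.X).supp : ℚ) = (E.m .R : ℚ) * (E.m .k * E.m .kM) := by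
  simp [Mod, Cell.supp]

theorem mod_b4 (x : Fin E.X) : (E.Mod (Cell.b4 x : Cell E.X).supp : ℚ) =
    (E.m .R : ℚ) * (E.m .k * (E.m .A * E.m (.kx x))) := by
  simp [Mod, Cell.supp]

theorem mod_inl (x : Fin E.X) : (E.Mod (E.suppT (.inl x)) : ℚ) =
    (E.m .k : ℚ) * (E.m .A * E.m (.kx x)) := by
  simp [Mod, suppT]

theorem mod_inr (t : Fin E.n) : (E.Mod (E.suppT (.inr t)) : ℚ) =
    (E.m .k : ℚ) * E.m .kM := by
  simp [Mod, suppT]

/-! ## Counting -/

theorem numC_eq (z : Fin E.Z) : (E.numC z : ℚ) = ∑ x : Fin E.X, if E.inC x z then (1 : ℚ) else 0 := by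
  unfold numC
  rw [Finset.card_filter]
  push_cast
  rfl

theorem numC_le (z : Fin E.Z) : E.numC z ≤ E.X := by
  unfold numC
  exact (Finset.card_filter_le _ _).trans (by simp)

theorem card_track {Q : ℕ} (hE : E.Good Q) (x : Fin E.X) :
    ∑ z : Fin E.Z, (if E.inC x z then (1 : ℚ) else 0) = E.m .R := by
  have h1 : (univ.filter fun z : Fin E.Z => E.inC x z = true).card = E.R := by
    have hx := x.2
    have hXZ := hE.XZ
    rw [← Finset.card_map Fin.valEmbedding]
    have : (univ.filter fun z : Fin E.Z => E.inC x z = true).map Fin.valEmbedding =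
        Finset.Ico x.1 (x.1 + E.R) := by
      ext y
      simp only [Finset.mem_map, Finset.mem_filter, Finset.mem_univ, true_and, inC,
        decide_eq_true_eq, Fin.valEmbedding_apply, Finset.mem_Ico]
      constructor
      · rintro ⟨z, hz, rfl⟩
        exact hz
      · intro hy
        exact ⟨⟨y, by omega⟩, hy, rfl⟩
    rw [this]
    simp
  rw [Finset.sum_ite, Finset.sum_const_zero, add_zero, Finset.sum_const, nsmul_eq_mul, mul_one]
  exact_mod_cast h1

theorem card_mo {Q : ℕ} (hE : E.Good Q) :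
    ∑ z : Fin E.Z, (if E.mo z then (1 : ℚ) else 0) = (E.n : ℚ) * E.m .R := by
  have h1 : ((Finset.range E.Z).filter fun z => E.mo z = true).card = E.n * E.R := by
    rw [Finset.card_eq_sum_card_fiberwise (f := fun z => z % E.R) (t := Finset.range E.R)]
    · rw [Finset.sum_congr rfl (g := fun _ => E.n)]
      · simp [mul_comm]
      · intro r hr
        rw [← hE.count r (by simpa using hr), Finset.filter_filter]
    · intro z hz
      have := hE.two_le
      simp only [Finset.coe_range, Set.mem_Iio]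
      exact Nat.mod_lt _ (by omega)
  have h2 : ∑ z : Fin E.Z, (if E.mo z then (1 : ℚ) else 0) =
      ∑ z ∈ Finset.range E.Z, (if E.mo z then (1 : ℚ) else 0) :=
    Fin.sum_univ_eq_sum_range (fun z => if E.mo z then (1 : ℚ) else 0) E.Z
  rw [h2, Finset.sum_ite, Finset.sum_const_zero, add_zero, Finset.sum_const, nsmul_eq_mul, mul_one]
  exact_mod_cast h1

/-! ## The densities of the cells -/

/-- The density of the open cells of a cluster. -/
def om (E : Env) (z : Fin E.Z) : ℚ :=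
  ∑ x : Fin E.X, (if E.inC x z then (1 : ℚ) else 0) /
    ((E.m .R : ℚ) * (E.m .k * (E.m .A * E.m (.kx x)))) +
    (if E.mo z then (1 : ℚ) else 0) / ((E.m .R : ℚ) * (E.m .k * E.m .kM))

theorem pos_R {Q : ℕ} (hE : E.Good Q) : (2 : ℚ) ≤ E.m .R := by
  exact_mod_cast hE.two_le

theorem pos_A {Q : ℕ} (hE : E.Good Q) : (0 : ℚ) < E.m .A := by
  have := hE.A_lt
  exact_mod_cast (by omega : 0 < E.m .A)

theorem pos_big {Q : ℕ} (hE : E.Good Q) {i : Idx E.Z E.X} (h1 : i ≠ .R) (h2 : i ≠ .A) :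
    (16 : ℚ) ≤ E.m i := by
  exact_mod_cast hE.big i h1 h2

theorem beta_eq {Q : ℕ} (hE : E.Good Q) (z : Fin E.Z) :
    ∑ b, (E.mult z b : ℚ) / E.Mod b.supp = 1 - E.om z := by
  have hR := pos_R hE
  have hA := pos_A hE
  have hk := pos_big hE (i := .k) (by simp) (by simp)
  have hkM := pos_big hE (i := .kM) (by simp) (by simp)
  have hk' := hE.big .k (by simp) (by simp)
  have hkM' := hE.big .kM (by simp) (by simp)
  rw [sum_Cell, mod_b1, mod_b2, mod_b3, mod_b5]
  have e1 : (E.mult z .b1 : ℚ) = E.m .R - 1 := by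
    have := hE.two_le
    unfold mult R at *
    push_cast [Nat.cast_sub (by omega : 1 ≤ E.m .R)]
    rfl
  have e2 : (E.mult z .b2 : ℚ) = E.m .k - 1 - (if E.mo z then (1 : ℚ) else 0) := by
    unfold mult
    split_ifs with h
    · push_cast [Nat.cast_sub (by omega : 1 ≤ E.m .k), Nat.cast_sub (by omega : 1 ≤ E.m .k - 1)]
      rfl
    · simp only [Nat.sub_zero, sub_zero]
      push_cast [Nat.cast_sub (by omega : 1 ≤ E.m .k)]
      rfl
  have e3 : (E.mult z .b3 : ℚ) = E.m .A - ∑ x : Fin E.X, if E.inC x z then (1 : ℚ) else 0 := by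
    rw [← numC_eq]
    unfold mult
    have h1 := numC_le z
    have h2 := hE.A_lt
    push_cast [Nat.cast_sub (by omega : E.numC z ≤ E.m .A)]
    rfl
  have e5 : (E.mult z .b5 : ℚ) = (if E.mo z then (1 : ℚ) else 0) * (E.m .kM - 1) := by
    unfold mult
    split_ifs with h
    · push_cast [Nat.cast_sub (by omega : 1 ≤ E.m .kM)]
      ring
    · simp
  have e4 : ∀ x : Fin E.X, (E.mult z (.b4 x) : ℚ) / E.Mod (Cell.b4 x : Cell E.X).supp =
      (if E.inC x z then (1 : ℚ) else 0) / ((E.m .R : ℚ) * (E.m .k * E.m .A)) -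
      (if E.inC x z then (1 : ℚ) else 0) /
        ((E.m .R : ℚ) * (E.m .k * (E.m .A * E.m (.kx x)))) := by
    intro x
    have hx := pos_big hE (i := .kx x) (by simp) (by simp)
    have hx' := hE.big (.kx x) (by simp) (by simp)
    rw [mod_b4]
    have hm : E.mult z (.b4 x) = if E.inC x z then E.m (.kx x) - 1 else 0 := rfl
    rw [hm]
    by_cases h : E.inC x z = true
    · rw [if_pos h, if_pos h]
      push_cast [Nat.cast_sub (by omega : 1 ≤ E.m (.kx x))]
      have : (E.m (.kx x) : ℚ) ≠ 0 := by positivity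
      have h1 : (E.m .R : ℚ) ≠ 0 := by positivity
      have h2 : (E.m .k : ℚ) ≠ 0 := by positivity
      have h4 : (E.m .A : ℚ) ≠ 0 := by positivity
      field_simp
    · rw [if_neg h, if_neg h]
      simp
  rw [Finset.sum_congr rfl (fun x _ => e4 x), Finset.sum_sub_distrib, ← Finset.sum_div, e1, e2, e3,
    e5, om]
  generalize (∑ x : Fin E.X, if E.inC x z then (1 : ℚ) else 0) = C
  generalize (∑ x : Fin E.X, (if E.inC x z then (1 : ℚ) else 0) /
        ((E.m .R : ℚ) * (E.m .k * (E.m .A * E.m (.kx x))))) = D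
  generalize (if E.mo z then (1 : ℚ) else 0) = μ
  have h1 : (E.m .R : ℚ) ≠ 0 := by positivity
  have h2 : (E.m .k : ℚ) ≠ 0 := by positivity
  have h3 : (E.m .kM : ℚ) ≠ 0 := by positivity
  have h4 : (E.m .A : ℚ) ≠ 0 := by positivity
  field_simp
  ring

theorem sum_om {Q : ℕ} (hE : E.Good Q) :
    ∑ z : Fin E.Z, E.om z = ∑ τ, (1 : ℚ) / E.Mod (E.suppT τ) := by
  have hR := pos_R hE
  have h1 : (E.m .R : ℚ) ≠ 0 := by positivity
  unfold om
  rw [Finset.sum_add_distrib, Finset.sum_comm, ← Finset.sum_div, card_mo hE, Fintype.sum_sum_type]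
  congr 1
  · apply Finset.sum_congr rfl
    intro x _
    rw [← Finset.sum_div, card_track hE, mod_inl]
    rw [mul_comm (E.m .R : ℚ), div_mul_eq_div_div_swap, div_self h1]
  · simp only [mod_inr, Finset.sum_const, Finset.card_univ, Fintype.card_fin, nsmul_eq_mul]
    rw [mul_comm (E.m .R : ℚ), ← div_mul_div_comm _ _ _ _]
    rw [div_self h1]
    ring

theorem dens_h2 (E : Env) {Q : ℕ} (hE : E.Good Q) :
    ∑ z : Fin E.Z, (1 - ∑ b, (E.mult z b : ℚ) / E.Mod b.supp) =
      ∑ τ, (1 : ℚ) / E.Mod (E.suppT τ) := by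
  rw [← sum_om hE]
  apply Finset.sum_congr rfl
  intro z _
  rw [beta_eq hE]
  ring

theorem sum_open {Q : ℕ} (_hE : E.Good Q) (z : Fin E.Z) :
    ∑ o : {o : Cell E.X // E.isOp z o = true}, (1 : ℚ) / E.Mod o.1.supp = E.om z := by
  rw [← Finset.sum_subtype (s := univ.filter fun o : Cell E.X => E.isOp z o = true)
    (p := fun o => E.isOp z o = true) (by simp) (fun o => (1 : ℚ) / E.Mod o.supp),
    Finset.sum_filter, sum_Cell, om]
  simp only [isOp, Bool.false_eq_true, if_false, zero_add, mod_b4, mod_b5]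
  rw [add_comm]
  congr 1
  · apply Finset.sum_congr rfl
    intro x _
    split_ifs <;> simp
  · split_ifs <;> simp

/-! ## The jobs of a cluster -/

theorem sum_main {Q : ℕ} (hE : E.Good Q) (z : Fin E.Z) (a : Bool) :
    ∑ b, ∑ e, ∑ c, (1 : ℚ) / E.Mod (RJ.main z a b e c : E.RJ).supp =
      ((E.m (.s z a) : ℚ) - 1) / E.m (.s z a) * (1 - E.om z) := by
  have hs := pos_big hE (i := .s z a) (by simp) (by simp)
  have hs' := hE.big (.s z a) (by simp) (by simp)
  rw [← beta_eq hE, Finset.mul_sum]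
  apply Finset.sum_congr rfl
  intro b _
  simp only [mod_main, Finset.sum_const, Finset.card_univ, Fintype.card_fin, nsmul_eq_mul]
  push_cast [Nat.cast_sub (by omega : 1 ≤ E.m (.s z a))]
  rw [div_mul_div_comm]
  ring

theorem sum_res {Q : ℕ} (hE : E.Good Q) (z : Fin E.Z) (a : Bool) :
    ∑ b, ∑ e, ∑ c, (1 : ℚ) / E.Mod (RJ.res z a b e c : E.RJ).supp =
      ((E.m (.nu z) : ℚ) - 1) / (E.m (.nu z) * E.m (.s z a)) * (1 - E.om z) := by
  have hs' := hE.big (.nu z) (by simp) (by simp)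
  rw [← beta_eq hE, Finset.mul_sum]
  apply Finset.sum_congr rfl
  intro b _
  simp only [mod_res, Finset.sum_const, Finset.card_univ, Fintype.card_fin, nsmul_eq_mul]
  push_cast [Nat.cast_sub (by omega : 1 ≤ E.m (.nu z))]
  rw [div_mul_div_comm]
  ring

theorem sum_fila {Q : ℕ} (hE : E.Good Q) (z : Fin E.Z) (a : Bool) :
    ∑ o, ∑ e, (1 : ℚ) / E.Mod (RJ.fila z a o e : E.RJ).supp =
      ((E.m (.s z a) : ℚ) - 1) / (E.m (.nu z) * E.m (.s z a)) * E.om z := by
  have hs' := hE.big (.s z a) (by simp) (by simp)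
  rw [← sum_open hE, Finset.mul_sum]
  apply Finset.sum_congr rfl
  intro b _
  simp only [mod_fila, Finset.sum_const, Finset.card_univ, Fintype.card_fin, nsmul_eq_mul]
  push_cast [Nat.cast_sub (by omega : 1 ≤ E.m (.s z a))]
  rw [div_mul_div_comm]
  ring

theorem sum_filb {Q : ℕ} (hE : E.Good Q) (z : Fin E.Z) :
    ∑ o, ∑ e, (1 : ℚ) / E.Mod (RJ.filb z o e : E.RJ).supp =
      ((E.m (.nu z) : ℚ) - 2) / E.m (.nu z) * E.om z := by
  have hs' := hE.big (.nu z) (by simp) (by simp)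
  rw [← sum_open hE, Finset.mul_sum]
  apply Finset.sum_congr rfl
  intro b _
  simp only [mod_filb, Finset.sum_const, Finset.card_univ, Fintype.card_fin, nsmul_eq_mul]
  push_cast [Nat.cast_sub (by omega : 2 ≤ E.m (.nu z))]
  rw [div_mul_div_comm]
  ring

/-- The rigid jobs and the tokens fill exactly `2 * Z` lanes. -/
theorem dens_total (E : Env) {Q : ℕ} (hE : E.Good Q) :
    ∑ j : E.RJ, (1 : ℚ) / E.Mod j.supp + ∑ τ, (1 : ℚ) / E.Mod (E.suppT τ) = 2 * E.Z := by
  rw [sum_RJ, ← sum_om hE, ← Finset.sum_add_distrib]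
  rw [Finset.sum_congr rfl (g := fun _ => (2 : ℚ))]
  · simp [mul_comm]
  · intro z _
    simp only [sum_main hE, sum_res hE, sum_fila hE, sum_filb hE, mod_lab, Fintype.sum_bool]
    have h1 := pos_big hE (i := .nu z) (by simp) (by simp)
    have h2 := pos_big hE (i := .s z true) (by simp) (by simp)
    have h3 := pos_big hE (i := .s z false) (by simp) (by simp)
    have h1' : (E.m (.nu z) : ℚ) ≠ 0 := by positivity
    have h2' : (E.m (.s z true) : ℚ) ≠ 0 := by positivity
    have h3' : (E.m (.s z false) : ℚ) ≠ 0 := by positivity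
    field_simp
    ring

theorem om_nonneg (E : Env) (z : Fin E.Z) : 0 ≤ E.om z := by
  unfold om
  positivity

theorem om_le {Q : ℕ} (hE : E.Good Q) (z : Fin E.Z) : E.om z ≤ 1 / 256 := by
  have hR := pos_R hE
  have hA := pos_A hE
  have hk := pos_big hE (i := .k) (by simp) (by simp)
  have hkM := pos_big hE (i := .kM) (by simp) (by simp)
  have hXA : (E.X : ℚ) ≤ E.m .A := by exact_mod_cast hE.A_lt.le
  have h1 : ∑ x : Fin E.X, (if E.inC x z then (1 : ℚ) else 0) /
      ((E.m .R : ℚ) * (E.m .k * (E.m .A * E.m (.kx x)))) ≤ 1 / 512 := by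
    calc _ ≤ ∑ _x : Fin E.X, (1 : ℚ) / (512 * E.m .A) := by
          apply Finset.sum_le_sum
          intro x _
          have hx := pos_big hE (i := .kx x) (by simp) (by simp)
          have : (512 * E.m .A : ℚ) ≤ (E.m .R : ℚ) * (E.m .k * (E.m .A * E.m (.kx x))) := by
            calc (512 * E.m .A : ℚ) = 2 * (16 * (E.m .A * 16)) := by ring
              _ ≤ _ := by gcongr
          calc _ ≤ (1 : ℚ) / ((E.m .R : ℚ) * (E.m .k * (E.m .A * E.m (.kx x)))) := by
                gcongr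
                split_ifs <;> norm_num
            _ ≤ _ := by
                apply one_div_le_one_div_of_le (by positivity) this
      _ = (E.X : ℚ) / (512 * E.m .A) := by simp [div_eq_mul_inv]
      _ ≤ 1 / 512 := by
          rw [div_le_div_iff₀ (by positivity) (by norm_num)]
          nlinarith
  have h2 : (if E.mo z then (1 : ℚ) else 0) / ((E.m .R : ℚ) * (E.m .k * E.m .kM)) ≤ 1 / 512 := by
    have : (512 : ℚ) ≤ (E.m .R : ℚ) * (E.m .k * E.m .kM) := by
      calc (512 : ℚ) = 2 * (16 * 16) := by norm_num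
        _ ≤ _ := by gcongr
    calc _ ≤ (1 : ℚ) / ((E.m .R : ℚ) * (E.m .k * E.m .kM)) := by
          gcongr
          split_ifs <;> norm_num
      _ ≤ _ := one_div_le_one_div_of_le (by norm_num) this
  unfold om
  linarith

theorem tok_le {Q : ℕ} (hE : E.Good Q) : ∑ τ, (1 : ℚ) / E.Mod (E.suppT τ) ≤ 1 / 16 := by
  have hA := pos_A hE
  have hk := pos_big hE (i := .k) (by simp) (by simp)
  have hkM := pos_big hE (i := .kM) (by simp) (by simp)
  have hXA : (E.X : ℚ) ≤ E.m .A := by exact_mod_cast hE.A_lt.le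
  have hn : 2 * (E.n : ℚ) ≤ E.m .kM := by exact_mod_cast hE.kM_n.le
  rw [Fintype.sum_sum_type]
  have h1 : ∑ x : Fin E.X, (1 : ℚ) / E.Mod (E.suppT (.inl x)) ≤ 1 / 256 := by
    calc _ ≤ ∑ _x : Fin E.X, (1 : ℚ) / (256 * E.m .A) := by
          apply Finset.sum_le_sum
          intro x _
          have hx := pos_big hE (i := .kx x) (by simp) (by simp)
          rw [mod_inl]
          apply one_div_le_one_div_of_le (by positivity)
          calc (256 * E.m .A : ℚ) = 16 * (E.m .A * 16) := by ring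
              _ ≤ _ := by gcongr
      _ = (E.X : ℚ) / (256 * E.m .A) := by simp [div_eq_mul_inv]
      _ ≤ 1 / 256 := by
          rw [div_le_div_iff₀ (by positivity) (by norm_num)]
          nlinarith
  have h2 : ∑ t : Fin E.n, (1 : ℚ) / E.Mod (E.suppT (.inr t)) ≤ 1 / 32 := by
    simp only [mod_inr, Finset.sum_const, Finset.card_univ, Fintype.card_fin, nsmul_eq_mul]
    rw [mul_one_div, div_le_div_iff₀ (by positivity) (by norm_num)]
    nlinarith
  linarith

theorem dens_h1 (E : Env) {Q : ℕ} (hE : E.Good Q) (z : Fin E.Z) :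
    ∑ j ∈ univ.filter (fun j : E.RJ => j.cl = z ∧ j.nonmain = true),
      (1 : ℚ) / E.Mod j.supp + ∑ τ, (1 : ℚ) / E.Mod (E.suppT τ) < 1 := by
  rw [Finset.sum_filter, sum_RJ, Finset.sum_eq_single z]
  · simp only [RJ.cl, RJ.nonmain, and_true, if_true, Bool.false_eq_true, and_false,
      if_false, Finset.sum_const_zero, zero_add]
    simp only [sum_res hE, sum_fila hE, sum_filb hE, mod_lab, Fintype.sum_bool]
    have h0 := om_nonneg E z
    have h1 := pos_big hE (i := .nu z) (by simp) (by simp)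
    have h2 := pos_big hE (i := .s z true) (by simp) (by simp)
    have h3 := pos_big hE (i := .s z false) (by simp) (by simp)
    have h4 := om_le hE z
    have h5 := tok_le hE
    have key : ∀ s : ℚ, 16 ≤ s → 1 / ((E.m (.nu z) : ℚ) * s) +
        (((E.m (.nu z) : ℚ) - 1) / (E.m (.nu z) * s) * (1 - E.om z)) +
        ((s - 1) / (E.m (.nu z) * s) * E.om z) ≤ 1 / 16 + E.om z := by
      intro s hs
      have hp : (0 : ℚ) < E.m (.nu z) * s := by positivity
      have a1 : ((E.m (.nu z) : ℚ) - 1) / (E.m (.nu z) * s) * (1 - E.om z) ≤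
          ((E.m (.nu z) : ℚ) - 1) / (E.m (.nu z) * s) := by
        have : 0 ≤ ((E.m (.nu z) : ℚ) - 1) / (E.m (.nu z) * s) :=
          div_nonneg (by linarith) hp.le
        nlinarith
      have a2 : (s - 1) / (E.m (.nu z) * s) * E.om z ≤ E.om z := by
        have : (s - 1) / (E.m (.nu z) * s) ≤ 1 := by
          rw [div_le_one hp]
          nlinarith
        nlinarith
      have a3 : 1 / ((E.m (.nu z) : ℚ) * s) + ((E.m (.nu z) : ℚ) - 1) / (E.m (.nu z) * s) =
          1 / s := by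
        field_simp
        ring
      have a4 : 1 / s ≤ 1 / 16 := one_div_le_one_div_of_le (by norm_num) hs
      linarith
    have k1 := key _ h2
    have k2 := key _ h3
    have a5 : ((E.m (.nu z) : ℚ) - 2) / E.m (.nu z) * E.om z ≤ E.om z := by
      have : ((E.m (.nu z) : ℚ) - 2) / E.m (.nu z) ≤ 1 := by
        rw [div_le_one (by positivity)]
        linarith
      nlinarith
    linarith
  · intro z' _ hz'
    simp [RJ.cl, hz']
  · simp

end Env

end Pool.Agent.Lib.Pinwheel
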