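import Pool.Agent.Lib.Pinwheel.Params

/-!
# The list of the frequencies
-/

namespace Pool.Agent.Lib.Pinwheel

open Pool.Agent.Lib.PolyTime

/-- the tracks which contain the cluster `z` -/
def cList (R X z : ℕ) : List ℕ := (List.range X).filter fun x => decide (x ≤ z ∧ z < x + R)

/-- the blocked cells of a cluster: number and modulus; `ps` is the list of the primes -/
def blkList (R X A Z : ℕ) (ps : List ℕ) (mo : Bool) (z : ℕ) : List (ℕ × ℕ) :=
  [(R - 1, R), (ps.getD 0 0 - 1 - (if mo then 1 else 0), R * ps.getD 0 0),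
    (A - (cList R X z).length, R * ps.getD 0 0 * A),
    (if mo then ps.getD (1 + 3 * Z + X) 0 - 1 else 0, R * ps.getD 0 0 * ps.getD (1 + 3 * Z + X) 0)]
  ++ (cList R X z).map fun x =>
    (ps.getD (1 + 3 * Z + x) 0 - 1, R * ps.getD 0 0 * A * ps.getD (1 + 3 * Z + x) 0)

/-- the moduli of the open cells of a cluster -/
def opList (R X A Z : ℕ) (ps : List ℕ) (mo : Bool) (z : ℕ) : List ℕ :=
  ((cList R X z).map fun x => R * ps.getD 0 0 * A * ps.getD (1 + 3 * Z + x) 0) ++
    (if mo then [R * ps.getD 0 0 * ps.getD (1 + 3 * Z + X) 0] else [])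

/-- the frequencies of the jobs of the lane `(z, a)`, `s` and `nu` are its primes -/
def laneList (B nu s : ℕ) (blk : List (ℕ × ℕ)) (op : List ℕ) : List ℕ :=
  [B * (nu * s)] ++
  (blk.flatMap (fun b => List.replicate ((s - 1) * b.1) (B * (s * b.2)) ++
    List.replicate ((nu - 1) * b.1) (B * (nu * (s * b.2)))) ++
  op.flatMap (fun o => List.replicate (s - 1) (B * (nu * (s * o)))))

/-- The list of the frequencies. -/
def freqList (n : ℕ) (prog : List Instr) : List ℕ :=
  let ps := pPrimes n prog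
  let R := tR n prog
  let Z := tCl n prog
  let X := tX n prog
  let A := pA n prog
  let B := pB n prog
  List.replicate (B - 2 * Z) B ++
  ((List.range Z).flatMap (fun z =>
    let mo := tMo n prog z
    let blk := blkList R X A Z ps mo z
    let op := opList R X A Z ps mo z
    let nu := ps.getD (1 + z) 0
    laneList B nu (ps.getD (1 + Z + (2 * z + 0)) 0) blk op ++
    (laneList B nu (ps.getD (1 + Z + (2 * z + 1)) 0) blk op ++
    op.flatMap (fun o => List.replicate (nu - 2) (B * (nu * o))))) ++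
  ((List.range X).map (fun x => B * (ps.getD 0 0 * A * ps.getD (1 + 3 * Z + x) 0) + 3) ++
  (List.range (2 * n)).map (fun t => B * (ps.getD 0 0 * ps.getD (1 + 3 * Z + X) 0) +
    (2 * (R * tAl n t + 1) + 1))))

/-! ### Sums -/

section

variable {M : Type*} [AddCommMonoid M]

theorem fl_sumCell {X : ℕ} (g : Cell X → M) :
    ∑ b, g b = g .b1 + (g .b2 + (g .b3 + (g .b5 + ∑ x, g (.b4 x)))) := by
  rw [← (proxy_equiv% (Cell X)).sum_comp]
  simp only [Fintype.sum_sum_type]
  have h : ∀ (f : Unit → M), ∑ x, f x = f () := fun f => by simp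
  simp only [h]
  rfl

theorem fl_sumRJ (E : Env) (g : E.RJ → M) :
    ∑ j, g j = ∑ z, (∑ a, (g (.lab z a) + ((∑ b, ∑ e, ∑ c, g (.main z a b e c)) +
      (∑ b, ∑ e, ∑ c, g (.res z a b e c)) + ∑ o, ∑ e, g (.fila z a o e))) +
      ∑ o, ∑ e, g (.filb z o e)) := by
  rw [← (proxy_equiv% (Env.RJ E)).sum_comp]
  simp only [Fintype.sum_sum_type, Fintype.sum_sigma, Finset.sum_add_distrib]
  have e1 : ∀ x y, (Env.RJ.proxyTypeEquiv E) (Sum.inl ⟨x, y⟩) = .lab x y := fun _ _ => rfl
  simp only [add_assoc]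
  rfl

theorem fl_range (n : ℕ) (g : ℕ → M) : ((List.range n).map g).sum = ∑ x : Fin n, g x := by
  rw [← Finset.sum_range]
  induction n with
  | zero => simp
  | succ n ih => rw [List.sum_range_succ, Finset.sum_range_succ, ih]

theorem fl_cList (R X z : ℕ) (g : ℕ → M) :
    ((cList R X z).map g).sum = ∑ x : Fin X, if (x : ℕ) ≤ z ∧ z < x + R then g x else 0 := by
  rw [← fl_range X (fun x => if x ≤ z ∧ z < x + R then g x else 0), cList]
  induction List.range X with
  | nil => rfl
  | cons a l ih =>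
    rw [List.filter_cons]
    by_cases h : a ≤ z ∧ z < a + R
    · simp only [h, decide_true, if_true, List.map_cons, List.sum_cons, and_self]
      rw [← ih]
    · simp only [h, decide_false, if_false, List.map_cons, List.sum_cons, zero_add]
      rw [← ih]
      simp

end

theorem fl_coe_flatMap {α : Type*} (l : List α) (f : α → List ℕ) :
    ((l.flatMap f : List ℕ) : Multiset ℕ) = (l.map fun x => (f x : Multiset ℕ)).sum := by
  induction l with
  | nil => rfl
  | cons a l ih => rw [List.flatMap_cons, ← Multiset.coe_add, ih, List.map_cons, List.sum_cons]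

theorem fl_coe_map {α : Type*} (l : List α) (f : α → ℕ) :
    ((l.map f : List ℕ) : Multiset ℕ) = (l.map fun x => ({f x} : Multiset ℕ)).sum := by
  induction l with
  | nil => rfl
  | cons a l ih =>
    rw [List.map_cons, ← List.singleton_append, ← Multiset.coe_add, ih, List.map_cons,
      List.sum_cons]
    rfl

theorem fl_univ_map {ι : Type*} [Fintype ι] (f : ι → ℕ) :
    (Finset.univ : Finset ι).val.map f = ∑ i, ({f i} : Multiset ℕ) := by
  rw [Finset.sum_eq_multiset_sum]
  conv_lhs => rw [← Multiset.sum_map_singleton (Multiset.map f Finset.univ.val)]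
  rw [Multiset.map_map]
  rfl

/-! ### Moduli -/

theorem fl_s_notMem {Z X : ℕ} (z : Fin Z) (a : Bool) (b : Cell X) :
    (Idx.s z a : Idx Z X) ∉ b.supp := by
  cases b <;> simp [Cell.supp]

theorem fl_nu_notMem {Z X : ℕ} (z : Fin Z) (b : Cell X) : (Idx.nu z : Idx Z X) ∉ b.supp := by
  cases b <;> simp [Cell.supp]

theorem fl_mod_main (E : Env) (z : Fin E.Z) (a : Bool) (b : Cell E.X) :
    E.Mod (insert (.s z a) b.supp) = E.m (.s z a) * E.Mod b.supp := by
  rw [Env.Mod, Finset.prod_insert (fl_s_notMem z a b)]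
  rfl

theorem fl_mod_res (E : Env) (z : Fin E.Z) (a : Bool) (b : Cell E.X) :
    E.Mod (insert (.nu z) (insert (.s z a) b.supp)) =
      E.m (.nu z) * (E.m (.s z a) * E.Mod b.supp) := by
  rw [Env.Mod, Finset.prod_insert, ← Env.Mod, fl_mod_main]
  simp [fl_nu_notMem]

theorem fl_mod_filb (E : Env) (z : Fin E.Z) (b : Cell E.X) :
    E.Mod (insert (.nu z) b.supp) = E.m (.nu z) * E.Mod b.supp := by
  rw [Env.Mod, Finset.prod_insert (fl_nu_notMem z b)]
  rfl

theorem fl_mod_lab (E : Env) (z : Fin E.Z) (a : Bool) :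
    E.Mod {.nu z, .s z a} = E.m (.nu z) * E.m (.s z a) := by
  rw [Env.Mod, Finset.prod_pair (by simp)]

theorem fl_mod_b1 (E : Env) : E.Mod (Cell.b1 : Cell E.X).supp = E.m .R := by
  simp [Env.Mod, Cell.supp]

theorem fl_mod_b2 (E : Env) : E.Mod (Cell.b2 : Cell E.X).supp = E.m .R * E.m .k := by
  simp [Env.Mod, Cell.supp]

theorem fl_mod_b3 (E : Env) : E.Mod (Cell.b3 : Cell E.X).supp = E.m .R * E.m .k * E.m .A := by
  simp [Env.Mod, Cell.supp, mul_assoc]

theorem fl_mod_b5 (E : Env) : E.Mod (Cell.b5 : Cell E.X).supp = E.m .R * E.m .k * E.m .kM := by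
  simp [Env.Mod, Cell.supp, mul_assoc]

theorem fl_mod_b4 (E : Env) (x : Fin E.X) : E.Mod (Cell.b4 x : Cell E.X).supp =
    E.m .R * E.m .k * E.m .A * E.m (.kx x) := by
  simp [Env.Mod, Cell.supp, mul_assoc]

theorem fl_mod_inl (E : Env) (x : Fin E.X) : E.Mod (E.suppT (Sum.inl x)) =
    E.m .k * E.m .A * E.m (.kx x) := by
  simp [Env.Mod, Env.suppT, mul_assoc]

theorem fl_mod_inr (E : Env) (t : Fin E.n) : E.Mod (E.suppT (Sum.inr t)) =
    E.m .k * E.m .kM := by
  simp [Env.Mod, Env.suppT]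

section

variable (n : ℕ) (prog : List Instr) {M : Type*} [AddCommMonoid M]

theorem fl_numC (z : Fin (mkEnv n prog).Z) :
    (mkEnv n prog).numC z = (cList (tR n prog) (tX n prog) z).length := by
  have h := fl_cList (tR n prog) (tX n prog) z (fun _ => 1)
  rw [List.map_const', List.sum_replicate, smul_eq_mul, mul_one] at h
  rw [h, Env.numC, Finset.card_filter]
  refine Finset.sum_congr rfl fun x _ => ?_
  have h1 : (mkEnv n prog).inC x z = decide ((x : ℕ) ≤ z ∧ (z : ℕ) < x + tR n prog) := rfl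
  rw [h1]
  by_cases h : (x : ℕ) ≤ z ∧ (z : ℕ) < x + tR n prog
  · rw [if_pos h, if_pos (decide_eq_true h)]
  · rw [if_neg h, if_neg (by simpa using h)]

/-- The blocked cells. -/
theorem fl_blk (z : Fin (mkEnv n prog).Z) (φ : ℕ × ℕ → M) (h0 : ∀ y, φ (0, y) = 0) :
    ((blkList (tR n prog) (tX n prog) (pA n prog) (tCl n prog) (pPrimes n prog)
      (tMo n prog z) z).map φ).sum =
    ∑ b, φ ((mkEnv n prog).mult z b, (mkEnv n prog).Mod b.supp) := by
  rw [fl_sumCell, blkList, List.map_append, List.sum_append, List.map_map, fl_cList]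
  simp only [List.map_cons, List.map_nil, List.sum_cons, List.sum_nil, add_zero, fl_mod_b1,
    fl_mod_b2, fl_mod_b3, fl_mod_b4, fl_mod_b5]
  rw [← fl_numC, add_assoc, add_assoc, add_assoc]
  congr 1
  congr 1
  congr 1
  congr 1
  refine Finset.sum_congr rfl fun x _ => ?_
  have h1 : (mkEnv n prog).mult z (.b4 x) = if decide ((x : ℕ) ≤ z ∧ (z : ℕ) < x + tR n prog) = true
    then (mkEnv n prog).m (.kx x) - 1 else 0 := rfl
  rw [h1]
  by_cases h : (x : ℕ) ≤ z ∧ (z : ℕ) < x + tR n prog
  · rw [if_pos h, if_pos (decide_eq_true h)]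
    rfl
  · rw [if_neg h, if_neg (by simpa using h), h0]

/-- The open cells. -/
theorem fl_op (z : Fin (mkEnv n prog).Z) (ψ : ℕ → M) :
    ((opList (tR n prog) (tX n prog) (pA n prog) (tCl n prog) (pPrimes n prog)
      (tMo n prog z) z).map ψ).sum =
    ∑ o : {o : Cell (mkEnv n prog).X // (mkEnv n prog).isOp z o = true},
      ψ ((mkEnv n prog).Mod o.1.supp) := by
  have h2 : ∑ o : {o : Cell (mkEnv n prog).X // (mkEnv n prog).isOp z o = true},
      ψ ((mkEnv n prog).Mod o.1.supp) =
      ∑ o : Cell (mkEnv n prog).X, if (mkEnv n prog).isOp z o = true then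
        ψ ((mkEnv n prog).Mod o.supp) else 0 := by
    rw [← Finset.sum_filter]
    symm
    exact Finset.sum_subtype _ (fun x => by simp) _
  rw [h2, fl_sumCell, opList, List.map_append, List.sum_append, List.map_map, fl_cList]
  have h3 : (mkEnv n prog).isOp z .b5 = tMo n prog z := rfl
  simp only [h3, fl_mod_b5, fl_mod_b4]
  have h4 : (mkEnv n prog).isOp z .b1 = false := rfl
  have h5 : (mkEnv n prog).isOp z .b2 = false := rfl
  have h6 : (mkEnv n prog).isOp z .b3 = false := rfl
  simp only [h4, h5, h6, Bool.false_eq_true, if_false, zero_add]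
  rw [add_comm]
  congr 1
  · cases tMo n prog z
    · rfl
    · simp only [if_true, List.map_cons, List.map_nil, List.sum_cons, List.sum_nil, add_zero]
      rfl
  · refine Finset.sum_congr rfl fun x _ => ?_
    have h1 : (mkEnv n prog).isOp z (.b4 x) = decide ((x : ℕ) ≤ z ∧ (z : ℕ) < x + tR n prog) := rfl
    rw [h1]
    by_cases h : (x : ℕ) ≤ z ∧ (z : ℕ) < x + tR n prog
    · rw [if_pos h, if_pos (decide_eq_true h)]
      rfl
    · rw [if_neg h, if_neg (by simpa using h)]

end

/-- One lane. -/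
theorem fl_lane (n : ℕ) (prog : List Instr) (z : Fin (mkEnv n prog).Z) (B : ℕ) (a : Bool) :
    ((laneList B ((mkEnv n prog).m (.nu z)) ((mkEnv n prog).m (.s z a))
      (blkList (tR n prog) (tX n prog) (pA n prog) (tCl n prog) (pPrimes n prog)
        (tMo n prog z) z)
      (opList (tR n prog) (tX n prog) (pA n prog) (tCl n prog) (pPrimes n prog)
        (tMo n prog z) z) : List ℕ) : Multiset ℕ) =
    {B * (mkEnv n prog).Mod (Env.RJ.lab z a : (mkEnv n prog).RJ).supp} +
    ((∑ b, ∑ e, ∑ c, {B * (mkEnv n prog).Mod (Env.RJ.main z a b e c : (mkEnv n prog).RJ).supp}) +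
      (∑ b, ∑ e, ∑ c, {B * (mkEnv n prog).Mod (Env.RJ.res z a b e c : (mkEnv n prog).RJ).supp}) +
      ∑ o, ∑ e, {B * (mkEnv n prog).Mod (Env.RJ.fila z a o e : (mkEnv n prog).RJ).supp}) := by
  rw [laneList, ← Multiset.coe_add, ← Multiset.coe_add, fl_coe_flatMap, fl_coe_flatMap]
  simp only [← Multiset.coe_add, Multiset.coe_replicate]
  rw [fl_blk n prog z (fun b => Multiset.replicate (((mkEnv n prog).m (.s z a) - 1) * b.1)
      (B * ((mkEnv n prog).m (.s z a) * b.2)) +
      Multiset.replicate (((mkEnv n prog).m (.nu z) - 1) * b.1)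
      (B * ((mkEnv n prog).m (.nu z) * ((mkEnv n prog).m (.s z a) * b.2))))
      (fun y => by simp), fl_op]
  simp only [Env.RJ.supp, fl_mod_lab, fl_mod_main, fl_mod_res, Finset.sum_const,
    Finset.card_univ, Fintype.card_fin, Finset.sum_add_distrib, Multiset.nsmul_singleton,
    Multiset.nsmul_replicate]
  rfl

/-- The list contains the frequencies of the jobs of the environment. -/
theorem freqList_eq (n : ℕ) (prog : List Instr) (hn : 0 < n) (hp : prog ≠ []) :
    (Finset.univ : Finset ((mkEnv n prog).Job (pB n prog))).val.map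
      ((mkEnv n prog).freq (pB n prog) (tAl n)) = (freqList n prog : Multiset ℕ) := by
  rw [fl_univ_map, Fintype.sum_sum_type, Fintype.sum_sum_type, fl_sumRJ, freqList]
  simp only [← Multiset.coe_add, fl_coe_flatMap, fl_coe_map]
  congr 1
  · simp only [Env.freq, Finset.sum_const, Finset.card_univ, Fintype.card_fin,
      Multiset.nsmul_singleton, Multiset.coe_replicate]
    rfl
  congr 1
  · rw [fl_range]
    refine Finset.sum_congr rfl fun z _ => ?_
    rw [Fintype.sum_bool]
    have h1 := fl_lane n prog z (pB n prog) false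
    have h2 := fl_lane n prog z (pB n prog) true
    have h3 := fl_op n prog z (fun o => Multiset.replicate ((mkEnv n prog).m (.nu z) - 2)
      (pB n prog * ((mkEnv n prog).m (.nu z) * o)))
    simp only [Env.freq]
    rw [← h1, ← h2, add_comm (Multiset.ofList _) (Multiset.ofList _), add_assoc]
    congr 1
    congr 1
    simp only [Multiset.coe_replicate]
    refine Eq.trans ?_ h3.symm
    simp only [Env.RJ.supp, fl_mod_filb, Finset.sum_const, Finset.card_univ, Fintype.card_fin,
      Multiset.nsmul_singleton]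
  · rw [Fintype.sum_sum_type, fl_range, fl_range]
    congr 1
    · refine Finset.sum_congr rfl fun x _ => ?_
      simp only [Env.freq, fl_mod_inl]
      rfl
    · refine Finset.sum_congr rfl fun t _ => ?_
      simp only [Env.freq, fl_mod_inr]
      rfl

/-! ### Polynomial time -/

section

variable {α β : Type*} [TEnc α] [TEnc β]

theorem pf_getD {n : α → ℕ} {l : α → List β} {d : α → β} (hn : PolyF n) (hl : PolyF l)
    (hd : PolyF d) : PolyF (fun x => (l x).getD (n x) (d x)) :=
  ((hn.getElem? hl).getD hd).congr fun x => by rw [List.getD_eq_getElem?_getD]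

theorem pf_headD {l : α → List β} {d : α → β} (hl : PolyF l) (hd : PolyF d) :
    PolyF (fun x => (l x).headD (d x)) :=
  (hl.head?.getD hd).congr fun x => by rw [List.headD_eq_head?_getD]

theorem pf_replicate {n : α → ℕ} {b : α → β} (hn : PolyF n) (hb : PolyF b) :
    PolyF (fun x => List.replicate (n x) (b x)) :=
  (hn.range.map (h := fun x _ => b x) (hb.comp .fst')).congr fun x => by
    rw [List.map_const', List.length_range]

theorem pf_tA {n g : α → ℕ} (hn : PolyF n) (hg : PolyF g) : PolyF (fun x => tA (n x) (g x)) :=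
  (PolyF.const 9).natMul (hn.natSub hg)

theorem pf_tK {n : α → ℕ} (hn : PolyF n) : PolyF (fun x => tK (n x)) :=
  ((PolyF.const 2).natMul hn).succ

theorem pf_tZ {n : α → ℕ} (hn : PolyF n) : PolyF (fun x => tZ (n x)) :=
  (pf_tK hn).natMul ((PolyF.const 9).natMul hn)

theorem pf_tS {n : α → ℕ} (hn : PolyF n) : PolyF (fun x => tS (n x)) :=
  ((pf_tK hn).natAdd (.const 2)).natMul ((PolyF.const 9).natMul hn)

theorem pf_uH {n g : α → ℕ} (hn : PolyF n) (hg : PolyF g) : PolyF (fun x => uH (n x) (g x)) :=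
  ((pf_tZ hn).succ).natSub ((pf_tK hn).natMul (pf_tA hn hg))

theorem pf_vH {n g : α → ℕ} (hn : PolyF n) (hg : PolyF g) : PolyF (fun x => vH (n x) (g x)) :=
  (pf_uH hn hg).natAdd (pf_tS hn)

theorem pf_tLam {n : α → ℕ} (hn : PolyF n) : PolyF (fun x => tLam (n x)) :=
  (((pf_tS hn).natDiv (.const 9)).natAdd (pf_tK hn)).natAdd (.const 10)

theorem pf_climb {n g i : α → ℕ} {C : α → List ℕ} (hn : PolyF n) (hC : PolyF C) (hg : PolyF g)
    (hi : PolyF i) : PolyF (fun x => climb (n x) (C x) (g x) (i x)) := by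
  refine PolyF.ite ((hi.natAdd (.const 2)).natLe (pf_tK hn))
    ((pf_tZ hn).succ.natSub (((pf_tK hn).natSub hi).natMul (pf_tA hn hg))) ?_
  refine PolyF.ite (hi.succ.natEq (pf_tK hn)) ?_ ?_
  · exact PolyF.ite (.mem hg hC) ((pf_tZ hn).succ.natSub (pf_tA hn hg))
      (((pf_tZ hn).succ.natSub (pf_tA hn hg)).natSub (.const 3))
  refine PolyF.ite (hi.natEq (pf_tK hn)) ?_ (pf_uH hn hg)
  exact PolyF.ite (hg.natEq (.const 0)) ((pf_tZ hn).natAdd (.const 4)) (pf_uH hn hg)

theorem pf_slot {n g i : α → ℕ} {ins : α → Instr} {v : α → Bool} (hn : PolyF n)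
    (hs : PolyF ins) (hi : PolyF i) (hg : PolyF g) (hv : PolyF v) :
    PolyF (fun x => slot (n x) (ins x) (i x) (g x) (v x)) := by
  refine PolyF.ite ((hi.natAdd (.const 2)).natEq (pf_tLam hn)) ?_ ?_
  · exact (PolyF.iteBool hv (pf_vH hn hg) (pf_uH hn hg)).natAdd (pf_tA hn hg)
  refine PolyF.iteBool hv ?_ ?_
  · refine PolyF.ite (hs.fst.natEq (.const 0)) ?_ ?_
    · refine PolyF.ite (((hg.natEq (pf_headD hs.snd (.const 0)))).decide_and
        (((PolyF.const 0).natLt hi).decide_and ((hi.natAdd (.const 2)).natLt (pf_tLam hn)))) ?_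
        (pf_vH hn hg)
      exact (pf_vH hn hg).natMin (((pf_uH hn hg).natAdd (hi.natMul (pf_tA hn hg))).natSub
        (.const 4))
    refine PolyF.ite (hs.fst.natEq (.const 1)) (pf_vH hn hg) ?_
    exact (pf_climb hn hs.snd hg hi).natAdd (pf_tS hn)
  · exact PolyF.ite (hs.fst.natEq (.const 1)) (pf_climb hn hs.snd hg hi) (pf_uH hn hg)

theorem pf_tR {n : α → ℕ} {prog : α → List Instr} (hn : PolyF n) (hp : PolyF prog) :
    PolyF (fun x => tR (n x) (prog x)) := (pf_tLam hn).natMul hp.length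

theorem pf_tCl {n : α → ℕ} {prog : α → List Instr} (hn : PolyF n) (hp : PolyF prog) :
    PolyF (fun x => tCl (n x) (prog x)) :=
  (pf_tR hn hp).natMul (((pf_tZ hn).natAdd (pf_tS hn)).natAdd (.const 6))

theorem pf_tMo {n z : α → ℕ} {prog : α → List Instr} (hn : PolyF n) (hp : PolyF prog)
    (hz : PolyF z) : PolyF (fun x => tMo (n x) (prog x) (z x)) := by
  have key : ∀ v : Bool, PolyF (fun q : α × ℕ => decide (z q.1 / tR (n q.1) (prog q.1) =
      slot (n q.1) ((prog q.1).getD (z q.1 % tR (n q.1) (prog q.1) / tLam (n q.1)) (1, []))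
        (z q.1 % tR (n q.1) (prog q.1) % tLam (n q.1)) q.2 v)) := fun v => by
    have hn' : PolyF (fun q : α × ℕ => n q.1) := hn.comp .fst'
    have hz' : PolyF (fun q : α × ℕ => z q.1) := hz.comp .fst'
    have hp' : PolyF (fun q : α × ℕ => prog q.1) := hp.comp .fst'
    have hR := pf_tR hn' hp'
    refine (hz'.natDiv hR).natEq (pf_slot hn' (pf_getD ((hz'.natMod hR).natDiv (pf_tLam hn')) hp'
      (.const _)) ((hz'.natMod hR).natMod (pf_tLam hn')) .snd' (.const v))
  refine PolyF.existsLt (p := fun x g => ∃ v : Bool, z x / tR (n x) (prog x) =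
    slot (n x) ((prog x).getD (z x % tR (n x) (prog x) / tLam (n x)) (1, []))
      (z x % tR (n x) (prog x) % tLam (n x)) g v) hn ?_
  exact ((key false).decide_or (key true)).decide_congr fun q => by
    rw [Bool.exists_bool]

theorem pf_tX {n : α → ℕ} {prog : α → List Instr} (hn : PolyF n) (hp : PolyF prog) :
    PolyF (fun x => tX (n x) (prog x)) := (pf_tCl hn hp).succ.natSub (pf_tR hn hp)

theorem pf_pA {n : α → ℕ} {prog : α → List Instr} (hn : PolyF n) (hp : PolyF prog) :
    PolyF (fun x => pA (n x) (prog x)) := ((pf_tR hn hp).natMul (pf_tX hn hp)).succ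

theorem pf_pD {n : α → ℕ} {prog : α → List Instr} (hn : PolyF n) (hp : PolyF prog) :
    PolyF (fun x => pD (n x) (prog x)) :=
  ((PolyF.const 2).natMul (((pf_tR hn hp).natMul (((PolyF.const 9).natMul hn).natAdd
    (.const 3))).succ)).succ

theorem pf_pB {n : α → ℕ} {prog : α → List Instr} (hn : PolyF n) (hp : PolyF prog) :
    PolyF (fun x => pB (n x) (prog x)) :=
  ((PolyF.const 2).natMul (pf_tCl hn hp)).natMul (pf_pD hn hp).succ

theorem pf_pPrimes {n : α → ℕ} {prog : α → List Instr} (hn : PolyF n) (hp : PolyF prog) :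
    PolyF (fun x => pPrimes (n x) (prog x)) := by
  have h1 : PolyF (fun x => 2 + 3 * tCl (n x) (prog x) + tX (n x) (prog x)) :=
    ((PolyF.const 2).natAdd ((PolyF.const 3).natMul (pf_tCl hn hp))).natAdd (pf_tX hn hp)
  have h2 : PolyF (fun x => pA (n x) (prog x) + 16 + 2 * (pB (n x) (prog x) + pD (n x) (prog x)) *
      (tX (n x) (prog x) + 2 * n x)) :=
    ((pf_pA hn hp).natAdd (.const 16)).natAdd ((((PolyF.const 2).natMul ((pf_pB hn hp).natAdd
      (pf_pD hn hp)))).natMul ((pf_tX hn hp).natAdd ((PolyF.const 2).natMul hn)))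
  exact polyF_sel.comp ((pf_tR hn hp).pair (h1.pair h2))

theorem pf_cList {R X z : α → ℕ} (hR : PolyF R) (hX : PolyF X) (hz : PolyF z) :
    PolyF (fun x => cList (R x) (X x) (z x)) := by
  refine hX.range.filterProp (p := fun x y => y ≤ z x ∧ z x < y + R x) ?_
  exact (PolyF.snd'.natLe (hz.comp .fst')).decide_and
    ((hz.comp .fst').natLt (PolyF.snd'.natAdd (hR.comp .fst')))

theorem pf_blk {R X A Z z : α → ℕ} {ps : α → List ℕ} {mo : α → Bool} (hR : PolyF R)
    (hX : PolyF X) (hA : PolyF A) (hZ : PolyF Z) (hps : PolyF ps) (hmo : PolyF mo)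
    (hz : PolyF z) : PolyF (fun x => blkList (R x) (X x) (A x) (Z x) (ps x) (mo x) (z x)) := by
  have hk : PolyF (fun x => (ps x).getD 0 0) := pf_getD (.const 0) hps (.const 0)
  have hM : PolyF (fun x => (ps x).getD (1 + 3 * Z x + X x) 0) :=
    pf_getD (((PolyF.const 1).natAdd ((PolyF.const 3).natMul hZ)).natAdd hX) hps (.const 0)
  have hx : PolyF (fun q : α × ℕ => (ps q.1).getD (1 + 3 * Z q.1 + q.2) 0) :=
    pf_getD (((PolyF.const 1).natAdd ((PolyF.const 3).natMul (hZ.comp .fst'))).natAdd .snd')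
      (hps.comp .fst') (.const 0)
  have hC := pf_cList hR hX hz
  refine PolyF.append ?_ (hC.map ?_)
  · refine PolyF.cons (hR.pred.pair hR) (PolyF.cons (PolyF.pair (hk.pred.natSub
      (.iteBool hmo (.const 1) (.const 0))) (hR.natMul hk)) (PolyF.cons ((hA.natSub hC.length).pair
      ((hR.natMul hk).natMul hA)) (PolyF.singleton (PolyF.pair (.iteBool hmo hM.pred (.const 0))
      ((hR.natMul hk).natMul hM)))))
  · exact hx.pred.pair ((((hR.comp .fst').natMul (hk.comp .fst')).natMul (hA.comp .fst')).natMul hx)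

theorem pf_op {R X A Z z : α → ℕ} {ps : α → List ℕ} {mo : α → Bool} (hR : PolyF R)
    (hX : PolyF X) (hA : PolyF A) (hZ : PolyF Z) (hps : PolyF ps) (hmo : PolyF mo)
    (hz : PolyF z) : PolyF (fun x => opList (R x) (X x) (A x) (Z x) (ps x) (mo x) (z x)) := by
  have hk : PolyF (fun x => (ps x).getD 0 0) := pf_getD (.const 0) hps (.const 0)
  have hM : PolyF (fun x => (ps x).getD (1 + 3 * Z x + X x) 0) :=
    pf_getD (((PolyF.const 1).natAdd ((PolyF.const 3).natMul hZ)).natAdd hX) hps (.const 0)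
  have hx : PolyF (fun q : α × ℕ => (ps q.1).getD (1 + 3 * Z q.1 + q.2) 0) :=
    pf_getD (((PolyF.const 1).natAdd ((PolyF.const 3).natMul (hZ.comp .fst'))).natAdd .snd')
      (hps.comp .fst') (.const 0)
  have hC := pf_cList hR hX hz
  exact PolyF.append (hC.map ((((hR.comp .fst').natMul (hk.comp .fst')).natMul
    (hA.comp .fst')).natMul hx)) (.iteBool hmo (.singleton ((hR.natMul hk).natMul hM)) .nil)

theorem pf_lane {B nu s : α → ℕ} {blk : α → List (ℕ × ℕ)} {op : α → List ℕ} (hB : PolyF B)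
    (hnu : PolyF nu) (hs : PolyF s) (hblk : PolyF blk) (hop : PolyF op) :
    PolyF (fun x => laneList (B x) (nu x) (s x) (blk x) (op x)) := by
  refine PolyF.append (.singleton (hB.natMul (hnu.natMul hs))) (PolyF.append (hblk.flatMap ?_)
    (hop.flatMap ?_))
  · have hB' : PolyF (fun q : α × (ℕ × ℕ) => B q.1) := hB.comp .fst'
    have hs' : PolyF (fun q : α × (ℕ × ℕ) => s q.1) := hs.comp .fst'
    have hn' : PolyF (fun q : α × (ℕ × ℕ) => nu q.1) := hnu.comp .fst'
    have h1 : PolyF (fun q : α × (ℕ × ℕ) => q.2.1) := PolyF.snd'.fst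
    have h2 : PolyF (fun q : α × (ℕ × ℕ) => q.2.2) := PolyF.snd'.snd
    exact (pf_replicate (hs'.pred.natMul h1) (hB'.natMul (hs'.natMul h2))).append
      (pf_replicate (hn'.pred.natMul h1) (hB'.natMul (hn'.natMul (hs'.natMul h2))))
  · have hB' : PolyF (fun q : α × ℕ => B q.1) := hB.comp .fst'
    have hs' : PolyF (fun q : α × ℕ => s q.1) := hs.comp .fst'
    have hn' : PolyF (fun q : α × ℕ => nu q.1) := hnu.comp .fst'
    exact pf_replicate hs'.pred (hB'.natMul (hn'.natMul (hs'.natMul .snd')))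

end

theorem polyF_freqList : PolyF (fun a : ℕ × List Instr => freqList a.1 a.2) := by
  have hn : PolyF (fun a : ℕ × List Instr => a.1) := .fst'
  have hp : PolyF (fun a : ℕ × List Instr => a.2) := .snd'
  have hps := pf_pPrimes hn hp
  have hR := pf_tR hn hp
  have hZ := pf_tCl hn hp
  have hX := pf_tX hn hp
  have hA := pf_pA hn hp
  have hB := pf_pB hn hp
  refine PolyF.append (pf_replicate (hB.natSub ((PolyF.const 2).natMul hZ)) hB)
    (PolyF.append (hZ.range.flatMap ?_) (PolyF.append (hX.range.map ?_)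
      (((PolyF.const 2).natMul hn).range.map ?_)))
  · have hn' : PolyF (fun q : (ℕ × List Instr) × ℕ => q.1.1) := hn.comp .fst'
    have hp' : PolyF (fun q : (ℕ × List Instr) × ℕ => q.1.2) := hp.comp .fst'
    have hps' := pf_pPrimes hn' hp'
    have hZ' := pf_tCl hn' hp'
    have hB' := pf_pB hn' hp'
    have hz' : PolyF (fun q : (ℕ × List Instr) × ℕ => q.2) := .snd'
    have hmo := pf_tMo hn' hp' hz'
    have hblk := pf_blk (pf_tR hn' hp') (pf_tX hn' hp') (pf_pA hn' hp') hZ' hps' hmo hz'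
    have hop := pf_op (pf_tR hn' hp') (pf_tX hn' hp') (pf_pA hn' hp') hZ' hps' hmo hz'
    have hnu : PolyF (fun q : (ℕ × List Instr) × ℕ => (pPrimes q.1.1 q.1.2).getD (1 + q.2) 0) :=
      pf_getD ((PolyF.const 1).natAdd hz') hps' (.const 0)
    have hs : ∀ e : ℕ, PolyF (fun q : (ℕ × List Instr) × ℕ =>
        (pPrimes q.1.1 q.1.2).getD (1 + tCl q.1.1 q.1.2 + (2 * q.2 + e)) 0) := fun e =>
      pf_getD (((PolyF.const 1).natAdd hZ').natAdd (((PolyF.const 2).natMul hz').natAdd
        (.const e))) hps' (.const 0)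
    refine PolyF.append (pf_lane hB' hnu (hs 0) hblk hop) (PolyF.append
      (pf_lane hB' hnu (hs 1) hblk hop) (hop.flatMap ?_))
    exact pf_replicate ((hnu.comp .fst').natSub (.const 2))
      ((hB'.comp .fst').natMul ((hnu.comp .fst').natMul .snd'))
  · have hk : PolyF (fun q : (ℕ × List Instr) × ℕ => (pPrimes q.1.1 q.1.2).getD 0 0) :=
      pf_getD (.const 0) (hps.comp .fst') (.const 0)
    have hx : PolyF (fun q : (ℕ × List Instr) × ℕ =>
        (pPrimes q.1.1 q.1.2).getD (1 + 3 * tCl q.1.1 q.1.2 + q.2) 0) :=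
      pf_getD (((PolyF.const 1).natAdd ((PolyF.const 3).natMul (hZ.comp .fst'))).natAdd .snd')
        (hps.comp .fst') (.const 0)
    exact ((hB.comp .fst').natMul ((hk.natMul (hA.comp .fst')).natMul hx)).natAdd (.const 3)
  · have hk : PolyF (fun q : (ℕ × List Instr) × ℕ => (pPrimes q.1.1 q.1.2).getD 0 0) :=
      pf_getD (.const 0) (hps.comp .fst') (.const 0)
    have hM : PolyF (fun q : (ℕ × List Instr) × ℕ =>
        (pPrimes q.1.1 q.1.2).getD (1 + 3 * tCl q.1.1 q.1.2 + tX q.1.1 q.1.2) 0) :=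
      pf_getD (((PolyF.const 1).natAdd ((PolyF.const 3).natMul (hZ.comp .fst'))).natAdd
        (hX.comp .fst')) (hps.comp .fst') (.const 0)
    have hal : PolyF (fun q : (ℕ × List Instr) × ℕ => tAl q.1.1 q.2) :=
      (pf_tA (hn.comp .fst') (PolyF.snd'.natDiv (.const 2))).natAdd
        ((PolyF.const 3).natMul (PolyF.snd'.natMod (.const 2)))
    exact ((hB.comp .fst').natMul (hk.natMul hM)).natAdd
      (((PolyF.const 2).natMul (((hR.comp .fst').natMul hal).succ)).succ)

end Pool.Agent.Lib.Pinwheel
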