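import Pool.Agent.Lib.Pinwheel.ChainDefs
import Pool.Agent.Lib.PolyTime.ListOps
import Pool.Agent.Lib.PolyTime.EqOps

/-!
# The program is computable in polynomial time
-/

namespace Pool.Agent.Lib.Pinwheel

open Pool.Agent.Lib.PolyTime

section

variable {α : Type*} [TEnc α]

theorem pp_litBit {N : α → ℕ} {l : α → ℕ × Bool} (half : Bool) (hN : PolyF N) (hl : PolyF l) :
    PolyF (fun x => litBit (N x) half (l x)) := by
  have h2 : PolyF (fun x => 2 * N x) := (PolyF.const 2).natMul hN
  refine PolyF.ite (hl.fst.natLt hN) (PolyF.natAdd ?_ ?_) (PolyF.natAdd ?_ ?_)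
  · cases half
    · exact .const 0
    · exact h2
  · exact .iteBool hl.snd hl.fst (hN.natAdd hl.fst)
  · cases half
    · exact h2
    · exact .const 0
  · exact .iteBool hl.snd (hl.fst.natSub hN) hl.fst

theorem pp_half {N : α → ℕ} {cl : α → List (List (ℕ × Bool))} (half : Bool) (hN : PolyF N)
    (hcl : PolyF cl) : PolyF (fun x => halfProg (N x) (cl x) half) := by
  have hb : PolyF (fun q : α × ℕ => (if half then 0 else 2 * N q.1)) := by
    cases half
    · exact (PolyF.const 2).natMul (hN.comp .fst')
    · exact .const 0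
  have h1 : PolyF (fun q : α × ℕ => (if half then 0 else 2 * N q.1) + q.2) := hb.natAdd .snd'
  have h2 : PolyF (fun q : α × ℕ => (if half then 0 else 2 * N q.1) + (N q.1 + q.2)) :=
    hb.natAdd ((hN.comp .fst').natAdd .snd')
  refine PolyF.append (hN.range.flatMap ?_) (PolyF.append (hN.range.flatMap ?_) (hcl.map ?_))
  · exact PolyF.cons ((PolyF.const 0).pair h1.singleton)
      (PolyF.singleton ((PolyF.const 0).pair h2.singleton))
  · exact PolyF.cons ((PolyF.const 1).pair (h1.cons h2.singleton))
      (PolyF.singleton ((PolyF.const 2).pair (h1.cons h2.singleton)))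
  · exact (PolyF.const 1).pair (PolyF.map (h := fun (q : α × List (ℕ × Bool)) b =>
      litBit (N q.1) half b) .snd' (pp_litBit half (hN.comp (.comp .fst' .fst')) .snd'))

end

theorem polyF_progOf :
    PolyF (fun a : ℕ × List (List (ℕ × Bool)) => (4 * a.1, progOf a.1 a.2)) :=
  ((PolyF.const 4).natMul .fst').pair ((pp_half false .fst' .snd').append
    (pp_half true .fst' .snd'))

end Pool.Agent.Lib.Pinwheel
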