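import Pool.Agent.Lib.Pinwheel.SpaceCl
import Pool.Agent.Lib.Pinwheel.ChainDefs

/-!
# Chains of assignments and runs of a local rule
-/

namespace Pool.Agent.Lib.Pinwheel.Sp

open Pool.Agent.Lib.CookLevin Pool.Agent.Lib.CookLevin.Rule

variable (R : Rule)

/-- the first row -/
def row0 (W : ℕ) (ini : List (List Bool)) : ℕ → List Bool :=
  fun i => if i < W then ini.getD i [] else R.bl

theorem chainRun_iff (W m : ℕ) (hW : 0 < W) (ini : List (List Bool)) (T : ℕ) (σ : ℕ → ℕ → Bool) :
    ChainRun (nv R W m) (cls R W m ini) T σ ↔ ∀ t < T, Sem R W m ini (σ t) (σ (t + 1)) := by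
  constructor
  · intro h t ht
    exact (sem R W m hW ini (σ t) (σ (t + 1))).1 (h t ht)
  · intro h t ht
    exact (sem R W m hW ini (σ t) (σ (t + 1))).2 (h t ht)

/-- the value of the clock -/
def val (W m : ℕ) (s : ℕ → Bool) : ℕ := Nat.ofBits fun i : Fin m => s ((W + 1) * R.b + i)

theorem val_lt (W m : ℕ) (s : ℕ → Bool) : val R W m s < 2 ^ m := Nat.ofBits_lt_two_pow _

theorem val_lt_val {W m : ℕ} {ini : List (List Bool)} {s s' : ℕ → Bool}
    (h : Sem R W m ini s s') (ha : R.acc (cell R.b s 0) = false) :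
    val R W m s < val R W m s' := by
  obtain ⟨i, hi, hs⟩ := h.clk ha
  obtain ⟨h1, h2, h3⟩ := h.inc i hi hs
  refine Nat.lt_of_testBit i ?_ ?_ fun j hj => ?_
  · rw [val, Nat.testBit_ofBits_lt _ _ hi]
    exact h1
  · rw [val, Nat.testBit_ofBits_lt _ _ hi]
    exact h2
  · by_cases hjm : j < m
    · rw [val, val, Nat.testBit_ofBits_lt _ _ hjm, Nat.testBit_ofBits_lt _ _ hjm]
      exact h3 j hjm hj
    · rw [val, val, Nat.testBit_ofBits_ge _ _ (by omega), Nat.testBit_ofBits_ge _ _ (by omega)]

theorem exists_acc {W m : ℕ} {ini : List (List Bool)} {T : ℕ} {σ : ℕ → ℕ → Bool}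
    (h : ∀ t < T, Sem R W m ini (σ t) (σ (t + 1))) (a : ℕ) (ha : a + 2 ^ m ≤ T) :
    ∃ t, a ≤ t ∧ t < a + 2 ^ m ∧ R.acc (cell R.b (σ t) 0) = true := by
  by_contra hcon
  push Not at hcon
  have key : ∀ k ≤ 2 ^ m, k ≤ val R W m (σ (a + k)) := by
    intro k
    induction k with
    | zero => intro _; exact Nat.zero_le _
    | succ k ih =>
      intro hk
      have h1 := ih (by omega)
      have h2 := val_lt_val R (h (a + k) (by omega)) (by
        have := hcon (a + k) (by omega) (by omega)
        simpa using this)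
      rw [show a + (k + 1) = a + k + 1 by omega]
      omega
  have h1 := key (2 ^ m) le_rfl
  have h2 := val_lt R W m (σ (a + 2 ^ m))
  omega

theorem sound (W m : ℕ) (hW : 0 < W) (ini : List (List Bool))
    (h : ∀ T, ∃ σ, ChainRun (nv R W m) (cls R W m ini) T σ) :
    ∃ n, R.acc ((R.next W)^[n] (row0 R W ini) 0) = true := by
  obtain ⟨σ, hσ⟩ := h (2 * 2 ^ m)
  rw [chainRun_iff R W m hW] at hσ
  obtain ⟨t1, -, h1, ha1⟩ := exists_acc R hσ 0 (by omega)
  have hex : ∃ k, R.acc (cell R.b (σ (t1 + 1 + k)) 0) = true := by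
    obtain ⟨t, ht, -, ht2⟩ := exists_acc R hσ (t1 + 1) (by omega)
    exact ⟨t - (t1 + 1), by rw [Nat.add_sub_cancel' ht]; exact ht2⟩
  classical
  set n := Nat.find hex with hn
  have hna : R.acc (cell R.b (σ (t1 + 1 + n)) 0) = true := Nat.find_spec hex
  have hmin : ∀ k < n, R.acc (cell R.b (σ (t1 + 1 + k)) 0) = false := by
    intro k hk
    have := Nat.find_min hex hk
    simpa using this
  have hnlt : t1 + 1 + n < 2 * 2 ^ m := by
    obtain ⟨t, ht, ht1, ht2⟩ := exists_acc R hσ (t1 + 1) (by omega)
    have : n ≤ t - (t1 + 1) := Nat.find_min' hex (by rw [Nat.add_sub_cancel' ht]; exact ht2)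
    omega
  have key : ∀ k ≤ n, ∀ i ≤ W, cell R.b (σ (t1 + 1 + k)) (i * R.b) =
      (R.next W)^[k] (row0 R W ini) i := by
    intro k
    induction k with
    | zero =>
      intro _ i hi
      rw [Function.iterate_zero, id, row0]
      rcases hi.lt_or_eq with h2 | h2
      · rw [if_pos h2]
        exact (hσ t1 (by omega)).rest ha1 i h2
      · rw [h2, if_neg (lt_irrefl W)]
        exact (hσ (t1 + 1) (by omega)).edge
    | succ k ih =>
      intro hk i hi
      have ih := ih (by omega)
      have ha := hmin k (by omega)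
      have hS := hσ (t1 + 1 + k) (by omega)
      rw [Function.iterate_succ_apply', next, show t1 + 1 + (k + 1) = t1 + 1 + k + 1 by omega]
      rcases hi.lt_or_eq with h2 | h2
      · rw [if_pos h2]
        rcases Nat.eq_zero_or_pos i with h3 | h3
        · rw [if_pos h3, h3, zero_mul, hS.zero ha]
          have e0 := ih 0 (Nat.zero_le W)
          have e1 := ih 1 hW
          rw [zero_mul] at e0
          rw [one_mul] at e1
          rw [e0, e1]
        · rw [if_neg h3.ne']
          obtain ⟨i, rfl⟩ : ∃ j, i = j + 1 := ⟨i - 1, by omega⟩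
          have e0 := ih 0 (Nat.zero_le W)
          rw [zero_mul] at e0
          rw [hS.step ha i (by omega), e0, ih i (by omega), ih (i + 1) (by omega),
            ih (i + 2) (by omega)]
          rfl
      · rw [h2, if_neg (lt_irrefl W)]
        exact (hσ (t1 + 1 + k + 1) (by omega)).edge
  refine ⟨n, ?_⟩
  have e0 := key n le_rfl 0 (Nat.zero_le W)
  rw [zero_mul] at e0
  rw [← e0]
  exact hna

/-! ### completeness -/

theorem exists_carry (r : ℕ) : ∃ i, r.testBit i = false ∧ (r + 1).testBit i = true ∧
    ∀ j, i < j → r.testBit j = (r + 1).testBit j := by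
  induction r using Nat.strong_induction_on with
  | _ r ih =>
    rcases Nat.even_or_odd r with he | ho
    · have h2 : r % 2 = 0 := Nat.even_iff.1 he
      refine ⟨0, ?_, ?_, fun j hj => ?_⟩
      · rw [Nat.testBit_zero]; simp [h2]
      · rw [Nat.testBit_zero]; simp; omega
      · obtain ⟨j, rfl⟩ : ∃ k, j = k + 1 := ⟨j - 1, by omega⟩
        rw [Nat.testBit_succ, Nat.testBit_succ, show (r + 1) / 2 = r / 2 by omega]
    · have h2 : r % 2 = 1 := Nat.odd_iff.1 ho
      obtain ⟨i, h3, h4, h5⟩ := ih (r / 2) (by omega)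
      have h6 : (r + 1) / 2 = r / 2 + 1 := by omega
      refine ⟨i + 1, ?_, ?_, fun j hj => ?_⟩
      · rw [Nat.testBit_succ]; exact h3
      · rw [Nat.testBit_succ, h6]; exact h4
      · obtain ⟨j, rfl⟩ : ∃ k, j = k + 1 := ⟨j - 1, by omega⟩
        rw [Nat.testBit_succ, Nat.testBit_succ, h6]
        exact h5 j (by omega)

/-- the assignment number `r` -/
noncomputable def asg (W m : ℕ) (c : ℕ → List Bool) (n r v : ℕ) : Bool :=
  if v < (W + 1) * R.b then ((R.next W)^[r] c (v / R.b)).getD (v % R.b) false
  else if v < (W + 1) * R.b + m then r.testBit (v - (W + 1) * R.b)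
  else decide (r < n ∧ v = (W + 1) * R.b + m + (exists_carry r).choose)

theorem cell_asg {W m : ℕ} {c : ℕ → List Bool} (hc : ∀ i, (c i).length = R.b) {n r i : ℕ}
    (hi : i ≤ W) : cell R.b (asg R W m c n r) (i * R.b) = (R.next W)^[r] c i := by
  have hlen := R.length_iterate (W := W) hc r
  apply List.ext_getElem
  · rw [length_cell, hlen]
  · intro j hj hj'
    rw [length_cell] at hj
    simp only [cell, List.getElem_map, List.getElem_range, asg]
    have hb : 0 < R.b := by omega
    have h0 : i * R.b + j < (W + 1) * R.b := by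
      calc i * R.b + j < i * R.b + R.b := by omega
        _ = (i + 1) * R.b := by ring
        _ ≤ (W + 1) * R.b := Nat.mul_le_mul_right _ (by omega)
    have h1 : (i * R.b + j) / R.b = i := by
      rw [mul_comm, Nat.mul_add_div hb, Nat.div_eq_of_lt hj, add_zero]
    have h2 : (i * R.b + j) % R.b = j := by
      rw [mul_comm, Nat.mul_add_mod, Nat.mod_eq_of_lt hj]
    rw [if_pos h0, h1, h2, List.getD_eq_getElem _ _ hj']

theorem iterate_blank {W : ℕ} {c : ℕ → List Bool} (hbl : ∀ i, W ≤ i → c i = R.bl) (r i : ℕ)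
    (hi : W ≤ i) : (R.next W)^[r] c i = R.bl := by
  cases r with
  | zero => exact hbl i hi
  | succ r => rw [Function.iterate_succ_apply', next, if_neg (by omega)]

theorem complete (W m : ℕ) (hW : 0 < W) (ini : List (List Bool))
    (hini : ∀ i, i < W → (ini.getD i []).length = R.b) (n : ℕ)
    (hn : R.acc ((R.next W)^[n] (row0 R W ini) 0) = true)
    (hmin : ∀ k < n, R.acc ((R.next W)^[k] (row0 R W ini) 0) = false) (hnm : n < 2 ^ m) :
    ∃ σ, ∀ T, ChainRun (nv R W m) (cls R W m ini) T σ := by
  set c := row0 R W ini with hcdef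
  have hc : ∀ i, (c i).length = R.b := by
    intro i
    simp only [hcdef, row0]
    split_ifs with h
    · exact hini i h
    · exact R.hbl
  have hbl : ∀ i, W ≤ i → c i = R.bl := by
    intro i hi
    simp only [hcdef, row0]
    rw [if_neg (by omega)]
  refine ⟨fun t => asg R W m c n (t % (n + 1)), fun T => ?_⟩
  rw [chainRun_iff R W m hW]
  intro t _
  have hr : t % (n + 1) ≤ n := Nat.le_of_lt_succ (Nat.mod_lt _ (Nat.succ_pos n))
  set r := t % (n + 1) with hrdef
  have hsucc : r < n → (t + 1) % (n + 1) = r + 1 := by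
    intro h
    rw [Nat.add_mod, ← hrdef]
    rcases Nat.eq_zero_or_pos n with h0 | h0
    · omega
    · rw [Nat.mod_eq_of_lt (a := 1) (by omega), Nat.mod_eq_of_lt (by omega)]
  have hwrap : r = n → (t + 1) % (n + 1) = 0 := by
    intro h
    rw [Nat.add_mod, ← hrdef, h]
    rcases Nat.eq_zero_or_pos n with h0 | h0
    · subst h0; simp
    · rw [Nat.mod_eq_of_lt (a := 1) (by omega), Nat.mod_self]
  have hcell : ∀ r' i, i ≤ W → cell R.b (asg R W m c n r') (i * R.b) = (R.next W)^[r'] c i :=
    fun r' i hi => cell_asg R hc hi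
  have hcell0 : ∀ r', cell R.b (asg R W m c n r') 0 = (R.next W)^[r'] c 0 := by
    intro r'
    have := hcell r' 0 (Nat.zero_le W)
    rwa [zero_mul] at this
  have hlt : R.acc (cell R.b (asg R W m c n r) 0) = false → r < n := by
    intro h
    rw [hcell0] at h
    rcases hr.lt_or_eq with h1 | h1
    · exact h1
    · rw [h1, hn] at h
      cases h
  constructor
  · rw [hcell r W le_rfl]
    exact iterate_blank R hbl r W le_rfl
  · intro ha
    have h1 := hlt ha
    rw [hsucc h1, hcell0, hcell0, Function.iterate_succ_apply', next, if_pos hW, if_pos rfl]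
    have := hcell r 1 hW
    rw [one_mul] at this
    rw [this]
  · intro ha i hi
    have h1 := hlt ha
    rw [hsucc h1, hcell (r + 1) (i + 1) (by omega), hcell0, hcell r i (by omega),
      hcell r (i + 1) (by omega), hcell r (i + 2) (by omega), Function.iterate_succ_apply', next,
      if_pos (by omega), if_neg (by omega)]
    rfl
  · intro ha i hi
    rw [hcell0] at ha
    have h1 : r = n := by
      rcases hr.lt_or_eq with h1 | h1
      · rw [hmin r h1] at ha
        cases ha
      · exact h1
    rw [hwrap h1, hcell 0 i hi.le, Function.iterate_zero, id]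
    simp only [hcdef, row0]
    rw [if_pos hi]
  · intro ha
    have h1 := hlt ha
    obtain ⟨h2, h3, h4⟩ := (exists_carry r).choose_spec
    have h5 : 2 ^ (exists_carry r).choose ≤ r + 1 := Nat.ge_two_pow_of_testBit h3
    have h6 : (exists_carry r).choose < m := by
      refine (Nat.pow_lt_pow_iff_right (a := 2) (by norm_num)).1 ?_
      omega
    refine ⟨(exists_carry r).choose, h6, ?_⟩
    simp only [asg]
    rw [if_neg (by omega), if_neg (by omega)]
    simp [h1]
  · intro i hi hs
    simp only [asg] at hs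
    rw [if_neg (by omega), if_neg (by omega), decide_eq_true_eq] at hs
    obtain ⟨h1, h2⟩ := hs
    have h3 : i = (exists_carry r).choose := by omega
    obtain ⟨h4, h5, h6⟩ := (exists_carry r).choose_spec
    rw [← h3] at h4 h5 h6
    rw [hsucc h1]
    have hb : ∀ r' j, j < m → asg R W m c n r' ((W + 1) * R.b + j) = r'.testBit j := by
      intro r' j hj
      simp only [asg]
      rw [if_neg (by omega), if_pos (by omega), Nat.add_sub_cancel_left]
    refine ⟨by rw [hb r i hi]; exact h4, by rw [hb (r + 1) i hi]; exact h5, fun j hj hij => ?_⟩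
    rw [hb r j hj, hb (r + 1) j hj]
    exact h6 j hij

theorem lt_two_pow {W : ℕ} {c : ℕ → List Bool} (hc : ∀ i, (c i).length = R.b)
    (hbl : ∀ i, W ≤ i → c i = R.bl) (n : ℕ) (hn : R.acc ((R.next W)^[n] c 0) = true)
    (hmin : ∀ k < n, R.acc ((R.next W)^[k] c 0) = false) : n < 2 ^ (R.b * W) := by
  let F : Fin (n + 1) → (Fin W → Fin R.b → Bool) := fun k i j =>
    ((R.next W)^[k.val] c i.val).getD j.val false
  have hF : ∀ k k' : Fin (n + 1), F k = F k' → (R.next W)^[k.val] c = (R.next W)^[k'.val] c := by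
    intro k k' h
    funext i
    by_cases hi : i < W
    · apply List.ext_getElem
      · rw [R.length_iterate hc, R.length_iterate hc]
      · intro j hj hj'
        have hjb : j < R.b := by rwa [R.length_iterate hc] at hj
        have := congrFun (congrFun h ⟨i, hi⟩) ⟨j, hjb⟩
        simp only [F] at this
        rwa [List.getD_eq_getElem _ _ hj, List.getD_eq_getElem _ _ hj'] at this
    · rw [iterate_blank R hbl _ i (by omega), iterate_blank R hbl _ i (by omega)]
  have hlt : ∀ k k' : Fin (n + 1), k < k' → F k ≠ F k' := by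
    intro k k' hk h
    have h1 := hF k k' h
    have h2 : (R.next W)^[n - (k'.val - k.val)] c = (R.next W)^[n] c := by
      have hk' := k'.2
      have hkk : k.val < k'.val := hk
      have e1 : n - (k'.val - k.val) = (n - k'.val) + k.val := by omega
      have e2 : n = (n - k'.val) + k'.val := by omega
      rw [e1]
      conv_rhs => rw [e2]
      rw [Function.iterate_add_apply, Function.iterate_add_apply, h1]
    have hkk : k.val < k'.val := hk
    have hk' := k'.2
    have h3 := hmin (n - (k'.val - k.val)) (by omega)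
    rw [h2, hn] at h3
    cases h3
  have hinj : Function.Injective F := by
    intro k k' h
    rcases lt_trichotomy k k' with h1 | h1 | h1
    · exact absurd h (hlt k k' h1)
    · exact h1
    · exact absurd h.symm (hlt k' k h1)
  have hcard := Fintype.card_le_of_injective F hinj
  rw [Fintype.card_fin, Fintype.card_fun, Fintype.card_fun, Fintype.card_bool, Fintype.card_fin,
    Fintype.card_fin, ← pow_mul] at hcard
  omega

end Pool.Agent.Lib.Pinwheel.Sp
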