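import Pool.Agent.Lib.Pinwheel.SpaceDefs
import Pool.Agent.Lib.Pinwheel.ChainDefs
import Pool.Agent.Lib.Pinwheel.SpaceRun
import Pool.Agent.Lib.CookLevin.Final

/-!
# From polynomial space to chains of assignments
-/

namespace Pool.Agent.Lib.Pinwheel

open Pool.Agent.Lib.PolyTime Pool.Agent.Lib.CookLevin Turing

section

variable {K : Type} [DecidableEq K] {Γ : K → Type} {Λ σ : Type}

theorem micro_stepAux_pos (m : Λ → TM2.Stmt Γ Λ σ) (q : TM2.Stmt Γ Λ σ) (v : σ)
    (S : ∀ k, List (Γ k)) :
    ∃ n, 1 ≤ n ∧ n ≤ depth q ∧ (micro m)^[n] ⟨some q, v, S⟩ = toM m (TM2.stepAux q v S) := by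
  have key : ∀ (q q' : TM2.Stmt Γ Λ σ) (v v' : σ) (S S' : ∀ k, List (Γ k)),
      micro m ⟨some q, v, S⟩ = ⟨some q', v', S'⟩ → depth q' + 1 ≤ depth q →
      TM2.stepAux q v S = TM2.stepAux q' v' S' →
      ∃ n, 1 ≤ n ∧ n ≤ depth q ∧ (micro m)^[n] ⟨some q, v, S⟩ = toM m (TM2.stepAux q v S) := by
    intro q q' v v' S S' h1 h2 h3
    obtain ⟨n, hn, h⟩ := micro_stepAux m q' v' S'
    exact ⟨n + 1, by omega, by omega, by rw [Function.iterate_succ_apply, h1, h3]; exact h⟩
  cases q with
  | push k f q => exact key _ q _ v _ _ rfl (by simp [depth]) rfl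
  | peek k f q => exact key _ q _ _ _ _ rfl (by simp [depth]) rfl
  | pop k f q => exact key _ q _ _ _ _ rfl (by simp [depth]) rfl
  | load a q => exact key _ q _ _ _ _ rfl (by simp [depth]) rfl
  | branch f q₁ q₂ =>
    refine key _ (cond (f v) q₁ q₂) _ _ _ _ rfl ?_ ?_
    · cases f v <;> simp [depth]
    · cases h : f v <;> simp [TM2.stepAux, h]
  | goto l => exact ⟨1, le_rfl, by simp [depth], rfl⟩
  | halt => exact ⟨1, le_rfl, by simp [depth], rfl⟩

theorem micro_reach (m : Λ → TM2.Stmt Γ Λ σ) (D : ℕ) (hD : ∀ l, depth (m l) ≤ D)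
    (c : TM2.Cfg Γ Λ σ) (n : ℕ) : ∃ t c' r, (flip bind (TM2.step m))^[t] (some c) = some c' ∧
      r ≤ D ∧ (micro m)^[n] (toM m c) = (micro m)^[r] (toM m c') := by
  induction n with
  | zero => exact ⟨0, c, 0, rfl, Nat.zero_le _, rfl⟩
  | succ n ih =>
    obtain ⟨t, c', r, h1, h2, h3⟩ := ih
    rw [Function.iterate_succ_apply', h3, ← Function.iterate_succ_apply' (micro m) r]
    obtain ⟨l, v, S⟩ := c'
    cases l with
    | none => exact ⟨t, _, 0, h1, Nat.zero_le _, micro_halted m v S _⟩
    | some l =>
      by_cases hr : r + 1 ≤ D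
      · exact ⟨t, _, r + 1, h1, hr, rfl⟩
      · obtain ⟨d, hd1, hd2, hd3⟩ := micro_stepAux_pos m (m l) v S
        have hdD := hD l
        refine ⟨t + 1, TM2.stepAux (m l) v S, r + 1 - d, ?_, by omega, ?_⟩
        · rw [Function.iterate_succ_apply', h1]
          rfl
        · have h4 : toM m (⟨some l, v, S⟩ : TM2.Cfg Γ Λ σ) = ⟨some (m l), v, S⟩ := rfl
          rw [show r.succ = (r + 1 - d) + d by omega, Function.iterate_add_apply, h4, hd3]

theorem length_micro_iterate (m : Λ → TM2.Stmt Γ Λ σ) (c : MCfg Γ Λ σ) (r : ℕ) (k : K) :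
    (((micro m)^[r] c).S k).length ≤ (c.S k).length + r := by
  induction r with
  | zero => exact le_rfl
  | succ r ih =>
    rw [Function.iterate_succ_apply']
    have := length_micro m ((micro m)^[r] c) k
    omega

end

theorem space_chain {V : List Bool → Bool} (h : PSpace V) :
    ∃ g : List Bool → ℕ × List (List (ℕ × Bool)), PolyF g ∧
      ∀ x, 0 < (g x).1 ∧ (∀ c ∈ (g x).2, ∀ l ∈ c, l.1 < 2 * (g x).1) ∧
        (V x = true → ∃ σ, ∀ T, ChainRun (g x).1 (g x).2 T σ) ∧
        ((∀ T, ∃ σ, ChainRun (g x).1 (g x).2 T σ) → V x = true) := by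
  classical
  obtain ⟨tm, ea, eb, p, hV⟩ := h
  have := tm.kFin
  have := tm.ΛFin
  have := tm.σFin
  have := tm.Γk₀Fin
  obtain ⟨D, hD⟩ : ∃ D, ∀ l, depth (tm.m l) ≤ D :=
    ⟨Finset.univ.sup fun l => depth (tm.m l), fun l =>
      Finset.le_sup (f := fun l => depth (tm.m l)) (Finset.mem_univ l)⟩
  obtain ⟨G, hG, hblG, hini, hr0, hr1⟩ := exists_closed tm.initialState tm.m tm.k₀
  obtain ⟨R, code, hlen, hinj, hRbl, hacc, hR0, hR1⟩ := exists_rule G hG (blank tm.initialState)
    hblG (rule0 tm.m) (rule1 tm.initialState)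
    (fun c => c.1.1 = none ∧ c.2 tm.k₁ = some (eb.invFun true)) hr0 hr1
  set cod0 : Option Bool → List Bool :=
    fun o => code (iniCol tm (some (tm.m tm.main)) ea o) with hcod0
  set cod1 : Option Bool → List Bool := fun o => code (iniCol tm none ea o) with hcod1
  have g0 : ∀ o, iniCol tm (some (tm.m tm.main)) ea o ∈ G := fun o =>
    (hini _ _ _ fun k hk => by simp [hk]).1
  have g1 : ∀ o, iniCol tm none ea o ∈ G := fun o =>
    (hini tm.main _ _ fun k hk => by simp [hk]).2
  set W : List Bool → ℕ := fun x => p.eval x.length + (D + 1) with hW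
  set mm : List Bool → ℕ := fun x => R.b * W x + 1 with hmm
  set ini : List Bool → List (List Bool) := fun x =>
    (List.range (W x)).map fun i => if i = 0 then cod0 (x[i]?) else cod1 (x[i]?) with hinidef
  have hWpos : ∀ x, 0 < W x := fun x => by simp only [hW]; omega
  have hinilen : ∀ x i, i < W x → ((ini x).getD i []).length = R.b := by
    intro x i hi
    simp only [hinidef]
    rw [List.getD_eq_getElem _ _ (by simpa using hi)]
    simp only [List.getElem_map, List.getElem_range]
    split_ifs
    · exact hlen _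
    · exact hlen _
  -- the run
  have hrun : ∀ x, (∃ n, R.acc ((R.next (W x))^[n] (Sp.row0 R (W x) (ini x)) 0) = true) ↔
      V x = true := by
    intro x
    obtain ⟨⟨t, ht⟩, hsp⟩ := hV x
    set S₀ := (initList tm (x.map ea.invFun)).stk with hS₀
    set c₀ : MCfg tm.Γ tm.Λ tm.σ := ⟨some (tm.m tm.main), tm.initialState, S₀⟩ with hc₀
    have hc₀' : toM tm.m (initList tm (x.map ea.invFun)) = c₀ := rfl
    have hht : ∀ n k, (((micro tm.m)^[n] c₀).S k).length ≤ p.eval x.length + D := by
      intro n k
      obtain ⟨t', c', r, h1, h2, h3⟩ := micro_reach tm.m D hD (initList tm (x.map ea.invFun)) n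
      rw [hc₀'] at h3
      rw [h3]
      have h4 := length_micro_iterate tm.m (toM tm.m c') r k
      have h5 := hsp t' c' h1 k
      have h6 : ((toM tm.m c').S k).length = (c'.stk k).length := rfl
      omega
    have hcol : ∀ n, (colNext tm.initialState tm.m (W x))^[n] (toCol tm.initialState c₀) =
        toCol tm.initialState ((micro tm.m)^[n] c₀) := by
      intro n
      induction n with
      | zero => rfl
      | succ n ih =>
        rw [Function.iterate_succ_apply', ih, Function.iterate_succ_apply',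
          colNext_toCol tm.initialState tm.m (W x) (hWpos x) _ fun k => by
            have := hht n k
            simp only [hW]
            omega]
    have hin : ∀ i, toCol tm.initialState c₀ i ∈ G := by
      intro i
      rw [hc₀, hS₀, toCol_init]
      split_ifs
      exacts [g0 _, g1 _]
    have hrow0 : Sp.row0 R (W x) (ini x) = fun i => code (toCol tm.initialState c₀ i) := by
      funext i
      rw [Sp.row0]
      split_ifs with hi
      · simp only [hinidef]
        rw [List.getD_eq_getElem _ _ (by simpa using hi)]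
        simp only [List.getElem_map, List.getElem_range]
        rw [hc₀, hS₀, toCol_init]
        split_ifs <;> rfl
      · rw [hRbl]
        congr 1
        have hlen0 := hht 0
        simp only [Function.iterate_zero, id] at hlen0
        have h0 : i ≠ 0 := by
          have := hWpos x
          omega
        unfold blank toCol
        rw [if_neg h0]
        refine Prod.ext rfl ?_
        funext k
        have := hlen0 k
        simp only [hW] at hi
        exact (List.getElem?_eq_none (by omega)).symm
    have hnext : ∀ n, (R.next (W x))^[n] (Sp.row0 R (W x) (ini x)) =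
        (fun i => code (toCol tm.initialState ((micro tm.m)^[n] c₀) i)) ∧
        ∀ i, toCol tm.initialState ((micro tm.m)^[n] c₀) i ∈ G := by
      intro n
      obtain ⟨e2, e3⟩ := next_iterate tm.initialState tm.m G hblG hr0 hr1 R code hRbl hR0 hR1 (W x)
        (toCol tm.initialState c₀) hin n
      rw [hcol n] at e2 e3
      rw [hrow0]
      exact ⟨e2, e3⟩
    obtain ⟨nh, -, hnh⟩ := micro_steps tm.m D hD t _ _ ht
    rw [hc₀'] at hnh
    have hhalt : toM tm.m (haltList tm [eb.invFun (V x)]) =
      ⟨none, tm.initialState, (haltList tm [eb.invFun (V x)]).stk⟩ := rfl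
    rw [hhalt] at hnh
    constructor
    · rintro ⟨n, hn⟩
      rw [(hnext n).1] at hn
      dsimp only at hn
      rw [hacc _ ((hnext n).2 0)] at hn
      obtain ⟨hn1, hn2⟩ := hn
      simp only [toCol, if_true] at hn1 hn2
      have hfix : ∀ (c : MCfg tm.Γ tm.Λ tm.σ), c.q = none → (micro tm.m)^[nh] c = c := by
        rintro ⟨q, v, S⟩ h
        simp only at h
        subst h
        exact micro_halted tm.m v S nh
      have e1 : (micro tm.m)^[nh] ((micro tm.m)^[n] c₀) = (micro tm.m)^[n] c₀ := hfix _ hn1
      have e2 : (micro tm.m)^[n] ((micro tm.m)^[nh] c₀) = (micro tm.m)^[nh] c₀ := by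
        rw [hnh]
        exact micro_halted tm.m _ _ n
      have e3 : (micro tm.m)^[n] c₀ = (micro tm.m)^[nh] c₀ := by
        rw [← e1, ← e2, ← Function.iterate_add_apply, ← Function.iterate_add_apply, add_comm]
      rw [e3, hnh] at hn2
      simp only [haltList, dif_pos] at hn2
      simp at hn2
      exact hn2
    · intro hVx
      refine ⟨nh, ?_⟩
      rw [(hnext nh).1]
      dsimp only
      rw [hacc _ ((hnext nh).2 0), hnh]
      simp [toCol, haltList, hVx]
  refine ⟨fun x => (Sp.nv R (W x) (mm x), Sp.cls R (W x) (mm x) (ini x)), ?_, fun x => ⟨?_, ?_, ?_, ?_⟩⟩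
  · have hWF : PolyF W := (polyF_natPoly PolyF.id.length p).natAdd (PolyF.const (D + 1))
    have hmF : PolyF mm := ((PolyF.const R.b).natMul hWF).succ
    have hiF : PolyF ini := by
      refine PolyF.map (l := fun x => List.range (W x))
        (h := fun x i => if i = 0 then cod0 (x[i]?) else cod1 (x[i]?)) hWF.range ?_
      have h1 : PolyF (fun q : List Bool × ℕ => q.1[q.2]?) :=
        PolyF.getElem? PolyF.snd' PolyF.fst'
      exact PolyF.ite (p := fun q : List Bool × ℕ => q.2 = 0) (PolyF.natIsZero PolyF.snd')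
        (h1.finComp cod0) (h1.finComp cod1)
    exact (Sp.polyF_nv R hWF hmF).pair (Sp.polyF_cls R hWF hmF hiF)
  · simp only [Sp.nv, hmm]
    omega
  · exact Sp.wf R (W x) (mm x) (hWpos x) (ini x)
  · intro hVx
    have hex := (hrun x).2 hVx
    have hn := Nat.find_spec hex
    have hmin : ∀ k < Nat.find hex,
        R.acc ((R.next (W x))^[k] (Sp.row0 R (W x) (ini x)) 0) = false := by
      intro k hk
      have := Nat.find_min hex hk
      simpa using this
    refine Sp.complete R (W x) (mm x) (hWpos x) (ini x) (hinilen x) _ hn hmin ?_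
    refine (Sp.lt_two_pow R ?_ ?_ _ hn hmin).trans ?_
    · intro i
      rw [Sp.row0]
      split_ifs with hi
      · exact hinilen x i hi
      · exact R.hbl
    · intro i hi
      rw [Sp.row0, if_neg (by omega)]
    · simp only [hmm]
      exact Nat.pow_lt_pow_right (by norm_num) (Nat.lt_succ_self _)
  · intro hσ
    exact (hrun x).1 (Sp.sound R (W x) (mm x) (hWpos x) (ini x) hσ)

end Pool.Agent.Lib.Pinwheel
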