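import Pool.Agent.Lib.Pinwheel.TokBasic

/-!
# The token machine: completeness

The columns of the tokens are explicit: the token `t` of the group `g = t / 2` sits in a slot of
the line `lineT s t`; its group slot is `g` except in phase `tK n` of a test.
-/

namespace Pool.Agent.Lib.Pinwheel

/-- The line of the token `t` in the state `s`. -/
def lineT (s : ℕ → Bool) (t : ℕ) : Bool := if t % 2 = 1 then !(s (t / 2)) else s (t / 2)

/-- The group slots in phase `tK n` of a test in which the token of the group `m` passes. -/
def muT (m g : ℕ) : ℕ := if g = m then 0 else if g < m then g + 1 else g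

/-- The group slot of a token of the group `g` in the line `v` in phase `p`. -/
def grpT (n : ℕ) (ins : Instr) (m p g : ℕ) (v : Bool) : ℕ :=
  if ins.1 ≠ 0 ∧ p = tK n ∧ v = decide (ins.1 ≠ 1) then muT m g else g

/-- The column of the token `t` in phase `p`. -/
def colT (n : ℕ) (ins : Instr) (m p t : ℕ) (s : ℕ → Bool) : ℕ :=
  slot n ins p (grpT n ins m p (t / 2) (lineT s t)) (lineT s t)

/-- the home of the group `g` in the line `v` -/
def homeT (n g : ℕ) (v : Bool) : ℕ := if v then vH n g else uH n g

theorem tA_bound {n g : ℕ} (hg : g < n) : 9 ≤ tA n g ∧ tA n g ≤ 9 * n := by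
  unfold tA; omega

theorem uH_add {n g : ℕ} : uH n g + tK n * tA n g = tZ n + 1 := by
  have h : tK n * tA n g ≤ tK n * (9 * n) := Nat.mul_le_mul_left _ (by unfold tA; omega)
  unfold uH tZ
  omega

theorem uH_le {n g : ℕ} : uH n g ≤ tZ n + 1 := by
  unfold uH; omega

theorem uH_mono {n g g' : ℕ} (h : g ≤ g') : uH n g ≤ uH n g' := by
  have h' : tK n * tA n g' ≤ tK n * tA n g := Nat.mul_le_mul_left _ (by unfold tA; omega)
  unfold uH
  omega

theorem tLam_eq (n : ℕ) : tLam n = (tK n + 2) * n + tK n + 10 := by
  have : tS n = 9 * ((tK n + 2) * n) := by unfold tS; ring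
  unfold tLam
  rw [this, Nat.mul_div_cancel_left _ (by norm_num)]

theorem tS_eq (n : ℕ) : tS n = 9 * ((tK n + 2) * n) := by unfold tS; ring

theorem tK_lt (n : ℕ) : tK n + 3 < tLam n := by rw [tLam_eq]; omega

theorem slot_home {n : ℕ} {ins : Instr} {g : ℕ} {v : Bool} (hn : 0 < n)
    (p : ℕ) (hp : p = 0 ∨ p + 1 = tLam n) : slot n ins p g v = homeT n g v := by
  have hK : 2 ≤ tK n := by unfold tK; omega
  have hlam := tK_lt n
  have hc : ∀ C, climb n C g p = uH n g := by
    intro C
    rcases hp with rfl | hp
    · have h2 : 0 + 2 ≤ tK n := by omega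
      simp only [climb, h2, if_true, uH, Nat.sub_zero]
    · have h1 : ¬ (p + 2 ≤ tK n) := by omega
      have h2 : ¬ (p + 1 = tK n) := by omega
      have h3 : ¬ (p = tK n) := by omega
      simp only [climb, h1, h2, h3, if_false]
  have h1 : ¬ (p + 2 = tLam n) := by omega
  have h2 : ¬ (g = ins.2.headD 0 ∧ 0 < p ∧ p + 2 < tLam n) := by
    rintro ⟨-, h3, h4⟩
    omega
  unfold slot homeT
  rw [if_neg h1, hc, if_neg h2]
  cases v <;> simp [vH]

theorem slot_check {n : ℕ} {ins : Instr} {g : ℕ} {v : Bool} (p : ℕ) (hp : p + 2 = tLam n) :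
    slot n ins p g v = homeT n g v + tA n g := by
  unfold slot homeT
  rw [if_pos hp]

/-- A line which is not affected by the instruction. -/
theorem slot_static {n : ℕ} {ins : Instr} {g : ℕ} {v : Bool} (p : ℕ)
    (h : (ins.1 = 0 ∧ (v = false ∨ g ≠ ins.2.headD 0)) ∨
      (ins.1 ≠ 0 ∧ v = decide (ins.1 = 1))) :
    homeT n g v ≤ slot n ins p g v ∧ slot n ins p g v ≤ homeT n g v + tA n g := by
  by_cases hp : p + 2 = tLam n
  · rw [slot_check p hp]
    omega
  · have : slot n ins p g v = homeT n g v := by
      unfold slot homeT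
      rw [if_neg hp]
      rcases h with ⟨h0, h1 | h1⟩ | ⟨h0, h1⟩
      · subst h1
        simp [h0]
      · cases v
        · simp [h0]
        · rw [if_pos rfl, if_pos h0, if_neg (fun h => h1 h.1), if_pos rfl]
      · by_cases h2 : ins.1 = 1
        · simp only [h2, decide_true] at h1
          subst h1
          simp [h2]
        · simp only [h2, decide_false] at h1
          subst h1
          simp [h2]
    rw [this]
    omega

/-- The rider slot. -/
theorem slot_rider {n : ℕ} {ins : Instr} (p : ℕ) (h0 : ins.1 = 0) (hp : 0 < p)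
    (hp2 : p + 2 < tLam n) :
    slot n ins p (ins.2.headD 0) true =
      min (vH n (ins.2.headD 0)) (uH n (ins.2.headD 0) + p * tA n (ins.2.headD 0) - 4) := by
  unfold slot
  have h1 : ¬ (p + 2 = tLam n) := by omega
  rw [if_neg h1, if_pos rfl, if_pos h0, if_pos ⟨rfl, hp, hp2⟩]

/-- The line of a test. -/
theorem slot_test {n : ℕ} {ins : Instr} {g : ℕ} {v : Bool} (p : ℕ) (h0 : ins.1 ≠ 0)
    (hv : v = decide (ins.1 ≠ 1)) (hp : p + 2 ≠ tLam n) :
    slot n ins p g v = climb n ins.2 g p + (if v then tS n else 0) := by
  unfold slot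
  rw [if_neg hp]
  by_cases h2 : ins.1 = 1
  · simp only [h2, ne_eq, not_true_eq_false, decide_false] at hv
    subst hv
    simp [h2]
  · simp only [h2, ne_eq, not_false_eq_true, decide_true] at hv
    subst hv
    simp [h2, h0]

theorem lineT_of_ne {s : ℕ → Bool} {t t' : ℕ} (h : t / 2 = t' / 2) (hl : lineT s t = lineT s t') :
    t = t' := by
  unfold lineT at hl
  rw [h] at hl
  rcases Nat.mod_two_eq_zero_or_one t with h1 | h1 <;>
    rcases Nat.mod_two_eq_zero_or_one t' with h2 | h2 <;> simp [h1, h2] at hl <;> omega

theorem muT_inj {m g g' : ℕ} (h : muT m g = muT m g') : g = g' := by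
  unfold muT at h
  split_ifs at h <;> omega

theorem muT_lt {n m g : ℕ} (hm : m < n) (hg : g < n) : muT m g < n := by
  unfold muT
  split_ifs <;> omega

theorem grpT_lt {n : ℕ} {ins : Instr} {m p g : ℕ} {v : Bool} (hm : m < n) (hg : g < n) :
    grpT n ins m p g v < n := by
  unfold grpT
  split_ifs
  · exact muT_lt hm hg
  · exact hg

theorem colT_inj {n : ℕ} {ins : Instr} {m p t t' : ℕ} {s : ℕ → Bool} (hm : m < n)
    (hp : p < tLam n) (ht : t < 2 * n) (ht' : t' < 2 * n)
    (h : colT n ins m p t s = colT n ins m p t' s) : t = t' := by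
  unfold colT at h
  obtain ⟨h1, h2⟩ := slot_inj n ins p _ _ _ _ (grpT_lt hm (by omega)) (grpT_lt hm (by omega)) hp h
  rw [h2] at h1
  refine lineT_of_ne ?_ h2
  unfold grpT at h1
  split_ifs at h1
  · exact muT_inj h1
  · exact h1

theorem climb_lo {n g i : ℕ} {C : List ℕ} (hi : i + 2 ≤ tK n) :
    climb n C g i + (tK n - i) * tA n g = tZ n + 1 := by
  have h : (tK n - i) * tA n g ≤ tK n * (9 * n) :=
    Nat.mul_le_mul (by omega) (by unfold tA; omega)
  unfold climb
  rw [if_pos hi]
  unfold tZ
  omega

theorem climb_mid {n g i : ℕ} {C : List ℕ} (hg : g < n) (hi : i + 1 = tK n) :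
    climb n C g i + tA n g ≤ tZ n + 1 ∧ (g ∈ C → climb n C g i + tA n g = tZ n + 1) ∧
      tZ n ≤ climb n C g i + tA n g + 2 := by
  have h : 1 * tA n g + 3 ≤ tK n * (9 * n) := by
    have h1 : 3 * tA n g ≤ tK n * (9 * n) :=
      Nat.mul_le_mul (by unfold tK; omega) (by unfold tA; omega)
    have := (tA_bound hg).1
    omega
  unfold climb
  rw [if_neg (by omega), if_pos hi]
  unfold tZ
  split_ifs with hC
  · refine ⟨by omega, fun _ => by omega, by omega⟩
  · refine ⟨by omega, fun h' => absurd h' hC, by omega⟩

theorem climb_top {n g : ℕ} {C : List ℕ} :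
    climb n C g (tK n) = if g = 0 then tZ n + 4 else uH n g := by
  unfold climb
  rw [if_neg (by omega), if_neg (by omega), if_pos rfl]

theorem climb_hi {n g i : ℕ} {C : List ℕ} (hi : tK n < i) : climb n C g i = uH n g := by
  unfold climb
  rw [if_neg (by omega), if_neg (by omega), if_neg (by omega)]

theorem climb_mu {n m g : ℕ} {C : List ℕ} (hm : m < n) (hg : g < n) :
    uH n g ≤ climb n C (muT m g) (tK n) ∧
      (g ≠ m → climb n C (muT m g) (tK n) + 3 ≤ tZ n + 1) ∧
      climb n C (muT m g) (tK n) ≤ tZ n + 4 := by
  have hb : ∀ g' < n, uH n g' + 27 ≤ tZ n + 1 := by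
    intro g' hg'
    have h1 := uH_add (n := n) (g := g')
    have h2 : 3 * 9 ≤ tK n * tA n g' :=
      Nat.mul_le_mul (by unfold tK; omega) (tA_bound hg').1
    omega
  rw [climb_top]
  unfold muT
  by_cases h1 : g = m
  · subst h1
    have := hb g hg
    simp only [if_true]
    refine ⟨by omega, fun h => absurd rfl h, le_rfl⟩
  · by_cases h2 : g < m
    · have h3 := hb (g + 1) (by omega)
      have h4 := uH_mono (n := n) (g := g) (g' := g + 1) (by omega)
      rw [if_neg h1, if_pos h2, if_neg (by omega)]
      refine ⟨by omega, fun _ => by omega, by omega⟩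
    · have h3 := hb g hg
      rw [if_neg h1, if_neg h2, if_neg (by omega)]
      refine ⟨by omega, fun _ => by omega, by omega⟩

/-- The climbing line of a test. -/
theorem test_step {n : ℕ} {ins : Instr} {m p g b : ℕ} {v : Bool} (hm : m < n)
    (h0 : ins.1 ≠ 0) (hmC : m ∈ ins.2) (hv : v = decide (ins.1 ≠ 1)) (hg : g < n)
    (hb : g = m → b = 1) (hp : p + 1 < tLam n) :
    slot n ins (p + 1) (grpT n ins m (p + 1) g v) v ≤
      slot n ins p (grpT n ins m p g v) v + (tA n g + 3 * b) := by
  have hlam := tK_lt n
  have hgr : ∀ i, i ≠ tK n → grpT n ins m i g v = g := by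
    intro i hi
    unfold grpT
    rw [if_neg (by tauto)]
  have hgr' : grpT n ins m (tK n) g v = muT m g := by
    unfold grpT
    rw [if_pos ⟨h0, rfl, hv⟩]
  have hK : 3 ≤ tK n := by unfold tK; omega
  have hmu := climb_mu (C := ins.2) hm hg
  by_cases h1 : p + 1 < tK n
  · -- climbing
    rw [hgr _ (by omega), hgr _ (by omega), slot_test _ h0 hv (by omega),
      slot_test _ h0 hv (by omega)]
    have hlo := climb_lo (n := n) (g := g) (i := p) (C := ins.2) (by omega)
    have hmul : (tK n - p) * tA n g = (tK n - (p + 1)) * tA n g + tA n g := by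
      have : tK n - p = (tK n - (p + 1)) + 1 := by omega
      rw [this]; ring
    by_cases h2 : p + 1 + 2 ≤ tK n
    · have hlo' := climb_lo (n := n) (g := g) (i := p + 1) (C := ins.2) h2
      omega
    · have hmid := (climb_mid (C := ins.2) (i := p + 1) hg (by omega)).1
      have h3 : tK n - (p + 1) = 1 := by omega
      rw [h3] at hmul
      omega
  · by_cases h2 : p + 1 = tK n
    · -- the top
      rw [hgr p (by omega), h2, hgr', slot_test _ h0 hv (by omega), slot_test _ h0 hv (by omega)]
      have hmid := climb_mid (C := ins.2) (i := p) hg h2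
      by_cases h3 : g = m
      · have h4 := hmid.2.1 (h3 ▸ hmC)
        have h5 := hb h3
        omega
      · have h4 := hmu.2.1 h3
        have h5 := (tA_bound hg).1
        omega
    · by_cases h3 : p = tK n
      · rw [h3, hgr', hgr _ (by omega), slot_test _ h0 hv (by omega), slot_test _ h0 hv (by omega),
          climb_hi (by omega)]
        omega
      · rw [hgr _ (by omega), hgr _ (by omega)]
        by_cases h4 : p + 2 = tLam n
        · rw [slot_check p h4, slot_home (by omega) (p + 1) (Or.inr (by omega))]
          omega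
        · rw [slot_test p h0 hv h4, climb_hi (by omega)]
          have h6 : uH n g + (if v then tS n else 0) = homeT n g v := by
            unfold homeT vH
            cases v <;> simp
          rw [h6]
          by_cases h5 : p + 1 + 2 = tLam n
          · rw [slot_check _ h5]
            omega
          · rw [slot_test _ h0 hv h5, climb_hi (by omega), h6]
            omega

/-- One step inside an instruction. -/
theorem colT_step {n : ℕ} {ins : Instr} {m p t : ℕ} {s s' : ℕ → Bool} (hn : 0 < n)
    (hwf : ins.1 = 0 → ins.2.headD 0 < n) (hR : Rel n ins s s')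
    (hm : ins.1 ≠ 0 → m < n ∧ m ∈ ins.2 ∧ s m = decide (ins.1 = 1))
    (ht : t < 2 * n) (hp : p + 1 < tLam n) :
    colT n ins m (p + 1) t s' ≤ colT n ins m p t (if p = 0 then s else s') + tAl n t := by
  have hg : t / 2 < n := by omega
  have hal : tAl n t = tA n (t / 2) + 3 * (t % 2) := rfl
  by_cases h0 : ins.1 = 0
  · -- a reset
    have hgr : ∀ i v, grpT n ins m i (t / 2) v = t / 2 := by
      intro i v
      unfold grpT
      rw [if_neg (by tauto)]
    simp only [colT, hgr]
    by_cases hg0 : t / 2 = ins.2.headD 0
    · have hr : ∀ v, slot n ins 1 (t / 2) v ≤ uH n (t / 2) + tA n (t / 2) := by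
        intro v
        cases v
        · have := (slot_static (n := n) (ins := ins) (g := t / 2) (v := false) 1
            (Or.inl ⟨h0, Or.inl rfl⟩)).2
          simpa [homeT] using this
        · rw [hg0, slot_rider 1 h0 (by omega) (by have := tK_lt n; omega)]
          omega
      by_cases hp0 : p = 0
      · subst hp0
        rw [if_pos rfl, slot_home hn 0 (Or.inl rfl)]
        have h1 := hr (lineT s' t)
        have h2 : uH n (t / 2) ≤ homeT n (t / 2) (lineT s t) := by
          unfold homeT vH
          split_ifs <;> omega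
        simp only [zero_add]
        omega
      · rw [if_neg hp0]
        cases hv : lineT s' t
        · have h1 := (slot_static (n := n) (ins := ins) (g := t / 2) (v := false) p
            (Or.inl ⟨h0, Or.inl rfl⟩)).1
          have h2 := (slot_static (n := n) (ins := ins) (g := t / 2) (v := false) (p + 1)
            (Or.inl ⟨h0, Or.inl rfl⟩)).2
          omega
        · by_cases h2 : p + 2 = tLam n
          · rw [slot_check p h2, slot_home hn (p + 1) (Or.inr (by omega))]
            omega
          · rw [hg0] at hal ⊢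
            rw [slot_rider p h0 (by omega) (by omega)]
            have h9 := (tA_bound (hwf h0)).1
            by_cases h3 : p + 1 + 2 = tLam n
            · rw [slot_check _ h3]
              have h4 : (tK n + 2) * n + 4 ≤ p := by
                rw [tLam_eq] at h3
                omega
              have h5 : ((tK n + 2) * n + 4) * 9 ≤ p * tA n (ins.2.headD 0) :=
                Nat.mul_le_mul h4 h9
              have h6 := tS_eq n
              have h7 : homeT n (ins.2.headD 0) true = vH n (ins.2.headD 0) := by simp [homeT]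
              have h8 : vH n (ins.2.headD 0) = uH n (ins.2.headD 0) + tS n := rfl
              rw [h7, Nat.min_eq_left (by omega)]
              omega
            · rw [slot_rider (p + 1) h0 (by omega) (by omega)]
              have h5 : 1 * 9 ≤ p * tA n (ins.2.headD 0) := Nat.mul_le_mul (by omega) h9
              have h6 : (p + 1) * tA n (ins.2.headD 0) =
                p * tA n (ins.2.headD 0) + tA n (ins.2.headD 0) := by ring
              omega
    · have hss : s' (t / 2) = s (t / 2) := by
        unfold Rel at hR
        rw [if_pos h0] at hR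
        exact hR _ hg hg0
      have hl : ∀ i, lineT (if i = 0 then s else s') t = lineT s' t := by
        intro i
        split_ifs
        · unfold lineT; rw [hss]
        · rfl
      rw [hl]
      have h1 := (slot_static (n := n) (ins := ins) (g := t / 2) (v := lineT s' t) p
        (Or.inl ⟨h0, Or.inr hg0⟩)).1
      have h2 := (slot_static (n := n) (ins := ins) (g := t / 2) (v := lineT s' t) (p + 1)
        (Or.inl ⟨h0, Or.inr hg0⟩)).2
      omega
  · -- a test
    obtain ⟨hmn, hmC, hsm⟩ := hm h0
    unfold Rel at hR
    rw [if_neg h0] at hR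
    have hss : s' (t / 2) = s (t / 2) := hR.1 _ hg
    have hl : ∀ i, lineT (if i = 0 then s else s') t = lineT s t := by
      intro i
      split_ifs
      · rfl
      · unfold lineT; rw [hss]
    have hl' : lineT s' t = lineT s t := by unfold lineT; rw [hss]
    unfold colT
    rw [hl, hl', hal]
    by_cases hv : lineT s t = decide (ins.1 ≠ 1)
    · refine test_step hmn h0 hmC hv hg ?_ hp
      intro hgm
      by_contra h2
      have h3 : t % 2 = 0 := by omega
      unfold lineT at hv
      rw [if_neg (by omega), hgm, hsm] at hv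
      by_cases h4 : ins.1 = 1
      · simp [h4] at hv
      · simp [h4] at hv
    · have hv' : lineT s t = decide (ins.1 = 1) := by
        revert hv
        by_cases h4 : ins.1 = 1
        · simp [h4]
        · simp [h4]
      have hgr : ∀ i, grpT n ins m i (t / 2) (lineT s t) = t / 2 := by
        intro i
        unfold grpT
        rw [if_neg (by tauto)]
      rw [hgr, hgr]
      have h1 := (slot_static (n := n) (ins := ins) (g := t / 2) (v := lineT s t) p
        (Or.inr ⟨h0, hv'⟩)).1
      have h2 := (slot_static (n := n) (ins := ins) (g := t / 2) (v := lineT s t) (p + 1)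
        (Or.inr ⟨h0, hv'⟩)).2
      omega

theorem tok_complete (n : ℕ) (prog : List Instr) (hn : 0 < n) (hp : prog ≠ [])
    (hwf : ∀ ins ∈ prog, ins.1 = 0 → ins.2.headD 0 < n)
    (σ : ℕ → ℕ → Bool) (hσ : ∀ N, PRun n prog N σ) :
    ∃ c, ∀ N, CRun (tR n prog) (tCl n prog) (tMo n prog) (2 * n) (tAl n) N c := by
  set L := prog.length with hL
  have hLpos : 0 < L := List.length_pos_iff.mpr hp
  set ins : ℕ → Instr := fun q => prog.getD (q % L) (1, []) with hins
  have hmem : ∀ q, ins q ∈ prog := by
    intro q
    have h1 : q % L < prog.length := Nat.mod_lt _ hLpos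
    simp only [hins]
    rw [List.getD_eq_getElem _ _ h1]
    exact List.getElem_mem h1
  have hRel : ∀ q, Rel n (ins q) (σ q) (σ (q + 1)) := fun q => hσ (q + 1) q (by omega)
  -- the token which passes the test
  have hex : ∀ q, ∃ m, m < n ∧ ((ins q).1 ≠ 0 → m ∈ (ins q).2 ∧ σ q m = decide ((ins q).1 = 1)) := by
    intro q
    by_cases h0 : (ins q).1 = 0
    · exact ⟨0, hn, fun h => absurd h0 h⟩
    · have h1 := hRel q
      unfold Rel at h1
      rw [if_neg h0] at h1
      obtain ⟨-, g, hg, hgn, hs⟩ := h1
      exact ⟨g, hgn, fun _ => ⟨hg, hs⟩⟩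
  choose m hm hm' using hex
  have hlam : 0 < tLam n := by have := tK_lt n; omega
  set col : ℕ → ℕ → ℕ := fun i t => colT n (ins (i / tLam n)) (m (i / tLam n)) (i % tLam n) t
    (σ (if i % tLam n = 0 then i / tLam n else i / tLam n + 1)) with hcol
  have hRpos : 0 < tR n prog := Nat.mul_pos hlam hLpos
  have hR : tR n prog = tLam n * L := rfl
  -- the columns are slots
  have hslot : ∀ i t, t < 2 * n → ∃ g < n, ∃ v : Bool,
      col i t = slot n (ins (i / tLam n)) (i % tLam n) g v := by
    intro i t ht
    exact ⟨_, grpT_lt (hm _) (by omega), _, rfl⟩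
  have hstep : ∀ i t, t < 2 * n → col (i + 1) t ≤ col i t + tAl n t := by
    intro i t ht
    by_cases hlast : i % tLam n + 1 < tLam n
    · have hd : (i + 1) / tLam n = i / tLam n := by
        rw [Nat.succ_div]
        rw [if_neg]
        · rfl
        · intro hdvd
          have h1 : (i + 1) % tLam n = 0 := Nat.mod_eq_zero_of_dvd hdvd
          have h2 : (i + 1) % tLam n = i % tLam n + 1 := by
            rw [Nat.add_mod, Nat.mod_eq_of_lt (show 1 < tLam n by omega),
              Nat.mod_eq_of_lt hlast]
          omega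
      have hmd : (i + 1) % tLam n = i % tLam n + 1 := by
        rw [Nat.add_mod, Nat.mod_eq_of_lt (show 1 < tLam n by omega), Nat.mod_eq_of_lt hlast]
      simp only [hcol, hd, hmd]
      rw [if_neg (by omega)]
      have h1 := colT_step (n := n) (ins := ins (i / tLam n)) (m := m (i / tLam n))
        (p := i % tLam n) (t := t) (s := σ (i / tLam n)) (s' := σ (i / tLam n + 1)) hn
        (hwf _ (hmem _)) (hRel _) (fun h => ⟨hm _, hm' _ h⟩) ht hlast
      have h2 : (σ (if i % tLam n = 0 then i / tLam n else i / tLam n + 1)) =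
          (if i % tLam n = 0 then σ (i / tLam n) else σ (i / tLam n + 1)) := by
        split_ifs <;> rfl
      rw [h2]
      exact h1
    · have hlt : i % tLam n < tLam n := Nat.mod_lt _ hlam
      have hmod : i % tLam n + 1 = tLam n := by omega
      have hi : i + 1 = tLam n * (i / tLam n + 1) := by
        have := Nat.div_add_mod i (tLam n)
        rw [Nat.mul_add, Nat.mul_one]
        omega
      have hd : (i + 1) / tLam n = i / tLam n + 1 := by
        rw [hi, Nat.mul_div_cancel_left _ hlam]
      have hmd : (i + 1) % tLam n = 0 := by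
        rw [hi, Nat.mul_mod_right]
      have hgr : ∀ ins' m' p v, p ≠ tK n → grpT n ins' m' p (t / 2) v = t / 2 := by
        intro ins' m' p v hp
        unfold grpT
        rw [if_neg (by tauto)]
      have hk := tK_lt n
      have hK : 3 ≤ tK n := by unfold tK; omega
      simp only [hcol, hd, hmd, if_true]
      unfold colT
      rw [hgr _ _ _ _ (by omega), hgr _ _ _ _ (by omega), slot_home hn 0 (Or.inl rfl),
        slot_home hn _ (Or.inr hmod), if_neg (by omega)]
      omega
  have hinj : ∀ i t t', t < 2 * n → t' < 2 * n → col i t = col i t' → t = t' := by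
    intro i t t' ht ht' h
    exact colT_inj (hm _) (Nat.mod_lt _ hlam) ht ht' h
  have hdm : ∀ a r, r < tR n prog → (tR n prog * a + r) / tR n prog = a ∧
      (tR n prog * a + r) % tR n prog = r := by
    intro a r hr
    constructor
    · rw [Nat.mul_add_div hRpos, Nat.div_eq_of_lt hr, add_zero]
    · rw [Nat.mul_add_mod, Nat.mod_eq_of_lt hr]
  have hmodlt : ∀ i, i % tR n prog < tR n prog := fun i => Nat.mod_lt _ hRpos
  refine ⟨fun i t => tR n prog * col i t + i % tR n prog, fun N => ⟨?_, ?_, ?_⟩⟩
  · intro i _ t ht
    obtain ⟨g, hg, v, hgv⟩ := hslot i t ht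
    have hb := slot_pos n (ins (i / tLam n)) (i % tLam n) g v hg (Nat.mod_lt _ hlam)
    refine ⟨?_, ?_, (hdm _ _ (hmodlt i)).2⟩
    · have h1 : tR n prog * (col i t + 1) ≤ tR n prog * (tZ n + tS n + 6) :=
        Nat.mul_le_mul_left _ (by rw [hgv]; omega)
      have h2 := hmodlt i
      have h3 : tCl n prog = tR n prog * (tZ n + tS n + 6) := rfl
      rw [Nat.mul_add, Nat.mul_one] at h1
      simp only
      omega
    · unfold tMo
      rw [decide_eq_true_iff]
      refine ⟨g, hg, v, ?_⟩
      simp only
      rw [(hdm _ _ (hmodlt i)).1, (hdm _ _ (hmodlt i)).2, hgv]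
      have h1 : i % tR n prog / tLam n = i / tLam n % L := by
        rw [hR, Nat.mod_mul_right_div_self]
      have h2 : i % tR n prog % tLam n = i % tLam n := by
        rw [hR, Nat.mod_mul_right_mod]
      rw [h1, h2]
  · intro i _ t ht t' ht' h
    simp only at h
    have h1 : tR n prog * col i t = tR n prog * col i t' := by omega
    exact hinj i t t' ht ht' (Nat.eq_of_mul_eq_mul_left hRpos h1)
  · intro i _ t ht
    simp only
    have h1 : tR n prog * col (i + 1) t ≤ tR n prog * (col i t + tAl n t) :=
      Nat.mul_le_mul_left _ (hstep i t ht)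
    rw [Nat.mul_add] at h1
    have h2 : (i + 1) % tR n prog ≤ i % tR n prog + 1 := by
      rw [Nat.add_mod]
      refine (Nat.mod_le _ _).trans ?_
      have : 1 % tR n prog ≤ 1 := Nat.mod_le _ _
      omega
    omega

end Pool.Agent.Lib.Pinwheel
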