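import Pool.Agent.Lib.Pinwheel.TokDefs

/-!
# The token machine: soundness
-/

namespace Pool.Agent.Lib.Pinwheel

/-! ### Arithmetic of the slots -/

theorem ts_Kg (n g : ℕ) (hg : g < n) : tK n * g + tK n ≤ tK n * n := by
  obtain ⟨d, rfl⟩ : ∃ d, n = g + 1 + d := ⟨n - (g + 1), by omega⟩
  have : tK (g + 1 + d) * (g + 1 + d) =
      tK (g + 1 + d) * g + tK (g + 1 + d) + tK (g + 1 + d) * d := by ring
  omega

theorem ts_tZ (n : ℕ) : tZ n = 9 * (tK n * n) := by unfold tZ; ring

theorem ts_tS (n : ℕ) : tS n = 9 * (tK n * n) + 18 * n := by unfold tS; ring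

theorem ts_tLam (n : ℕ) : tLam n = tK n * n + 2 * n + tK n + 10 := by
  unfold tLam; rw [ts_tS]; omega

theorem ts_uH (n g : ℕ) (hg : g < n) : uH n g = 9 * (tK n * g) + 1 := by
  have h1 := ts_Kg n g hg
  unfold uH tA
  rw [ts_tZ]
  have : tK n * (9 * (n - g)) = 9 * (tK n * n - tK n * g) := by
    rw [← Nat.mul_sub]; ring
  rw [this]; omega

/-- the home of a slot -/
def hm (n : ℕ) (q : Fin n × Bool) : ℕ := if q.2 then vH n q.1 else uH n q.1

theorem ts_iso (n : ℕ) (q q' : Fin n × Bool) (h : hm n q' < hm n q) :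
    hm n q' + 18 * n + 9 ≤ hm n q := by
  obtain ⟨g, v⟩ := q
  obtain ⟨g', v'⟩ := q'
  have hK : tK n = 2 * n + 1 := rfl
  have h1 := ts_Kg n g g.2
  have h2 := ts_Kg n g' g'.2
  have hu := ts_uH n g g.2
  have hu' := ts_uH n g' g'.2
  have hS := ts_tS n
  have hmul : ∀ a b : ℕ, a < b → tK n * a + tK n ≤ tK n * b := by
    intro a b hab
    obtain ⟨d, rfl⟩ : ∃ d, b = a + 1 + d := ⟨b - (a + 1), by omega⟩
    have : tK n * (a + 1 + d) = tK n * a + tK n + tK n * d := by ring
    omega
  cases v <;> cases v' <;> simp only [hm, vH] at h ⊢ <;> simp at h ⊢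
  · have : (g' : ℕ) < g := by
      by_contra hc
      have := Nat.mul_le_mul_left (tK n) (not_lt.1 hc)
      omega
    have := hmul _ _ this
    omega
  · omega
  · omega
  · have : (g' : ℕ) < g := by
      by_contra hc
      have := Nat.mul_le_mul_left (tK n) (not_lt.1 hc)
      omega
    have := hmul _ _ this
    omega

theorem hm_inj (n : ℕ) : Function.Injective (hm n) := by
  intro q q' h
  obtain ⟨g, v⟩ := q
  obtain ⟨g', v'⟩ := q'
  have hK : tK n = 2 * n + 1 := rfl
  have h1 := ts_Kg n g g.2
  have h2 := ts_Kg n g' g'.2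
  have hu := ts_uH n g g.2
  have hu' := ts_uH n g' g'.2
  have hS := ts_tS n
  have hn : 0 < n := by have := g.2; omega
  have hmul : ∀ a b : ℕ, tK n * a = tK n * b → a = b := by
    intro a b hab
    exact Nat.eq_of_mul_eq_mul_left (by omega) hab
  cases v <;> cases v' <;> simp only [hm, vH] at h <;> simp at h
  · have := hmul g g' (by omega)
    simp [Fin.ext_iff, this]
  · omega
  · omega
  · have := hmul g g' (by omega)
    simp [Fin.ext_iff, this]

/-! ### The permutation lemma -/

theorem step_id {Q Tk : Type*} [Fintype Q] [DecidableEq Q] (E E' : Q ≃ Tk) (ok : Q → Q → Prop)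
    (h : ∀ q q', E' q = E q' → ok q q') (D : Finset Q) (rank : Q → ℕ)
    (hinj : ∀ q ∈ D, ∀ q' ∈ D, rank q = rank q' → q = q')
    (hcl : (∀ q ∈ D, ∀ q', ok q q' → q' ∈ D) ∨ (∀ q, q ∉ D → ∀ q', ok q q' → q' ∉ D))
    (hr : ∀ q ∈ D, ∀ q' ∈ D, ok q q' → rank q ≤ rank q') : ∀ q ∈ D, E' q = E q := by
  set π : Q ≃ Q := E'.trans E.symm with hπ
  have hok : ∀ q, ok q (π q) := fun q => h q (π q) (by simp [hπ])
  have hmem : ∀ q ∈ D, π q ∈ D := by
    rcases hcl with hcl | hcl
    · exact fun q hq => hcl q hq _ (hok q)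
    · intro q hq
      by_contra hc
      have hsub : Dᶜ.map π.toEmbedding ⊆ Dᶜ := by
        intro x hx
        obtain ⟨y, hy, rfl⟩ := Finset.mem_map.1 hx
        exact Finset.mem_compl.2 (hcl y (Finset.mem_compl.1 hy) _ (hok y))
      have heq := Finset.eq_of_subset_of_card_le hsub (by simp)
      have hx : π q ∈ Dᶜ.map π.toEmbedding := by rw [heq]; exact Finset.mem_compl.2 hc
      obtain ⟨y, hy, hy2⟩ := Finset.mem_map.1 hx
      have : y = q := π.injective hy2
      subst this
      exact Finset.mem_compl.1 hy hq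
  have hsub : D.map π.toEmbedding ⊆ D := by
    intro x hx
    obtain ⟨y, hy, rfl⟩ := Finset.mem_map.1 hx
    exact hmem y hy
  have heq := Finset.eq_of_subset_of_card_le hsub (by simp)
  have hsum : ∑ q ∈ D, rank q = ∑ q ∈ D, rank (π q) := by
    conv_lhs => rw [← heq]
    rw [Finset.sum_map]
    rfl
  have hle : ∀ q ∈ D, rank q ≤ rank (π q) := fun q hq => hr q hq _ (hmem q hq) (hok q)
  have heq2 := (Finset.sum_eq_sum_iff_of_le hle).1 hsum
  intro q hq
  have := hinj q hq _ (hmem q hq) (heq2 q hq)
  have h3 : E (π q) = E' q := by simp [hπ]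
  rw [← h3, ← this]

/-! ### The slots of an instruction -/

theorem climb_zero (n : ℕ) (C : List ℕ) (g : ℕ) (hg : g < n) : climb n C g 0 = uH n g := by
  have hK : tK n = 2 * n + 1 := rfl
  unfold climb
  rw [if_pos (by omega)]
  rfl

theorem climb_big (n : ℕ) (C : List ℕ) (g i : ℕ) (hi : tK n < i) : climb n C g i = uH n g := by
  unfold climb
  rw [if_neg (by omega), if_neg (by omega), if_neg (by omega)]

theorem sslot_home (n : ℕ) (ins : Instr) (j : ℕ) (q : Fin n × Bool)
    (hj : j = 0 ∨ j + 3 = tLam n ∨ j + 1 = tLam n) :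
    slot n ins j q.1 q.2 = hm n q := by
  obtain ⟨g, v⟩ := q
  have hg := g.2
  have hK : tK n = 2 * n + 1 := rfl
  have hL := ts_tLam n
  have hc : ∀ C, climb n C g j = uH n g := by
    intro C
    rcases hj with rfl | hj | hj
    · exact climb_zero n C g g.2
    · exact climb_big n C g j (by omega)
    · exact climb_big n C g j (by omega)
  unfold slot
  rw [if_neg (by omega)]
  cases v <;> simp only [hm, hc] <;> simp
  · simp only [vH]
    split_ifs with h1 h2 h3
    · rw [min_eq_left]
      have hj3 : j + 3 = tLam n := by omega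
      have h4 : 9 ≤ tA n g := by unfold tA; omega
      have h5 : j * 9 ≤ j * tA n g := Nat.mul_le_mul_left _ h4
      have := ts_tS n
      omega
    · rfl
    · rfl
    · rfl

theorem sslot_check (n : ℕ) (ins : Instr) (j : ℕ) (q : Fin n × Bool) (hj : j + 2 = tLam n) :
    slot n ins j q.1 q.2 = hm n q + tA n q.1 := by
  unfold slot hm
  rw [if_pos hj]

theorem climb_pos (n : ℕ) (C : List ℕ) (g i : ℕ) (hg : g < n) :
    1 ≤ climb n C g i ∧ climb n C g i ≤ tZ n + 4 := by
  have hK : tK n = 2 * n + 1 := rfl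
  have h1 := ts_Kg n g hg
  have hu := ts_uH n g hg
  have hZ := ts_tZ n
  unfold climb
  split_ifs with h2 h3 h4 h5 h6
  · have : (tK n - i) * tA n g ≤ tK n * tA n g := Nat.mul_le_mul_right _ (by omega)
    unfold uH at hu
    omega
  · have : 1 * tA n g ≤ tK n * tA n g := Nat.mul_le_mul_right _ (by omega)
    unfold uH at hu
    omega
  · have h8 : 2 * tA n g ≤ tK n * tA n g := Nat.mul_le_mul_right _ (by omega)
    have h9 : 9 ≤ tA n g := by unfold tA; omega
    unfold uH at hu
    omega
  · omega
  · omega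
  · omega

theorem climb_step (n : ℕ) (C : List ℕ) (g g' i : ℕ) (hg : g < n) (hg' : g' < n)
    (hi : i + 2 ≤ tK n) (h : climb n C g (i + 1) ≤ climb n C g' i + (tA n g' + 3)) : g ≤ g' := by
  by_contra hc
  push Not at hc
  have hK : tK n = 2 * n + 1 := rfl
  have hZ := ts_tZ n
  have h1 := ts_Kg n g hg
  have h1' := ts_Kg n g' hg'
  obtain ⟨j, hj⟩ : ∃ j, tK n = i + 1 + 1 + j := ⟨tK n - (i + 2), by omega⟩
  have e1 : tA n g' = tA n g + 9 * (g - g') := by unfold tA; omega
  have e2 : tK n * tA n g' ≤ tZ n := by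
    unfold tZ tA; exact Nat.mul_le_mul_left _ (by omega)
  have e3 : (j + 2) * tA n g' ≤ tK n * tA n g' := Nat.mul_le_mul_right _ (by omega)
  have e4 : 9 * 1 ≤ 9 * (g - g') := by omega
  have e5 : 9 ≤ tA n g := by unfold tA; omega
  unfold climb at h
  rw [if_pos (c := i + 2 ≤ tK n) (by omega)] at h
  have e6 : tK n - i = j + 2 := by omega
  rw [e6] at h
  by_cases h3 : i + 1 + 2 ≤ tK n
  · rw [if_pos h3] at h
    have e7 : tK n - (i + 1) = j + 1 := by omega
    rw [e7] at h
    have e8 : (j + 2) * tA n g' = (j + 1) * tA n g + (j + 1) * (9 * (g - g')) + tA n g' := by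
      rw [e1]; ring
    have e9 : 1 * 9 ≤ (j + 1) * (9 * (g - g')) := Nat.mul_le_mul (by omega) (by omega)
    omega
  · rw [if_neg h3, if_pos (by omega)] at h
    have ej : j = 0 := by omega
    subst ej
    split_ifs at h <;> omega

theorem sslot_static (n : ℕ) (ins : Instr) (j : ℕ) (q : Fin n × Bool)
    (hq : if q.2 then ins.1 = 1 ∨ (ins.1 = 0 ∧ q.1.1 ≠ ins.2.headD 0) else ins.1 ≠ 1) :
    hm n q ≤ slot n ins j q.1 q.2 ∧ slot n ins j q.1 q.2 ≤ hm n q + 9 * n := by
  obtain ⟨g, v⟩ := q
  have ha : tA n g ≤ 9 * n := by unfold tA; omega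
  unfold slot
  cases v
  · simp only [Bool.false_eq_true, if_false] at hq
    simp only [hm, Bool.false_eq_true, if_false, if_neg hq]
    split_ifs <;> omega
  · simp only [if_true] at hq
    simp only [hm, if_true]
    rcases hq with hq | ⟨hq, hq2⟩
    · simp only [hq, one_ne_zero, if_false, if_true]
      split_ifs <;> omega
    · simp only [hq, if_true]
      split_ifs with h1 h2
      · omega
      · exact absurd h2.1 hq2
      · omega

theorem sslot_rider (n : ℕ) (ins : Instr) (j : ℕ) (g : Fin n) (hins : ins.1 = 0) :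
    uH n g ≤ slot n ins j g true ∧ slot n ins j g true ≤ vH n g + 9 * n := by
  have ha : tA n g ≤ 9 * n := by unfold tA; omega
  have ha2 : 9 ≤ tA n g := by unfold tA; omega
  have hv : uH n g ≤ vH n g := Nat.le_add_right _ _
  unfold slot
  simp only [hins, if_true]
  split_ifs with h1 h2
  · omega
  · have : 1 * tA n g ≤ j * tA n g := Nat.mul_le_mul_right _ h2.2.1
    refine ⟨le_min hv (by omega), le_trans (min_le_left _ _) (by omega)⟩
  · omega

theorem slot_low (n : ℕ) (ins : Instr) (j : ℕ) (g : Fin n) :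
    slot n ins j g false ≤ tZ n + 4 := by
  have h1 := ts_Kg n g g.2
  have hu := ts_uH n g g.2
  have hZ := ts_tZ n
  have ha : tA n g ≤ 9 * n := by unfold tA; omega
  have hK : tK n = 2 * n + 1 := rfl
  unfold slot
  simp only [Bool.false_eq_true, if_false]
  split_ifs
  · omega
  · exact (climb_pos n _ _ _ g.2).2
  · omega

theorem slot_up (n : ℕ) (ins : Instr) (j : ℕ) (g : Fin n) (hins : ins.1 ≠ 0) :
    tS n + 1 ≤ slot n ins j g true := by
  have hu := ts_uH n g g.2
  unfold slot vH
  simp only [if_true, if_neg hins]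
  split_ifs
  · omega
  · omega
  · have := (climb_pos n ins.2 g j g.2).1
    omega

/-- the slot of the moving line of a test -/
theorem slot_move (n : ℕ) (ins : Instr) (j : ℕ) (q : Fin n × Bool) (hins : ins.1 ≠ 0)
    (hq : q.2 = decide (ins.1 ≠ 1)) (hj : j ≤ tK n) :
    slot n ins j q.1 q.2 = climb n ins.2 q.1 j + (if ins.1 = 1 then 0 else tS n) := by
  obtain ⟨g, v⟩ := q
  have hL := ts_tLam n
  unfold slot
  rw [if_neg (by omega)]
  by_cases h1 : ins.1 = 1
  · simp only [h1, ne_eq, not_true_eq_false, decide_false] at hq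
    simp [hq, h1]
  · simp only [h1, ne_eq, not_false_eq_true, decide_true] at hq
    simp [hq, h1, hins]

/-! ### One instruction -/

theorem tAl_le (n : ℕ) (t : ℕ) : tAl n t ≤ 9 * n + 3 := by
  unfold tAl tA; omega

/-- The tokens during one instruction. -/
structure InstrRun (n : ℕ) (ins : Instr) (P : ℕ → Fin n × Bool → ℕ)
    (E : ℕ → Fin n × Bool ≃ Fin (2 * n)) : Prop where
  pos : ∀ j < tLam n, ∀ q, P j q = slot n ins j q.1 q.2
  last : ∀ q, P (tLam n) q = hm n q
  step : ∀ j < tLam n, ∀ q q', E (j + 1) q = E j q' →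
    P (j + 1) q ≤ P j q' + tAl n (E j q') + (if j + 1 = tLam n then 1 else 0)

/-- The tokens are at the homes of their groups. -/
def Sorted (n : ℕ) (E : Fin n × Bool ≃ Fin (2 * n)) : Prop := ∀ q, (E q : ℕ) / 2 = q.1

theorem sum_half (n : ℕ) : ∑ t : Fin (2 * n), (t : ℕ) / 2 = ∑ q : Fin n × Bool, (q.1 : ℕ) := by
  rw [Fin.sum_univ_eq_sum_range (fun t => t / 2) (2 * n), Fintype.sum_prod_type]
  simp only [Finset.sum_const, Finset.card_univ, Fintype.card_bool, smul_eq_mul]
  rw [Fin.sum_univ_eq_sum_range (fun t => 2 * t) n]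
  induction n with
  | zero => simp
  | succ n ih =>
    rw [Finset.sum_range_succ, ← ih, show 2 * (n + 1) = 2 * n + 1 + 1 by ring,
      Finset.sum_range_succ, Finset.sum_range_succ]
    omega

theorem sorted_of_le (n : ℕ) (E : Fin n × Bool ≃ Fin (2 * n))
    (h : ∀ q, (E q : ℕ) / 2 ≤ q.1) : Sorted n E := by
  have h1 : ∑ q : Fin n × Bool, (E q : ℕ) / 2 = ∑ q : Fin n × Bool, (q.1 : ℕ) := by
    rw [← sum_half n]
    exact Equiv.sum_comp E fun t : Fin (2 * n) => (t : ℕ) / 2
  intro q
  exact (Finset.sum_eq_sum_iff_of_le fun q _ => h q).1 h1 q (Finset.mem_univ q)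

namespace InstrRun

variable {n : ℕ} {ins : Instr} {P : ℕ → Fin n × Bool → ℕ} {E : ℕ → Fin n × Bool ≃ Fin (2 * n)}

theorem iso (_h : InstrRun n ins P E) (j : ℕ) (q q' : Fin n × Bool)
    (h1 : hm n q ≤ P (j + 1) q) (h2 : P j q' ≤ hm n q' + 9 * n)
    (h3 : P (j + 1) q ≤ P j q' + tAl n (E j q') + (if j + 1 = tLam n then 1 else 0)) :
    hm n q ≤ hm n q' := by
  by_contra hc
  have h4 := ts_iso n q q' (not_le.1 hc)
  have h5 := tAl_le n (E j q')
  split_ifs at h3 <;> omega

theorem all_id (h : InstrRun n ins P E) (j : ℕ) (hj : j < tLam n) (h1 : ∀ q, hm n q ≤ P (j + 1) q)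
    (h2 : ∀ q, P j q ≤ hm n q + 9 * n) (q : Fin n × Bool) : E (j + 1) q = E j q :=
  step_id (E j) (E (j + 1)) _ (h.step j hj) Finset.univ (hm n)
    (fun _ _ _ _ hqq => hm_inj n hqq) (Or.inl fun _ _ _ _ => Finset.mem_univ _)
    (fun q _ q' _ hq => h.iso j q q' (h1 q) (h2 q') hq) q (Finset.mem_univ q)

/-- the check -/
theorem sorted (h : InstrRun n ins P E) : Sorted n (E (tLam n)) := by
  have hL := ts_tLam n
  obtain ⟨j, hj⟩ : ∃ j, tLam n = j + 3 := ⟨tLam n - 3, by omega⟩
  have p0 : ∀ q, P j q = hm n q := fun q => by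
    rw [h.pos j (by omega) q, sslot_home n ins j q (by omega)]
  have p1 : ∀ q, P (j + 1) q = hm n q + tA n q.1 := fun q => by
    rw [h.pos (j + 1) (by omega) q, sslot_check n ins (j + 1) q (by omega)]
  have p2 : ∀ q, P (j + 2) q = hm n q := fun q => by
    rw [h.pos (j + 2) (by omega) q, sslot_home n ins (j + 2) q (by omega)]
  have p3 : ∀ q, P (j + 3) q = hm n q := fun q => by
    rw [← hj]; exact h.last q
  have e0 := h.all_id j (by omega) (fun q => by rw [p1]; omega) (fun q => by rw [p0]; omega)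
  have e1 := h.all_id (j + 1) (by omega) (fun q => by rw [p2]) (fun q => by
    rw [p1]; have : tA n q.1 ≤ 9 * n := by unfold tA; omega
    omega)
  have e2 := h.all_id (j + 2) (by omega) (fun q => by rw [p3]) (fun q => by rw [p2]; omega)
  have hs : Sorted n (E (j + 1)) := by
    apply sorted_of_le
    intro q
    have := h.step j (by omega) q q (e0 q)
    rw [p1, p0, if_neg (by omega), ← e0 q] at this
    have hq := q.1.2
    have hE := (E (j + 1) q).2
    unfold tAl tA at this
    omega
  intro q
  rw [hj, e2, e1]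
  exact hs q

theorem P_static (h : InstrRun n ins P E) (j : ℕ) (hj : j ≤ tLam n) (q : Fin n × Bool)
    (hq : if q.2 then ins.1 = 1 ∨ (ins.1 = 0 ∧ q.1.1 ≠ ins.2.headD 0) else ins.1 ≠ 1) :
    hm n q ≤ P j q ∧ P j q ≤ hm n q + 9 * n := by
  rcases Nat.lt_or_ge j (tLam n) with h1 | h1
  · rw [h.pos j h1]; exact sslot_static n ins j q hq
  · obtain rfl : j = tLam n := by omega
    rw [h.last]; omega

theorem P_low (h : InstrRun n ins P E) (j : ℕ) (hj : j ≤ tLam n) (q : Fin n × Bool)
    (hq : q.2 = false) : P j q ≤ tZ n + 4 := by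
  obtain ⟨g, v⟩ := q
  subst hq
  rcases Nat.lt_or_ge j (tLam n) with h1 | h1
  · rw [h.pos j h1]; exact slot_low n ins j g
  · obtain rfl : j = tLam n := by omega
    rw [h.last, ← sslot_home n ins 0 _ (Or.inl rfl)]
    exact slot_low n ins 0 g

theorem P_up (h : InstrRun n ins P E) (hins : ins.1 ≠ 0) (j : ℕ) (hj : j ≤ tLam n)
    (q : Fin n × Bool) (hq : q.2 = true) : tS n + 1 ≤ P j q := by
  obtain ⟨g, v⟩ := q
  subst hq
  rcases Nat.lt_or_ge j (tLam n) with h1 | h1
  · rw [h.pos j h1]; exact slot_up n ins j g hins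
  · obtain rfl : j = tLam n := by omega
    rw [h.last, ← sslot_home n ins 0 _ (Or.inl rfl)]
    exact slot_up n ins 0 g hins

/-- During a test the sources of the upper line are in the upper line. -/
theorem source (h : InstrRun n ins P E) (hins : ins.1 ≠ 0) (j : ℕ) (hj : j < tLam n)
    (q q' : Fin n × Bool)
    (h3 : P (j + 1) q ≤ P j q' + tAl n (E j q') + (if j + 1 = tLam n then 1 else 0))
    (hq : q.2 = true) : q'.2 = true := by
  by_contra hc
  have hc' : q'.2 = false := by simpa using hc
  have h1 := h.P_up hins (j + 1) hj q hq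
  have h2 := h.P_low j hj.le q' hc'
  have h5 := tAl_le n (E j q')
  have hS := ts_tS n
  have hZ := ts_tZ n
  have hn : 0 < n := by have := q.1.2; omega
  split_ifs at h3 <;> omega

theorem closed (h : InstrRun n ins P E) (hins : ins.1 ≠ 0) (j : ℕ) (hj : j < tLam n) (w : Bool) :
    (∀ q ∈ Finset.univ.filter (fun q : Fin n × Bool => q.2 = w), ∀ q',
      (P (j + 1) q ≤ P j q' + tAl n (E j q') + (if j + 1 = tLam n then 1 else 0)) →
      q' ∈ Finset.univ.filter (fun q : Fin n × Bool => q.2 = w)) ∨
    (∀ q, q ∉ Finset.univ.filter (fun q : Fin n × Bool => q.2 = w) → ∀ q',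
      (P (j + 1) q ≤ P j q' + tAl n (E j q') + (if j + 1 = tLam n then 1 else 0)) →
      q' ∉ Finset.univ.filter (fun q : Fin n × Bool => q.2 = w)) := by
  cases w
  · right
    intro q hq q' hqq
    simp only [Finset.mem_filter, Finset.mem_univ, true_and, Bool.not_eq_false] at hq ⊢
    exact h.source hins j hj q q' hqq hq
  · left
    intro q hq q' hqq
    simp only [Finset.mem_filter, Finset.mem_univ, true_and] at hq ⊢
    exact h.source hins j hj q q' hqq hq

/-- the static line during a test -/
theorem static (h : InstrRun n ins P E) (hins : ins.1 ≠ 0) (j : ℕ) (hj : j ≤ tLam n)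
    (q : Fin n × Bool) (hq : q.2 ≠ decide (ins.1 ≠ 1)) : E j q = E 0 q := by
  induction j generalizing q with
  | zero => rfl
  | succ j ih =>
    rw [← ih (by omega) q hq]
    have hst : ∀ q' : Fin n × Bool, q'.2 = q.2 →
        (if q'.2 then ins.1 = 1 ∨ (ins.1 = 0 ∧ q'.1.1 ≠ ins.2.headD 0) else ins.1 ≠ 1) := by
      intro q' hq'
      rw [hq']
      cases hv : q.2
      · rw [hv] at hq
        simpa using hq
      · rw [hv] at hq
        simp only [if_true]
        left
        simpa using hq
    refine step_id (E j) (E (j + 1)) _ (h.step j (by omega))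
      (Finset.univ.filter fun q' => q'.2 = q.2) (hm n)
      (fun _ _ _ _ hqq => hm_inj n hqq) (h.closed hins j (by omega) q.2)
      (fun q1 hq1 q2 hq2 hqq => ?_) q (by simp)
    simp only [Finset.mem_filter, Finset.mem_univ, true_and] at hq1 hq2
    exact h.iso j q1 q2 (h.P_static (j + 1) hj q1 (hst q1 hq1)).1
      (h.P_static j (by omega) q2 (hst q2 hq2)).2 hqq

/-- the moving line during the first phases of a test -/
theorem move (h : InstrRun n ins P E) (hs : Sorted n (E 0)) (hins : ins.1 ≠ 0) (j : ℕ)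
    (hj : j + 1 ≤ tK n) (q : Fin n × Bool) (hq : q.2 = decide (ins.1 ≠ 1)) : E j q = E 0 q := by
  have hL := ts_tLam n
  induction j generalizing q with
  | zero => rfl
  | succ j ih =>
    have ih' := ih (by omega)
    rw [← ih' q hq]
    refine step_id (E j) (E (j + 1)) _ (h.step j (by omega))
      (Finset.univ.filter fun q' => q'.2 = q.2) (fun q => (q.1 : ℕ)) ?_
      (h.closed hins j (by omega) q.2)
      (fun q1 hq1 q2 hq2 hqq => ?_) q (by simp)
    · intro q1 hq1 q2 hq2 h12
      simp only [Finset.mem_filter, Finset.mem_univ, true_and] at hq1 hq2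
      exact Prod.ext (Fin.ext h12) (hq1.trans hq2.symm)
    simp only [Finset.mem_filter, Finset.mem_univ, true_and] at hq1 hq2
    have hne : ¬ (j + 1 = tLam n) := by omega
    rw [h.pos (j + 1) (by omega), h.pos j (by omega),
      slot_move n ins (j + 1) q1 hins (hq1.trans hq) (by omega),
      slot_move n ins j q2 hins (hq2.trans hq) (by omega), if_neg hne,
      ih' q2 (hq2.trans hq)] at hqq
    refine climb_step n ins.2 q1.1 q2.1 j q1.1.2 q2.1.2 (by omega) ?_
    have h5 := hs q2
    have h6 : tAl n (E 0 q2) ≤ tA n q2.1 + 3 := by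
      unfold tAl
      rw [h5]
      omega
    omega

/-- the test -/
theorem test (h : InstrRun n ins P E) (hn : 0 < n) (hs : Sorted n (E 0)) (hins : ins.1 ≠ 0) :
    ∃ m ∈ ins.2, ∃ hm : m < n, (E 0 (⟨m, hm⟩, decide (ins.1 ≠ 1)) : ℕ) = 2 * m + 1 := by
  have hL := ts_tLam n
  have hK : tK n = 2 * n + 1 := rfl
  set v := decide (ins.1 ≠ 1) with hv
  set j := tK n - 1 with hj
  have hj1 : j + 1 = tK n := by omega
  set q : Fin n × Bool := (⟨0, hn⟩, v) with hqd
  obtain ⟨q', hq'⟩ : ∃ q', E j q' = E (j + 1) q := ⟨(E j).symm (E (j + 1) q), by simp⟩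
  have hstep := h.step j (by omega) q q' hq'.symm
  have hline : q'.2 = v := by
    by_contra hc
    have h1 := h.static hins j (by omega) q' hc
    have h2 := h.static hins (j + 1) (by omega) q' hc
    rw [← h1] at h2
    rw [← h2] at hq'
    have := (E (j + 1)).injective hq'
    rw [this] at hc
    exact hc rfl
  have hne : ¬ (j + 1 = tLam n) := by omega
  rw [h.pos (j + 1) (by omega), h.pos j (by omega), slot_move n ins (j + 1) q hins rfl (by omega),
    slot_move n ins j q' hins hline (by omega), if_neg hne,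
    h.move hs hins j (by omega) q' hline] at hstep
  have hc1 : climb n ins.2 q.1 (j + 1) = tZ n + 4 := by
    unfold climb
    rw [if_neg (by omega), if_neg (by omega), if_pos (by omega), if_pos rfl]
  have hc2 : climb n ins.2 q'.1 j = if q'.1.1 ∈ ins.2 then tZ n + 1 - tA n q'.1 else
      tZ n + 1 - tA n q'.1 - 3 := by
    unfold climb
    rw [if_neg (by omega), if_pos (by omega)]
  rw [hc1, hc2] at hstep
  have h5 := hs q'
  have h6 : tAl n (E 0 q') = tA n q'.1 + 3 * ((E 0 q' : ℕ) % 2) := by
    unfold tAl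
    rw [h5]
  rw [h6] at hstep
  have h7 : tA n q'.1 + 3 ≤ tZ n + 1 := by
    have h8 : 2 * tA n q'.1 ≤ tZ n := by
      unfold tZ tA
      exact Nat.mul_le_mul (by omega) (by omega)
    have h9 : 9 ≤ tA n q'.1 := by
      have := q'.1.2
      unfold tA; omega
    omega
  have hmod : (E 0 q' : ℕ) % 2 < 2 := Nat.mod_lt _ (by norm_num)
  by_cases hC : q'.1.1 ∈ ins.2
  · rw [if_pos hC] at hstep
    refine ⟨q'.1, hC, q'.1.2, ?_⟩
    have h10 : (⟨(q'.1 : ℕ), q'.1.2⟩, v) = q' := by
      rw [← hline]
    rw [h10]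
    omega
  · rw [if_neg hC] at hstep
    exfalso
    omega

theorem P_hi (h : InstrRun n ins P E) (hins : ins.1 = 0) (j : ℕ) (hj : j ≤ tLam n)
    (q : Fin n × Bool) : P j q ≤ hm n q + 9 * n := by
  by_cases hq : q.2 = true ∧ q.1.1 = ins.2.headD 0
  · obtain ⟨g, v⟩ := q
    obtain ⟨hv, hg⟩ := hq
    simp only at hv hg
    subst hv
    rcases Nat.lt_or_ge j (tLam n) with h1 | h1
    · rw [h.pos j h1]; exact (sslot_rider n ins j g hins).2
    · obtain rfl : j = tLam n := by omega
      rw [h.last]; omega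
  · refine (h.P_static j hj q ?_).2
    cases hv : q.2
    · simp [hins]
    · simp only [if_true]
      exact Or.inr ⟨hins, fun hc => hq ⟨hv, hc⟩⟩

theorem reset_up (h : InstrRun n ins P E) (hins : ins.1 = 0) (j : ℕ) (hj : j ≤ tLam n)
    (q : Fin n × Bool) (hq : q.2 = true) (hq2 : ins.2.headD 0 < q.1) : E j q = E 0 q := by
  induction j with
  | zero => rfl
  | succ j ih =>
    rw [← ih (by omega)]
    have hst : ∀ q' : Fin n × Bool, (q'.2 = true ∧ ins.2.headD 0 < q'.1) →
        (if q'.2 then ins.1 = 1 ∨ (ins.1 = 0 ∧ q'.1.1 ≠ ins.2.headD 0) else ins.1 ≠ 1) := by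
      rintro q' ⟨hq', hq2'⟩
      rw [if_pos hq']
      exact Or.inr ⟨hins, by omega⟩
    refine step_id (E j) (E (j + 1)) _ (h.step j (by omega))
      (Finset.univ.filter fun q' => q'.2 = true ∧ ins.2.headD 0 < q'.1) (hm n)
      (fun _ _ _ _ hqq => hm_inj n hqq) (Or.inl ?_)
      (fun q1 hq1 q2 hq2 hqq => ?_) q (by simp only [Finset.mem_filter]; exact ⟨by simp, hq, hq2⟩)
    · intro q1 hq1 q2 hqq
      simp only [Finset.mem_filter, Finset.mem_univ, true_and] at hq1 ⊢
      have h1 := h.iso j q1 q2 (h.P_static (j + 1) hj q1 (hst q1 hq1)).1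
        (h.P_hi hins j (by omega) q2) hqq
      obtain ⟨g1, v1⟩ := q1
      obtain ⟨g2, v2⟩ := q2
      obtain ⟨hv1, hg1⟩ := hq1
      simp only at hv1 hg1
      subst hv1
      have hu1 := ts_uH n g1 g1.2
      have hu2 := ts_uH n g2 g2.2
      have hS := ts_tS n
      have hKg := ts_Kg n g2 g2.2
      cases v2
      · exfalso
        simp only [hm, vH] at h1
        simp at h1
        omega
      · simp only [hm, vH, if_true] at h1
        refine ⟨rfl, lt_of_lt_of_le hg1 ?_⟩
        by_contra hc
        have hm1 : tK n * g2 + tK n ≤ tK n * g1 := by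
          have := Nat.mul_le_mul_left (tK n) (show (g2 : ℕ) + 1 ≤ g1 by
            have := not_le.1 hc
            exact this)
          rw [Nat.mul_add, Nat.mul_one] at this
          exact this
        have hK : tK n = 2 * n + 1 := rfl
        omega
    · simp only [Finset.mem_filter, Finset.mem_univ, true_and] at hq1
      exact h.iso j q1 q2 (h.P_static (j + 1) hj q1 (hst q1 hq1)).1
        (h.P_hi hins j (by omega) q2) hqq

theorem reset_low (h : InstrRun n ins P E) (hins : ins.1 = 0) (hg0 : ins.2.headD 0 < n) (j : ℕ)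
    (hj : j ≤ tLam n) (q : Fin n × Bool) (hq : q.2 = false) (hq2 : q.1 < ins.2.headD 0) :
    E j q = E 0 q := by
  induction j with
  | zero => rfl
  | succ j ih =>
    rw [← ih (by omega)]
    have hst : ∀ q' : Fin n × Bool, q'.2 = false →
        (if q'.2 then ins.1 = 1 ∨ (ins.1 = 0 ∧ q'.1.1 ≠ ins.2.headD 0) else ins.1 ≠ 1) := by
      intro q' hq'
      rw [if_neg (by rw [hq']; exact Bool.false_ne_true)]
      omega
    refine step_id (E j) (E (j + 1)) _ (h.step j (by omega))
      (Finset.univ.filter fun q' => q'.2 = false ∧ q'.1 < ins.2.headD 0) (hm n)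
      (fun _ _ _ _ hqq => hm_inj n hqq) (Or.inr ?_)
      (fun q1 hq1 q2 hq2 hqq => ?_) q (by simp only [Finset.mem_filter]; exact ⟨by simp, hq, hq2⟩)
    · intro q1 hq1 q2 hqq
      simp only [Finset.mem_filter, Finset.mem_univ, true_and] at hq1 ⊢
      rintro ⟨hv2, hg2⟩
      have h2 := h.P_hi hins j (by omega) q2
      have h1 : hm n (⟨ins.2.headD 0, hg0⟩, false) ≤ P (j + 1) q1 := by
        simp only [hm, Bool.false_eq_true, if_false]
        obtain ⟨g1, v1⟩ := q1
        have hu1 := ts_uH n g1 g1.2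
        have hu0 := ts_uH n _ hg0
        cases v1
        · simp only [true_and, not_lt] at hq1
          have h3 := (h.P_static (j + 1) hj (g1, false) (hst _ rfl)).1
          simp only [hm, Bool.false_eq_true, if_false] at h3
          have := Nat.mul_le_mul_left (tK n) hq1
          omega
        · by_cases hg : g1.1 = ins.2.headD 0
          · rcases Nat.lt_or_ge (j + 1) (tLam n) with h4 | h4
            · rw [h.pos _ h4]
              have := (sslot_rider n ins (j + 1) g1 hins).1
              rw [← hg]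
              exact this
            · have h5 : j + 1 = tLam n := by omega
              rw [h5, h.last]
              simp only [hm, vH, if_true]
              rw [← hg]
              exact Nat.le_add_right _ _
          · have h3 := (h.P_static (j + 1) hj (g1, true) (by
              rw [if_pos rfl]; exact Or.inr ⟨hins, hg⟩)).1
            simp only [hm, vH, if_true] at h3
            have hS := ts_tS n
            have hKg := ts_Kg n _ hg0
            omega
      have h4 : hm n q2 < hm n (⟨ins.2.headD 0, hg0⟩, false) := by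
        simp only [hm, hv2, Bool.false_eq_true, if_false]
        have hu2 := ts_uH n q2.1 q2.1.2
        have hu0 := ts_uH n _ hg0
        have := Nat.mul_le_mul_left (tK n) (Nat.succ_le_of_lt hg2)
        rw [Nat.mul_succ] at this
        have hK : tK n = 2 * n + 1 := rfl
        omega
      have h5 := ts_iso n _ _ h4
      have h6 := tAl_le n (E j q2)
      split_ifs at hqq <;> omega
    · simp only [Finset.mem_filter, Finset.mem_univ, true_and] at hq1
      exact h.iso j q1 q2 (h.P_static (j + 1) hj q1 (hst q1 hq1.1)).1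
        (h.P_hi hins j (by omega) q2) hqq

end InstrRun

/-- the state -/
def st (n : ℕ) (E : Fin n × Bool ≃ Fin (2 * n)) (g : ℕ) : Bool :=
  decide (∃ h : g < n, (E (⟨g, h⟩, false) : ℕ) = 2 * g + 1)

theorem st_eq {n : ℕ} {E E' : Fin n × Bool ≃ Fin (2 * n)} (hs : Sorted n E) (hs' : Sorted n E')
    (g : ℕ) (hg : g < n) (v : Bool) (h : E' (⟨g, hg⟩, v) = E (⟨g, hg⟩, v)) :
    st n E' g = st n E g := by
  have h0 : (E' (⟨g, hg⟩, false) : ℕ) = E (⟨g, hg⟩, false) := by
    cases v
    · rw [h]
    · have a1 := hs (⟨g, hg⟩, false)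
      have a2 := hs (⟨g, hg⟩, true)
      have a3 := hs' (⟨g, hg⟩, false)
      have a4 := hs' (⟨g, hg⟩, true)
      have a5 : (E (⟨g, hg⟩, false) : ℕ) ≠ E (⟨g, hg⟩, true) := by
        intro hc
        have := E.injective (Fin.ext hc)
        simp at this
      have a6 : (E' (⟨g, hg⟩, false) : ℕ) ≠ E' (⟨g, hg⟩, true) := by
        intro hc
        have := E'.injective (Fin.ext hc)
        simp at this
      rw [h] at a4 a6
      simp only at a1 a2 a3 a4
      omega
  unfold st
  simp only [hg, exists_true_left]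
  rw [h0]

theorem InstrRun.rel {n : ℕ} {ins : Instr} {P : ℕ → Fin n × Bool → ℕ}
    {E : ℕ → Fin n × Bool ≃ Fin (2 * n)} (h : InstrRun n ins P E) (hn : 0 < n)
    (hs : Sorted n (E 0)) (hg0 : ins.1 = 0 → ins.2.headD 0 < n) :
    Rel n ins (st n (E 0)) (st n (E (tLam n))) := by
  have hs' := h.sorted
  unfold Rel
  split_ifs with hins
  · intro g hg hne
    rcases lt_or_gt_of_ne hne with hlt | hgt
    · exact st_eq hs hs' g hg false
        (h.reset_low hins (hg0 hins) (tLam n) le_rfl (⟨g, hg⟩, false) rfl hlt)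
    · exact st_eq hs hs' g hg true
        (h.reset_up hins (tLam n) le_rfl (⟨g, hg⟩, true) rfl hgt)
  · refine ⟨fun g hg => ?_, ?_⟩
    · exact st_eq hs hs' g hg (!decide (ins.1 ≠ 1))
        (h.static hins (tLam n) le_rfl (⟨g, hg⟩, _) (by simp))
    · obtain ⟨m, hm, hmn, hE⟩ := h.test hn hs hins
      refine ⟨m, hm, hmn, ?_⟩
      unfold st
      by_cases h1 : ins.1 = 1
      · simp only [h1, decide_true]
        rw [decide_eq_true_iff]
        refine ⟨hmn, ?_⟩
        simpa [h1] using hE
      · simp only [h1, decide_false]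
        rw [decide_eq_false_iff_not]
        rintro ⟨_, hc⟩
        have h2 : decide (ins.1 ≠ 1) = true := by simp [h1]
        rw [h2] at hE
        have := (E 0).injective (Fin.ext (hc.trans hE.symm))
        simp at this

theorem col_step (R a b al i : ℕ) (hR : 0 < R) (ha : a % R = i % R) (hb : b % R = (i + 1) % R)
    (h : b ≤ a + R * al + 1) : b / R ≤ a / R + al + (if (i + 1) % R = 0 then 1 else 0) := by
  have h1 := Nat.div_add_mod a R
  have h2 := Nat.div_add_mod b R
  have h3 := Nat.mod_lt i hR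
  split_ifs with h0
  · have h4 : R * (b / R) < R * (a / R + al + 1 + 1) := by
      have : R * (a / R + al + 1 + 1) = R * (a / R) + R * al + R + R := by ring
      omega
    have := Nat.lt_of_mul_lt_mul_left h4
    omega
  · have h5 : (i + 1) % R = i % R + 1 := by
      rw [Nat.add_mod] at h0 ⊢
      rcases Nat.lt_or_ge (i % R + 1) R with h6 | h6
      · have h1R : 1 % R = 1 := Nat.mod_eq_of_lt (by omega)
        rw [h1R, Nat.mod_eq_of_lt h6]
      · exfalso
        have h7 : i % R + 1 = R := by omega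
        apply h0
        rcases Nat.lt_or_ge 1 R with h8 | h8
        · rw [Nat.mod_eq_of_lt h8, h7, Nat.mod_self]
        · obtain rfl : R = 1 := by omega
          exact Nat.mod_one _
    have h4 : R * (b / R) < R * (a / R + al + 1) := by
      have : R * (a / R + al + 1) = R * (a / R) + R * al + R := by ring
      omega
    have := Nat.lt_of_mul_lt_mul_left h4
    omega

theorem tok_sound (n : ℕ) (prog : List Instr) (hn : 0 < n) (hp : prog ≠ [])
    (hwf : ∀ ins ∈ prog, ins.1 = 0 → ins.2.headD 0 < n)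
    (h : ∀ N, ∃ c, CRun (tR n prog) (tCl n prog) (tMo n prog) (2 * n) (tAl n) N c) :
    ∀ N, ∃ σ, PRun n prog N σ := by
  intro N
  have hlen : 0 < prog.length := List.length_pos_iff.2 hp
  have hL0 : 12 ≤ tLam n := by
    have := ts_tLam n
    have hK : tK n = 2 * n + 1 := rfl
    omega
  have hR0 : 0 < tR n prog := Nat.mul_pos (by omega) hlen
  obtain ⟨c, hc1, hc2, hc3⟩ := h ((N + prog.length) * tLam n)
  -- the arrangement of the tokens
  have hE : ∀ i, i ≤ (N + prog.length) * tLam n → ∃ E : Fin n × Bool ≃ Fin (2 * n), ∀ q,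
      c i (E q) / tR n prog = slot n (prog.getD (i / tLam n % prog.length) (1, [])) (i % tLam n)
        q.1 q.2 := by
    intro i hi
    have hex : ∀ t : Fin (2 * n), ∃ q : Fin n × Bool, c i t / tR n prog =
        slot n (prog.getD (i / tLam n % prog.length) (1, [])) (i % tLam n) q.1 q.2 := by
      intro t
      obtain ⟨_, h2, h3⟩ := hc1 i hi t t.2
      unfold tMo at h2
      rw [decide_eq_true_iff] at h2
      obtain ⟨g, hg, v, h4⟩ := h2
      refine ⟨(⟨g, hg⟩, v), ?_⟩
      rw [h4, h3]
      have e1 : i % tR n prog / tLam n = i / tLam n % prog.length := by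
        unfold tR
        exact Nat.mod_mul_right_div_self _ _ _
      have e2 : i % tR n prog % tLam n = i % tLam n := by
        unfold tR
        exact Nat.mod_mul_right_mod _ _ _
      rw [e1, e2]
    choose f hf using hex
    have hinj : Function.Injective f := by
      intro t t' htt
      have h1 : c i t = c i t' := by
        have h2 := hf t
        have h3 := hf t'
        rw [← htt] at h3
        have h4 := (hc1 i hi t t.2).2.2
        have h5 := (hc1 i hi t' t'.2).2.2
        rw [← Nat.div_add_mod (c i t) (tR n prog), ← Nat.div_add_mod (c i t') (tR n prog),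
          h2, h3, h4, h5]
      exact Fin.ext (hc2 i hi t t.2 t' t'.2 h1)
    have hbij : Function.Bijective f := by
      rw [Fintype.bijective_iff_injective_and_card]
      refine ⟨hinj, ?_⟩
      simp [mul_comm]
    refine ⟨(Equiv.ofBijective f hbij).symm, fun q => ?_⟩
    have h1 := hf ((Equiv.ofBijective f hbij).symm q)
    rw [h1]
    have h2 : f ((Equiv.ofBijective f hbij).symm q) = q :=
      (Equiv.ofBijective f hbij).apply_symm_apply q
    rw [h2]
  have : Nonempty (Fin n × Bool ≃ Fin (2 * n)) := ⟨(hE 0 (Nat.zero_le _)).choose⟩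
  choose! E hE using hE
  -- the instructions
  have hrun : ∀ k < N + prog.length, InstrRun n (prog.getD (k % prog.length) (1, []))
      (fun j q => c (k * tLam n + j) (E (k * tLam n + j) q) / tR n prog)
      (fun j => E (k * tLam n + j)) := by
    intro k hk
    have hkM : k * tLam n + tLam n ≤ (N + prog.length) * tLam n := by
      rw [← Nat.succ_mul]
      exact Nat.mul_le_mul_right _ hk
    refine ⟨fun j hj q => ?_, fun q => ?_, fun j hj q q' hqq => ?_⟩
    · rw [hE _ (by omega)]
      have e1 : (k * tLam n + j) / tLam n = k := by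
        rw [mul_comm, Nat.mul_add_div (by omega), Nat.div_eq_of_lt hj, add_zero]
      have e2 : (k * tLam n + j) % tLam n = j := by
        rw [Nat.mul_add_mod_self_right, Nat.mod_eq_of_lt hj]
      rw [e1, e2]
    · rw [hE _ (by omega)]
      have e2 : (k * tLam n + tLam n) % tLam n = 0 := by
        rw [Nat.mul_add_mod_self_right, Nat.mod_self]
      rw [e2]
      exact sslot_home n _ 0 q (Or.inl rfl)
    · have h1 := hc1 (k * tLam n + j) (by omega) (E (k * tLam n + j) q') (Fin.is_lt _)
      have h2 := hc1 (k * tLam n + j + 1) (by omega) (E (k * tLam n + j) q') (Fin.is_lt _)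
      have h3 := hc3 (k * tLam n + j) (by omega) (E (k * tLam n + j) q') (Fin.is_lt _)
      have h4 := col_step _ _ _ _ _ hR0 h1.2.2 h2.2.2 h3
      have hqq' : E (k * tLam n + j + 1) q = E (k * tLam n + j) q' := hqq
      have h5 : (if (k * tLam n + j + 1) % tR n prog = 0 then 1 else 0) ≤
          (if j + 1 = tLam n then 1 else 0) := by
        by_cases h6 : (k * tLam n + j + 1) % tR n prog = 0
        · rw [if_pos h6, if_pos]
          have h7 : (k * tLam n + j + 1) % tLam n = 0 := by
            have h8 : tLam n ∣ tR n prog := Dvd.intro _ rfl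
            exact Nat.mod_eq_zero_of_dvd (h8.trans (Nat.dvd_of_mod_eq_zero h6))
          rw [add_assoc, Nat.mul_add_mod_self_right] at h7
          have h9 := Nat.le_of_dvd (by omega) (Nat.dvd_of_mod_eq_zero h7)
          omega
        · rw [if_neg h6]
          exact Nat.zero_le _
      rw [show k * tLam n + (j + 1) = k * tLam n + j + 1 from rfl, hqq']
      omega
  have hsort : ∀ k < N + prog.length, Sorted n (E ((k + 1) * tLam n)) := by
    intro k hk
    have := (hrun k hk).sorted
    rwa [← Nat.succ_mul] at this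
  refine ⟨fun k => st n (E ((k + prog.length) * tLam n)), fun k hk => ?_⟩
  have h1 := hrun (k + prog.length) (by omega)
  rw [Nat.add_mod_right] at h1
  have h2 : Sorted n (E ((k + prog.length) * tLam n + 0)) := by
    have := hsort (k + prog.length - 1) (by omega)
    rwa [show k + prog.length - 1 + 1 = k + prog.length by omega] at this
  have h3 := h1.rel hn h2 (by
    intro h0
    refine hwf _ ?_ h0
    have hlt := Nat.mod_lt k hlen
    rw [List.getD_eq_getElem _ _ hlt]
    exact List.getElem_mem hlt)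
  simp only [add_zero] at h3
  rw [← Nat.succ_mul] at h3
  have h4 : (k + 1 + prog.length) = (k + prog.length).succ := by omega
  change Rel n _ (st n (E ((k + prog.length) * tLam n))) (st n (E ((k + 1 + prog.length) * tLam n)))
  rw [h4]
  exact h3

end Pool.Agent.Lib.Pinwheel
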