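import Pool.Agent.Lib.Pinwheel.Sound
import Pool.Agent.Lib.Pinwheel.Complete
import Pool.Agent.Lib.Pinwheel.TokSound
import Pool.Agent.Lib.Pinwheel.TokComplete
import Pool.Agent.Lib.Pinwheel.ChainProg
import Pool.Agent.Lib.Pinwheel.Space
import Pool.Agent.Lib.Pinwheel.FreqList
import Pool.Agent.Lib.Pinwheel.ProgPoly
import Pool.Agent.Lib.PolyTime.NatBin
import Pool.Agent.Lib.PolyTime.Bridge

/-!
# Pinwheel scheduling is PSPACE-hard: assembly
-/

namespace Pool.Agent.Lib.Pinwheel

open Pool.Agent.Lib.PolyTime Turing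

/-- The word of a list of numbers: the numbers in binary, each followed by a separator. -/
def encode (l : List ℕ) : List (Option Bool) := l.flatMap fun f => (Nat.bits f).map some ++ [none]

/-- The instance `l` of Pinwheel Scheduling is feasible. -/
def FeasibleList (l : List ℕ) : Prop := Feasible fun i : Fin l.length => l[i]

theorem feasible_of_equiv {ι κ : Type*} (f : ι → ℕ) (g : κ → ℕ) (e : ι ≃ κ)
    (h : ∀ i, g (e i) = f i) (hf : Feasible f) : Feasible g := by
  obtain ⟨S, hS⟩ := hf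
  refine ⟨fun t => e (S t), fun j t => ?_⟩
  obtain ⟨s, h1, h2, h3⟩ := hS (e.symm j) t
  refine ⟨s, h1, ?_, ?_⟩
  · rw [← h (e.symm j), e.apply_symm_apply] at h2
    exact h2
  · show e (S s) = j
    rw [h3, e.apply_symm_apply]

theorem exists_equiv_of_map_eq {ι κ : Type*} [Fintype ι] [Fintype κ] (f : ι → ℕ) (g : κ → ℕ)
    (h : (Finset.univ : Finset ι).val.map f = (Finset.univ : Finset κ).val.map g) :
    ∃ e : ι ≃ κ, ∀ i, g (e i) = f i := by
  have key : ∀ c, Nonempty ({i // f i = c} ≃ {j // g j = c}) := by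
    intro c
    rw [← Fintype.card_eq, Fintype.card_subtype, Fintype.card_subtype]
    have := congrArg (Multiset.count c) h
    rw [Multiset.count_map, Multiset.count_map] at this
    simp only [eq_comm (a := c)] at this
    exact this
  let ec : ∀ c, {i // f i = c} ≃ {j // g j = c} := fun c => (key c).some
  refine ⟨(Equiv.sigmaFiberEquiv f).symm.trans ((Equiv.sigmaCongrRight ec).trans
    (Equiv.sigmaFiberEquiv g)), fun i => ?_⟩
  exact (ec (f i) ⟨i, rfl⟩).2

theorem feasible_congr {ι κ : Type*} [Fintype ι] [Fintype κ] (f : ι → ℕ) (g : κ → ℕ)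
    (h : (Finset.univ : Finset ι).val.map f = (Finset.univ : Finset κ).val.map g) :
    Feasible f ↔ Feasible g := by
  obtain ⟨e, he⟩ := exists_equiv_of_map_eq f g h
  obtain ⟨e', he'⟩ := exists_equiv_of_map_eq g f h.symm
  exact ⟨feasible_of_equiv f g e he, feasible_of_equiv g f e' he'⟩

theorem feasibleList_iff {ι : Type*} [Fintype ι] (f : ι → ℕ) (l : List ℕ)
    (h : (Finset.univ : Finset ι).val.map f = (l : Multiset ℕ)) :
    Feasible f ↔ FeasibleList l := by
  refine feasible_congr _ _ ?_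
  rw [h, Fin.univ_val_map]
  congr 1
  exact (List.ofFn_getElem (xs := l)).symm

theorem Env.Good.freq_pos {E : Env} {Q B : ℕ} (hE : E.Good Q) (hB : 0 < B) (al : ℕ → ℕ)
    (i : E.Job B) : 0 < E.freq B al i := by
  rcases i with w | j | τ
  · exact hB
  · exact Nat.mul_pos hB (hE.mod_pos _)
  · exact Nat.add_pos_left (Nat.mul_pos hB (hE.mod_pos _)) _

/-- The equivalence for the list of the frequencies. -/
theorem freqList_iff {V : List Bool → Bool} {g : List Bool → ℕ × List (List (ℕ × Bool))}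
    (hg : ∀ x, 0 < (g x).1 ∧ (∀ c ∈ (g x).2, ∀ l ∈ c, l.1 < 2 * (g x).1) ∧
        (V x = true → ∃ σ, ∀ T, ChainRun (g x).1 (g x).2 T σ) ∧
        ((∀ T, ∃ σ, ChainRun (g x).1 (g x).2 T σ) → V x = true)) (x : List Bool) :
    freqList (4 * (g x).1) (progOf (g x).1 (g x).2) ≠ [] ∧
    (∀ q ∈ freqList (4 * (g x).1) (progOf (g x).1 (g x).2), 0 < q) ∧
    ∀ l, l.Perm (freqList (4 * (g x).1) (progOf (g x).1 (g x).2)) →
      (V x = true ↔ FeasibleList l) := by
  obtain ⟨hN, hcl, h1, h2⟩ := hg x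
  set N := (g x).1
  set cl := (g x).2
  obtain ⟨hp, hwf⟩ := progOf_wf N cl hN hcl
  have hn : 0 < 4 * N := by omega
  obtain ⟨Q, hE⟩ := mkEnv_good (4 * N) (progOf N cl) hn hp
  obtain ⟨e1, e2, e3, e4⟩ := mkEnv_big (4 * N) (progOf N cl) hn hp
  have hB : 2 * (mkEnv (4 * N) (progOf N cl)).Z ≤ pB (4 * N) (progOf N cl) := by
    refine le_trans ?_ e1
    exact Nat.le_mul_of_pos_right _ (Nat.succ_pos _)
  have hE1 := hE.Z4
  have hE2 := hE.two_le
  have hBpos : 0 < pB (4 * N) (progOf N cl) := by omega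
  have key := freqList_eq (4 * N) (progOf N cl) hn hp
  refine ⟨?_, ?_, ?_⟩
  · intro h3
    rw [h3] at key
    have h4 : (mkEnv (4 * N) (progOf N cl)).freq (pB (4 * N) (progOf N cl)) (tAl (4 * N))
        (.inr (.inl (.lab ⟨0, by omega⟩ false))) ∈ (([] : List ℕ) : Multiset ℕ) := by
      rw [← key]
      exact Multiset.mem_map_of_mem _ (Finset.mem_univ _)
    simp at h4
  · intro q hq
    have h3 : q ∈ ((Finset.univ : Finset ((mkEnv (4 * N) (progOf N cl)).Job
        (pB (4 * N) (progOf N cl)))).val.map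
        ((mkEnv (4 * N) (progOf N cl)).freq (pB (4 * N) (progOf N cl)) (tAl (4 * N)))) := by
      rw [key]
      exact hq
    obtain ⟨i, -, rfl⟩ := Multiset.mem_map.1 h3
    exact hE.freq_pos hBpos _ i
  · intro l hl
    rw [← feasibleList_iff _ l (key.trans (Multiset.coe_eq_coe.2 hl.symm))]
    constructor
    · intro hV
      obtain ⟨σ, hσ⟩ := h1 hV
      obtain ⟨σ', hσ'⟩ := chain_complete N cl hN hcl σ hσ
      obtain ⟨c, hc⟩ := tok_complete (4 * N) (progOf N cl) hn hp hwf σ' hσ'
      exact Env.env_complete _ _ hE hB c hc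
    · intro hF
      have h3 := Env.env_sound _ _ hE e1 e2 e3 e4 hF
      exact h2 (chain_sound N cl hN hcl (tok_sound (4 * N) (progOf N cl) hn hp hwf h3))

/-- The reduction from chains, applied to a polynomial time computable family of chains. -/
theorem hard_of_chain {V : List Bool → Bool} {g : List Bool → ℕ × List (List (ℕ × Bool))}
    (hg : PolyF g)
    (hgx : ∀ x, 0 < (g x).1 ∧ (∀ c ∈ (g x).2, ∀ l ∈ c, l.1 < 2 * (g x).1) ∧
        (V x = true → ∃ σ, ∀ T, ChainRun (g x).1 (g x).2 T σ) ∧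
        ((∀ T, ∃ σ, ChainRun (g x).1 (g x).2 T σ) → V x = true)) :
    ∃ F : List Bool → List ℕ, PolyF F ∧ ∀ x, (F x).Pairwise (· ≤ ·) ∧ (∀ q ∈ F x, 0 < q) ∧
      (V x = true ↔ FeasibleList (F x)) ∧ F x ≠ [] := by
  refine ⟨fun x => (freqList (4 * (g x).1) (progOf (g x).1 (g x).2)).insertionSort (· ≤ ·),
    ?_, fun x => ?_⟩
  · have e1 : PolyF (fun x => freqList (4 * (g x).1) (progOf (g x).1 (g x).2)) :=
      PolyF.comp (f := fun a : ℕ × List Instr => freqList a.1 a.2)
        (g := fun x => (4 * (g x).1, progOf (g x).1 (g x).2)) polyF_freqList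
        (PolyF.comp (f := fun a : ℕ × List (List (ℕ × Bool)) => (4 * a.1, progOf a.1 a.2))
          (g := g) polyF_progOf hg)
    have e2 : PolyF (fun p : ℕ × ℕ => decide (p.1 ≤ p.2)) := PolyF.natLe PolyF.fst' PolyF.snd'
    exact PolyF.insertionSort (r := fun a b : ℕ => a ≤ b) e2 e1
  · have hperm := List.perm_insertionSort (· ≤ ·)
      (freqList (4 * (g x).1) (progOf (g x).1 (g x).2))
    obtain ⟨h0, h1, h2⟩ := freqList_iff hgx x
    refine ⟨List.pairwise_insertionSort _ _, fun q hq => h1 q (hperm.mem_iff.1 hq), h2 _ hperm,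
      fun h3 => h0 ?_⟩
    have h4 := hperm.length_eq
    have h5 : ((freqList (4 * (g x).1) (progOf (g x).1 (g x).2)).insertionSort
      (· ≤ ·)).length = 0 := by
      dsimp only at h3
      rw [h3]
      rfl
    exact List.eq_nil_of_length_eq_zero (h4.symm.trans h5)

/-- Every language in PSPACE reduces to Pinwheel Scheduling. -/
theorem hard {V : List Bool → Bool} (hV : PSpace V) :
    ∃ F : List Bool → List ℕ, PolyF F ∧ ∀ x, (F x).Pairwise (· ≤ ·) ∧ (∀ q ∈ F x, 0 < q) ∧
      (V x = true ↔ FeasibleList (F x)) ∧ F x ≠ [] := by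
  obtain ⟨g, hg, hgx⟩ := space_chain hV
  exact hard_of_chain hg hgx

theorem polyF_encode {F : List Bool → List ℕ} (hF : PolyF F) :
    PolyF (fun x => encode (F x)) := by
  unfold encode
  refine hF.flatMap (h := fun _ f => (Nat.bits f).map some ++ [none]) ?_
  have h1 : PolyF (α := List Bool × ℕ) (β := List Bool) (fun p => Nat.bits p.2) :=
    (PolyF.nbOfNat PolyF.snd').of_enc (fun x => x) (fun _ => rfl) fun _ => rfl
  exact (h1.map (h := fun _ b => some b) PolyF.snd'.some).append (PolyF.const _)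

theorem sz_word (x : List Bool) : sz x ≤ 2 * x.length := by
  have := sz_le_of_forall (l := x) (M := 1) fun a _ => sz_bool_le a
  omega

theorem bound_of_polyF {F : List Bool → List ℕ} (hF : PolyF F) :
    ∃ p : Polynomial ℕ, ∀ x, ∀ q ∈ F x, q ≤ p.eval x.length := by
  obtain ⟨P, hP⟩ := hF.bound
  refine ⟨P.comp (2 * Polynomial.X), fun x q hq => ?_⟩
  have h1 := sz_mem hq
  rw [sz_nat] at h1
  have h2 : P.eval (sz x) ≤ P.eval (2 * x.length) := peval_mono P (sz_word x)
  have h3 : (P.comp (2 * Polynomial.X)).eval x.length = P.eval (2 * x.length) := by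
    simp
  rw [h3]
  have := hP x
  omega

end Pool.Agent.Lib.Pinwheel
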