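import Mathlib

/-!
# The forced structure, part C: geometry
-/

namespace Pool.Agent.Lib.Pinwheel

/-- lower position of a cluster -/
def glo (p : ℕ → Bool → ℤ) (z : ℕ) : ℤ := min (p z false) (p z true)

/-- upper position of a cluster -/
def ghi (p : ℕ → Bool → ℤ) (z : ℕ) : ℤ := max (p z false) (p z true)

/-- the hypotheses of `geom` -/
structure Geo (R Z : ℕ) (p : ℕ → Bool → ℤ) (ρ : ℕ → ZMod R) : Prop where
  hR : 2 ≤ R
  hp : ∀ z < Z, ∀ z' < Z, ∀ a a', p z a = p z' a' → z = z' ∧ a = a'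
  hρ : ∀ x z z', x + R ≤ Z → x ≤ z → z < x + R → x ≤ z' → z' < x + R → ρ z = ρ z' → z = z'
  hs : ∀ z < Z, ∀ z' < Z, z < z' + R → z' < z + R → ρ z' = ρ z + 1 →
    ∀ a a', p z' a' ≤ p z a + 3

theorem glo_le (p : ℕ → Bool → ℤ) (z : ℕ) (a : Bool) : glo p z ≤ p z a := by
  cases a
  · exact min_le_left _ _
  · exact min_le_right _ _

theorem le_ghi (p : ℕ → Bool → ℤ) (z : ℕ) (a : Bool) : p z a ≤ ghi p z := by
  cases a
  · exact le_max_left _ _
  · exact le_max_right _ _

theorem exists_glo (p : ℕ → Bool → ℤ) (z : ℕ) : ∃ a, p z a = glo p z := by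
  rcases min_choice (p z false) (p z true) with h | h
  · exact ⟨false, h.symm⟩
  · exact ⟨true, h.symm⟩

theorem exists_ghi (p : ℕ → Bool → ℤ) (z : ℕ) : ∃ a, p z a = ghi p z := by
  rcases max_choice (p z false) (p z true) with h | h
  · exact ⟨false, h.symm⟩
  · exact ⟨true, h.symm⟩

theorem glo_neg (p : ℕ → Bool → ℤ) (z : ℕ) : glo (fun z a => -p z a) z = -ghi p z := by
  unfold glo ghi
  exact min_neg_neg _ _

theorem ghi_neg (p : ℕ → Bool → ℤ) (z : ℕ) : ghi (fun z a => -p z a) z = -glo p z := by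
  unfold glo ghi
  exact max_neg_neg _ _

/-- `x` is lowest in the track `x` -/
def gU (R : ℕ) (p : ℕ → Bool → ℤ) (x : ℕ) : Prop := ∀ z, x ≤ z → z < x + R → glo p x ≤ glo p z

/-- `x + R` is lowest in the track `x + 1` -/
def gD (R : ℕ) (p : ℕ → Bool → ℤ) (x : ℕ) : Prop :=
  ∀ z, x + 1 ≤ z → z < x + 1 + R → glo p (x + R) ≤ glo p z

/-- `x + R` is highest in the track `x + 1` -/
def gU' (R : ℕ) (p : ℕ → Bool → ℤ) (x : ℕ) : Prop :=
  ∀ z, x + 1 ≤ z → z < x + 1 + R → ghi p z ≤ ghi p (x + R)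

/-- `x` is highest in the track `x` -/
def gD' (R : ℕ) (p : ℕ → Bool → ℤ) (x : ℕ) : Prop := ∀ z, x ≤ z → z < x + R → ghi p z ≤ ghi p x

theorem gU_neg (R : ℕ) (p : ℕ → Bool → ℤ) (x : ℕ) :
    gU R (fun z a => -p z a) x ↔ gD' R p x := by
  unfold gU gD'
  simp only [glo_neg, neg_le_neg_iff]

theorem gD_neg (R : ℕ) (p : ℕ → Bool → ℤ) (x : ℕ) :
    gD R (fun z a => -p z a) x ↔ gU' R p x := by
  unfold gD gU'
  simp only [glo_neg, neg_le_neg_iff]

theorem gU'_neg (R : ℕ) (p : ℕ → Bool → ℤ) (x : ℕ) :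
    gU' R (fun z a => -p z a) x ↔ gD R p x := by
  unfold gD gU'
  simp only [ghi_neg, neg_le_neg_iff]

theorem gD'_neg (R : ℕ) (p : ℕ → Bool → ℤ) (x : ℕ) :
    gD' R (fun z a => -p z a) x ↔ gU R p x := by
  unfold gU gD'
  simp only [ghi_neg, neg_le_neg_iff]

section

variable {R Z : ℕ} {p : ℕ → Bool → ℤ} {ρ : ℕ → ZMod R}

theorem Geo.neg (h : Geo R Z p ρ) : Geo R Z (fun z a => -p z a) (fun z => -ρ z) where
  hR := h.hR
  hp := fun z hz z' hz' a a' e => h.hp z hz z' hz' a a' (neg_inj.mp e)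
  hρ := fun x z z' hx h1 h2 h3 h4 e => h.hρ x z z' hx h1 h2 h3 h4 (neg_inj.mp e)
  hs := fun z hz z' hz' h1 h2 e a a' => by
    have e' : ρ z = ρ z' + 1 := by
      have : ρ z = -(-ρ z) := (neg_neg _).symm
      rw [this]
      have h3 : -ρ z = -ρ z' - 1 := by rw [e]; ring
      rw [h3]
      ring
    have := h.hs z' hz' z hz h2 h1 e' a' a
    linarith

theorem Geo.lo_lt_hi (h : Geo R Z p ρ) {z : ℕ} (hz : z < Z) : glo p z < ghi p z := by
  have hne : p z false ≠ p z true := fun e => by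
    have := (h.hp z hz z hz false true e).2
    exact absurd this (by decide)
  exact min_lt_max.mpr hne

theorem Geo.lo_ne (h : Geo R Z p ρ) {z z' : ℕ} (hz : z < Z) (hz' : z' < Z) (hne : z ≠ z') :
    glo p z ≠ glo p z' := by
  intro e
  obtain ⟨a, ha⟩ := exists_glo p z
  obtain ⟨a', ha'⟩ := exists_glo p z'
  exact hne (h.hp z hz z' hz' a a' (by rw [ha, ha', e])).1

theorem Geo.hi_ne (h : Geo R Z p ρ) {z z' : ℕ} (hz : z < Z) (hz' : z' < Z) (hne : z ≠ z') :
    ghi p z ≠ ghi p z' := by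
  intro e
  obtain ⟨a, ha⟩ := exists_ghi p z
  obtain ⟨a', ha'⟩ := exists_ghi p z'
  exact hne (h.hp z hz z' hz' a a' (by rw [ha, ha', e])).1

theorem Geo.step (h : Geo R Z p ρ) {z z' : ℕ} (hz : z < Z) (hz' : z' < Z) (h1 : z < z' + R)
    (h2 : z' < z + R) (e : ρ z' = ρ z + 1) : ghi p z' ≤ glo p z + 3 := by
  obtain ⟨a, ha⟩ := exists_glo p z
  obtain ⟨a', ha'⟩ := exists_ghi p z'
  rw [← ha, ← ha']
  exact h.hs z hz z' hz' h1 h2 e a a'

theorem Geo.surj (h : Geo R Z p ρ) {x : ℕ} (hx : x + R ≤ Z) (c : ZMod R) :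
    ∃ z, x ≤ z ∧ z < x + R ∧ ρ z = c := by
  classical
  have : NeZero R := ⟨by have := h.hR; omega⟩
  have hinj : Set.InjOn ρ (Finset.Ico x (x + R) : Finset ℕ) := by
    intro z hz z' hz' e
    rw [Finset.mem_coe, Finset.mem_Ico] at hz hz'
    exact h.hρ x z z' hx hz.1 hz.2 hz'.1 hz'.2 e
  have hcard : ((Finset.Ico x (x + R)).image ρ).card = Fintype.card (ZMod R) := by
    rw [Finset.card_image_of_injOn hinj, Nat.card_Ico, ZMod.card]
    omega
  have huniv : (Finset.Ico x (x + R)).image ρ = Finset.univ :=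
    Finset.eq_univ_of_card _ hcard
  have hc : c ∈ (Finset.Ico x (x + R)).image ρ := by rw [huniv]; exact Finset.mem_univ c
  obtain ⟨z, hz, e⟩ := Finset.mem_image.mp hc
  rw [Finset.mem_Ico] at hz
  exact ⟨z, hz.1, hz.2, e⟩

/-- counting positions -/
theorem Geo.count (h : Geo R Z p ρ) (S : Finset ℕ) (hS : ∀ z ∈ S, z < Z) (a b : ℤ)
    (hab : ∀ z ∈ S, a ≤ glo p z ∧ ghi p z ≤ b) : 2 * S.card ≤ (b + 1 - a).toNat := by
  classical
  have : (S ×ˢ (Finset.univ : Finset Bool)).card ≤ (Finset.Icc a b).card := by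
    refine Finset.card_le_card_of_injOn (fun w => p w.1 w.2) ?_ ?_
    · rintro ⟨z, e⟩ hz
      rw [Finset.mem_coe, Finset.mem_product] at hz
      rw [Finset.mem_coe, Finset.mem_Icc]
      exact ⟨(hab z hz.1).1.trans (glo_le p z e), (le_ghi p z e).trans (hab z hz.1).2⟩
    · rintro ⟨z, e⟩ hz ⟨z', e'⟩ hz' hh
      rw [Finset.mem_coe, Finset.mem_product] at hz hz'
      obtain ⟨h1, h2⟩ := h.hp z (hS z hz.1) z' (hS z' hz'.1) e e' hh
      exact Prod.ext h1 h2
  rw [Finset.card_product, Finset.card_univ, Fintype.card_bool, Int.card_Icc] at this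
  omega

/-- Walking along the cyclic order from the lowest cluster of a track. -/
theorem Geo.W (h : Geo R Z p ρ) {x w : ℕ} (hx : x + R ≤ Z) (hw1 : x ≤ w) (hw2 : w < x + R)
    (hmin : ∀ z, x ≤ z → z < x + R → glo p w ≤ glo p z) :
    ∀ z, x ≤ z → z < x + R → z ≠ w → glo p w + 1 ≤ glo p z ∧ ghi p z ≤ glo p w + 2 * R - 1 := by
  have : NeZero R := ⟨by have := h.hR; omega⟩
  have key : ∀ i : ℕ, ∀ z, x ≤ z → z < x + R → ρ z = ρ w + i →
      glo p z ≤ glo p w + 2 * i ∧ (1 ≤ i → ghi p z ≤ glo p w + 2 * i + 1) := by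
    intro i
    induction i with
    | zero =>
      intro z h1 h2 e
      have : z = w := h.hρ x z w hx h1 h2 hw1 hw2 (by rw [e]; simp)
      subst this
      exact ⟨by simp, by omega⟩
    | succ i ih =>
      intro z h1 h2 e
      obtain ⟨y, hy1, hy2, hy⟩ := h.surj hx (ρ w + i)
      obtain ⟨h3, -⟩ := ih y hy1 hy2 hy
      have h4 := h.step (z := y) (z' := z) (by omega) (by omega) (by omega) (by omega)
        (by rw [e, hy]; push_cast; ring)
      have h5 := h.lo_lt_hi (z := z) (by omega)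
      push_cast
      exact ⟨by linarith, fun _ => by linarith⟩
  intro z h1 h2 hne
  have hlt := lt_of_le_of_ne (hmin z h1 h2) (h.lo_ne (by omega) (by omega) hne.symm)
  refine ⟨by omega, ?_⟩
  have hv : (ρ z - ρ w).val < R := ZMod.val_lt _
  have e : ρ z = ρ w + ((ρ z - ρ w).val : ℕ) := by
    rw [ZMod.natCast_zmod_val]
    ring
  have hv0 : 1 ≤ (ρ z - ρ w).val := by
    rw [Nat.one_le_iff_ne_zero]
    intro h0
    rw [h0] at e
    exact hne (h.hρ x z w hx h1 h2 hw1 hw2 (by rw [e]; simp))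
  have h6 := (key _ z h1 h2 e).2 hv0
  have h7 : ((ρ z - ρ w).val : ℤ) ≤ R - 1 := by
    have : (ρ z - ρ w).val ≤ R - 1 := by omega
    have hR := h.hR
    zify [show 1 ≤ R by omega] at this
    exact this
  linarith

/-- the lowest cluster of two neighbouring tracks -/
theorem Geo.E (h : Geo R Z p ρ) {x : ℕ} (hx : x + R < Z) : gU R p x ∨ gD R p x := by
  classical
  have hR := h.hR
  by_contra hcon
  rw [not_or] at hcon
  obtain ⟨hU, hD⟩ := hcon
  obtain ⟨w, hw, hwmin⟩ := Finset.exists_min_image (Finset.Ico (x + 1) (x + R)) (glo p)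
    ⟨x + 1, by rw [Finset.mem_Ico]; omega⟩
  rw [Finset.mem_Ico] at hw
  have hwmin' : ∀ z, x + 1 ≤ z → z < x + R → glo p w ≤ glo p z := fun z h1 h2 =>
    hwmin z (Finset.mem_Ico.mpr ⟨h1, h2⟩)
  have hm1 : ∀ z, x ≤ z → z < x + R → glo p w ≤ glo p z := by
    intro z h1 h2
    by_cases hzx : z = x
    · subst hzx
      by_contra hlt
      apply hU
      intro z' h3 h4
      by_cases hz' : z' = z
      · rw [hz']
      · have := hwmin' z' (by omega) h4
        linarith
    · exact hwmin' z (by omega) h2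
  have hm2 : ∀ z, x + 1 ≤ z → z < x + 1 + R → glo p w ≤ glo p z := by
    intro z h1 h2
    by_cases hzx : z = x + R
    · subst hzx
      by_contra hlt
      apply hD
      intro z' h3 h4
      by_cases hz' : z' = x + R
      · rw [hz']
      · have := hwmin' z' h3 (by omega)
        linarith
    · exact hwmin' z h1 (by omega)
  have hW1 := h.W (x := x) (w := w) (by omega) (by omega) (by omega) hm1
  have hW2 := h.W (x := x + 1) (w := w) (by omega) (by omega) (by omega) hm2
  have hc := h.count ((Finset.Icc x (x + R)).erase w) (by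
    intro z hz
    rw [Finset.mem_erase, Finset.mem_Icc] at hz
    omega) (glo p w + 1) (glo p w + 2 * R - 1) (by
    intro z hz
    rw [Finset.mem_erase, Finset.mem_Icc] at hz
    by_cases hzx : z = x + R
    · exact hW2 z (by omega) (by omega) hz.1
    · exact hW1 z (by omega) (by omega) hz.1)
  rw [Finset.card_erase_of_mem (by rw [Finset.mem_Icc]; omega), Nat.card_Icc] at hc
  have : (glo p w + 2 * R - 1 + 1 - (glo p w + 1)).toNat = 2 * R - 1 := by
    have : glo p w + 2 * R - 1 + 1 - (glo p w + 1) = ((2 * R - 1 : ℕ) : ℤ) := by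
      rw [Nat.cast_sub (by omega)]
      push_cast
      ring
    rw [this, Int.toNat_natCast]
  rw [this] at hc
  omega

theorem Geo.E' (h : Geo R Z p ρ) {x : ℕ} (hx : x + R < Z) : gD' R p x ∨ gU' R p x := by
  have := h.neg.E hx
  rwa [gU_neg, gD_neg] at this

theorem Geo.F1 (h : Geo R Z p ρ) {x : ℕ} (hx : x + R < Z) (h1 : gU R p (x + 1))
    (h2 : gD R p x) : False := by
  have hR := h.hR
  have h3 := h1 (x + R) (by omega) (by omega)
  have h4 := h2 (x + 1) (by omega) (by omega)
  exact h.lo_ne (z := x + 1) (z' := x + R) (by omega) (by omega) (by omega) (le_antisymm h3 h4)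

theorem Geo.F2 (h : Geo R Z p ρ) {x : ℕ} (hx : x + R < Z) (h1 : gD' R p (x + 1))
    (h2 : gU' R p x) : False := by
  rw [← gU_neg] at h1
  rw [← gD_neg] at h2
  exact h.neg.F1 hx h1 h2

theorem Geo.wide (h : Geo R Z p ρ) {x w : ℕ} (hx : x + R ≤ Z)
    (h1 : ∀ z, x ≤ z → z < x + R → glo p w ≤ glo p z)
    (h2 : ∀ z, x ≤ z → z < x + R → ghi p z ≤ ghi p w) :
    2 * (R : ℤ) - 1 ≤ ghi p w - glo p w := by
  have hR := h.hR
  have hc := h.count (Finset.Ico x (x + R)) (by
    intro z hz
    rw [Finset.mem_Ico] at hz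
    omega) (glo p w) (ghi p w) (by
    intro z hz
    rw [Finset.mem_Ico] at hz
    exact ⟨h1 z hz.1 hz.2, h2 z hz.1 hz.2⟩)
  rw [Nat.card_Ico] at hc
  omega

theorem Geo.F3 (h : Geo R Z p ρ) {x : ℕ} (hx : x + R < Z) (h1 : gU R p (x + 1))
    (h2 : gD' R p (x + 1)) : False := by
  have hR := h.hR
  have hU : gU R p x := (h.E hx).resolve_right fun h3 => h.F1 hx h1 h3
  have hw := h.wide (x := x + 1) (w := x + 1) (by omega) h1 h2
  have hW := h.W (x := x) (w := x) (by omega) le_rfl (by omega) hU (x + 1) (by omega) (by omega)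
    (by omega)
  linarith [hW.1, hW.2]

theorem Geo.F4 (h : Geo R Z p ρ) {x : ℕ} (hx : x + 1 + R < Z) (h1 : gD R p x)
    (h2 : gU' R p x) (h3 : gD R p (x + 1)) : False := by
  have hR := h.hR
  have hw := h.wide (x := x + 1) (w := x + R) (by omega) h1 h2
  have hW := h.W (x := x + 1 + 1) (w := x + 1 + R) (by omega) (by omega) (by omega) h3 (x + R)
    (by omega) (by omega) (by omega)
  linarith [hW.1, hW.2]

/-- one of the two monotone alternatives -/
theorem Geo.dich (h : Geo R Z p ρ) (hZ : 4 * R ≤ Z) :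
    (∀ y, 1 ≤ y → y + R + 1 < Z → gU R p y ∧ gU' R p y) ∨
    (∀ y, 1 ≤ y → y + R + 1 < Z → gD R p y ∧ gD' R p y) := by
  have hR := h.hR
  have a1 : ∀ y, 1 ≤ y → y + R + 1 < Z → gU R p y → gU' R p y := by
    intro y hy1 hy2 hU
    obtain ⟨x, rfl⟩ : ∃ x, y = x + 1 := ⟨y - 1, by omega⟩
    exact (h.E' (x := x + 1) (by omega)).resolve_left fun hD' => h.F3 (by omega) hU hD'
  have a2 : ∀ y, y + R + 1 < Z → gD R p y → gD R p (y + 1) := by
    intro y hy hD
    exact (h.E (x := y + 1) (by omega)).resolve_left fun hU => h.F1 (by omega) hU hD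
  have a3 : ∀ y, y + R + 1 < Z → gD R p y → gU' R p y → False := by
    intro y hy hD hU'
    exact h.F4 (by omega) hD hU' (a2 y hy hD)
  have a4 : ∀ y, y + R + 1 < Z → gU' R p y → gU' R p (y + 1) := by
    intro y hy hU'
    exact (h.E' (x := y + 1) (by omega)).resolve_left fun hD' => h.F2 (by omega) hD' hU'
  by_cases h1 : gU R p 1
  · left
    intro y hy1 hy2
    have hU : gU R p y ∧ gU' R p y := by
      induction y with
      | zero => omega
      | succ y ih =>
        by_cases hy0 : y = 0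
        · subst hy0
          exact ⟨h1, a1 1 le_rfl hy2 h1⟩
        · obtain ⟨-, b2⟩ := ih (by omega) (by omega)
          have b3 := a4 y (by omega) b2
          have b4 : gU R p (y + 1) := (h.E (x := y + 1) (by omega)).resolve_right fun hD =>
            a3 (y + 1) hy2 hD b3
          exact ⟨b4, b3⟩
    exact hU
  · right
    have hD1 : gD R p 1 := (h.E (x := 1) (by omega)).resolve_left h1
    have hD : ∀ y, 1 ≤ y → y + R + 1 < Z → gD R p y := by
      intro y hy1 hy2
      induction y with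
      | zero => omega
      | succ y ih =>
        by_cases hy0 : y = 0
        · subst hy0
          exact hD1
        · exact a2 y (by omega) (ih (by omega) (by omega))
    intro y hy1 hy2
    refine ⟨hD y hy1 hy2, (h.E' (x := y) (by omega)).resolve_right fun hU' =>
      a3 y hy2 (hD y hy1 hy2) hU'⟩

/-- Every integer of the interval filled by a track is a position of the track. -/
theorem Geo.fill (h : Geo R Z p ρ) {x : ℕ} (hx : x + R ≤ Z)
    (hab : ∀ z, x ≤ z → z < x + R → glo p x ≤ glo p z ∧ ghi p z ≤ glo p x + 2 * R - 1) (v : ℤ)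
    (hv1 : glo p x ≤ v) (hv2 : v ≤ glo p x + 2 * R - 1) :
    ∃ z a, x ≤ z ∧ z < x + R ∧ p z a = v := by
  classical
  have hR := h.hR
  have hsub : ((Finset.Ico x (x + R)) ×ˢ (Finset.univ : Finset Bool)).image
      (fun w => p w.1 w.2) = Finset.Icc (glo p x) (glo p x + 2 * R - 1) := by
    apply Finset.eq_of_subset_of_card_le
    · intro v hv
      obtain ⟨⟨z, e⟩, hz, rfl⟩ := Finset.mem_image.mp hv
      rw [Finset.mem_product, Finset.mem_Ico] at hz
      rw [Finset.mem_Icc]
      exact ⟨(hab z hz.1.1 hz.1.2).1.trans (glo_le p z e),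
        (le_ghi p z e).trans (hab z hz.1.1 hz.1.2).2⟩
    · rw [Finset.card_image_of_injOn, Finset.card_product, Finset.card_univ, Fintype.card_bool,
        Nat.card_Ico, Int.card_Icc]
      · omega
      · rintro ⟨z, e⟩ hz ⟨z', e'⟩ hz' hh
        rw [Finset.mem_coe, Finset.mem_product, Finset.mem_Ico] at hz hz'
        simp only at hz hz'
        obtain ⟨h1, h2⟩ := h.hp z (by omega) z' (by omega) e e' hh
        exact Prod.ext h1 h2
  have hv : v ∈ Finset.Icc (glo p x) (glo p x + 2 * R - 1) := Finset.mem_Icc.mpr ⟨hv1, hv2⟩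
  rw [← hsub] at hv
  obtain ⟨⟨z, e⟩, hz, hze⟩ := Finset.mem_image.mp hv
  rw [Finset.mem_product, Finset.mem_Ico] at hz
  exact ⟨z, e, hz.1.1, hz.1.2, hze⟩

theorem Geo.caseU (h : Geo R Z p ρ) (hZ : 4 * R ≤ Z)
    (hU : ∀ y, 1 ≤ y → y + R + 1 < Z → gU R p y ∧ gU' R p y) :
    ∃ (m : ℤ) (c : ZMod R), (∀ z < Z, ρ z = c + z) ∧
      ∀ z, R ≤ z → z + R < Z → ∀ a, m + 2 * z ≤ p z a ∧ p z a ≤ m + 2 * z + 1 := by
  have hR := h.hR
  -- monotonicity of `hi`
  have hhi : ∀ x, R ≤ x → x + 2 * R ≤ Z → ghi p x < ghi p (x + 1) := by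
    intro x hx1 hx2
    have h1 := (hU (x + 1 - R) (by omega) (by omega)).2 x (by omega) (by omega)
    rw [show x + 1 - R + R = x + 1 by omega] at h1
    exact lt_of_le_of_ne h1 (h.hi_ne (by omega) (by omega) (by omega))
  -- the tracks in the middle
  have track : ∀ x, R ≤ x → x + 2 * R ≤ Z → ∀ z, x ≤ z → z < x + R →
      glo p x ≤ glo p z ∧ ghi p z ≤ glo p x + 2 * R - 1 := by
    intro x hx1 hx2
    have hUx := (hU x (by omega) (by omega)).1
    have hW := h.W (x := x) (w := x) (by omega) le_rfl (by omega) hUx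
    intro z hz1 hz2
    refine ⟨hUx z hz1 hz2, ?_⟩
    by_cases hzx : z = x
    · subst hzx
      have h1 := hhi z hx1 hx2
      have h2 := (hW (z + 1) (by omega) (by omega) (by omega)).2
      linarith
    · exact (hW z hz1 hz2 hzx).2
  have main : ∀ x, R ≤ x → x + 1 + 2 * R ≤ Z → ghi p x = glo p x + 1 ∧
      glo p (x + 1) = glo p x + 2 ∧ glo p x + 2 * R ≤ glo p (x + R) ∧
      ghi p (x + R) ≤ glo p x + 2 * R + 1 := by
    intro x hx1 hx2
    have hRz : (2 : ℤ) ≤ R := by exact_mod_cast hR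
    have T1 := track x hx1 (by omega)
    have T2 := track (x + 1) (by omega) (by omega)
    have f1 := h.fill (x := x) (by omega) T1
    have f2 := h.fill (x := x + 1) (by omega) T2
    have hlt : glo p x < glo p (x + 1) :=
      lt_of_le_of_ne (T1 (x + 1) (by omega) (by omega)).1 (h.lo_ne (by omega) (by omega) (by omega))
    have hlh := h.lo_lt_hi (z := x) (by omega)
    obtain ⟨bl, hbl⟩ := exists_glo p x
    obtain ⟨bh, hbh⟩ := exists_ghi p x
    obtain ⟨bl', hbl'⟩ := exists_glo p (x + 1)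
    have hhx : ghi p x = glo p x + 1 := by
      obtain ⟨z, a, hz1, hz2, hza⟩ := f1 (glo p x + 1) (by linarith) (by linarith)
      by_cases hzx : z = x
      · subst hzx
        have hne : a ≠ bl := by
          rintro rfl
          rw [hbl] at hza
          linarith
        have hne2 : bh ≠ bl := by
          rintro rfl
          rw [hbl] at hbh
          linarith
        have : bh = a := by
          cases bh <;> cases a <;> cases bl <;> simp_all
        rw [← hbh, this, hza]
      · exfalso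
        have h1 : glo p (x + 1) ≤ glo p x + 1 := by
          have h2 := (T2 z (by omega) (by omega)).1
          have h3 := glo_le p z a
          linarith
        obtain ⟨z', a', hz1', hz2', hza'⟩ := f2 (ghi p x) (by linarith) (by
          have := (T1 x le_rfl (by omega)).2
          linarith)
        rw [← hbh] at hza'
        have := (h.hp z' (by omega) x (by omega) a' bh hza').1
        omega
    have hlo : glo p (x + 1) = glo p x + 2 := by
      have h1 : glo p (x + 1) ≠ glo p x + 1 := by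
        intro e
        rw [← hbl', ← hhx, ← hbh] at e
        have := (h.hp (x + 1) (by omega) x (by omega) bl' bh e).1
        omega
      obtain ⟨z, a, hz1, hz2, hza⟩ := f1 (glo p x + 2) (by linarith) (by linarith)
      have hzx : z ≠ x := by
        rintro rfl
        have := le_ghi p z a
        linarith
      have h2 := (T2 z (by omega) (by omega)).1
      have h3 := glo_le p z a
      omega
    refine ⟨hhx, hlo, ?_, ?_⟩
    · by_contra hcon
      rw [not_le] at hcon
      have h1 := (T2 (x + R) (by omega) (by omega)).1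
      obtain ⟨z, a, hz1, hz2, hza⟩ := f1 (glo p (x + R)) (by linarith) (by omega)
      obtain ⟨b, hb⟩ := exists_glo p (x + R)
      rw [← hb] at hza
      have := (h.hp z (by omega) (x + R) (by omega) a b hza).1
      omega
    · have h1 := (T2 (x + R) (by omega) (by omega)).2
      linarith
  obtain ⟨m, hm⟩ : ∃ m : ℤ, m = glo p R - 2 * R := ⟨_, rfl⟩
  have hlo : ∀ x, R ≤ x → x + 2 * R ≤ Z → glo p x = m + 2 * x := by
    intro x hx1
    induction x, hx1 using Nat.le_induction with
    | base => intro _; rw [hm]; ring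
    | succ x hx ih =>
      intro hx2
      rw [(main x hx (by omega)).2.1, ih (by omega)]
      push_cast
      ring
  have reg : ∀ z, R ≤ z → z + R < Z → m + 2 * z ≤ glo p z ∧ ghi p z ≤ m + 2 * z + 1 := by
    intro z hz1 hz2
    by_cases hz : z + 1 + 2 * R ≤ Z
    · have h1 := (main z hz1 hz).1
      have h2 := hlo z hz1 (by omega)
      exact ⟨h2.ge, by rw [h1, h2]⟩
    · obtain ⟨x, rfl⟩ : ∃ x, z = x + R := ⟨z - R, by omega⟩
      obtain ⟨-, -, h1, h2⟩ := main x (by omega) (by omega)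
      have h3 := hlo x (by omega) (by omega)
      push_cast
      constructor <;> linarith
  have reg' : ∀ z, R ≤ z → z + R < Z → glo p z = m + 2 * z ∧ ghi p z = m + 2 * z + 1 := by
    intro z hz1 hz2
    obtain ⟨h1, h2⟩ := reg z hz1 hz2
    have h3 := h.lo_lt_hi (z := z) (by omega)
    constructor <;> omega
  have per : ∀ x, x + R < Z → ρ (x + R) = ρ x := by
    intro x hx
    obtain ⟨z, hz1, hz2, hz⟩ := h.surj (x := x + 1) (by omega) (ρ x)
    by_cases hzx : z = x + R
    · rw [← hzx, hz]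
    · exfalso
      have := h.hρ x z x (by omega) (by omega) (by omega) le_rfl (by omega) hz
      omega
  have one_ne : (1 : ZMod R) ≠ 0 := by
    have : Fact (1 < R) := ⟨by omega⟩
    exact one_ne_zero
  have direct : ∀ z, 2 * R ≤ z + 2 → z + 1 + R < Z → ρ (z + 1) = ρ z + 1 := by
    intro z hz1 hz2
    obtain ⟨y, hy1, hy2, hy⟩ := h.surj (x := z + 2 - R) (by omega) (ρ (z + 1) - 1)
    have hy3 : y ≠ z + 1 := by
      rintro rfl
      apply one_ne
      have : (1 : ZMod R) = ρ (z + 1) - (ρ (z + 1) - 1) := by ring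
      rw [this, ← hy, sub_self]
    have hst := h.step (z := y) (z' := z + 1) (by omega) (by omega) (by omega) (by omega)
      (by rw [hy]; ring)
    rw [(reg' (z + 1) (by omega) (by omega)).2, (reg' y (by omega) (by omega)).1] at hst
    push_cast at hst
    have hzy : y = z := by omega
    rw [← hzy, hy, hzy]
    ring
  have all : ∀ z, z + 1 < Z → ρ (z + 1) = ρ z + 1 := by
    intro z hz
    by_cases h1 : z + 1 + R < Z
    · by_cases h2 : 2 * R ≤ z + 2
      · exact direct z h2 h1
      · by_cases h3 : R ≤ z + 2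
        · have h4 := direct (z + R) (by omega) (by omega)
          have h5 := per z (by omega)
          have h6 := per (z + 1) (by omega)
          rw [show z + 1 + R = z + R + 1 by omega] at h6
          rw [← h5, ← h6, h4]
        · have h4 := direct (z + R + R) (by omega) (by omega)
          have h5 := per z (by omega)
          have h6 := per (z + 1) (by omega)
          have h7 := per (z + R) (by omega)
          have h8 := per (z + R + 1) (by omega)
          rw [show z + 1 + R = z + R + 1 by omega] at h6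
          rw [show z + R + 1 + R = z + R + R + 1 by omega] at h8
          rw [← h5, ← h6, ← h7, ← h8, h4]
    · have h4 := direct (z - R) (by omega) (by omega)
      have h5 := per (z - R) (by omega)
      have h6 := per (z - R + 1) (by omega)
      rw [show z - R + R = z by omega] at h5
      rw [show z - R + 1 + R = z + 1 by omega] at h6
      rw [h5, h6, h4]
  refine ⟨m, ρ 0, ?_, ?_⟩
  · intro z hz
    induction z with
    | zero => simp
    | succ z ih =>
      rw [all z hz, ih (by omega)]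
      push_cast
      ring
  · intro z hz1 hz2 a
    obtain ⟨h1, h2⟩ := reg z hz1 hz2
    exact ⟨h1.trans (glo_le p z a), (le_ghi p z a).trans h2⟩

end

theorem geom (R Z : ℕ) (hR : 2 ≤ R) (hZ : 4 * R ≤ Z) (p : ℕ → Bool → ℤ) (ρ : ℕ → ZMod R)
    (hp : ∀ z < Z, ∀ z' < Z, ∀ a a', p z a = p z' a' → z = z' ∧ a = a')
    (hρ : ∀ x z z', x + R ≤ Z → x ≤ z → z < x + R → x ≤ z' → z' < x + R → ρ z = ρ z' → z = z')
    (hs : ∀ z < Z, ∀ z' < Z, z < z' + R → z' < z + R → ρ z' = ρ z + 1 →
      ∀ a a', p z' a' ≤ p z a + 3) :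
    (∃ (m : ℤ) (c : ZMod R), (∀ z < Z, ρ z = c + z) ∧
      ∀ z, R ≤ z → z + R < Z → ∀ a, m + 2 * z ≤ p z a ∧ p z a ≤ m + 2 * z + 1) ∨
    (∃ (m : ℤ) (c : ZMod R), (∀ z < Z, ρ z = c - z) ∧
      ∀ z, R ≤ z → z + R < Z → ∀ a, m - 2 * z ≤ p z a ∧ p z a ≤ m - 2 * z + 1) := by
  have h : Geo R Z p ρ := ⟨hR, hp, hρ, hs⟩
  rcases h.dich hZ with hU | hD
  · exact Or.inl (h.caseU hZ hU)
  · right
    obtain ⟨m, c, h1, h2⟩ := h.neg.caseU hZ (fun y hy1 hy2 => by
      rw [gU_neg, gU'_neg]
      exact (hD y hy1 hy2).symm)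
    refine ⟨-m - 1, -c, ?_, ?_⟩
    · intro z hz
      have := h1 z hz
      have e : ρ z = -(-ρ z) := (neg_neg _).symm
      rw [e, this]
      ring
    · intro z hz1 hz2 a
      have := h2 z hz1 hz2 a
      constructor <;> linarith [this.1, this.2]

end Pool.Agent.Lib.Pinwheel
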