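import Pool.Agent.Lib.PolyTime.ListOps
import Pool.Agent.Lib.PolyTime.EqOps

/-!
# Selection of primes in one residue class
-/

namespace Pool.Agent.Lib.Pinwheel

open Pool.Agent.Lib.PolyTime

/-- There are at least `R * N` primes between `lo` and this bound. -/
def selBd (R N lo : ℕ) : ℕ := 64 * (R * N + lo + 2) ^ 2

/-- the primes `lo < p ≤ selBd R N lo` in the residue class `q` -/
def selCand (R N lo q : ℕ) : List ℕ :=
  (List.range (selBd R N lo + 1)).filter fun p =>
    decide (lo < p) && decide (Nat.Prime p) && decide (p % R = q)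

/-- `N` primes larger than `lo` in one residue class modulo `R` -/
def sel (R N lo : ℕ) : List ℕ :=
  ((List.range R).findSome? fun q =>
    if N ≤ (selCand R N lo q).length then some ((selCand R N lo q).take N) else none).getD []

/-- The central binomial coefficient is at most `(2 * n) ^ π(2 * n)`. -/
theorem centralBinom_le_pow (n : ℕ) (hn : 0 < n) :
    n.centralBinom ≤ (2 * n) ^ ((Finset.range (2 * n + 1)).filter Nat.Prime).card := by
  have h1 : ∏ p ∈ (Finset.range (2 * n + 1)).filter Nat.Prime,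
      p ^ (n.centralBinom.factorization p) = n.centralBinom := by
    refine Eq.trans ?_ (Nat.prod_pow_factorization_centralBinom n)
    refine Finset.prod_subset (Finset.filter_subset _ _) fun p hp hp' => ?_
    rw [Finset.mem_filter, not_and] at hp'
    rw [Nat.factorization_eq_zero_of_not_prime _ (hp' hp), pow_zero]
  rw [← h1, ← Finset.prod_const]
  refine Finset.prod_le_prod' fun p _ => ?_
  rw [Nat.centralBinom_eq_two_mul_choose]
  exact Nat.pow_factorization_choose_le (by omega)

/-- There are at least `z` primes up to `64 * z ^ 2`. -/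
theorem card_primes_ge (z : ℕ) (hz : 0 < z) :
    z ≤ ((Finset.range (64 * z ^ 2 + 1)).filter Nat.Prime).card := by
  by_contra hcon
  rw [not_le] at hcon
  have hy : 0 < 32 * z ^ 2 := by positivity
  have h1 := centralBinom_le_pow (32 * z ^ 2) hy
  have h2 := Nat.four_pow_le_two_mul_self_mul_centralBinom (32 * z ^ 2) hy
  have e1 : 2 * (32 * z ^ 2) = 64 * z ^ 2 := by ring
  rw [e1] at h1 h2
  have h3 : 4 ^ (32 * z ^ 2) ≤ (64 * z ^ 2) ^ z := by
    calc 4 ^ (32 * z ^ 2) ≤ 64 * z ^ 2 * (32 * z ^ 2).centralBinom := h2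
      _ ≤ 64 * z ^ 2 * (64 * z ^ 2) ^ ((Finset.range (64 * z ^ 2 + 1)).filter Nat.Prime).card :=
        Nat.mul_le_mul_left _ h1
      _ = (64 * z ^ 2) ^ (((Finset.range (64 * z ^ 2 + 1)).filter Nat.Prime).card + 1) := by
        generalize 64 * z ^ 2 = w
        generalize ((Finset.range (w + 1)).filter Nat.Prime).card = u
        ring
      _ ≤ (64 * z ^ 2) ^ z := Nat.pow_le_pow_right (by positivity) hcon
  have h4 : (64 * z ^ 2) ^ z < (4 ^ (32 * z)) ^ z := by
    refine Nat.pow_lt_pow_left ?_ hz.ne'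
    have h5 : 8 * z < 2 ^ (32 * z) := by
      have h6 : z < 2 ^ z := Nat.lt_two_pow_self
      calc 8 * z < 8 * 2 ^ z := by omega
        _ = 2 ^ (3 + z) := by rw [pow_add]; norm_num
        _ ≤ 2 ^ (32 * z) := Nat.pow_le_pow_right (by norm_num) (by omega)
    calc 64 * z ^ 2 = (8 * z) * (8 * z) := by ring
      _ < 2 ^ (32 * z) * 2 ^ (32 * z) := Nat.mul_lt_mul'' h5 h5
      _ = 4 ^ (32 * z) := by rw [← mul_pow]; norm_num
  rw [← pow_mul] at h4
  have e2 : 32 * z * z = 32 * z ^ 2 := by ring
  rw [e2] at h4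
  omega

/-- Some residue class contains enough primes. -/
theorem exists_selCand (R N lo : ℕ) (hR : 1 ≤ R) :
    ∃ q < R, N ≤ (selCand R N lo q).length := by
  set s : Finset ℕ := (Finset.range (selBd R N lo + 1)).filter (fun p => lo < p ∧ p.Prime) with hs
  have hcard : R * N ≤ s.card := by
    have h1 := card_primes_ge (R * N + lo + 2) (by omega)
    have h2 : (Finset.range (64 * (R * N + lo + 2) ^ 2 + 1)).filter Nat.Prime ⊆
        s ∪ Finset.range (lo + 1) := by
      intro p hp
      rw [Finset.mem_filter] at hp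
      rw [Finset.mem_union]
      by_cases h : lo < p
      · left
        rw [hs, Finset.mem_filter]
        exact ⟨hp.1, h, hp.2⟩
      · right
        rw [Finset.mem_range]
        omega
    have h3 := (Finset.card_le_card h2).trans (Finset.card_union_le _ _)
    rw [Finset.card_range] at h3
    omega
  obtain ⟨q, hq, hN⟩ := Finset.exists_le_card_fiber_of_mul_le_card_of_maps_to
    (s := s) (t := Finset.range R) (f := fun p => p % R) (n := N)
    (fun p _ => Finset.mem_range.2 (Nat.mod_lt _ hR)) ⟨0, Finset.mem_range.2 hR⟩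
    (by rw [Finset.card_range]; exact hcard)
  refine ⟨q, Finset.mem_range.1 hq, hN.trans (le_of_eq ?_)⟩
  have hnd : (selCand R N lo q).Nodup := List.nodup_range.filter _
  rw [← List.toFinset_card_of_nodup hnd]
  congr 1
  ext p
  rw [Finset.mem_filter, hs, Finset.mem_filter, List.mem_toFinset, selCand, List.mem_filter,
    List.mem_range, Finset.mem_range]
  simp only [Bool.and_eq_true, decide_eq_true_eq]
  tauto

theorem sel_spec (R N lo : ℕ) (hR : 1 ≤ R) :
    (sel R N lo).length = N ∧ (∀ p ∈ sel R N lo, p.Prime ∧ lo < p ∧ p ≤ selBd R N lo) ∧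
      (sel R N lo).Pairwise (· < ·) ∧ ∃ q, ∀ p ∈ sel R N lo, p % R = q := by
  obtain ⟨q₀, hq₀, hN₀⟩ := exists_selCand R N lo hR
  obtain ⟨q, hN, hsel⟩ : ∃ q, N ≤ (selCand R N lo q).length ∧
      sel R N lo = (selCand R N lo q).take N := by
    unfold sel
    rcases hf : (List.range R).findSome? fun q =>
      if N ≤ (selCand R N lo q).length then some ((selCand R N lo q).take N) else none with _ | l
    · rw [List.findSome?_eq_none_iff] at hf
      have := hf q₀ (List.mem_range.2 hq₀)
      rw [if_pos hN₀] at this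
      exact absurd this (by simp)
    · obtain ⟨q, _, hq⟩ := List.exists_of_findSome?_eq_some hf
      by_cases h : N ≤ (selCand R N lo q).length
      · rw [if_pos h] at hq
        refine ⟨q, h, ?_⟩
        rw [Option.getD_some]
        exact (Option.some.inj hq).symm
      · rw [if_neg h] at hq
        exact absurd hq (by simp)
  have hmem : ∀ p ∈ sel R N lo, p ∈ selCand R N lo q := by
    intro p hp
    rw [hsel] at hp
    exact List.mem_of_mem_take hp
  have hmem' : ∀ p ∈ sel R N lo, (p.Prime ∧ lo < p ∧ p ≤ selBd R N lo) ∧ p % R = q := by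
    intro p hp
    have := hmem p hp
    rw [selCand, List.mem_filter, List.mem_range] at this
    simp only [Bool.and_eq_true, decide_eq_true_eq] at this
    exact ⟨⟨this.2.1.2, this.2.1.1, by omega⟩, this.2.2⟩
  refine ⟨?_, fun p hp => (hmem' p hp).1, ?_, q, fun p hp => (hmem' p hp).2⟩
  · rw [hsel, List.length_take, min_eq_left hN]
  · rw [hsel]
    exact (List.Pairwise.filter _ List.pairwise_lt_range).sublist (List.take_sublist _ _)

theorem polyF_prime {α : Type*} [TEnc α] {f : α → ℕ} (hf : PolyF f) :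
    PolyF (fun x => decide (Nat.Prime (f x))) := by
  have h : PolyF (fun p : ℕ => decide (Nat.Prime p)) := by
    refine PolyF.decide_congr (p := fun p : ℕ => 2 ≤ p ∧ ∀ m < p, (p % m = 0 → m = 1)) ?_ ?_
    · refine PolyF.decide_and ((PolyF.const 2).natLe PolyF.id) ?_
      refine PolyF.forallLt (n := fun p : ℕ => p) (p := fun p m => (p % m = 0 → m = 1)) PolyF.id ?_
      exact PolyF.decide_imp ((PolyF.fst'.natMod PolyF.snd').natEq (PolyF.const 0))
        (PolyF.snd'.natEq (PolyF.const 1))
    · intro p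
      rw [Nat.prime_def_lt]
      simp only [Nat.dvd_iff_mod_eq_zero]
  exact h.comp hf

theorem polyF_selBd : PolyF (fun a : ℕ × ℕ × ℕ => selBd a.1 a.2.1 a.2.2) := by
  unfold selBd
  exact (PolyF.const 64).natMul
    ((((PolyF.fst'.natMul PolyF.snd'.fst).natAdd PolyF.snd'.snd).natAdd (PolyF.const 2)).natPow 2)

theorem polyF_selCand : PolyF (fun a : (ℕ × ℕ × ℕ) × ℕ => selCand a.1.1 a.1.2.1 a.1.2.2 a.2) := by
  unfold selCand
  refine PolyF.filter (l := fun a : (ℕ × ℕ × ℕ) × ℕ => List.range (selBd a.1.1 a.1.2.1 a.1.2.2 + 1))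
    (p := fun a p => decide (a.1.2.2 < p) && decide (Nat.Prime p) && decide (p % a.1.1 = a.2))
    (polyF_selBd.comp PolyF.fst').succ.range ?_
  exact ((PolyF.fst'.fst.snd.snd.natLt PolyF.snd').and (polyF_prime PolyF.snd')).and
    ((PolyF.snd'.natMod PolyF.fst'.fst.fst).natEq PolyF.fst'.snd)

theorem polyF_sel : PolyF (fun a : ℕ × ℕ × ℕ => sel a.1 a.2.1 a.2.2) := by
  unfold sel
  refine PolyF.getD (PolyF.findSome? PolyF.fst'.range ?_) (PolyF.const [])
  exact PolyF.ite (PolyF.fst'.snd.fst.natLe polyF_selCand.length)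
    ((PolyF.fst'.snd.fst.take polyF_selCand).some) (PolyF.const none)

end Pool.Agent.Lib.Pinwheel
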