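import Pool.Agent.Lib.Pinwheel.TokBasic
import Pool.Agent.Lib.Pinwheel.PrimeSel

/-!
# The parameters of the environment of the token machine
-/

namespace Pool.Agent.Lib.Pinwheel

/-- number of tracks -/
def tX (n : ℕ) (prog : List Instr) : ℕ := tCl n prog + 1 - tR n prog

/-- the modulus `A` -/
def pA (n : ℕ) (prog : List Instr) : ℕ := tR n prog * tX n prog + 1

/-- the largest allowance -/
def pD (n : ℕ) (prog : List Instr) : ℕ := 2 * (tR n prog * (9 * n + 3) + 1) + 1

/-- the length of the blocks -/
def pB (n : ℕ) (prog : List Instr) : ℕ := 2 * tCl n prog * (pD n prog + 1)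

/-- the list of the primes -/
def pPrimes (n : ℕ) (prog : List Instr) : List ℕ :=
  sel (tR n prog) (2 + 3 * tCl n prog + tX n prog)
    (pA n prog + 16 + 2 * (pB n prog + pD n prog) * (tX n prog + 2 * n))

/-- The environment. -/
def mkEnv (n : ℕ) (prog : List Instr) : Env where
  Z := tCl n prog
  X := tX n prog
  n := 2 * n
  m := fun i => match i with
    | .R => tR n prog
    | .A => pA n prog
    | .k => (pPrimes n prog).getD 0 0
    | .nu z => (pPrimes n prog).getD (1 + z) 0
    | .s z a => (pPrimes n prog).getD (1 + tCl n prog + (2 * z + (if a then 1 else 0))) 0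
    | .kx x => (pPrimes n prog).getD (1 + 3 * tCl n prog + x) 0
    | .kM => (pPrimes n prog).getD (1 + 3 * tCl n prog + tX n prog) 0
  mo := tMo n prog

/-- position of the prime of a coordinate in the list -/
private def pIx (Z X : ℕ) : Idx Z X → ℕ
  | .R => 0
  | .A => 0
  | .k => 0
  | .nu z => 1 + z
  | .s z a => 1 + Z + (2 * z + (if a then 1 else 0))
  | .kx x => 1 + 3 * Z + x
  | .kM => 1 + 3 * Z + X

private theorem pIx_lt {Z X : ℕ} (i : Idx Z X) : pIx Z X i < 2 + 3 * Z + X := by
  cases i with
  | R => simp [pIx]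
  | A => simp [pIx]
  | k => simp [pIx]
  | nu z => have := z.2; simp only [pIx]; omega
  | s z a => have := z.2; cases a <;> simp [pIx] <;> omega
  | kx x => have := x.2; simp only [pIx]; omega
  | kM => simp only [pIx]; omega

private theorem pIx_inj {Z X : ℕ} (i j : Idx Z X) (hi : i ≠ .R) (hi' : i ≠ .A) (hj : j ≠ .R)
    (hj' : j ≠ .A) (h : pIx Z X i = pIx Z X j) : i = j := by
  rcases i with _ | _ | _ | _ | x | z | ⟨z, a⟩
  · exact absurd rfl hi
  · rcases j with _ | _ | _ | _ | x' | z' | ⟨z', a'⟩
    · exact absurd rfl hj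
    · rfl
    · exact absurd rfl hj'
    all_goals (exfalso; simp only [pIx] at h; omega)
  · exact absurd rfl hi'
  · rcases j with _ | _ | _ | _ | x' | z' | ⟨z', a'⟩
    · exact absurd rfl hj
    · exfalso; simp only [pIx] at h; omega
    · exact absurd rfl hj'
    · rfl
    · exfalso; have h1 := x'.2; simp only [pIx] at h; omega
    · exfalso; have h1 := z'.2; simp only [pIx] at h; omega
    · exfalso; have h1 := z'.2; cases a' <;> simp [pIx] at h <;> omega
  · have h0 := x.2
    rcases j with _ | _ | _ | _ | x' | z' | ⟨z', a'⟩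
    · exact absurd rfl hj
    · exfalso; simp only [pIx] at h; omega
    · exact absurd rfl hj'
    · exfalso; simp only [pIx] at h; omega
    · simp only [pIx] at h
      congr 1; apply Fin.ext; omega
    · exfalso; have h1 := z'.2; simp only [pIx] at h; omega
    · exfalso; have h1 := z'.2; cases a' <;> simp [pIx] at h <;> omega
  · have h0 := z.2
    rcases j with _ | _ | _ | _ | x' | z' | ⟨z', a'⟩
    · exact absurd rfl hj
    · exfalso; simp only [pIx] at h; omega
    · exact absurd rfl hj'
    · exfalso; simp only [pIx] at h; omega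
    · exfalso; simp only [pIx] at h; omega
    · simp only [pIx] at h
      congr 1; apply Fin.ext; omega
    · exfalso; cases a' <;> simp [pIx] at h <;> omega
  · have h0 := z.2
    rcases j with _ | _ | _ | _ | x' | z' | ⟨z', a'⟩
    · exact absurd rfl hj
    · exfalso; simp only [pIx] at h; omega
    · exact absurd rfl hj'
    · exfalso; cases a <;> simp [pIx] at h <;> omega
    · exfalso; cases a <;> simp [pIx] at h <;> omega
    · exfalso; have h1 := z'.2; cases a <;> simp [pIx] at h <;> omega
    · have h1 := z'.2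
      cases a <;> cases a' <;> simp [pIx] at h <;> first
        | (exfalso; omega)
        | (congr 1; apply Fin.ext; omega)

private theorem mkEnv_m (n : ℕ) (prog : List Instr) (i : Idx (mkEnv n prog).Z (mkEnv n prog).X)
    (hi : i ≠ .R) (hi' : i ≠ .A) :
    (mkEnv n prog).m i = (pPrimes n prog).getD (pIx (tCl n prog) (tX n prog) i) 0 := by
  cases i with
  | R => exact absurd rfl hi
  | A => exact absurd rfl hi'
  | _ => rfl

private theorem tR_ge (n : ℕ) (prog : List Instr) (hp : prog ≠ []) : 10 ≤ tR n prog := by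
  unfold tR tLam
  have : 1 ≤ prog.length := List.length_pos_iff.2 hp
  calc 10 ≤ (tS n / 9 + tK n + 10) * 1 := by omega
    _ ≤ _ := Nat.mul_le_mul_left _ this

private theorem tCl_ge (n : ℕ) (prog : List Instr) : 6 * tR n prog ≤ tCl n prog := by
  unfold tCl
  calc 6 * tR n prog = tR n prog * 6 := by ring
    _ ≤ _ := Nat.mul_le_mul_left _ (by omega)

/-- the lower bound of the primes -/
private def pLo (n : ℕ) (prog : List Instr) : ℕ :=
  pA n prog + 16 + 2 * (pB n prog + pD n prog) * (tX n prog + 2 * n)

private theorem pLen (n : ℕ) (prog : List Instr) (hp : prog ≠ []) :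
    (pPrimes n prog).length = 2 + 3 * tCl n prog + tX n prog :=
  (sel_spec _ _ _ (by have := tR_ge n prog hp; omega)).1

private theorem pMem (n : ℕ) (prog : List Instr) (hp : prog ≠ [])
    (i : Idx (mkEnv n prog).Z (mkEnv n prog).X) (hi : i ≠ .R) (hi' : i ≠ .A) :
    (mkEnv n prog).m i ∈ pPrimes n prog := by
  rw [mkEnv_m n prog i hi hi']
  have hlt : pIx (tCl n prog) (tX n prog) i < (pPrimes n prog).length := by
    rw [pLen n prog hp]; exact pIx_lt i
  rw [List.getD_eq_getElem _ _ hlt]
  exact List.getElem_mem _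

private theorem pLt (n : ℕ) (prog : List Instr) (hp : prog ≠ [])
    (i j : Idx (mkEnv n prog).Z (mkEnv n prog).X) (hi : i ≠ .R) (hi' : i ≠ .A)
    (hj : j ≠ .R) (hj' : j ≠ .A)
    (h : pIx (tCl n prog) (tX n prog) i < pIx (tCl n prog) (tX n prog) j) :
    (mkEnv n prog).m i < (mkEnv n prog).m j := by
  rw [mkEnv_m n prog i hi hi', mkEnv_m n prog j hj hj']
  have hj2 : pIx (tCl n prog) (tX n prog) j < (pPrimes n prog).length := by
    rw [pLen n prog hp]; exact pIx_lt j
  have hi2 : pIx (tCl n prog) (tX n prog) i < (pPrimes n prog).length := lt_trans h hj2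
  rw [List.getD_eq_getElem _ _ hi2, List.getD_eq_getElem _ _ hj2]
  have hs := (sel_spec (tR n prog) (2 + 3 * tCl n prog + tX n prog)
    (pA n prog + 16 + 2 * (pB n prog + pD n prog) * (tX n prog + 2 * n))
    (by have := tR_ge n prog hp; omega)).2.2.1
  exact List.pairwise_iff_getElem.1 hs _ _ hi2 hj2 h

private theorem pPr (n : ℕ) (prog : List Instr) (hp : prog ≠ [])
    (i : Idx (mkEnv n prog).Z (mkEnv n prog).X) (hi : i ≠ .R) (hi' : i ≠ .A) :
    ((mkEnv n prog).m i).Prime ∧ pLo n prog < (mkEnv n prog).m i := by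
  have h := (sel_spec (tR n prog) (2 + 3 * tCl n prog + tX n prog)
    (pA n prog + 16 + 2 * (pB n prog + pD n prog) * (tX n prog + 2 * n))
    (by have := tR_ge n prog hp; omega)).2.1 _ (pMem n prog hp i hi hi')
  exact ⟨h.1, h.2.1⟩

private theorem pA_lt_lo (n : ℕ) (prog : List Instr) : pA n prog + 16 ≤ pLo n prog := by
  unfold pLo; omega

private theorem tX_pos (n : ℕ) (prog : List Instr) (hp : prog ≠ []) : 1 ≤ tX n prog := by
  unfold tX
  have h1 := tR_ge n prog hp
  have h2 := tCl_ge n prog
  omega

private theorem tR_lt_pA (n : ℕ) (prog : List Instr) (hp : prog ≠ []) :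
    tR n prog < pA n prog := by
  unfold pA
  have := tX_pos n prog hp
  calc tR n prog = tR n prog * 1 := by ring
    _ ≤ tR n prog * tX n prog := Nat.mul_le_mul_left _ this
    _ < _ := by omega

private theorem cop_aux (n : ℕ) (prog : List Instr) (hp : prog ≠ [])
    (i : Idx (mkEnv n prog).Z (mkEnv n prog).X) (hi : i ≠ .R) (hi' : i ≠ .A) (c : ℕ)
    (hc : 0 < c) (hc' : c ≤ pA n prog) : Nat.Coprime c ((mkEnv n prog).m i) := by
  obtain ⟨h1, h2⟩ := pPr n prog hp i hi hi'
  have h3 := pA_lt_lo n prog
  exact (Nat.coprime_of_lt_prime hc.ne' (by omega) h1).symm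

theorem mkEnv_good (n : ℕ) (prog : List Instr) (hn : 0 < n) (hp : prog ≠ []) :
    ∃ Q, (mkEnv n prog).Good Q := by
  have hR := tR_ge n prog hp
  have hZ := tCl_ge n prog
  have hX := tX_pos n prog hp
  have hRA := tR_lt_pA n prog hp
  have hlo := pA_lt_lo n prog
  obtain ⟨q, hq⟩ := (sel_spec (tR n prog) (2 + 3 * tCl n prog + tX n prog)
    (pA n prog + 16 + 2 * (pB n prog + pD n prog) * (tX n prog + 2 * n))
    (by omega)).2.2.2
  have hmod : ∀ i : Idx (mkEnv n prog).Z (mkEnv n prog).X, i ≠ .R → i ≠ .A →
      (mkEnv n prog).m i % tR n prog = q := fun i hi hi' => hq _ (pMem n prog hp i hi hi')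
  have hcop : ∀ i j : Idx (mkEnv n prog).Z (mkEnv n prog).X, i ≠ j →
      Nat.Coprime ((mkEnv n prog).m i) ((mkEnv n prog).m j) := by
    intro i j hij
    by_cases hi : i = .R
    · subst hi
      by_cases hj' : j = .A
      · subst hj'
        change Nat.Coprime (tR n prog) (tR n prog * tX n prog + 1)
        simp
      · exact cop_aux n prog hp j (Ne.symm hij) hj' (tR n prog) (by omega) (by omega)
    by_cases hi' : i = .A
    · subst hi'
      by_cases hj : j = .R
      · subst hj
        change Nat.Coprime (tR n prog * tX n prog + 1) (tR n prog)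
        simp
      · exact cop_aux n prog hp j hj (Ne.symm hij) (pA n prog) (by omega) le_rfl
    by_cases hj : j = .R
    · subst hj
      exact (cop_aux n prog hp i hi hi' (tR n prog) (by omega) (by omega)).symm
    by_cases hj' : j = .A
    · subst hj'
      exact (cop_aux n prog hp i hi hi' (pA n prog) (by omega) le_rfl).symm
    have h1 := (pPr n prog hp i hi hi').1
    have h2 := (pPr n prog hp j hj hj').1
    rw [Nat.coprime_primes h1 h2]
    rcases lt_trichotomy (pIx (tCl n prog) (tX n prog) i) (pIx (tCl n prog) (tX n prog) j) with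
      h | h | h
    · exact (pLt n prog hp i j hi hi' hj hj' h).ne
    · exact absurd (pIx_inj i j hi hi' hj hj' h) hij
    · exact (pLt n prog hp j i hj hj' hi hi' h).ne'
  refine ⟨q * q, ?_⟩
  refine { two_le := by change 2 ≤ tR n prog; omega, big := ?_, cop := hcop, XZ := ?_, Z4 := ?_,
           A_lt := ?_, kM_n := ?_, kM_s := ?_, mo_le := ?_, count := ?_, stride := ?_ }
  · intro i hi hi'
    have := (pPr n prog hp i hi hi').2
    omega
  · change tX n prog + tR n prog = tCl n prog + 1
    unfold tX; omega
  · change 4 * tR n prog ≤ tCl n prog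
    omega
  · change tX n prog < pA n prog
    unfold pA
    calc tX n prog = 1 * tX n prog := by ring
      _ ≤ tR n prog * tX n prog := Nat.mul_le_mul_right _ (by omega)
      _ < _ := by omega
  · have := (pPr n prog hp .kM (by simp) (by simp)).2
    change 2 * (2 * n) < (mkEnv n prog).m .kM
    refine lt_of_le_of_lt ?_ this
    unfold pLo
    have hD : 1 ≤ pB n prog + pD n prog := by unfold pD; omega
    calc 2 * (2 * n) = 2 * 1 * (2 * n) := by ring
      _ ≤ 2 * (pB n prog + pD n prog) * (tX n prog + 2 * n) :=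
        Nat.mul_le_mul (Nat.mul_le_mul_left _ hD) (by omega)
      _ ≤ _ := by omega
  · intro z a
    apply pLt n prog hp _ _ (by simp) (by simp) (by simp) (by simp)
    have hz : z.1 < tCl n prog := z.2
    cases a <;> simp only [pIx] <;> simp <;> omega
  · intro z hz hmo
    exact tMo_le n prog z hz hmo
  · intro r hr
    exact tMo_count n prog r hr
  · intro t
    change (mkEnv n prog).Mod ((mkEnv n prog).suppT t) % tR n prog = q * q % tR n prog
    have hk := hmod .k (by simp) (by simp)
    rcases t with x | t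
    · have hx := hmod (.kx x) (by simp) (by simp)
      have hA : (mkEnv n prog).m .A % tR n prog = 1 % tR n prog := by
        change (tR n prog * tX n prog + 1) % tR n prog = _
        rw [Nat.mul_add_mod]
      have hMod : (mkEnv n prog).Mod ((mkEnv n prog).suppT (.inl x)) =
          (mkEnv n prog).m .k * ((mkEnv n prog).m .A * (mkEnv n prog).m (.kx x)) := by
        unfold Env.Mod Env.suppT
        rw [Finset.prod_insert (by simp), Finset.prod_insert (by simp), Finset.prod_singleton]
      rw [hMod]
      have e1 : (mkEnv n prog).m .k ≡ q [MOD tR n prog] := by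
        unfold Nat.ModEq
        rw [← hk, Nat.mod_mod]
      have e2 : (mkEnv n prog).m (.kx x) ≡ q [MOD tR n prog] := by
        unfold Nat.ModEq
        rw [← hx, Nat.mod_mod]
      have e3 : (mkEnv n prog).m .A ≡ 1 [MOD tR n prog] := hA
      have := e1.mul (e3.mul e2)
      rw [one_mul] at this
      exact this
    · have hx := hmod .kM (by simp) (by simp)
      have hMod : (mkEnv n prog).Mod ((mkEnv n prog).suppT (.inr t)) =
          (mkEnv n prog).m .k * (mkEnv n prog).m .kM := by
        unfold Env.Mod Env.suppT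
        rw [Finset.prod_insert (by simp), Finset.prod_singleton]
      rw [hMod]
      have e1 : (mkEnv n prog).m .k ≡ q [MOD tR n prog] := by
        unfold Nat.ModEq
        rw [← hk, Nat.mod_mod]
      have e2 : (mkEnv n prog).m .kM ≡ q [MOD tR n prog] := by
        unfold Nat.ModEq
        rw [← hx, Nat.mod_mod]
      exact e1.mul e2

theorem mkEnv_big (n : ℕ) (prog : List Instr) (hn : 0 < n) (hp : prog ≠ []) :
    2 * (mkEnv n prog).Z * (pD n prog + 1) ≤ pB n prog ∧ 3 ≤ pD n prog ∧
      (∀ t < 2 * n, 2 * ((mkEnv n prog).R * tAl n t + 1) + 1 ≤ pD n prog) ∧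
      (∀ τ, 2 * (pB n prog + pD n prog) * (tX n prog + 2 * n) ≤
        (mkEnv n prog).Mod ((mkEnv n prog).suppT τ)) := by
  refine ⟨le_rfl, by unfold pD; omega, ?_, ?_⟩
  · intro t ht
    change 2 * (tR n prog * tAl n t + 1) + 1 ≤ 2 * (tR n prog * (9 * n + 3) + 1) + 1
    have h1 : tAl n t ≤ 9 * n + 3 := by
      unfold tAl tA
      have : t % 2 < 2 := Nat.mod_lt _ (by norm_num)
      omega
    have h2 : tR n prog * tAl n t ≤ tR n prog * (9 * n + 3) := Nat.mul_le_mul_left _ h1
    omega
  · intro τ
    have hk := (pPr n prog hp .k (by simp) (by simp)).2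
    have hle : 2 * (pB n prog + pD n prog) * (tX n prog + 2 * n) ≤ (mkEnv n prog).m .k := by
      unfold pLo at hk
      omega
    refine hle.trans ?_
    have hpos : ∀ i : Idx (mkEnv n prog).Z (mkEnv n prog).X, 1 ≤ (mkEnv n prog).m i := by
      intro i
      by_cases hi : i = .R
      · subst hi
        have := tR_ge n prog hp
        change 1 ≤ tR n prog
        omega
      by_cases hi' : i = .A
      · subst hi'
        change 1 ≤ tR n prog * tX n prog + 1
        omega
      exact (pPr n prog hp i hi hi').1.pos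
    have hkin : (.k : Idx (mkEnv n prog).Z (mkEnv n prog).X) ∈ (mkEnv n prog).suppT τ := by
      rcases τ with x | t <;> simp [Env.suppT]
    unfold Env.Mod
    exact Finset.single_le_prod' (f := (mkEnv n prog).m) (fun i _ => hpos i) hkin

end Pool.Agent.Lib.Pinwheel
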