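import Pool.Agent.Lib.Pinwheel.Defs

/-!
# Eventual rigidity
-/

namespace Pool.Agent.Lib.Pinwheel

namespace RigidAux

variable {ι : Type} [DecidableEq ι]

/-- the last visit before day `t` (`-1` if there is none) -/
def lst (S : ℕ → ι) (i : ι) : ℕ → ℤ
  | 0 => -1
  | t + 1 => if S t = i then (t : ℤ) else lst S i t

/-- the number of visits before day `t` -/
def cnt (S : ℕ → ι) (i : ι) : ℕ → ℤ
  | 0 => 0
  | t + 1 => if S t = i then cnt S i t + 1 else cnt S i t

/-- the phase -/
def ph (S : ℕ → ι) (F : ι → ℤ) (i : ι) (t : ℕ) : ℤ := lst S i t - cnt S i t * F i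

variable (S : ℕ → ι) (F : ι → ℤ)

lemma lst_succ (i : ι) (t : ℕ) :
    lst S i (t + 1) = if S t = i then (t : ℤ) else lst S i t := rfl

lemma cnt_succ (i : ι) (t : ℕ) :
    cnt S i (t + 1) = if S t = i then cnt S i t + 1 else cnt S i t := rfl

lemma lst_lt (i : ι) (t : ℕ) : lst S i t < t := by
  induction t with
  | zero => simp [lst]
  | succ t ih =>
    unfold lst
    split_ifs
    · push_cast; omega
    · push_cast; omega

lemma neg_one_le_lst (i : ι) (t : ℕ) : -1 ≤ lst S i t := by
  induction t with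
  | zero => simp [lst]
  | succ t ih =>
    unfold lst
    split_ifs
    · omega
    · exact ih

lemma le_lst (i : ι) {s t : ℕ} (h : S s = i) (hst : s < t) : (s : ℤ) ≤ lst S i t := by
  induction t with
  | zero => omega
  | succ t ih =>
    unfold lst
    split_ifs with h1
    · omega
    · rcases Nat.lt_succ_iff_lt_or_eq.1 hst with h2 | h2
      · exact ih h2
      · subst h2; exact absurd h h1

lemma S_lst (i : ι) (t : ℕ) (h : 0 ≤ lst S i t) : S (lst S i t).toNat = i := by
  induction t with
  | zero => simp [lst] at h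
  | succ t ih =>
    unfold lst at h ⊢
    split_ifs at h ⊢ with h1
    · simpa using h1
    · exact ih h

lemma lst_mono (i : ι) {s t : ℕ} (hst : s ≤ t) : lst S i s ≤ lst S i t := by
  induction t, hst using Nat.le_induction with
  | base => exact le_rfl
  | succ t hst ih =>
    refine ih.trans ?_
    conv_rhs => unfold lst
    split_ifs
    · exact (lst_lt S i t).le
    · exact le_rfl

lemma cnt_mono (i : ι) {s t : ℕ} (hst : s ≤ t) : cnt S i s ≤ cnt S i t := by
  induction t, hst using Nat.le_induction with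
  | base => exact le_rfl
  | succ t hst ih =>
    refine ih.trans ?_
    conv_rhs => unfold cnt
    split_ifs <;> omega

lemma lst_eq_of_cnt_eq (i : ι) {s t : ℕ} (hst : s ≤ t) (h : cnt S i t = cnt S i s) :
    lst S i t = lst S i s := by
  induction t, hst using Nat.le_induction with
  | base => rfl
  | succ t hst ih =>
    have h1 := cnt_mono S i hst
    rw [cnt_succ] at h
    rw [lst_succ]
    split_ifs at h ⊢ with h2
    · omega
    · exact ih h

lemma sum_cnt [Fintype ι] (t : ℕ) : ∑ i, cnt S i t = t := by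
  induction t with
  | zero => simp [cnt]
  | succ t ih =>
    have h1 : ∀ i, cnt S i (t + 1) = cnt S i t + if S t = i then 1 else 0 := by
      intro i
      conv_lhs => unfold cnt
      split_ifs <;> simp
    simp only [h1, Finset.sum_add_distrib, ih, Finset.sum_ite_eq, Finset.mem_univ, if_true]
    push_cast
    rfl

lemma ph_succ_ne (i : ι) (t : ℕ) (h : S t ≠ i) : ph S F i (t + 1) = ph S F i t := by
  simp [ph, lst, cnt, h]

lemma ph_succ_eq (i : ι) (t : ℕ) (h : S t = i) :
    ph S F i (t + 1) = t - (cnt S i t + 1) * F i := by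
  simp [ph, lst, cnt, h]

/-- gaps are bounded -/
lemma le_lst_of (f : ι → ℕ)
    (hS : ∀ i t, ∃ s, t ≤ s ∧ s < t + f i ∧ S s = i) (i : ι) (t : ℕ) :
    (t : ℤ) - f i ≤ lst S i t := by
  by_cases ht : f i ≤ t
  · obtain ⟨s, h1, h2, h3⟩ := hS i (t - f i)
    have h4 := le_lst S i h3 (t := t) (by omega)
    omega
  · have := neg_one_le_lst S i t
    omega

lemma ph_succ_le (f : ι → ℕ)
    (hS : ∀ i t, ∃ s, t ≤ s ∧ s < t + f i ∧ S s = i) (i : ι) (t : ℕ) (d : ℕ)
    (hd : (f i : ℤ) ≤ F i + d) : ph S F i (t + 1) ≤ ph S F i t + d := by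
  by_cases h : S t = i
  · rw [ph_succ_eq S F i t h]
    unfold ph
    have := le_lst_of S f hS i t
    linarith
  · rw [ph_succ_ne S F i t h]
    omega

/-- antitone bounded below integer sequences are eventually constant -/
lemma stab (f : ℕ → ℤ) (T : ℕ) (h : ∀ t, T ≤ t → f (t + 1) ≤ f t) (b : ℤ)
    (hb : ∀ t, T ≤ t → b ≤ f t) : ∃ T', T ≤ T' ∧ ∀ t, T' ≤ t → f t = f T' := by
  obtain ⟨z, ⟨T', hT', rfl⟩, hz⟩ := Int.exists_least_of_bdd
    (P := fun z => ∃ t, T ≤ t ∧ f t = z) ⟨b, by rintro z ⟨t, ht, rfl⟩; exact hb t ht⟩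
    ⟨f T, T, le_rfl, rfl⟩
  refine ⟨T', hT', ?_⟩
  intro t ht
  refine le_antisymm ?_ (hz _ ⟨t, hT'.trans ht, rfl⟩)
  induction t, ht using Nat.le_induction with
  | base => exact le_rfl
  | succ t ht ih => exact (h t (hT'.trans ht)).trans ih

/-- the hypotheses of `rigid` -/
structure Ctx {ι : Type} [Fintype ι] [DecidableEq ι] (B L D : ℕ) (M d : ι → ℕ) (W : Finset ι)
    (S : ℕ → ι) : Prop where
  hL : 0 < L
  hB : L * (D + 1) ≤ B
  hM : ∀ i, 0 < M i
  hd : ∀ i, d i ≤ D
  hW : ∀ i ∈ W, M i = 1 ∧ d i = 0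
  hWc : W.card + L = B
  hdens : ∑ i, (1 : ℚ) / M i = B
  hsmall : ∑ i ∈ Finset.univ.filter (fun i => 0 < d i), 2 * ((B : ℚ) + D) / M i ≤ 1
  hS : ∀ i t, ∃ s, t ≤ s ∧ s < t + (B * M i + d i) ∧ S s = i

/-- the phase with `F i = B * M i` -/
def P {ι : Type} [DecidableEq ι] (B : ℕ) (M : ι → ℕ) (S : ℕ → ι) (i : ι) (t : ℕ) : ℤ :=
  ph S (fun i => (B : ℤ) * M i) i t

namespace Ctx

variable {ι : Type} [Fintype ι] [DecidableEq ι] {B L D : ℕ} {M d : ι → ℕ} {W : Finset ι}
  {S : ℕ → ι}

lemma Bpos (C : Ctx B L D M d W S) : 0 < B := by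
  have h1 := C.hL
  have h2 := C.hB
  have h3 : 0 < L * (D + 1) := Nat.mul_pos h1 (Nat.succ_pos _)
  omega

lemma DB (C : Ctx B L D M d W S) : D < B := by
  have h1 := C.hL
  have h2 := C.hB
  have h3 : 1 * (D + 1) ≤ L * (D + 1) := Nat.mul_le_mul_right _ h1
  omega

lemma leLst (C : Ctx B L D M d W S) (i : ι) (t : ℕ) :
    (t : ℤ) - (B * M i + d i : ℕ) ≤ lst S i t :=
  le_lst_of S (fun i => B * M i + d i) C.hS i t

lemma step (C : Ctx B L D M d W S) (i : ι) (t : ℕ) : P B M S i (t + 1) ≤ P B M S i t + d i := by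
  unfold P
  refine ph_succ_le S _ (fun i => B * M i + d i) C.hS i t (d i) ?_
  push_cast
  exact le_rfl

omit [Fintype ι] in
lemma P_ne (i : ι) (t : ℕ) (h : S t ≠ i) : P B M S i (t + 1) = P B M S i t :=
  ph_succ_ne S _ i t h

omit [Fintype ι] in
lemma P_def (i : ι) (t : ℕ) : P B M S i t = lst S i t - cnt S i t * (B * M i) := rfl

omit [Fintype ι] in
lemma P_eq (i : ι) (t : ℕ) (h : S t = i) :
    P B M S i (t + 1) = t - (cnt S i t + 1) * (B * M i) := by
  unfold P
  rw [ph_succ_eq S _ i t h]

lemma growth (C : Ctx B L D M d W S) (i : ι) {s t : ℕ} (hst : s ≤ t) :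
    P B M S i t ≤ P B M S i s + (cnt S i t - cnt S i s) * d i := by
  induction t, hst using Nat.le_induction with
  | base => simp
  | succ t hst ih =>
    by_cases h : S t = i
    · have h1 := C.step i t
      rw [cnt_succ, if_pos h]
      linarith
    · rw [P_ne i t h, cnt_succ, if_neg h]
      exact ih

lemma anti (C : Ctx B L D M d W S) (i : ι) (hi : d i = 0) {s t : ℕ} (hst : s ≤ t) :
    P B M S i t ≤ P B M S i s := by
  have := C.growth i hst
  rw [hi] at this
  simpa using this

lemma antiW (C : Ctx B L D M d W S) {i : ι} (hi : i ∈ W) {s t : ℕ} (hst : s ≤ t) :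
    P B M S i t ≤ P B M S i s := C.anti i (C.hW i hi).2 hst

/-- a day in the residue class of a wall is a visit of this wall -/
lemma wall_visit (C : Ctx B L D M d W S) {w : ι} (hw : w ∈ W) (t : ℕ)
    (h : (B : ℤ) ∣ t - P B M S w t) : S t = w := by
  by_contra hne
  obtain ⟨hM1, hd0⟩ := C.hW w hw
  have h1 := C.leLst w t
  have h2 := C.leLst w (t + 1)
  rw [lst_succ, if_neg hne] at h2
  rw [hM1, hd0] at h1 h2
  have h3 := lst_lt S w t
  rw [P_def, hM1] at h
  have h4 : (B : ℤ) ∣ t - lst S w t := by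
    have : (t : ℤ) - lst S w t = (t - (lst S w t - cnt S w t * (B * (1 : ℕ)))) -
      B * cnt S w t := by push_cast; ring
    rw [this]
    exact dvd_sub h (Dvd.intro _ rfl)
  push_cast at h1 h2
  obtain ⟨k, hk⟩ := h4
  have hBp : (0 : ℤ) < B := by exact_mod_cast C.Bpos
  have hk0 : 0 < k := by
    by_contra hk0
    push Not at hk0
    nlinarith
  have hk1 : k < 1 := by
    by_contra hk1
    push Not at hk1
    nlinarith
  omega

/-- existence of a run of wall residues -/
lemma exists_run (C : Ctx B L D M d W S) (s : ℕ) (hs : B ≤ s) :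
    ∃ c : ℕ, c < B ∧ ∀ j : ℕ, 1 ≤ j → j ≤ D → ∃ w ∈ W, (B : ℤ) ∣ (c - j : ℤ) - P B M S w s := by
  classical
  have hBp := C.Bpos
  have : NeZero B := ⟨hBp.ne'⟩
  let g : ι → ZMod B := fun w => ((P B M S w s : ℤ) : ZMod B)
  have hg : ∀ w ∈ W, g w = ((lst S w s : ℤ) : ZMod B) := by
    intro w hw
    change ((P B M S w s : ℤ) : ZMod B) = _
    rw [P_def]
    push_cast
    simp
  have hinj : Set.InjOn g W := by
    intro w hw w' hw' hww
    have hw1 : w ∈ W := hw
    have hw1' : w' ∈ W := hw'
    rw [hg w hw1, hg w' hw1', ZMod.intCast_eq_intCast_iff_dvd_sub] at hww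
    have a1 := C.leLst w s
    have a2 := C.leLst w' s
    have a3 := lst_lt S w s
    have a4 := lst_lt S w' s
    rw [(C.hW w hw1).1, (C.hW w hw1).2] at a1
    rw [(C.hW w' hw1').1, (C.hW w' hw1').2] at a2
    push_cast at a1 a2
    have a5 : lst S w' s - lst S w s = 0 := by
      apply Int.eq_zero_of_abs_lt_dvd hww
      rw [abs_lt]
      constructor <;> omega
    have a6 : lst S w' s = lst S w s := by omega
    have hs' : (B : ℤ) ≤ s := by exact_mod_cast hs
    have b1 := S_lst S w s (by omega)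
    have b2 := S_lst S w' s (by omega)
    rw [← b1, ← b2, a6]
  let A : Finset (ZMod B) := W.image g
  have hA : A.card = W.card := Finset.card_image_of_injOn hinj
  have hAc : Aᶜ.card = L := by
    rw [Finset.card_compl, hA, ZMod.card]
    have := C.hWc
    omega
  let U : Finset (ZMod B) := Aᶜ.biUnion fun a =>
    (Finset.range D).image fun j : ℕ => a + ((j + 1 : ℕ) : ZMod B)
  have hU : U.card ≤ L * D := by
    rw [← hAc]
    refine Finset.card_biUnion_le_card_mul _ _ _ ?_
    intro a _
    refine Finset.card_image_le.trans ?_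
    rw [Finset.card_range]
  have hU' : U.card < Fintype.card (ZMod B) := by
    rw [ZMod.card]
    have h1 := C.hB
    have h2 := C.hL
    have h3 : L * (D + 1) = L * D + L := by ring
    omega
  obtain ⟨c, hc⟩ : ∃ c, c ∉ U := by
    by_contra hcon
    push Not at hcon
    have : U = Finset.univ := Finset.eq_univ_iff_forall.2 hcon
    rw [this, Finset.card_univ] at hU'
    exact lt_irrefl _ hU'
  refine ⟨c.val, ZMod.val_lt c, ?_⟩
  intro j hj1 hjD
  have h1 : c - (j : ZMod B) ∈ A := by
    by_contra hcon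
    apply hc
    rw [Finset.mem_biUnion]
    refine ⟨c - (j : ZMod B), Finset.mem_compl.2 hcon, ?_⟩
    rw [Finset.mem_image]
    refine ⟨j - 1, Finset.mem_range.2 (by omega), ?_⟩
    rw [Nat.sub_add_cancel hj1]
    ring
  obtain ⟨w, hw, hwc⟩ := Finset.mem_image.1 h1
  refine ⟨w, hw, ?_⟩
  rw [← ZMod.intCast_eq_intCast_iff_dvd_sub]
  push_cast
  rw [ZMod.natCast_zmod_val]
  exact hwc

/-- `c` is the residue after a run of wall residues at time `s` -/
def Run (B D : ℕ) (M : ι → ℕ) (W : Finset ι) (S : ℕ → ι) (c : ℕ) (s : ℕ) : Prop :=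
  ∀ j : ℕ, 1 ≤ j → j ≤ D → ∃ w ∈ W, (B : ℤ) ∣ (c - j : ℤ) - P B M S w s

lemma visit_mod (C : Ctx B L D M d W S) {c s : ℕ} (hc : Run B D M W S c s) {t : ℕ} (_ : s ≤ t)
    (hst : ∀ w ∈ W, P B M S w t = P B M S w s) (hi : S t ∉ W) :
    ((t : ℤ) - c) % B < B - D := by
  by_contra hcon
  push Not at hcon
  have hBp : (0 : ℤ) < B := by exact_mod_cast C.Bpos
  have h1 := Int.emod_lt_of_pos ((t : ℤ) - c) hBp
  have h0 := Int.emod_nonneg ((t : ℤ) - c) hBp.ne'
  obtain ⟨j, hj⟩ := Int.eq_ofNat_of_zero_le (a := (B : ℤ) - ((t : ℤ) - c) % B) (by omega)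
  obtain ⟨w, hw, hwc⟩ := hc j (by omega) (by omega)
  apply hi
  rw [C.wall_visit hw t ?_]
  · exact hw
  · rw [hst w hw]
    have h2 := Int.mul_ediv_add_emod ((t : ℤ) - c) B
    have h3 : (t : ℤ) - P B M S w s = ((c - j : ℤ) - P B M S w s) +
        B * (((t : ℤ) - c) / B + 1) := by
      rw [← hj]
      linear_combination -h2
    rw [h3]
    exact dvd_add hwc (Dvd.intro _ rfl)

lemma floor_step {B D : ℕ} (hB : (0 : ℤ) < B) {x y : ℤ} (hx : x % B < B - D) (hy : y ≤ x + D) :
    y / B ≤ x / B := by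
  have h2 := Int.mul_ediv_add_emod x B
  have h3 : y < (x / B + 1) * B := by
    have : (x / B + 1) * (B : ℤ) = B * (x / B) + B := by ring
    omega
  have := Int.ediv_lt_of_lt_mul hB h3
  omega

/-- drift in an interval without wall moves -/
lemma drift (C : Ctx B L D M d W S) {s e : ℕ} (hs : B ≤ s) (hse : s ≤ e)
    (hW : ∀ w ∈ W, P B M S w e = P B M S w s) (i : ι) :
    P B M S i e ≤ P B M S i s + B + D := by
  have hBp : (0 : ℤ) < B := by exact_mod_cast C.Bpos
  by_cases hi : i ∈ W
  · rw [hW i hi]; omega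
  obtain ⟨c, -, hc⟩ := C.exists_run s hs
  have hc' : Run B D M W S c s := hc
  have key : P B M S i e = P B M S i s ∨ ((P B M S i e - c) % B < B - D ∧
      (P B M S i e - c) / B ≤ (P B M S i s + D - c) / B) := by
    induction e, hse using Nat.le_induction with
    | base => exact Or.inl rfl
    | succ t ht ih =>
      have hW' : ∀ w ∈ W, P B M S w t = P B M S w s := by
        intro w hw
        have h1 := C.antiW hw ht
        have h2 := C.antiW hw (Nat.le_succ t)
        rw [hW w hw] at h2
        exact le_antisymm h1 h2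
      have ih' := ih hW'
      by_cases hit : S t = i
      · right
        have h1 : S t ∉ W := by rwa [hit]
        have h2 := C.visit_mod hc' ht hW' h1
        constructor
        · rw [P_eq i t hit]
          have : (t : ℤ) - (cnt S i t + 1) * (B * M i) - c =
              (t - c) + B * (-((cnt S i t + 1) * M i)) := by ring
          rw [this, Int.add_mul_emod_self_left]
          exact h2
        · have h3 := C.step i t
          have h4 : (d i : ℤ) ≤ D := by exact_mod_cast C.hd i
          rcases ih' with h5 | ⟨h5, h6⟩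
          · rw [h5] at h3
            apply Int.ediv_le_ediv hBp
            omega
          · refine le_trans ?_ h6
            apply floor_step hBp h5
            omega
      · rw [P_ne i t hit]
        exact ih'
  rcases key with h | ⟨-, h⟩
  · rw [h]; omega
  · have h1 := Int.mul_ediv_add_emod (P B M S i e - c) B
    have h2 := Int.mul_ediv_add_emod (P B M S i s + D - c) B
    have h3 := Int.emod_lt_of_pos (P B M S i e - c) hBp
    have h4 := Int.emod_nonneg (P B M S i s + D - c) hBp.ne'
    have h5 : (B : ℤ) * ((P B M S i e - c) / B) ≤ B * ((P B M S i s + D - c) / B) :=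
      mul_le_mul_of_nonneg_left h hBp.le
    omega

/-- the drift is bounded by the number of wall moves -/
lemma token_bound (C : Ctx B L D M d W S) (i : ι) (hi : i ∉ W) (e : ℕ) (he : B ≤ e) :
    P B M S i e ≤ P B M S i B + (∑ w ∈ W, (P B M S w B - P B M S w e) + 1) * (B + D) := by
  induction e using Nat.strong_induction_on with
  | _ e ih =>
    by_cases h : ∀ w ∈ W, P B M S w e = P B M S w B
    · have h1 := C.drift le_rfl he h i
      have h2 : ∑ w ∈ W, (P B M S w B - P B M S w e) = 0 := by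
        apply Finset.sum_eq_zero
        intro w hw
        rw [h w hw, sub_self]
      rw [h2]
      linarith
    · have hex : ∃ s, B ≤ s ∧ ∀ w ∈ W, P B M S w e = P B M S w s :=
        ⟨e, he, fun w _ => rfl⟩
      classical
      obtain ⟨hs1, hs2⟩ := Nat.find_spec hex
      have hse : Nat.find hex ≤ e := Nat.find_min' hex ⟨he, fun w _ => rfl⟩
      have hmin : ∀ t, t < Nat.find hex → ¬ (B ≤ t ∧ ∀ w ∈ W, P B M S w e = P B M S w t) :=
        fun t ht => Nat.find_min hex ht
      generalize Nat.find hex = s at hs1 hs2 hse hmin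
      have hsB : s ≠ B := by
        rintro rfl
        exact h hs2
      obtain ⟨t, rfl⟩ : ∃ t, s = t + 1 := ⟨s - 1, by omega⟩
      have ht : B ≤ t := by omega
      have h1 := hmin t (Nat.lt_succ_self t)
      push Not at h1
      obtain ⟨w, hw, hne⟩ := h1 ht
      have hte : t ≤ e := by omega
      have hlt : P B M S w e < P B M S w t :=
        lt_of_le_of_ne (C.antiW hw hte) hne
      have hSt : S t = w := by
        by_contra hcon
        apply hne
        rw [hs2 w hw, P_ne w t hcon]
      have hX : ∑ w ∈ W, (P B M S w B - P B M S w t) + 1 ≤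
          ∑ w ∈ W, (P B M S w B - P B M S w e) := by
        have h3 : ∑ w ∈ W, (P B M S w B - P B M S w t) <
            ∑ w ∈ W, (P B M S w B - P B M S w e) := by
          apply Finset.sum_lt_sum
          · intro w' hw'
            have := C.antiW hw' hte
            omega
          · exact ⟨w, hw, by omega⟩
        omega
      have h4 := ih t (by omega) ht
      have h5 : P B M S i (t + 1) = P B M S i t := by
        apply P_ne
        rintro rfl
        exact hi (hSt ▸ hw)
      have h6 := C.drift hs1 hse hs2 i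
      rw [h5] at h6
      have h7 : (∑ w ∈ W, (P B M S w B - P B M S w t) + 1) * ((B : ℤ) + D) + (B + D) ≤
          (∑ w ∈ W, (P B M S w B - P B M S w e) + 1) * (B + D) := by
        have h8 : (0 : ℤ) ≤ B + D := by positivity
        nlinarith
      linarith

/-- the potential -/
def psi (B : ℕ) (M : ι → ℕ) (S : ℕ → ι) (t : ℕ) : ℚ := ∑ i, (P B M S i t : ℚ) / M i

lemma psi_lower (C : Ctx B L D M d W S) (t : ℕ) :
    -(∑ i, ((B * M i + d i : ℕ) : ℚ) / M i) ≤ psi B M S t := by
  have h1 : ∀ i, (P B M S i t : ℚ) / M i = (lst S i t : ℚ) / M i - cnt S i t * B := by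
    intro i
    have hM : (M i : ℚ) ≠ 0 := by exact_mod_cast (C.hM i).ne'
    rw [P_def]
    push_cast
    field_simp
  have h2 : psi B M S t = ∑ i, (lst S i t : ℚ) / M i - t * B := by
    unfold psi
    simp only [h1, Finset.sum_sub_distrib, ← Finset.sum_mul]
    congr 2
    have := sum_cnt S t
    exact_mod_cast this
  have h3 : (t : ℚ) * B = ∑ i, (t : ℚ) / M i := by
    rw [← C.hdens, Finset.mul_sum]
    refine Finset.sum_congr rfl fun i _ => ?_
    ring
  rw [h2, h3, ← Finset.sum_sub_distrib, ← Finset.sum_neg_distrib]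
  apply Finset.sum_le_sum
  intro i _
  have hM : (0 : ℚ) < M i := by exact_mod_cast C.hM i
  rw [← sub_div, ← neg_div]
  apply div_le_div_of_nonneg_right _ hM.le
  have h4 := C.leLst i t
  have h5 : (((t : ℤ) - (B * M i + d i : ℕ) : ℤ) : ℚ) ≤ (lst S i t : ℚ) := by exact_mod_cast h4
  push_cast at h5 ⊢
  linarith

lemma moves_bounded (C : Ctx B L D M d W S) (e : ℕ) (he : B ≤ e) :
    ((∑ w ∈ W, (P B M S w B - P B M S w e) : ℤ) : ℚ) ≤
      2 * (psi B M S B + ∑ i, ((B * M i + d i : ℕ) : ℚ) / M i) + 1 := by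
  classical
  set x : ℤ := ∑ w ∈ W, (P B M S w B - P B M S w e) with hx
  have hx0 : 0 ≤ x := by
    apply Finset.sum_nonneg
    intro w hw
    have := C.antiW hw he
    omega
  have h1 : ∀ i, (P B M S i e : ℚ) / M i ≤ (P B M S i B : ℚ) / M i +
      (if 0 < d i then ((x : ℚ) + 1) * ((B + D) / M i) else 0) +
      (if i ∈ W then ((P B M S i e : ℚ) - P B M S i B) else 0) := by
    intro i
    have hM : (0 : ℚ) < M i := by exact_mod_cast C.hM i
    by_cases hi : i ∈ W
    · obtain ⟨hM1, hd0⟩ := C.hW i hi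
      rw [if_pos hi, hd0, if_neg (lt_irrefl 0), hM1]
      push_cast
      linarith
    · rw [if_neg hi]
      by_cases hdi : 0 < d i
      · rw [if_pos hdi]
        have h2 := C.token_bound i hi e he
        rw [← hx] at h2
        have h3 : (P B M S i e : ℚ) ≤ P B M S i B + (x + 1) * (B + D) := by exact_mod_cast h2
        have h4 : (P B M S i B : ℚ) / M i + ((x : ℚ) + 1) * ((B + D) / M i) + 0 =
            (P B M S i B + (x + 1) * (B + D)) / M i := by ring
        rw [h4]
        exact div_le_div_of_nonneg_right h3 hM.le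
      · rw [if_neg hdi]
        have h2 := C.anti i (by omega) he
        have h3 : (P B M S i e : ℚ) ≤ P B M S i B := by exact_mod_cast h2
        have h4 := div_le_div_of_nonneg_right h3 hM.le
        linarith
  have h2 : psi B M S e ≤ psi B M S B +
      ((x : ℚ) + 1) * ∑ i ∈ Finset.univ.filter (fun i => 0 < d i), ((B : ℚ) + D) / M i - x := by
    have h3 := Finset.sum_le_sum (s := Finset.univ) (fun i _ => h1 i)
    rw [Finset.sum_add_distrib, Finset.sum_add_distrib, ← Finset.sum_filter,
      ← Finset.sum_filter] at h3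
    have h4 : ∑ i ∈ Finset.univ.filter (fun i => i ∈ W),
        ((P B M S i e : ℚ) - P B M S i B) = -x := by
      rw [hx]
      push_cast
      rw [← Finset.sum_neg_distrib, Finset.filter_mem_eq_inter, Finset.univ_inter]
      refine Finset.sum_congr rfl fun i _ => ?_
      ring
    rw [h4, ← Finset.mul_sum] at h3
    unfold psi
    linarith
  have h5 := C.psi_lower e
  have h6 := C.hsmall
  have h7 : ∑ i ∈ Finset.univ.filter (fun i => 0 < d i), 2 * ((B : ℚ) + D) / M i =
      2 * ∑ i ∈ Finset.univ.filter (fun i => 0 < d i), ((B : ℚ) + D) / M i := by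
    rw [Finset.mul_sum]
    refine Finset.sum_congr rfl fun i _ => ?_
    ring
  rw [h7] at h6
  have hx0' : (0 : ℚ) ≤ x := by exact_mod_cast hx0
  nlinarith

/-- no more wall moves -/
lemma exists_T (C : Ctx B L D M d W S) :
    ∃ T, B ≤ T ∧ ∀ t, T ≤ t → ∀ w ∈ W, P B M S w t = P B M S w T := by
  obtain ⟨T, hT, h⟩ := stab (fun t => ∑ w ∈ W, P B M S w t) B
    (by
      intro t _
      apply Finset.sum_le_sum
      intro w hw
      exact C.antiW hw (Nat.le_succ t))
    (∑ w ∈ W, P B M S w B - ⌈2 * (psi B M S B + ∑ i, ((B * M i + d i : ℕ) : ℚ) / M i) + 1⌉)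
    (by
      intro t ht
      have h1 := (C.moves_bounded t ht).trans (Int.le_ceil _)
      have h2 : (∑ w ∈ W, (P B M S w B - P B M S w t)) ≤
        ⌈2 * (psi B M S B + ∑ i, ((B * M i + d i : ℕ) : ℚ) / M i) + 1⌉ := by exact_mod_cast h1
      rw [Finset.sum_sub_distrib] at h2
      change _ ≤ ∑ w ∈ W, P B M S w t
      omega)
  refine ⟨T, hT, ?_⟩
  intro t ht
  have h1 := h t ht
  have h2 : ∀ w ∈ W, P B M S w t ≤ P B M S w T := fun w hw => C.antiW hw ht
  exact (Finset.sum_eq_sum_iff_of_le h2).1 h1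

lemma lower (C : Ctx B L D M d W S) {T : ℕ} (hT : B ≤ T)
    (h : ∀ t, T ≤ t → ∀ w ∈ W, P B M S w t = P B M S w T) (i : ι) :
    ∃ b : ℤ, ∀ t, T ≤ t → b ≤ P B M S i t := by
  have hU : ∀ j t, T ≤ t → P B M S j t ≤ P B M S j T + B + D := by
    intro j t ht
    exact C.drift hT ht (h t ht) j
  set K : ℚ := ∑ j, ((P B M S j T + B + D : ℤ) : ℚ) / M j +
    ∑ i, ((B * M i + d i : ℕ) : ℚ) / M i with hK
  refine ⟨P B M S i T + B + D - ⌈K * M i⌉, ?_⟩
  intro t ht
  have hM : ∀ j, (0 : ℚ) < M j := fun j => by exact_mod_cast C.hM j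
  have h1 : ((P B M S i T + B + D - P B M S i t : ℤ) : ℚ) / M i ≤ K := by
    have h2 : ((P B M S i T + B + D - P B M S i t : ℤ) : ℚ) / M i ≤
        ∑ j, ((P B M S j T + B + D - P B M S j t : ℤ) : ℚ) / M j := by
      apply Finset.single_le_sum (f := fun j =>
        ((P B M S j T + B + D - P B M S j t : ℤ) : ℚ) / M j) (fun j _ => ?_) (Finset.mem_univ i)
      apply div_nonneg _ (hM j).le
      have := hU j t ht
      have h3 : 0 ≤ P B M S j T + B + D - P B M S j t := by omega
      exact_mod_cast h3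
    have h3 : ∑ j, ((P B M S j T + B + D - P B M S j t : ℤ) : ℚ) / M j =
        ∑ j, ((P B M S j T + B + D : ℤ) : ℚ) / M j - psi B M S t := by
      unfold psi
      rw [← Finset.sum_sub_distrib]
      refine Finset.sum_congr rfl fun j _ => ?_
      push_cast
      ring
    have h4 := C.psi_lower t
    rw [h3] at h2
    rw [hK]
    linarith
  rw [div_le_iff₀ (hM i)] at h1
  have h5 := h1.trans (Int.le_ceil _)
  have h6 : P B M S i T + B + D - P B M S i t ≤ ⌈K * M i⌉ := by exact_mod_cast h5
  omega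

/-- everything has stabilised -/
lemma exists_stable (C : Ctx B L D M d W S) :
    ∃ (T c : ℕ) (φ : ι → ℤ), c < B ∧ (∀ i t, T ≤ t → (P B M S i t - c) / B = φ i) ∧
      (∀ i, d i = 0 → ∀ t, T ≤ t → P B M S i t = P B M S i T) := by
  obtain ⟨T, hT, hWT⟩ := C.exists_T
  obtain ⟨c, hcB, hc⟩ := C.exists_run T hT
  have hc' : Run B D M W S c T := hc
  have hBp : (0 : ℤ) < B := by exact_mod_cast C.Bpos
  have h1 : ∀ i, ∃ T', T ≤ T' ∧ (∀ t, T' ≤ t → (P B M S i t - c) / B = (P B M S i T' - c) / B) ∧
      (d i = 0 → ∀ t, T' ≤ t → P B M S i t = P B M S i T') := by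
    intro i
    obtain ⟨b, hb⟩ := C.lower hT hWT i
    obtain ⟨T₁, hT₁, h₁⟩ := stab (fun t => (P B M S i t - c) / B) (T + (B * M i + d i))
      (by
        intro t ht
        by_cases hi : i ∈ W
        · have := C.antiW hi (show t ≤ t + 1 by omega)
          apply Int.ediv_le_ediv hBp
          omega
        · have h2 := C.leLst i t
          have h3 : (T : ℤ) ≤ lst S i t := by omega
          have h4 := S_lst S i t (by omega)
          obtain ⟨l, hl⟩ := Int.eq_ofNat_of_zero_le (a := lst S i t) (by omega)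
          rw [hl] at h4
          rw [Int.toNat_natCast] at h4
          have h5 : ((l : ℤ) - c) % B < B - D := by
            apply C.visit_mod hc' (t := l) (by omega)
            · exact hWT l (by omega)
            · rwa [h4]
          have h6 : (P B M S i t - c) % B < B - D := by
            rw [P_def, hl]
            have : (l : ℤ) - cnt S i t * (B * M i) - c = (l - c) + B * (-(cnt S i t * M i)) := by
              ring
            rw [this, Int.add_mul_emod_self_left]
            exact h5
          apply floor_step hBp h6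
          have h7 := C.step i t
          have h8 : (d i : ℤ) ≤ D := by exact_mod_cast C.hd i
          omega)
      ((b - c) / B)
      (by
        intro t ht
        apply Int.ediv_le_ediv hBp
        have := hb t (by omega)
        omega)
    by_cases hdi : d i = 0
    · obtain ⟨T₂, hT₂, h₂⟩ := stab (fun t => P B M S i t) T
        (by
          intro t ht
          exact C.anti i hdi (Nat.le_succ t)) b hb
      refine ⟨max T₁ T₂, by omega, ?_, ?_⟩
      · intro t ht
        have e1 := h₁ t (by omega)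
        have e2 := h₁ (max T₁ T₂) (by omega)
        rw [e1, e2]
      · intro _ t ht
        have e1 := h₂ t (by omega)
        have e2 := h₂ (max T₁ T₂) (by omega)
        rw [e1, e2]
    · exact ⟨T₁, by omega, h₁, fun h => absurd h hdi⟩
  choose T' hT' hφ hP using h1
  have hle : ∀ i, T' i ≤ Finset.univ.sup T' := fun i => Finset.le_sup (Finset.mem_univ i)
  refine ⟨Finset.univ.sup T', c, fun i => (P B M S i (T' i) - c) / B, hcB, ?_, ?_⟩
  · intro i t ht
    exact hφ i t ((hle i).trans ht)
  · intro i hi t ht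
    rw [hP i hi t ((hle i).trans ht), hP i hi _ (hle i)]

omit [Fintype ι] in
lemma cnt_eq_of_no_visit (i : ι) {s t : ℕ} (hst : s ≤ t) (h : ∀ r, s ≤ r → r < t → S r ≠ i) :
    cnt S i t = cnt S i s := by
  induction t, hst using Nat.le_induction with
  | base => rfl
  | succ t hst ih =>
    rw [cnt_succ, if_neg (h t hst (Nat.lt_succ_self t))]
    exact ih fun r h1 h2 => h r h1 (by omega)

theorem main (C : Ctx B L D M d W S) :
    ∃ (T₀ : ℕ) (r : ι → ℕ) (pos : ι → ℕ → ℕ),
      (∀ i, r i < M i) ∧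
      (∀ i u, pos i u < B) ∧
      (∀ i u p, p < B → (S (T₀ + u * B + p) = i ↔ u % M i = r i ∧ p = pos i u)) ∧
      (∀ i u, u % M i = r i → pos i (u + M i) ≤ pos i u + d i) ∧
      (∀ i, d i = 0 → ∀ u v, pos i u = pos i v) := by
  obtain ⟨T, c, φ, hcB, hφ, hP⟩ := C.exists_stable
  have hBp : (0 : ℤ) < B := by exact_mod_cast C.Bpos
  have hBn := C.Bpos
  obtain ⟨T₀, hT₀⟩ : ∃ T₀ : ℕ, T₀ = c + T * B := ⟨_, rfl⟩
  have hTT₀ : T ≤ T₀ := by
    rw [hT₀]
    have : T * 1 ≤ T * B := Nat.mul_le_mul_left _ hBn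
    omega
  -- positions
  obtain ⟨q, hq⟩ : ∃ q : ι → ℕ → ℤ, ∀ i t, q i t = (P B M S i t - c) % B := ⟨_, fun _ _ => rfl⟩
  have hq0 : ∀ i t, 0 ≤ q i t := by
    intro i t
    rw [hq]
    exact Int.emod_nonneg _ hBp.ne'
  have hqB : ∀ i t, q i t < B := by
    intro i t
    rw [hq]
    exact Int.emod_lt_of_pos _ hBp
  have hPq : ∀ i t, T ≤ t → P B M S i t = c + φ i * B + q i t := by
    intro i t ht
    have h1 := Int.mul_ediv_add_emod (P B M S i t - c) B
    rw [hφ i t ht, ← hq] at h1
    linarith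
  -- blocks
  obtain ⟨blk, hblk⟩ : ∃ blk : ι → ℕ → ℤ, ∀ i t, blk i t = φ i - T + cnt S i t * M i :=
    ⟨_, fun _ _ => rfl⟩
  have hlst : ∀ i t, T ≤ t → lst S i t = T₀ + blk i t * B + q i t := by
    intro i t ht
    have h1 := hPq i t ht
    rw [P_def] at h1
    rw [hblk, hT₀]
    push_cast
    linarith
  have uniq : ∀ (x y p p' : ℤ), 0 ≤ p → p < B → 0 ≤ p' → p' < B →
      (T₀ : ℤ) + x * B + p = T₀ + y * B + p' → x = y ∧ p = p' := by
    intro x y p p' h1 h2 h3 h4 h5
    have h6 : x = y := by
      rcases lt_trichotomy x y with h | h | h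
      · exfalso
        have : (x + 1) * (B : ℤ) ≤ y * B := mul_le_mul_of_nonneg_right (by omega) hBp.le
        linarith
      · exact h
      · exfalso
        have : (y + 1) * (B : ℤ) ≤ x * B := mul_le_mul_of_nonneg_right (by omega) hBp.le
        linarith
    refine ⟨h6, ?_⟩
    rw [h6] at h5
    linarith
  have hM : ∀ i, (0 : ℤ) < M i := fun i => by exact_mod_cast C.hM i
  -- the end of a block
  have hend : ∀ i (u : ℕ), (M i : ℤ) ∣ (u : ℤ) - (φ i - T) → blk i (T₀ + (u + 1) * B) = u := by
    intro i u hu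
    obtain ⟨e, he⟩ : ∃ e, e = T₀ + (u + 1) * B := ⟨_, rfl⟩
    rw [← he]
    have hTe : T ≤ e := by omega
    have he' : (e : ℤ) = T₀ + (u + 1) * B := by rw [he]; push_cast; rfl
    have h1 := hlst i e hTe
    have h2 := lst_lt S i e
    have h3 : blk i e ≤ u := by
      by_contra hcon
      push Not at hcon
      have : ((u : ℤ) + 1) * (B : ℤ) ≤ blk i e * B :=
        mul_le_mul_of_nonneg_right (by omega) hBp.le
      have := hq0 i e
      linarith
    by_contra hne
    have h4 : blk i e < u := lt_of_le_of_ne h3 hne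
    have h5 : (M i : ℤ) ∣ u - blk i e := by
      have : (u : ℤ) - blk i e = (u - (φ i - T)) - M i * cnt S i e := by rw [hblk]; ring
      rw [this]
      exact dvd_sub hu (Dvd.intro _ rfl)
    have h6 : (M i : ℤ) ≤ u - blk i e := Int.le_of_dvd (by omega) h5
    have hex : ∃ s, e ≤ s ∧ S s = i := by
      obtain ⟨s, hs1, -, hs2⟩ := C.hS i e
      exact ⟨s, hs1, hs2⟩
    classical
    obtain ⟨hs1, hs2⟩ := Nat.find_spec hex
    have hmin : ∀ t, t < Nat.find hex → ¬ (e ≤ t ∧ S t = i) := fun t ht => Nat.find_min hex ht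
    generalize Nat.find hex = s at hs1 hs2 hmin
    have h7 : cnt S i s = cnt S i e := by
      apply cnt_eq_of_no_visit i hs1
      intro r hr1 hr2 hr3
      exact hmin r hr2 ⟨hr1, hr3⟩
    have h8 : cnt S i (s + 1) = cnt S i e + 1 := by
      rw [cnt_succ, if_pos hs2, h7]
    have h9 : blk i (s + 1) = blk i e + M i := by
      rw [hblk, hblk, h8]; ring
    have h10 := hlst i (s + 1) (by omega)
    rw [lst_succ, if_pos hs2, h9] at h10
    have h11 := hqB i (s + 1)
    have h12 : (blk i e + M i) * (B : ℤ) ≤ u * B :=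
      mul_le_mul_of_nonneg_right (by omega) hBp.le
    have h13 : (e : ℤ) ≤ s := by exact_mod_cast hs1
    linarith
  -- residues
  have hr : ∀ i (u : ℕ), (u % M i = ((φ i - T) % M i).toNat ↔ (M i : ℤ) ∣ (u : ℤ) - (φ i - T)) := by
    intro i u
    have h0 := Int.emod_nonneg (φ i - T) (hM i).ne'
    have h1 : u % M i = ((φ i - T) % M i).toNat ↔ (u : ℤ) % M i = (φ i - T) % M i := by
      constructor
      · intro h
        have h2 : ((u % M i : ℕ) : ℤ) = (((φ i - T) % M i).toNat : ℤ) := by rw [h]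
        rw [Int.toNat_of_nonneg h0] at h2
        push_cast at h2
        exact h2
      · intro h
        have h2 : ((u % M i : ℕ) : ℤ) = (φ i - T) % M i := by
          push_cast
          exact h
        omega
    rw [h1, Int.emod_eq_emod_iff_emod_sub_eq_zero, Int.dvd_iff_emod_eq_zero]
  refine ⟨T₀, fun i => ((φ i - T) % M i).toNat, fun i u => (q i (T₀ + (u + 1) * B)).toNat,
    ?_, ?_, ?_, ?_, ?_⟩
  · intro i
    have h0 := Int.emod_nonneg (φ i - T) (hM i).ne'
    have h1 := Int.emod_lt_of_pos (φ i - T) (hM i)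
    change ((φ i - T) % M i).toNat < M i
    omega
  · intro i u
    have h0 := hq0 i (T₀ + (u + 1) * B)
    have h1 := hqB i (T₀ + (u + 1) * B)
    change (q i (T₀ + (u + 1) * B)).toNat < B
    omega
  · intro i u p hp
    change S (T₀ + u * B + p) = i ↔ u % M i = ((φ i - T) % M i).toNat ∧
      p = (q i (T₀ + (u + 1) * B)).toNat
    rw [hr]
    constructor
    · intro h
      have h1 := hlst i (T₀ + u * B + p + 1) (by omega)
      rw [lst_succ, if_pos h] at h1
      push_cast at h1
      obtain ⟨h2, h3⟩ := uniq u (blk i (T₀ + u * B + p + 1)) p (q i (T₀ + u * B + p + 1))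
        (by omega) (by omega) (hq0 _ _) (hqB _ _) (by linarith)
      have h4 : (M i : ℤ) ∣ (u : ℤ) - (φ i - T) := by
        rw [h2, hblk]
        exact ⟨cnt S i (T₀ + u * B + p + 1), by ring⟩
      refine ⟨h4, ?_⟩
      have h5 := hend i u h4
      have hle : T₀ + u * B + p + 1 ≤ T₀ + (u + 1) * B := by
        have : (u + 1) * B = u * B + B := by ring
        omega
      have h6 : cnt S i (T₀ + (u + 1) * B) = cnt S i (T₀ + u * B + p + 1) := by
        have h7 : blk i (T₀ + (u + 1) * B) = blk i (T₀ + u * B + p + 1) := by rw [h5, ← h2]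
        rw [hblk, hblk] at h7
        have h8 : cnt S i (T₀ + (u + 1) * B) * (M i : ℤ) =
          cnt S i (T₀ + u * B + p + 1) * M i := by linarith
        exact mul_right_cancel₀ (hM i).ne' h8
      have h7 := lst_eq_of_cnt_eq S i hle h6
      rw [lst_succ, if_pos h, hlst i _ (by omega), h5] at h7
      push_cast at h7
      have h8 : q i (T₀ + (u + 1) * B) = p := by linarith
      rw [h8]
      simp
    · rintro ⟨h1, h2⟩
      have h3 := hend i u h1
      have h4 := hlst i (T₀ + (u + 1) * B) (by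
        have : (u + 1) * B = u * B + B := by ring
        omega)
      rw [h3] at h4
      have h5 := hq0 i (T₀ + (u + 1) * B)
      have h6 : lst S i (T₀ + (u + 1) * B) = ((T₀ + u * B + p : ℕ) : ℤ) := by
        rw [h4]
        push_cast
        omega
      have h7 := S_lst S i (T₀ + (u + 1) * B) (by rw [h6]; positivity)
      rw [h6, Int.toNat_natCast] at h7
      exact h7
  · intro i u hu
    change (q i (T₀ + (u + M i + 1) * B)).toNat ≤ (q i (T₀ + (u + 1) * B)).toNat + d i
    have hu1 := (hr i u).1 hu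
    have h1 := hend i u hu1
    have h2 := hend i (u + M i) (by
      have : ((u + M i : ℕ) : ℤ) - (φ i - T) = (u - (φ i - T)) + M i := by push_cast; ring
      rw [this]
      exact dvd_add hu1 dvd_rfl)
    have hle : T₀ + (u + 1) * B ≤ T₀ + (u + M i + 1) * B := by
      have : (u + 1) * B ≤ (u + M i + 1) * B := Nat.mul_le_mul_right _ (by omega)
      omega
    have h3 : cnt S i (T₀ + (u + M i + 1) * B) = cnt S i (T₀ + (u + 1) * B) + 1 := by
      rw [hblk] at h1 h2
      have h8 : cnt S i (T₀ + (u + M i + 1) * B) * (M i : ℤ) =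
        (cnt S i (T₀ + (u + 1) * B) + 1) * M i := by
        push_cast at h2
        linarith
      exact mul_right_cancel₀ (hM i).ne' h8
    have h4 := C.growth i hle
    rw [h3, hPq i _ (by omega), hPq i _ (by
      have : (u + 1) * B = u * B + B := by ring
      omega)] at h4
    have h5 := hq0 i (T₀ + (u + 1) * B)
    have h6 := hq0 i (T₀ + (u + M i + 1) * B)
    have h7 : q i (T₀ + (u + M i + 1) * B) ≤ q i (T₀ + (u + 1) * B) + d i := by linarith
    omega
  · intro i hi u v
    change (q i (T₀ + (u + 1) * B)).toNat = (q i (T₀ + (v + 1) * B)).toNat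
    have h1 : ∀ t, T ≤ t → q i t = q i T := by
      intro t ht
      rw [hq, hq, hP i hi t ht]
    rw [h1 (T₀ + (u + 1) * B) (by omega), h1 (T₀ + (v + 1) * B) (by omega)]

end Ctx

end RigidAux

/-- Walls `W` (frequency `B`), other jobs of frequency `B * M i + d i`, with density (computed
with `d = 0`) exactly one: eventually the day is a block structure in which the job `i` visits
exactly one block `u` of `M i` consecutive ones, at positions which increase by at most `d i`. -/
theorem rigid {ι : Type} [Fintype ι] [DecidableEq ι] (B L D : ℕ) (M d : ι → ℕ) (W : Finset ι)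
    (hL : 0 < L) (hB : L * (D + 1) ≤ B) (hM : ∀ i, 0 < M i) (hd : ∀ i, d i ≤ D)
    (hW : ∀ i ∈ W, M i = 1 ∧ d i = 0) (hWc : W.card + L = B)
    (hdens : ∑ i, (1 : ℚ) / M i = B)
    (hsmall : ∑ i ∈ Finset.univ.filter (fun i => 0 < d i), 2 * ((B : ℚ) + D) / M i ≤ 1)
    (S : ℕ → ι) (hS : ∀ i t, ∃ s, t ≤ s ∧ s < t + (B * M i + d i) ∧ S s = i) :
    ∃ (T₀ : ℕ) (r : ι → ℕ) (pos : ι → ℕ → ℕ),
      (∀ i, r i < M i) ∧
      (∀ i u, pos i u < B) ∧
      (∀ i u p, p < B → (S (T₀ + u * B + p) = i ↔ u % M i = r i ∧ p = pos i u)) ∧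
      (∀ i u, u % M i = r i → pos i (u + M i) ≤ pos i u + d i) ∧
      (∀ i, d i = 0 → ∀ u v, pos i u = pos i v) :=
  RigidAux.Ctx.main (L := L) (D := D) (W := W) ⟨hL, hB, hM, hd, hW, hWc, hdens, hsmall, hS⟩

end Pool.Agent.Lib.Pinwheel
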