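import Pool.Agent.Lib.Pinwheel.Defs

/-!
# From bi-infinite visits to runs
-/

namespace Pool.Agent.Lib.Pinwheel

theorem up_mod {R : ℕ} (f : ℕ → ℕ) (h : ∀ j, f (j + 1) % R = (f j + 1) % R) (j : ℕ) :
    f j % R = (f 0 + j) % R := by
  induction j with
  | zero => simp
  | succ j ih =>
    rw [h, Nat.add_mod, ih, ← Nat.add_mod, add_assoc]

theorem down_mod {R : ℕ} (f : ℕ → ℕ) (h : ∀ j, (f (j + 1) + 1) % R = f j % R) (j : ℕ) :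
    (f j + j) % R = f 0 % R := by
  induction j with
  | zero => simp
  | succ j ih =>
    rw [show f (j + 1) + (j + 1) = (f (j + 1) + 1) + j by ring, Nat.add_mod, h, ← Nat.add_mod, ih]

theorem run_up {R Z n : ℕ} {mo : ℕ → Bool} {al : ℕ → ℕ} (hR : 0 < R) (ζ : Fin n → ℕ → ℕ)
    (z1 : ∀ t j, ζ t j < Z ∧ mo (ζ t j) = true)
    (z2 : ∀ t j, ζ t (j + 1) % R = (ζ t j + 1) % R)
    (z3 : ∀ t j, ζ t (j + 1) ≤ ζ t j + R * al t + 1)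
    (z4 : ∀ t t' j j', ζ t j = ζ t' j' → ζ t 0 % R = ζ t' 0 % R)
    (z5 : ∀ t t' j, ζ t j = ζ t' j → t = t') (N : ℕ) :
    ∃ c, CRun R Z mo n al N c := by
  refine ⟨fun i t => if h : t < n then ζ ⟨t, h⟩ (i + (R - ζ ⟨t, h⟩ 0 % R)) else 0, ?_, ?_, ?_⟩
  · intro i _ t ht
    simp only [ht, dif_pos]
    refine ⟨(z1 _ _).1, (z1 _ _).2, ?_⟩
    rw [up_mod _ (z2 ⟨t, ht⟩)]
    have h1 : ζ ⟨t, ht⟩ 0 % R < R := Nat.mod_lt _ hR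
    have h2 := Nat.mod_add_div (ζ ⟨t, ht⟩ 0) R
    have h3 : ζ ⟨t, ht⟩ 0 + (i + (R - ζ ⟨t, ht⟩ 0 % R)) = i + R * (ζ ⟨t, ht⟩ 0 / R + 1) := by
      rw [mul_add, mul_one]
      omega
    rw [h3, Nat.add_mul_mod_self_left]
  · intro i _ t ht t' ht' h
    simp only [ht, ht', dif_pos] at h
    have h1 := z4 _ _ _ _ h
    rw [h1] at h
    exact congrArg Fin.val (z5 _ _ _ h)
  · intro i _ t ht
    simp only [ht, dif_pos]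
    have := z3 ⟨t, ht⟩ (i + (R - ζ ⟨t, ht⟩ 0 % R))
    rwa [show i + (R - ζ ⟨t, ht⟩ 0 % R) + 1 = i + 1 + (R - ζ ⟨t, ht⟩ 0 % R) by omega] at this

theorem run_down {R Z n : ℕ} {mo : ℕ → Bool} {al : ℕ → ℕ} (hR : 0 < R) (ζ : Fin n → ℕ → ℕ)
    (z1 : ∀ t j, ζ t j < Z ∧ mo (ζ t j) = true)
    (z2 : ∀ t j, (ζ t (j + 1) + 1) % R = ζ t j % R)
    (z3 : ∀ t j, ζ t j ≤ ζ t (j + 1) + R * al t + 1)
    (z4 : ∀ t t' j j', ζ t j = ζ t' j' → ζ t 0 % R = ζ t' 0 % R)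
    (z5 : ∀ t t' j, ζ t j = ζ t' j → t = t') (N : ℕ) :
    ∃ c, CRun R Z mo n al N c := by
  have hN : N ≤ N * R := Nat.le_mul_of_pos_right _ hR
  refine ⟨fun i t => if h : t < n then ζ ⟨t, h⟩ (N * R - i + ζ ⟨t, h⟩ 0 % R) else 0, ?_, ?_, ?_⟩
  · intro i hi t ht
    simp only [ht, dif_pos]
    refine ⟨(z1 _ _).1, (z1 _ _).2, ?_⟩
    have h1 := down_mod _ (z2 ⟨t, ht⟩) (N * R - i + ζ ⟨t, ht⟩ 0 % R)
    have h5 : (ζ ⟨t, ht⟩ (N * R - i + ζ ⟨t, ht⟩ 0 % R) + (N * R - i + ζ ⟨t, ht⟩ 0 % R)) ≡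
        i + (N * R - i + ζ ⟨t, ht⟩ 0 % R) [MOD R] := by
      have h6 : i + (N * R - i + ζ ⟨t, ht⟩ 0 % R) = ζ ⟨t, ht⟩ 0 % R + N * R := by omega
      rw [h6, Nat.ModEq, h1, Nat.add_mul_mod_self_right, Nat.mod_mod]
    exact Nat.ModEq.add_right_cancel' _ h5
  · intro i _ t ht t' ht' h
    simp only [ht, ht', dif_pos] at h
    have h1 := z4 _ _ _ _ h
    rw [h1] at h
    exact congrArg Fin.val (z5 _ _ _ h)
  · intro i hi t ht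
    simp only [ht, dif_pos]
    have := z3 ⟨t, ht⟩ (N * R - (i + 1) + ζ ⟨t, ht⟩ 0 % R)
    rwa [show N * R - (i + 1) + ζ ⟨t, ht⟩ 0 % R + 1 = N * R - i + ζ ⟨t, ht⟩ 0 % R by omega] at this

end Pool.Agent.Lib.Pinwheel
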