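import Pool.Agent.Lib.Pinwheel.SoundMach
import Pool.Agent.Lib.Pinwheel.SoundRun

/-!
# Soundness of the environment: from a schedule to arbitrarily long runs
-/

namespace Pool.Agent.Lib.Pinwheel

open Finset

namespace Env

theorem env_sound (E : Env) {Q B D : ℕ} (al : ℕ → ℕ) (hE : E.Good Q)
    (hB : 2 * E.Z * (D + 1) ≤ B) (hD : 3 ≤ D) (hal : ∀ t < E.n, 2 * (E.R * al t + 1) + 1 ≤ D)
    (hbig : ∀ τ, 2 * (B + D) * (E.X + E.n) ≤ E.Mod (E.suppT τ))
    (h : Feasible (E.freq B al)) : ∀ N, ∃ c, CRun E.R E.Z E.mo E.n al N c := by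
  obtain ⟨K⟩ := exists_blk E al hE hB hD hal hbig h
  obtain ⟨F⟩ := K.exists_forced hE (le_trans (Nat.le_mul_of_pos_right _ (Nat.succ_pos _)) hB)
  have hR := hE.two_le
  have hRdef : E.m .R = E.R := rfl
  -- the visits
  set NM : ℕ := E.Mod ({.k, .kM} : Finset (Idx E.Z E.X)) with hNM
  have hNMpos : 0 < NM := hE.mod_pos _
  set U : Fin E.n → ℕ → ℕ := fun t j => K.r (.inr (.inr (.inr t))) + j * NM with hU
  have hUmod : ∀ t j, U t j % NM = K.r (.inr (.inr (.inr t))) := by
    intro t j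
    rw [hU]
    dsimp only
    rw [Nat.add_mul_mod_self_right]
    exact Nat.mod_eq_of_lt (K.r_lt (.inr (.inr (.inr t))))
  have hvis : ∀ t j, ∃ z a, (F.P z a).1.1 = K.pos (.inr (.inr (.inr t))) (U t j) ∧ E.mo z = true ∧
      F.ρ z = co hE (U t j) .R ∧ F.γ z = (co hE (U t j) .k, co hE (U t j) .kM) ∧
      (K.arr hE).Free (F.P z a) (co hE (U t j)) := fun t j => F.mach_visit t (U t j) (hUmod t j)
  choose ζ a hp hmo hρ hγ hfree using hvis
  have hstep : ∀ t j, (F.P (ζ t (j + 1)) (a t (j + 1))).1.1 ≤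
      (F.P (ζ t j) (a t j)).1.1 + (2 * (E.R * al t + 1) + 1) := by
    intro t j
    rw [hp, hp]
    have h1 := K.mono (.inr (.inr (.inr t))) (U t j) (hUmod t j)
    have h2 : U t j + NM = U t (j + 1) := by
      simp only [hU]
      ring
    have h3 : U t j + E.perJ (.inr (.inr (.inr t)) : E.Job B) = U t (j + 1) := h2
    rw [h3] at h1
    exact h1
  have hrange : ∀ t j, E.R ≤ (ζ t j : ℕ) ∧ (ζ t j : ℕ) + E.R < E.Z := fun t j =>
    hE.mo_le _ (ζ t j).2 (hmo t j)
  have hρ' : ∀ t j, ((F.ρ (ζ t j) : ℕ) : ZMod E.R) = (U t j : ZMod E.R) := by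
    intro t j
    rw [hρ]
    show ((U t j % E.R : ℕ) : ZMod E.R) = _
    rw [ZMod.natCast_mod]
  have hNQ : ∀ _ : Fin E.n, (NM : ZMod E.R) = (Q : ZMod E.R) := by
    intro t
    rw [ZMod.natCast_eq_natCast_iff']
    exact hE.stride (.inr t)
  have hUstep : ∀ t j, (U t (j + 1) : ZMod E.R) = U t j + Q := by
    intro t j
    rw [← hNQ t]
    simp only [hU]
    push_cast
    ring
  have hreq : ∀ t t' j j', ζ t j = ζ t' j' →
      K.r (.inr (.inr (.inr t))) = K.r (.inr (.inr (.inr t'))) := by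
    intro t t' j j' h
    have h1 := (hγ t j).symm.trans ((congrArg F.γ h).trans (hγ t' j'))
    have h2 : co hE (U t j) .k = co hE (U t' j') .k := congrArg Prod.fst h1
    have h3 : co hE (U t j) .kM = co hE (U t' j') .kM := congrArg Prod.snd h1
    have h4 : U t j ≡ U t' j' [MOD NM] := by
      rw [hNM, hE.modEq]
      intro i hi
      rw [Finset.mem_insert, Finset.mem_singleton] at hi
      rcases hi with rfl | rfl
      · exact congrArg Fin.val h2
      · exact congrArg Fin.val h3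
    rw [← hUmod t j, ← hUmod t' j']
    exact h4
  have hU0 : ∀ t t' j, K.r (.inr (.inr (.inr t))) = K.r (.inr (.inr (.inr t'))) →
      U t j = U t' j := by
    intro t t' j h
    simp only [hU, h]
  have z5 : ∀ t t' j, (ζ t j : ℕ) = ζ t' j → t = t' := by
    intro t t' j h
    have h0 : ζ t j = ζ t' j := Fin.ext h
    have h1 := hU0 t t' j (hreq t t' j j h0)
    refine F.mach_unique t t' (U t j) (hUmod t j) ?_ (ζ t j) (a t j) (a t' j) (hp t j) ?_
      (hfree t j) ?_
    · rw [h1]
      exact hUmod t' j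
    · rw [h1, h0]
      exact hp t' j
    · rw [h1, h0]
      exact hfree t' j
  obtain ⟨q, hq, hqQ, hgeo⟩ := F.geom
  rcases hgeo with ⟨m, c, g1, g2⟩ | ⟨m, c, g1, g2⟩
  · intro N
    have e1 : ∀ t j, ((ζ t j : ℕ) : ZMod E.R) = q * (U t j : ZMod E.R) - c := by
      intro t j
      rw [← hρ', g1]
      ring
    refine run_up (by omega) (fun t j => (ζ t j : ℕ)) (fun t j => ⟨(ζ t j).2, hmo t j⟩) ?_ ?_ ?_ z5 N
    · intro t j
      rw [← ZMod.natCast_eq_natCast_iff']
      push_cast
      rw [e1, e1, hUstep, mul_add, hqQ]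
      ring
    · intro t j
      have f1 := hstep t j
      have f2 := (g2 (ζ t j) (hrange t j).1 (hrange t j).2 (a t j)).2
      have f3 := (g2 (ζ t (j + 1)) (hrange t (j + 1)).1 (hrange t (j + 1)).2 (a t (j + 1))).1
      by_contra hcon
      have f4 : (ζ t (j + 1) : ℕ) = ζ t j + E.R * al t + 2 := by
        generalize E.R * al t = w at *
        omega
      have f5 := (e1 t (j + 1)).symm
      rw [hUstep, mul_add, hqQ, f4] at f5
      push_cast at f5
      rw [e1, ZMod.natCast_self] at f5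
      have f6 : (1 : ZMod E.R) = 0 := by linear_combination -f5
      have : Fact (1 < E.R) := ⟨by omega⟩
      exact one_ne_zero f6
    · intro t t' j j' h
      rw [← ZMod.natCast_eq_natCast_iff', e1, e1, hU0 t t' 0 (hreq t t' j j' (Fin.ext h))]
  · intro N
    have e1 : ∀ t j, ((ζ t j : ℕ) : ZMod E.R) = c - q * (U t j : ZMod E.R) := by
      intro t j
      rw [← hρ', g1]
      ring
    refine run_down (by omega) (fun t j => (ζ t j : ℕ)) (fun t j => ⟨(ζ t j).2, hmo t j⟩)
      ?_ ?_ ?_ z5 N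
    · intro t j
      rw [← ZMod.natCast_eq_natCast_iff']
      push_cast
      rw [e1, e1, hUstep, mul_add, hqQ]
      ring
    · intro t j
      have f1 := hstep t j
      have f2 := (g2 (ζ t j) (hrange t j).1 (hrange t j).2 (a t j)).2
      have f3 := (g2 (ζ t (j + 1)) (hrange t (j + 1)).1 (hrange t (j + 1)).2 (a t (j + 1))).1
      by_contra hcon
      have f4 : (ζ t j : ℕ) = ζ t (j + 1) + E.R * al t + 2 := by
        generalize E.R * al t = w at *
        omega
      have f5 := (e1 t j).symm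
      rw [f4] at f5
      push_cast at f5
      rw [e1, ZMod.natCast_self, hUstep, mul_add, hqQ] at f5
      have f6 : (1 : ZMod E.R) = 0 := by linear_combination -f5
      have : Fact (1 < E.R) := ⟨by omega⟩
      exact one_ne_zero f6
    · intro t t' j j' h
      rw [← ZMod.natCast_eq_natCast_iff', e1, e1, hU0 t t' 0 (hreq t t' j j' (Fin.ext h))]

end Env

end Pool.Agent.Lib.Pinwheel
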