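import Pool.Agent.Lib.Pinwheel.Defs
import Pool.Agent.Lib.Pinwheel.CRT

/-!
# From a rigid block schedule to an arrangement
-/

namespace Pool.Agent.Lib.Pinwheel

open Finset

namespace Env

variable (E : Env)

/-- period of a job in blocks -/
def perJ {B : ℕ} : E.Job B → ℕ
  | .inl _ => 1
  | .inr (.inl j) => E.Mod j.supp
  | .inr (.inr t) => E.Mod (E.suppT t)

/-- allowance of a job -/
def dJ {B : ℕ} (al : ℕ → ℕ) : E.Job B → ℕ
  | .inl _ => 0
  | .inr (.inl _) => 0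
  | .inr (.inr t) => E.dT al t

theorem freq_eq {B : ℕ} (al : ℕ → ℕ) (i : E.Job B) :
    E.freq B al i = B * E.perJ i + E.dJ al i := by
  rcases i with w | j | t <;> simp [freq, perJ, dJ]

/-- The block schedule obtained from `rigid`. -/
structure Blk (B : ℕ) (al : ℕ → ℕ) where
  /-- the job at the position `p` of the block `u` -/
  S : ℕ → ℕ → E.Job B
  /-- the residue of the blocks of a job -/
  r : E.Job B → ℕ
  /-- the position of a job in a block -/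
  pos : E.Job B → ℕ → ℕ
  r_lt : ∀ i, r i < E.perJ i
  pos_lt : ∀ i u, pos i u < B
  iff : ∀ i u p, p < B → (S u p = i ↔ u % E.perJ i = r i ∧ p = pos i u)
  mono : ∀ i u, u % E.perJ i = r i → pos i (u + E.perJ i) ≤ pos i u + E.dJ al i
  const : ∀ i, E.dJ al i = 0 → ∀ u v, pos i u = pos i v

variable {E}

theorem Good.m_pos {Q : ℕ} (hE : E.Good Q) (i : Idx E.Z E.X) : 2 ≤ E.m i := by
  by_cases h1 : i = .R
  · subst h1
    exact hE.two_le
  by_cases h2 : i = .A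
  · subst h2
    have h1 := hE.A_lt
    have h2 := hE.XZ
    have h3 := hE.Z4
    have h4 := hE.two_le
    have h5 : E.m .R = E.R := rfl
    omega
  · have := hE.big i h1 h2
    omega

theorem Good.mod_pos {Q : ℕ} (hE : E.Good Q) (S : Finset (Idx E.Z E.X)) : 0 < E.Mod S :=
  Finset.prod_pos fun i _ => by have := hE.m_pos i; omega

theorem Good.modEq {Q : ℕ} (hE : E.Good Q) (S : Finset (Idx E.Z E.X)) (a b : ℕ) :
    a ≡ b [MOD E.Mod S] ↔ ∀ i ∈ S, a ≡ b [MOD E.m i] :=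
  modEq_prod E.m hE.cop S a b

/-- the coordinates of a block -/
def co {Q : ℕ} (hE : E.Good Q) (u : ℕ) : ∀ i, Fin (E.m i) :=
  fun i => ⟨u % E.m i, Nat.mod_lt _ (by have := hE.m_pos i; omega)⟩

theorem exists_co {Q : ℕ} (hE : E.Good Q) (κ : ∀ i, Fin (E.m i)) : ∃ u, co hE u = κ := by
  obtain ⟨u, hu⟩ := crt_pred E.m hE.cop (fun i c => c = (κ i).1)
    (fun i => ⟨(κ i).1, (κ i).2, rfl⟩)
  exact ⟨u, funext fun i => Fin.ext (hu i)⟩

theorem res_iff {Q : ℕ} (hE : E.Good Q) (S : Finset (Idx E.Z E.X)) (u r : ℕ)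
    (hr : r < E.Mod S) : (∀ i ∈ S, co hE u i = co hE r i) ↔ u % E.Mod S = r := by
  have h : (∀ i ∈ S, co hE u i = co hE r i) ↔ u ≡ r [MOD E.Mod S] := by
    rw [hE.modEq]
    refine forall₂_congr fun i _ => ?_
    rw [Fin.ext_iff]
    rfl
  rw [h, Nat.ModEq, Nat.mod_eq_of_lt hr]

namespace Blk

variable {B : ℕ} {al : ℕ → ℕ} (K : E.Blk B al)

/-- The positions which are not walls. -/
abbrev Lane : Type := {p : Fin B // ∀ w : Fin (B - 2 * E.Z), K.pos (.inl w) 0 ≠ p.1}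

theorem wall_iff (w : Fin (B - 2 * E.Z)) (u p : ℕ) (hp : p < B) :
    K.S u p = .inl w ↔ p = K.pos (.inl w) 0 := by
  rw [K.iff _ _ _ hp]
  have h1 : E.perJ (.inl w : E.Job B) = 1 := rfl
  have h2 := K.r_lt (.inl w)
  rw [h1] at h2
  rw [h1, Nat.mod_one, K.const (.inl w) rfl u 0]
  constructor
  · exact fun h => h.2
  · exact fun h => ⟨by omega, h⟩

theorem rj_iff (j : E.RJ) (u p : ℕ) (hp : p < B) :
    K.S u p = .inr (.inl j) ↔ u % E.Mod j.supp = K.r (.inr (.inl j)) ∧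
      p = K.pos (.inr (.inl j)) 0 := by
  rw [K.iff _ _ _ hp, K.const (.inr (.inl j)) rfl u 0]
  rfl

theorem rj_not_wall (j : E.RJ) (w : Fin (B - 2 * E.Z)) :
    K.pos (.inl w) 0 ≠ K.pos (.inr (.inl j)) 0 := by
  intro h
  have h1 := (K.wall_iff w (K.r (.inr (.inl j))) _ (K.pos_lt (.inr (.inl j)) 0)).2 h.symm
  have h2 := (K.rj_iff j (K.r (.inr (.inl j))) _ (K.pos_lt (.inr (.inl j)) 0)).2
    ⟨Nat.mod_eq_of_lt (K.r_lt (.inr (.inl j))), rfl⟩
  rw [h1] at h2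
  cases h2

/-- the lane of a rigid job -/
def laneOf (j : E.RJ) : K.Lane :=
  ⟨⟨K.pos (.inr (.inl j)) 0, K.pos_lt _ _⟩, fun w => K.rj_not_wall j w⟩

theorem card_lane (hB : 2 * E.Z ≤ B) : Fintype.card K.Lane = 2 * E.Z := by
  have hinj : Function.Injective fun w : Fin (B - 2 * E.Z) =>
      (⟨K.pos (.inl w) 0, K.pos_lt _ _⟩ : Fin B) := by
    intro w w' h
    have h0 : K.pos (.inl w) 0 = K.pos (.inl w') 0 := congrArg Fin.val h
    have h1 := (K.wall_iff w 0 _ (K.pos_lt (.inl w) 0)).2 rfl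
    have h2 := (K.wall_iff w' 0 _ (K.pos_lt (.inl w) 0)).2 h0
    rw [h1] at h2
    exact Sum.inl_injective h2
  have h3 : Fintype.card K.Lane = Fintype.card {p : Fin B // p ∉
      Finset.univ.image fun w : Fin (B - 2 * E.Z) => (⟨K.pos (.inl w) 0, K.pos_lt _ _⟩ : Fin B)} := by
    refine Fintype.card_congr (Equiv.subtypeEquivRight fun p => ?_)
    simp [Fin.ext_iff]
  rw [h3, Fintype.card_subtype_compl, Fintype.card_fin, Fintype.card_coe,
    Finset.card_image_of_injective _ hinj, Finset.card_univ, Fintype.card_fin]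
  omega

theorem tok_iff (τ : E.Tok) (u p : ℕ) (hp : p < B) :
    K.S u p = .inr (.inr τ) ↔ u % E.Mod (E.suppT τ) = K.r (.inr (.inr τ)) ∧
      p = K.pos (.inr (.inr τ)) u := by
  rw [K.iff _ _ _ hp]
  rfl

theorem tok_not_wall (τ : E.Tok) (u : ℕ) (h : u % E.Mod (E.suppT τ) = K.r (.inr (.inr τ)))
    (w : Fin (B - 2 * E.Z)) : K.pos (.inl w) 0 ≠ K.pos (.inr (.inr τ)) u := by
  intro h'
  have h1 := (K.wall_iff w u _ (K.pos_lt (.inr (.inr τ)) u)).2 h'.symm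
  have h2 := (K.tok_iff τ u _ (K.pos_lt (.inr (.inr τ)) u)).2 ⟨h, rfl⟩
  rw [h1] at h2
  cases h2

/-- The lane of a token in a block which it visits is free. -/
theorem free_of_tok {Q : ℕ} (hE : E.Good Q) (τ : E.Tok) (u : ℕ)
    (h : u % E.Mod (E.suppT τ) = K.r (.inr (.inr τ))) (j : E.RJ)
    (hj : K.pos (.inr (.inl j)) 0 = K.pos (.inr (.inr τ)) u) :
    ∃ i ∈ j.supp, co hE u i ≠ co hE (K.r (.inr (.inl j))) i := by
  by_contra hcon
  push Not at hcon
  have h1 := (K.tok_iff τ u _ (K.pos_lt (.inr (.inr τ)) u)).2 ⟨h, rfl⟩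
  have h2 := (K.rj_iff j u _ (K.pos_lt (.inr (.inr τ)) u)).2
    ⟨(res_iff hE _ _ _ (K.r_lt (.inr (.inl j)))).1 hcon, hj.symm⟩
  rw [h1] at h2
  cases h2

theorem tok_of_free {Q : ℕ} (hE : E.Good Q) (ℓ : K.Lane) (u : ℕ)
    (h : ∀ j : E.RJ, K.laneOf j = ℓ →
      ∃ i ∈ j.supp, co hE u i ≠ co hE (K.r (.inr (.inl j))) i) :
    ∃ τ : E.Tok, u % E.Mod (E.suppT τ) = K.r (.inr (.inr τ)) ∧ K.pos (.inr (.inr τ)) u = ℓ.1 := by
  rcases hS : K.S u ℓ.1 with w | j | τ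
  · exact absurd ((K.wall_iff w u _ ℓ.1.2).1 hS).symm (ℓ.2 w)
  · have h1 := (K.rj_iff j u _ ℓ.1.2).1 hS
    obtain ⟨i, hi, hne⟩ := h j (Subtype.ext (Fin.ext h1.2.symm))
    exact absurd ((res_iff hE _ _ _ (K.r_lt (.inr (.inl j)))).2 h1.1 i hi) hne
  · have h1 := (K.tok_iff τ u _ ℓ.1.2).1 hS
    exact ⟨τ, h1.1, h1.2.symm⟩

/-- The arrangement given by a block schedule. -/
def arr {Q : ℕ} (hE : E.Good Q) : E.Arr K.Lane where
  lane := K.laneOf
  res j := co hE (K.r (.inr (.inl j)))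
  tres τ := co hE (K.r (.inr (.inr τ)))
  disj := by
    intro j j' hne hl
    by_contra hcon
    push Not at hcon
    obtain ⟨u, hu⟩ := exists_co hE (fun i => if i ∈ j.supp then co hE (K.r (.inr (.inl j))) i
      else co hE (K.r (.inr (.inl j'))) i)
    have e1 : u % E.Mod j.supp = K.r (.inr (.inl j)) := by
      rw [← res_iff hE _ _ _ (K.r_lt (.inr (.inl j)))]
      intro i hi
      rw [congrFun hu i]
      simp only [hi, if_true]
    have e2 : u % E.Mod j'.supp = K.r (.inr (.inl j')) := by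
      rw [← res_iff hE _ _ _ (K.r_lt (.inr (.inl j')))]
      intro i hi
      rw [congrFun hu i]
      by_cases hi' : i ∈ j.supp
      · simp only [hi', if_true]
        exact hcon i hi' hi
      · simp only [hi', if_false]
    have hl' : K.pos (.inr (.inl j)) 0 = K.pos (.inr (.inl j')) 0 :=
      congrArg (fun l : K.Lane => l.1.1) hl
    have h1 := (K.rj_iff j u _ (K.pos_lt (.inr (.inl j)) 0)).2 ⟨e1, rfl⟩
    have h2 := (K.rj_iff j' u _ (K.pos_lt (.inr (.inl j)) 0)).2 ⟨e2, hl'⟩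
    rw [h1] at h2
    exact hne (Sum.inl_injective (Sum.inr_injective h2))
  count := by
    intro κ
    obtain ⟨u, rfl⟩ := exists_co hE κ
    have hact : ∀ τ : E.Tok, (∀ i ∈ E.suppT τ, co hE u i = co hE (K.r (.inr (.inr τ))) i) ↔
        u % E.Mod (E.suppT τ) = K.r (.inr (.inr τ)) := fun τ =>
      res_iff hE _ _ _ (K.r_lt (.inr (.inr τ)))
    symm
    refine Finset.card_bij (fun τ hτ => ⟨⟨K.pos (.inr (.inr τ)) u, K.pos_lt _ _⟩,
      K.tok_not_wall τ u ((hact τ).1 (Finset.mem_filter.1 hτ).2)⟩) ?_ ?_ ?_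
    · intro τ hτ
      have h1 := (hact τ).1 (Finset.mem_filter.1 hτ).2
      rw [Finset.mem_filter]
      refine ⟨Finset.mem_univ _, fun j hj => ?_⟩
      exact K.free_of_tok hE τ u h1 j (congrArg (fun l : K.Lane => l.1.1) hj)
    · intro τ hτ τ' hτ' h
      have h1 := (hact τ).1 (Finset.mem_filter.1 hτ).2
      have h2 := (hact τ').1 (Finset.mem_filter.1 hτ').2
      have h3 : K.pos (.inr (.inr τ)) u = K.pos (.inr (.inr τ')) u :=
        congrArg (fun l : K.Lane => l.1.1) h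
      have h4 := (K.tok_iff τ u _ (K.pos_lt (.inr (.inr τ)) u)).2 ⟨h1, rfl⟩
      have h5 := (K.tok_iff τ' u _ (K.pos_lt (.inr (.inr τ)) u)).2 ⟨h2, h3⟩
      rw [h4] at h5
      exact Sum.inr_injective (Sum.inr_injective h5)
    · intro ℓ hℓ
      obtain ⟨τ, h1, h2⟩ := K.tok_of_free hE ℓ u (Finset.mem_filter.1 hℓ).2
      exact ⟨τ, Finset.mem_filter.2 ⟨Finset.mem_univ _, (hact τ).2 h1⟩,
        Subtype.ext (Fin.ext h2)⟩

theorem act_iff {Q : ℕ} (hE : E.Good Q) (τ : E.Tok) (u : ℕ) :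
    (K.arr hE).Act τ (co hE u) ↔ u % E.Mod (E.suppT τ) = K.r (.inr (.inr τ)) :=
  res_iff hE _ _ _ (K.r_lt (.inr (.inr τ)))

theorem free_iff {Q : ℕ} (hE : E.Good Q) (ℓ : K.Lane) (u : ℕ) :
    (K.arr hE).Free ℓ (co hE u) ↔
      ∃ τ : E.Tok, u % E.Mod (E.suppT τ) = K.r (.inr (.inr τ)) ∧
        K.pos (.inr (.inr τ)) u = ℓ.1 := by
  constructor
  · exact fun h => K.tok_of_free hE ℓ u h
  · rintro ⟨τ, h1, h2⟩ j hj
    exact K.free_of_tok hE τ u h1 j ((congrArg (fun l : K.Lane => l.1.1) hj).trans h2.symm)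

/-- Two tokens at the same position of the same block are equal. -/
theorem tok_unique (τ τ' : E.Tok) (u : ℕ)
    (h1 : u % E.Mod (E.suppT τ) = K.r (.inr (.inr τ)))
    (h2 : u % E.Mod (E.suppT τ') = K.r (.inr (.inr τ')))
    (h3 : K.pos (.inr (.inr τ)) u = K.pos (.inr (.inr τ')) u) : τ = τ' := by
  have h4 := (K.tok_iff τ u _ (K.pos_lt (.inr (.inr τ)) u)).2 ⟨h1, rfl⟩
  have h5 := (K.tok_iff τ' u _ (K.pos_lt (.inr (.inr τ)) u)).2 ⟨h2, h3⟩
  rw [h4] at h5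
  exact Sum.inr_injective (Sum.inr_injective h5)

end Blk

end Env

end Pool.Agent.Lib.Pinwheel
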