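import Pool.Agent.Lib.Pinwheel.SoundForced

/-!
# The auxiliary tokens bound the distances of the lanes
-/

namespace Pool.Agent.Lib.Pinwheel

open Finset

theorem exists_shift (m N v : ℕ) (hv : v < m) : ∃ c < m, (c + N) % m = v := by
  have hm : 0 < m := by omega
  refine ⟨(v + (m - N % m)) % m, Nat.mod_lt _ hm, ?_⟩
  have h1 : N % m < m := Nat.mod_lt _ hm
  rw [Nat.mod_add_mod, show v + (m - N % m) + N = v + (m - N % m + N) by ring, ← Nat.add_mod_mod]
  have h2 : (m - N % m + N) % m = 0 := by
    have h3 : m - N % m + N = m + m * (N / m) := by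
      have := Nat.mod_add_div N m
      omega
    rw [h3, Nat.add_mul_mod_self_left, Nat.mod_self]
  rw [h2, Nat.add_zero, Nat.mod_eq_of_lt hv]

theorem exists_avoid (m N : ℕ) (V : Finset ℕ) (hV : 2 * V.card < m) :
    ∃ c < m, c ∉ V ∧ (c + N) % m ∉ V := by
  classical
  by_contra hcon
  push Not at hcon
  have hm : 0 < m := by omega
  have h1 : Finset.range m ⊆ (Finset.range m).filter (· ∈ V) ∪
      (Finset.range m).filter (fun c => (c + N) % m ∈ V) := by
    intro c hc
    rw [Finset.mem_union, Finset.mem_filter, Finset.mem_filter]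
    by_cases h : c ∈ V
    · exact Or.inl ⟨hc, h⟩
    · exact Or.inr ⟨hc, hcon c (Finset.mem_range.1 hc) h⟩
  have h2 : ((Finset.range m).filter (· ∈ V)).card ≤ V.card :=
    Finset.card_le_card fun c hc => (Finset.mem_filter.1 hc).2
  have h3 : ((Finset.range m).filter (fun c => (c + N) % m ∈ V)).card ≤ V.card := by
    refine Finset.card_le_card_of_injOn (fun c => (c + N) % m)
      (fun c hc => (Finset.mem_filter.1 hc).2) ?_
    intro c hc c' hc' h
    have e1 := Finset.mem_range.1 (Finset.mem_filter.1 hc).1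
    have e2 := Finset.mem_range.1 (Finset.mem_filter.1 hc').1
    have e3 : c + N ≡ c' + N [MOD m] := h
    have e4 := Nat.ModEq.add_right_cancel' N e3
    rw [Nat.ModEq, Nat.mod_eq_of_lt e1, Nat.mod_eq_of_lt e2] at e4
    exact e4
  have h4 := (Finset.card_le_card h1).trans (Finset.card_union_le _ _)
  rw [Finset.card_range] at h4
  omega

namespace Env

variable {E : Env}

namespace Blk

variable {B : ℕ} {al : ℕ → ℕ} {Q : ℕ} {K : E.Blk B al} {hE : E.Good Q}

/-- If only the token `x` is active in the block `u`, then it is in the lane `P z a` if the phase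
of the cluster `z` of its track is `u % R` and the label of the other lane is active. -/
theorem Forced.pos_aux (F : K.Forced hE) (x : Fin E.X) (z : Fin E.Z) (a : Bool) (u : ℕ)
    (hx : (K.arr hE).Act (.inl x) (co hE u))
    (hx' : ∀ τ, τ ≠ .inl x → ¬ (K.arr hE).Act τ (co hE u))
    (hz : E.inC x z = true) (hρ : F.ρ z = co hE u .R)
    (hl : ∀ i ∈ (RJ.lab z (!a) : E.RJ).supp, co hE u i = (K.arr hE).res (.lab z (!a)) i) :
    K.pos (.inr (.inr (.inl x))) u = (F.P z a).1.1 := by
  have h1 : Nat.card {τ // (K.arr hE).Act τ (co hE u)} = 1 := by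
    rw [Nat.card_eq_one_iff_exists]
    refine ⟨⟨_, hx⟩, fun τ => Subtype.ext ?_⟩
    by_contra h
    exact hx' _ h τ.2
  rw [← F.card, Nat.card_eq_one_iff_exists] at h1
  obtain ⟨⟨z₀, hz₀⟩, -⟩ := h1
  obtain ⟨h2, h3⟩ := F.aux x _ hx hx' z₀ hz₀
  obtain rfl : z₀ = z := F.track x z₀ z h2 hz (h3.trans hρ.symm)
  obtain ⟨a₀, h4, h5⟩ := F.free z₀ _ hz₀
  have h6 : a₀ = a := by
    by_contra hne
    have : a₀ = !a := by
      cases a₀ <;> cases a <;> simp_all
    subst this
    obtain ⟨i, hi, hne'⟩ := h4 (.lab z₀ (!a)) (F.lab z₀ (!a))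
    exact hne' (hl i hi)
  subst h6
  obtain ⟨τ, h7, h8⟩ := (K.free_iff hE _ u).1 h4
  have h9 : τ = .inl x := by
    by_contra hne
    exact hx' τ hne ((K.act_iff hE τ u).2 h7)
  subst h9
  exact h8

theorem Forced.aux_step (F : K.Forced hE) (x : Fin E.X) (z z' : Fin E.Z)
    (hz : E.inC x z = true) (hz' : E.inC x z' = true) (hne : z ≠ z')
    (hρ : (F.ρ z' : ℕ) = ((F.ρ z : ℕ) + Q) % E.m .R) (a a' : Bool) :
    (F.P z' a').1.1 ≤ (F.P z a).1.1 + 3 := by
  classical
  set N := E.Mod (E.suppT (.inl x)) with hN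
  have hm := hE.m_pos
  obtain ⟨u, hu⟩ := crt_pred E.m hE.cop (fun i c => match i with
    | .R => c = (F.ρ z : ℕ)
    | .k => c = ((K.arr hE).tres (.inl x) .k : ℕ)
    | .A => c = ((K.arr hE).tres (.inl x) .A : ℕ)
    | .kx x' => if x' = x then c = ((K.arr hE).tres (.inl x) (.kx x') : ℕ) else
        c ∉ ({((K.arr hE).tres (.inl x') (.kx x') : ℕ)} : Finset ℕ) ∧
        (c + N) % E.m (.kx x') ∉ ({((K.arr hE).tres (.inl x') (.kx x') : ℕ)} : Finset ℕ)
    | .kM => c ∉ Finset.univ.image (fun t : Fin E.n => ((K.arr hE).tres (.inr t) .kM : ℕ)) ∧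
        (c + N) % E.m .kM ∉
          Finset.univ.image (fun t : Fin E.n => ((K.arr hE).tres (.inr t) .kM : ℕ))
    | .nu w => if w = z then c = ((K.arr hE).res (.lab z (!a)) (.nu w) : ℕ)
        else if w = z' then (c + N) % E.m (.nu w) = ((K.arr hE).res (.lab z' (!a')) (.nu w) : ℕ)
        else True
    | .s w b => if w = z then c = ((K.arr hE).res (.lab z (!a)) (.s w b) : ℕ)
        else if w = z' then
          (c + N) % E.m (.s w b) = ((K.arr hE).res (.lab z' (!a')) (.s w b) : ℕ)
        else True) (by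
    intro i
    cases i with
    | R => exact ⟨_, (F.ρ z).2, rfl⟩
    | k => exact ⟨_, ((K.arr hE).tres (.inl x) .k).2, rfl⟩
    | A => exact ⟨_, ((K.arr hE).tres (.inl x) .A).2, rfl⟩
    | kM =>
      refine exists_avoid _ _ _ (lt_of_le_of_lt ?_ hE.kM_n)
      exact Nat.mul_le_mul_left _ (Finset.card_image_le.trans (by simp))
    | kx x' =>
      dsimp only
      split_ifs with h
      · exact ⟨_, ((K.arr hE).tres (.inl x) (.kx x')).2, rfl⟩
      · refine exists_avoid _ _ _ ?_
        have := hE.big (.kx x') (by simp) (by simp)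
        rw [Finset.card_singleton]
        omega
    | nu w =>
      dsimp only
      split_ifs with h h'
      · exact ⟨_, ((K.arr hE).res (.lab z (!a)) (.nu w)).2, rfl⟩
      · exact exists_shift _ _ _ ((K.arr hE).res (.lab z' (!a')) (.nu w)).2
      · exact ⟨0, by have := hm (.nu w); omega, trivial⟩
    | s w b =>
      dsimp only
      split_ifs with h h'
      · exact ⟨_, ((K.arr hE).res (.lab z (!a)) (.s w b)).2, rfl⟩
      · exact exists_shift _ _ _ ((K.arr hE).res (.lab z' (!a')) (.s w b)).2
      · exact ⟨0, by have := hm (.s w b); omega, trivial⟩)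
  have e1 : (K.arr hE).Act (.inl x) (co hE u) := by
    intro i hi
    simp only [suppT, Finset.mem_insert, Finset.mem_singleton] at hi
    rcases hi with rfl | rfl | rfl
    · exact Fin.ext (hu .k)
    · exact Fin.ext (hu .A)
    · have := hu (.kx x)
      simp only [if_true] at this
      exact Fin.ext this
  have e2 : u % N = K.r (.inr (.inr (.inl x))) := (K.act_iff hE _ u).1 e1
  have e3 : (u + N) % N = K.r (.inr (.inr (.inl x))) := by rw [Nat.add_mod_right, e2]
  have e4 : (K.arr hE).Act (.inl x) (co hE (u + N)) := (K.act_iff hE _ _).2 e3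
  have e5 : ∀ τ, τ ≠ .inl x → ¬ (K.arr hE).Act τ (co hE u) := by
    rintro (x' | t) hτ h
    · have h1 := hu (.kx x')
      have h2 : x' ≠ x := fun h => hτ (by rw [h])
      simp only [h2, if_false] at h1
      refine h1.1 (Finset.mem_singleton.2 ?_)
      exact congrArg Fin.val (h (.kx x') (by simp [suppT]))
    · have h1 := hu .kM
      refine h1.1 (Finset.mem_image.2 ⟨t, Finset.mem_univ _, ?_⟩)
      exact (congrArg Fin.val (h .kM (by simp [suppT]))).symm
  have hsh : ∀ i, ((co hE (u + N) i : Fin _) : ℕ) = (u % E.m i + N) % E.m i := by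
    intro i
    show (u + N) % E.m i = _
    rw [Nat.mod_add_mod]
  have e6 : ∀ τ, τ ≠ .inl x → ¬ (K.arr hE).Act τ (co hE (u + N)) := by
    rintro (x' | t) hτ h
    · have h1 := hu (.kx x')
      have h2 : x' ≠ x := fun h => hτ (by rw [h])
      simp only [h2, if_false] at h1
      refine h1.2 (Finset.mem_singleton.2 ?_)
      rw [← hsh]
      exact congrArg Fin.val (h (.kx x') (by simp [suppT]))
    · have h1 := hu .kM
      refine h1.2 (Finset.mem_image.2 ⟨t, Finset.mem_univ _, ?_⟩)
      rw [← hsh]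
      exact (congrArg Fin.val (h .kM (by simp [suppT]))).symm
  have p1 : K.pos (.inr (.inr (.inl x))) u = (F.P z a).1.1 := by
    refine F.pos_aux x z a u e1 e5 hz (Fin.ext (hu .R).symm) ?_
    intro i hi
    simp only [RJ.supp, Finset.mem_insert, Finset.mem_singleton] at hi
    rcases hi with rfl | rfl
    · have := hu (.nu z)
      simp only [if_true] at this
      exact Fin.ext this
    · have := hu (.s z (!a))
      simp only [if_true] at this
      exact Fin.ext this
  have p2 : K.pos (.inr (.inr (.inl x))) (u + N) = (F.P z' a').1.1 := by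
    refine F.pos_aux x z' a' (u + N) e4 e6 hz' (Fin.ext ?_) ?_
    · rw [hsh, hρ]
      have h1 : u % E.m .R = (F.ρ z : ℕ) := hu .R
      have h2 : N % E.m .R = Q % E.m .R := hE.stride (.inl x)
      rw [h1, Nat.add_mod (F.ρ z : ℕ) N, h2, ← Nat.add_mod]
    intro i hi
    simp only [RJ.supp, Finset.mem_insert, Finset.mem_singleton] at hi
    rcases hi with rfl | rfl
    · have := hu (.nu z')
      simp only [hne.symm, if_false, if_true] at this
      exact Fin.ext ((hsh _).trans this)
    · have := hu (.s z' (!a'))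
      simp only [hne.symm, if_false, if_true] at this
      exact Fin.ext ((hsh _).trans this)
  have := K.mono (.inr (.inr (.inl x))) u e2
  rw [← p1, ← p2]
  exact this

end Blk

end Env

end Pool.Agent.Lib.Pinwheel
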