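import Pool.Agent.Lib.Pinwheel.SoundArr
import Pool.Agent.Lib.Pinwheel.Rigid
import Pool.Agent.Lib.Pinwheel.Density

/-!
# Feasible instances have block schedules
-/

namespace Pool.Agent.Lib.Pinwheel

open Finset

namespace Env

theorem exists_blk (E : Env) {Q B D : ℕ} (al : ℕ → ℕ) (hE : E.Good Q)
    (hB : 2 * E.Z * (D + 1) ≤ B) (hD : 3 ≤ D) (hal : ∀ t < E.n, 2 * (E.R * al t + 1) + 1 ≤ D)
    (hbig : ∀ τ, 2 * (B + D) * (E.X + E.n) ≤ E.Mod (E.suppT τ))
    (h : Feasible (E.freq B al)) : Nonempty (E.Blk B al) := by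
  obtain ⟨S, hS⟩ := h
  have hZ : 0 < E.Z := by
    have h1 := hE.Z4
    have h2 := hE.two_le
    omega
  have hBZ : 2 * E.Z ≤ B := le_trans (Nat.le_mul_of_pos_right _ (Nat.succ_pos _)) hB
  have hMpos : ∀ i : E.Job B, 0 < E.perJ i := by
    rintro (w | j | τ)
    · exact Nat.one_pos
    · exact hE.mod_pos _
    · exact hE.mod_pos _
  have hd : ∀ i : E.Job B, E.dJ al i ≤ D := by
    rintro (w | j | x | t)
    · exact Nat.zero_le _
    · exact Nat.zero_le _
    · exact hD
    · exact hal t t.2
  suffices hs : ∃ (T₀ : ℕ) (r : E.Job B → ℕ) (pos : E.Job B → ℕ → ℕ),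
      (∀ i, r i < E.perJ i) ∧ (∀ i u, pos i u < B) ∧
      (∀ i u p, p < B → (S (T₀ + u * B + p) = i ↔ u % E.perJ i = r i ∧ p = pos i u)) ∧
      (∀ i u, u % E.perJ i = r i → pos i (u + E.perJ i) ≤ pos i u + E.dJ al i) ∧
      (∀ i, E.dJ al i = 0 → ∀ u v, pos i u = pos i v) by
    obtain ⟨T₀, r, pos, h1, h2, h3, h4, h5⟩ := hs
    exact ⟨⟨fun u p => S (T₀ + u * B + p), r, pos, h1, h2, h3, h4, h5⟩⟩
  refine rigid B (2 * E.Z) D (E.perJ (B := B)) (E.dJ al)
    (Finset.univ.map ⟨Sum.inl, Sum.inl_injective⟩) (by omega) hB hMpos hd ?_ ?_ ?_ ?_ S ?_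
  · intro i hi
    obtain ⟨w, -, rfl⟩ := Finset.mem_map.1 hi
    exact ⟨rfl, rfl⟩
  · rw [Finset.card_map, Finset.card_univ, Fintype.card_fin]
    omega
  · have e1 := E.dens_total hE
    rw [Fintype.sum_sum_type, Fintype.sum_sum_type]
    have e2 : ∑ w : Fin (B - 2 * E.Z), (1 : ℚ) / E.perJ (Sum.inl w : E.Job B) =
        B - 2 * E.Z := by
      simp only [perJ, Nat.cast_one, div_one, Finset.sum_const, Finset.card_univ,
        Fintype.card_fin, nsmul_eq_mul, mul_one]
      rw [Nat.cast_sub hBZ]
      push_cast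
      ring
    rw [e2]
    have e3 : ∑ j : E.RJ, (1 : ℚ) / E.perJ (Sum.inr (Sum.inl j) : E.Job B) +
        ∑ τ : E.Tok, (1 : ℚ) / E.perJ (Sum.inr (Sum.inr τ) : E.Job B) = 2 * E.Z := e1
    rw [e3]
    ring
  · calc ∑ i ∈ Finset.univ.filter (fun i : E.Job B => 0 < E.dJ al i),
          2 * ((B : ℚ) + D) / E.perJ i
        ≤ ∑ τ : E.Tok, 2 * ((B : ℚ) + D) / E.Mod (E.suppT τ) := by
          have e0 : ∑ τ : E.Tok, 2 * ((B : ℚ) + D) / E.Mod (E.suppT τ) =
              ∑ i ∈ Finset.univ.map (⟨fun τ => Sum.inr (Sum.inr τ),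
                fun a b h => Sum.inr_injective (Sum.inr_injective h)⟩ : E.Tok ↪ E.Job B),
                2 * ((B : ℚ) + D) / E.perJ i := by
            rw [Finset.sum_map]
            rfl
          rw [e0]
          refine Finset.sum_le_sum_of_subset_of_nonneg ?_ ?_
          · intro i hi
            have hi' := (Finset.mem_filter.1 hi).2
            rcases i with w | j | τ
            · exact absurd hi' (lt_irrefl _)
            · exact absurd hi' (lt_irrefl _)
            · exact Finset.mem_map.2 ⟨τ, Finset.mem_univ _, rfl⟩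
          · intros
            positivity
      _ ≤ ∑ τ : E.Tok, (1 : ℚ) / (E.X + E.n) := by
          refine Finset.sum_le_sum fun τ _ => ?_
          have hX : (0 : ℚ) < (E.X : ℚ) + E.n := by
            have : 0 < E.X := by
              have h1 := hE.XZ
              have h2 := hE.Z4
              have h3 := hE.two_le
              have h4 : E.m .R = E.R := rfl
              omega
            positivity
          have hM : (0 : ℚ) < E.Mod (E.suppT τ) := by
            exact_mod_cast hE.mod_pos _
          rw [div_le_div_iff₀ hM hX]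
          have := hbig τ
          have h' : (2 * (B + D) * (E.X + E.n) : ℚ) ≤ E.Mod (E.suppT τ) := by exact_mod_cast this
          linarith
      _ = 1 := by
          rw [Finset.sum_const, Finset.card_univ, Fintype.card_sum, Fintype.card_fin,
            Fintype.card_fin, nsmul_eq_mul]
          have : 0 < E.X := by
            have h1 := hE.XZ
            have h2 := hE.Z4
            have h3 := hE.two_le
            have h4 : E.m .R = E.R := rfl
            omega
          push_cast
          have h' : (0 : ℚ) < (E.X : ℚ) + E.n := by positivity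
          field_simp
  · intro i t
    have := hS i t
    rwa [freq_eq] at this

end Env

end Pool.Agent.Lib.Pinwheel
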