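import Pool.Agent.Lib.Pinwheel.Defs

/-!
# The forced structure, part A: lanes and open sets
-/

namespace Pool.Agent.Lib.Pinwheel

open Finset

namespace Env

/-- The points. -/
abbrev Pt (E : Env) : Type := ∀ i : Idx E.Z E.X, Fin (E.m i)

theorem Mod_pos {E : Env} (hpos : ∀ i, 2 ≤ E.m i) (S : Finset (Idx E.Z E.X)) : 0 < E.Mod S :=
  Finset.prod_pos fun i _ => by have := hpos i; omega

theorem card_box (E : Env) (S : Finset (Idx E.Z E.X)) (r : Pt E) :
    (univ.filter fun κ : Pt E => ∀ i ∈ S, κ i = r i).card * E.Mod S = Fintype.card (Pt E) := by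
  have h1 : (univ.filter fun κ : Pt E => ∀ i ∈ S, κ i = r i) =
      Fintype.piFinset (fun i => if i ∈ S then {r i} else univ) := by
    ext κ
    simp only [mem_filter, mem_univ, true_and, Fintype.mem_piFinset]
    refine forall_congr' fun i => ?_
    by_cases hi : i ∈ S <;> simp [hi]
  rw [h1, Fintype.card_piFinset, Fintype.card_pi, Mod, ← Fintype.prod_ite_mem S E.m,
    ← Finset.prod_mul_distrib]
  refine Finset.prod_congr rfl fun i _ => ?_
  by_cases hi : i ∈ S <;> simp [hi]

theorem sum_box {E : Env} (hpos : ∀ i, 2 ≤ E.m i) (S : Finset (Idx E.Z E.X)) (r : Pt E) :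
    (∑ κ : Pt E, if (∀ i ∈ S, κ i = r i) then (1 : ℚ) else 0) =
      (Fintype.card (Pt E) : ℚ) * (1 / E.Mod S) := by
  have hM : (E.Mod S : ℚ) ≠ 0 := by exact_mod_cast (Mod_pos hpos S).ne'
  rw [Finset.sum_boole, ← card_box E S r]
  push_cast
  field_simp

/-! ### Supports -/

theorem nu_notin_cell {Z X : ℕ} (b : Cell X) (z : Fin Z) : (Idx.nu z : Idx Z X) ∉ b.supp := by
  cases b <;> simp [Cell.supp]

theorem s_notin_cell {Z X : ℕ} (b : Cell X) (z : Fin Z) (a : Bool) :
    (Idx.s z a : Idx Z X) ∉ b.supp := by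
  cases b <;> simp [Cell.supp]

theorem nu_mem {E : Env} {j : E.RJ} {z : Fin E.Z} (h : Idx.nu z ∈ j.supp) : j.cl = z := by
  cases j <;> simp [RJ.supp, nu_notin_cell] at h <;> simp [RJ.cl, h]

theorem s_mem {E : Env} {j : E.RJ} {z : Fin E.Z} {a : Bool} (h : Idx.s z a ∈ j.supp) :
    j.cl = z := by
  cases j <;> simp [RJ.supp, s_notin_cell] at h <;> simp [RJ.cl, h]

theorem nu_notin_T {E : Env} (τ : E.Tok) (z : Fin E.Z) : Idx.nu z ∉ E.suppT τ := by
  cases τ <;> simp [suppT]

theorem s_notin_T {E : Env} (τ : E.Tok) (z : Fin E.Z) (a : Bool) : Idx.s z a ∉ E.suppT τ := by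
  cases τ <;> simp [suppT]

namespace Arr

variable {E : Env} {Lane : Type} [Fintype Lane] [DecidableEq Lane] (A : E.Arr Lane)

theorem lane_ne_of_cl {j : E.RJ} {z : Fin E.Z} {a : Bool} (h : j.cl ≠ z) :
    A.lane j ≠ A.lane (.lab z a) := by
  intro he
  have hne : j ≠ .lab z a := by rintro rfl; exact h rfl
  obtain ⟨i, hi, hi', -⟩ := A.disj j (.lab z a) hne he
  simp only [RJ.supp, mem_insert, mem_singleton] at hi'
  rcases hi' with rfl | rfl
  · exact h (nu_mem hi)
  · exact h (s_mem hi)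

theorem main_lane_ne (z : Fin E.Z) (a : Bool) (b : Cell E.X) (e c) :
    A.lane (.main z a b e c) ≠ A.lane (.lab z (!a)) := by
  intro he
  obtain ⟨i, hi, hi', -⟩ := A.disj _ _ (by simp) he
  simp only [RJ.supp, mem_insert, mem_singleton] at hi hi'
  rcases hi' with rfl | rfl
  · rcases hi with hi | hi
    · cases hi
    · exact nu_notin_cell _ _ hi
  · rcases hi with hi | hi
    · cases a <;> simp at hi
    · exact s_notin_cell _ _ _ hi

/-- the number of active tokens -/
noncomputable def T (κ : Pt E) : ℚ :=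
  ∑ τ : E.Tok, if (∀ i ∈ E.suppT τ, κ i = A.tres τ i) then (1 : ℚ) else 0

theorem T_congr {κ κ' : Pt E} (h : ∀ i, (∀ z, i ≠ .nu z) → (∀ z a, i ≠ .s z a) → κ i = κ' i) :
    A.T κ = A.T κ' := by
  refine Finset.sum_congr rfl fun τ _ => ?_
  have : (∀ i ∈ E.suppT τ, κ i = A.tres τ i) ↔ (∀ i ∈ E.suppT τ, κ' i = A.tres τ i) := by
    refine forall_congr' fun i => forall_congr' fun hi => ?_
    rw [h i (fun z hz => nu_notin_T τ z (hz ▸ hi)) (fun z a hz => s_notin_T τ z a (hz ▸ hi))]
  simp only [this]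

open Classical in
theorem free_sum (κ : Pt E) : (∑ ℓ : Lane, if A.Free ℓ κ then (1 : ℚ) else 0) = A.T κ := by
  have h := A.count κ
  rw [T, Finset.sum_boole, Finset.sum_boole]
  have h' : ((univ.filter fun ℓ => A.Free ℓ κ).card) =
      (univ.filter fun τ : E.Tok => ∀ i ∈ E.suppT τ, κ i = A.tres τ i).card := by
    rw [← h]
    refine congrArg Finset.card (Finset.ext fun ℓ => ?_)
    rw [mem_filter, mem_filter]
    rfl
  exact_mod_cast h'

theorem sum_T (hpos : ∀ i, 2 ≤ E.m i) :
    ∑ κ : Pt E, A.T κ = (Fintype.card (Pt E) : ℚ) * ∑ τ, (1 : ℚ) / E.Mod (E.suppT τ) := by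
  unfold T
  rw [Finset.sum_comm, Finset.mul_sum]
  exact Finset.sum_congr rfl fun τ _ => sum_box hpos _ _

theorem card_pos' (hpos : ∀ i, 2 ≤ E.m i) : (0 : ℚ) < Fintype.card (Pt E) := by
  have : 0 < Fintype.card (Pt E) := by
    rw [Fintype.card_pi]
    exact Finset.prod_pos fun i _ => by have := hpos i; simp; omega
  exact_mod_cast this

theorem lab_lane_ne (hpos : ∀ i, 2 ≤ E.m i) (z : Fin E.Z)
    (h1 : ∑ j ∈ univ.filter (fun j : E.RJ => j.cl = z ∧ j.nonmain = true),
      (1 : ℚ) / E.Mod j.supp + ∑ τ, (1 : ℚ) / E.Mod (E.suppT τ) < 1) :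
    A.lane (.lab z false) ≠ A.lane (.lab z true) := by
  classical
  intro he
  have hj : ∀ j, A.lane j = A.lane (.lab z false) → j.cl = z ∧ j.nonmain = true := by
    intro j hj
    have hc : j.cl = z := by
      by_contra hc
      exact A.lane_ne_of_cl hc hj
    refine ⟨hc, ?_⟩
    cases j with
    | main z' a b e c =>
      exfalso
      obtain rfl : z' = z := hc
      refine A.main_lane_ne z' a b e c ?_
      cases a
      · rw [hj]; exact he
      · rw [hj]; rfl
    | _ => rfl
  have hp : ∀ κ : Pt E, (1 : ℚ) ≤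
      (∑ j ∈ univ.filter (fun j : E.RJ => j.cl = z ∧ j.nonmain = true),
        if (∀ i ∈ j.supp, κ i = A.res j i) then (1 : ℚ) else 0) + A.T κ := by
    intro κ
    have hT : 0 ≤ A.T κ := Finset.sum_nonneg fun τ _ => by split_ifs <;> norm_num
    have hS : (0 : ℚ) ≤ (∑ j ∈ univ.filter (fun j : E.RJ => j.cl = z ∧ j.nonmain = true),
        if (∀ i ∈ j.supp, κ i = A.res j i) then (1 : ℚ) else 0) :=
      Finset.sum_nonneg fun τ _ => by split_ifs <;> norm_num
    by_cases hf : A.Free (A.lane (.lab z false)) κ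
    · have h2 : (1 : ℚ) ≤ ∑ ℓ : Lane, if A.Free ℓ κ then (1 : ℚ) else 0 := by
        refine le_trans ?_ (Finset.single_le_sum (fun ℓ _ => ?_)
          (mem_univ (A.lane (.lab z false))))
        · simp [hf]
        · split_ifs <;> norm_num
      rw [A.free_sum κ] at h2
      linarith
    · unfold Free at hf
      push Not at hf
      obtain ⟨j, hjl, hjc⟩ := hf
      have h2 : (1 : ℚ) ≤ ∑ j ∈ univ.filter (fun j : E.RJ => j.cl = z ∧ j.nonmain = true),
          if (∀ i ∈ j.supp, κ i = A.res j i) then (1 : ℚ) else 0 := by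
        refine le_trans ?_ (Finset.single_le_sum (fun ℓ _ => ?_)
          (mem_filter.2 ⟨mem_univ j, hj j hjl⟩))
        · rw [if_pos hjc]
        · split_ifs <;> norm_num
      linarith
  have hs := Finset.sum_le_sum fun κ (_ : κ ∈ (univ : Finset (Pt E))) => hp κ
  rw [Finset.sum_add_distrib, A.sum_T hpos, Finset.sum_comm,
    Finset.sum_congr rfl (fun j _ => sum_box hpos j.supp (A.res j)), ← Finset.mul_sum,
    ← mul_add, Finset.sum_const, card_univ, nsmul_eq_mul, mul_one] at hs
  have hN : (0 : ℚ) < Fintype.card (Pt E) := card_pos' hpos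
  nlinarith [mul_lt_mul_of_pos_left h1 hN]

theorem lab_inj (hpos : ∀ i, 2 ≤ E.m i)
    (h1 : ∀ z, ∑ j ∈ univ.filter (fun j : E.RJ => j.cl = z ∧ j.nonmain = true),
      (1 : ℚ) / E.Mod j.supp + ∑ τ, (1 : ℚ) / E.Mod (E.suppT τ) < 1) :
    Function.Injective (fun p : Fin E.Z × Bool => A.lane (.lab p.1 p.2)) := by
  rintro ⟨z, a⟩ ⟨z', a'⟩ h
  simp only at h
  have hz : z = z' := by
    by_contra hz
    exact A.lane_ne_of_cl (j := .lab z a) (z := z') (a := a') hz h
  subst hz
  have := A.lab_lane_ne hpos z (h1 z)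
  cases a <;> cases a' <;> first | rfl | exact absurd h this | exact absurd h.symm this

/-! ### The bijection of the lanes -/

theorem P_bij (hL : Fintype.card Lane = 2 * E.Z) (hpos : ∀ i, 2 ≤ E.m i)
    (h1 : ∀ z, ∑ j ∈ univ.filter (fun j : E.RJ => j.cl = z ∧ j.nonmain = true),
      (1 : ℚ) / E.Mod j.supp + ∑ τ, (1 : ℚ) / E.Mod (E.suppT τ) < 1) :
    Function.Bijective (fun p : Fin E.Z × Bool => A.lane (.lab p.1 p.2)) := by
  rw [Fintype.bijective_iff_injective_and_card]
  refine ⟨A.lab_inj hpos h1, ?_⟩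
  rw [hL, Fintype.card_prod, Fintype.card_fin, Fintype.card_bool, mul_comm]

/-- The labels are in a bijection with the lanes. -/
def Bij : Prop := Function.Bijective (fun p : Fin E.Z × Bool => A.lane (.lab p.1 p.2))

variable {A}

theorem lane_cases (hP : A.Bij) (j : E.RJ) :
    A.lane j = A.lane (.lab j.cl false) ∨ A.lane j = A.lane (.lab j.cl true) := by
  obtain ⟨⟨z, a⟩, h⟩ := hP.2 (A.lane j)
  simp only at h
  have hz : j.cl = z := by
    by_contra hz
    exact A.lane_ne_of_cl hz h.symm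
  subst hz
  cases a
  · exact Or.inl h.symm
  · exact Or.inr h.symm

theorem main_lane (hP : A.Bij) (z : Fin E.Z) (a : Bool) (b : Cell E.X) (e c) :
    A.lane (.main z a b e c) = A.lane (.lab z a) := by
  have h := lane_cases hP (.main z a b e c)
  have h' := A.main_lane_ne z a b e c
  simp only [RJ.cl] at h
  cases a
  · rcases h with h | h
    · exact h
    · exact absurd h h'
  · rcases h with h | h
    · exact absurd h h'
    · exact h

/-- the residue of a label -/
def σ0 (A : E.Arr Lane) (z : Fin E.Z) (a : Bool) : Fin (E.m (.s z a)) := A.res (.lab z a) (.s z a)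

theorem main_res_ne (hP : A.Bij) (z : Fin E.Z) (a : Bool) (b : Cell E.X) (e c) :
    A.res (.main z a b e c) (.s z a) ≠ A.σ0 z a := by
  obtain ⟨i, hi, hi', h⟩ := A.disj (.main z a b e c) (.lab z a) (by simp) (main_lane hP z a b e c)
  simp only [RJ.supp, mem_insert, mem_singleton] at hi hi'
  rcases hi' with rfl | rfl
  · rcases hi with hi | hi
    · cases hi
    · exact absurd hi (nu_notin_cell _ _)
  · exact h

/-- The slice `σ` of the main jobs of `(z, a)` is open at `κ`. -/
def Op (A : E.Arr Lane) (z : Fin E.Z) (a : Bool) (σ : Fin (E.m (.s z a))) (κ : Pt E) : Prop :=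
  ∀ b e c, A.res (.main z a b e c) (.s z a) = σ →
    ∃ i ∈ b.supp, κ i ≠ A.res (.main z a b e c) i

/-- the index type of the main jobs of `(z, a)` -/
abbrev MJ (E : Env) (z : Fin E.Z) (a : Bool) : Type :=
  Σ b : Cell E.X, Fin (E.m (.s z a) - 1) × Fin (E.mult z b)

/-- the main job -/
def mj {z : Fin E.Z} {a : Bool} (t : MJ E z a) : E.RJ := .main z a t.1 t.2.1 t.2.2

open Classical in
theorem Op_sum (hP : A.Bij) (z : Fin E.Z) (a : Bool) (σ : Fin (E.m (.s z a))) (κ : Pt E) :
    (if A.Op z a σ κ then (1 : ℚ) else 0) + ∑ t : MJ E z a,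
      (if A.res (mj t) (.s z a) = σ ∧ (∀ i ∈ t.1.supp, κ i = A.res (mj t) i)
        then (1 : ℚ) else 0) = 1 := by
  by_cases h : ∃ t : MJ E z a, A.res (mj t) (.s z a) = σ ∧ (∀ i ∈ t.1.supp, κ i = A.res (mj t) i)
  · obtain ⟨t, ht1, ht2⟩ := h
    have hn : ¬ A.Op z a σ κ := by
      intro ho
      obtain ⟨i, hi, hne⟩ := ho t.1 t.2.1 t.2.2 ht1
      exact hne (ht2 i hi)
    rw [if_neg hn, zero_add, Finset.sum_eq_single t]
    · rw [if_pos ⟨ht1, ht2⟩]
    · intro t' _ hne
      rw [if_neg]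
      rintro ⟨h1', h2'⟩
      have hjne : mj t' ≠ mj t := by
        intro he
        apply hne
        obtain ⟨b, e, c⟩ := t
        obtain ⟨b', e', c'⟩ := t'
        simp only [mj, RJ.main.injEq, true_and] at he
        obtain ⟨rfl, rfl, h⟩ := he
        simp only [heq_eq_eq] at h
        rw [h]
      obtain ⟨i, hi, hi', h⟩ := A.disj (mj t') (mj t) hjne
        ((main_lane hP _ _ _ _ _).trans (main_lane hP _ _ _ _ _).symm)
      simp only [mj, RJ.supp, mem_insert] at hi hi'
      rcases hi with rfl | hi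
      · exact h (h1'.trans ht1.symm)
      · rcases hi' with rfl | hi'
        · exact absurd hi (s_notin_cell _ _ _)
        · exact h ((h2' i hi).symm.trans (ht2 i hi'))
    · intro h; exact absurd (mem_univ _) h
  · have ho : A.Op z a σ κ := by
      intro b e c hr
      by_contra hcon
      push Not at hcon
      exact h ⟨⟨b, e, c⟩, hr, hcon⟩
    rw [if_pos ho, Finset.sum_eq_zero, add_zero]
    intro t _
    rw [if_neg]
    exact fun ht => h ⟨t, ht⟩

/-- `1 - Σ_b mult / Mod b` -/
noncomputable def om (E : Env) (z : Fin E.Z) : ℚ := 1 - ∑ b, (E.mult z b : ℚ) / E.Mod b.supp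

open Classical in
/-- the number of the points at which a slice is open -/
noncomputable def cO (A : E.Arr Lane) (z : Fin E.Z) (a : Bool) (σ : Fin (E.m (.s z a))) : ℚ :=
  ∑ κ : Pt E, if A.Op z a σ κ then (1 : ℚ) else 0

theorem sum_cO (hP : A.Bij) (hpos : ∀ i, 2 ≤ E.m i) (z : Fin E.Z) (a : Bool) :
    ∑ σ ∈ univ.filter (fun σ => σ ≠ A.σ0 z a), A.cO z a σ =
      ((E.m (.s z a) : ℚ) - 1) * (Fintype.card (Pt E) * om E z) := by
  classical
  set N : ℚ := (Fintype.card (Pt E) : ℚ) with hN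
  have hcO : ∀ σ, A.cO z a σ = N - ∑ t : MJ E z a,
      (if A.res (mj t) (.s z a) = σ then (1 : ℚ) else 0) * (N * (1 / E.Mod t.1.supp)) := by
    intro σ
    have h := Finset.sum_congr (rfl : (univ : Finset (Pt E)) = univ)
      fun κ _ => Op_sum hP z a σ κ
    rw [Finset.sum_add_distrib, Finset.sum_const, card_univ, nsmul_eq_mul, mul_one,
      Finset.sum_comm] at h
    have h' : ∑ t : MJ E z a, ∑ κ : Pt E,
        (if A.res (mj t) (.s z a) = σ ∧ (∀ i ∈ t.1.supp, κ i = A.res (mj t) i)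
          then (1 : ℚ) else 0) = ∑ t : MJ E z a,
      (if A.res (mj t) (.s z a) = σ then (1 : ℚ) else 0) * (N * (1 / E.Mod t.1.supp)) := by
      refine Finset.sum_congr rfl fun t _ => ?_
      by_cases hr : A.res (mj t) (.s z a) = σ
      · simp only [hr, true_and, if_true, one_mul]
        exact sum_box hpos _ _
      · simp [hr]
    rw [h'] at h
    unfold cO
    linarith
  simp only [hcO]
  rw [Finset.sum_sub_distrib, Finset.sum_const, Finset.sum_comm]
  have hc : (univ.filter (fun σ => σ ≠ A.σ0 z a)).card = E.m (.s z a) - 1 := by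
    rw [Finset.filter_ne' univ (A.σ0 z a), Finset.card_erase_of_mem (mem_univ _), card_univ,
      Fintype.card_fin]
  have h2 : ∀ t : MJ E z a, ∑ σ ∈ univ.filter (fun σ => σ ≠ A.σ0 z a),
      (if A.res (mj t) (.s z a) = σ then (1 : ℚ) else 0) * (N * (1 / E.Mod t.1.supp)) =
      N * (1 / E.Mod t.1.supp) := by
    intro t
    rw [← Finset.sum_mul, Finset.sum_ite_eq, if_pos, one_mul]
    exact mem_filter.2 ⟨mem_univ _, main_res_ne hP _ _ _ _ _⟩
  rw [Finset.sum_congr rfl fun t _ => h2 t, hc, nsmul_eq_mul, Fintype.sum_sigma]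
  simp only [Finset.sum_const, card_univ, Fintype.card_prod, Fintype.card_fin, nsmul_eq_mul]
  have hm : ((E.m (.s z a) - 1 : ℕ) : ℚ) = (E.m (.s z a) : ℚ) - 1 := by
    have := hpos (.s z a)
    push_cast [Nat.cast_sub (show 1 ≤ E.m (.s z a) by omega)]
    ring
  push_cast
  rw [hm, om, mul_sub, mul_sub, mul_one, Finset.mul_sum, Finset.mul_sum]
  congr 1
  refine Finset.sum_congr rfl fun b _ => ?_
  ring

/-! ### Choices -/

/-- The point `κ` with changed private coordinates: in every cluster `z` the lane `!a z` is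
covered by its label, and the coordinate `s z (a z)` is `σ z (a z)`. -/
def star (A : E.Arr Lane) (a : Fin E.Z → Bool) (σ : ∀ z b, Fin (E.m (.s z b))) (κ : Pt E) : Pt E
  | .nu z => A.res (.lab z (!a z)) (.nu z)
  | .s z b => if b = a z then σ z b else A.res (.lab z b) (.s z b)
  | .R => κ .R
  | .k => κ .k
  | .A => κ .A
  | .kM => κ .kM
  | .kx x => κ (.kx x)

theorem star_eq {a : Fin E.Z → Bool} {σ : ∀ z b, Fin (E.m (.s z b))} {κ : Pt E}
    (i : Idx E.Z E.X) (h1 : ∀ z, i ≠ .nu z) (h2 : ∀ z a, i ≠ .s z a) : A.star a σ κ i = κ i := by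
  cases i with
  | nu z => exact absurd rfl (h1 z)
  | s z a => exact absurd rfl (h2 z a)
  | _ => rfl

theorem T_star (a : Fin E.Z → Bool) (σ : ∀ z b, Fin (E.m (.s z b))) (κ : Pt E) :
    A.T (A.star a σ κ) = A.T κ :=
  A.T_congr fun i h1 h2 => star_eq i h1 h2

theorem not_free_star (a : Fin E.Z → Bool) (σ : ∀ z b, Fin (E.m (.s z b))) (κ : Pt E)
    (z : Fin E.Z) : ¬ A.Free (A.lane (.lab z (!a z))) (A.star a σ κ) := by
  intro h
  obtain ⟨i, hi, hne⟩ := h (.lab z (!a z)) rfl
  simp only [RJ.supp, mem_insert, mem_singleton] at hi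
  rcases hi with rfl | rfl
  · exact hne rfl
  · apply hne
    simp [star]

theorem free_star (hP : A.Bij) (a : Fin E.Z → Bool) (σ : ∀ z b, Fin (E.m (.s z b))) (κ : Pt E)
    (z : Fin E.Z) (h : A.Free (A.lane (.lab z (a z))) (A.star a σ κ)) :
    A.Op z (a z) (σ z (a z)) κ := by
  intro b e c hr
  obtain ⟨i, hi, hne⟩ := h (.main z (a z) b e c) (main_lane hP _ _ _ _ _)
  simp only [RJ.supp, mem_insert] at hi
  rcases hi with rfl | hi
  · exfalso
    apply hne
    rw [hr]
    simp [star]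
  · refine ⟨i, hi, ?_⟩
    rwa [star_eq i (fun z hz => nu_notin_cell b z (hz ▸ hi))
      (fun z a hz => s_notin_cell b z a (hz ▸ hi))] at hne

open Classical in
/-- the number of the free lanes of a cluster -/
noncomputable def g (A : E.Arr Lane) (z : Fin E.Z) (κ : Pt E) : ℚ :=
  ∑ a : Bool, if A.Free (A.lane (.lab z a)) κ then (1 : ℚ) else 0

theorem sum_g (hP : A.Bij) (κ : Pt E) : ∑ z, A.g z κ = A.T κ := by
  classical
  rw [← A.free_sum κ, ← hP.sum_comp, Fintype.sum_prod_type]
  rfl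

open Classical in
theorem g_star_le (hP : A.Bij) (a : Fin E.Z → Bool) (σ : ∀ z b, Fin (E.m (.s z b))) (κ : Pt E)
    (z : Fin E.Z) : A.g z (A.star a σ κ) ≤ if A.Op z (a z) (σ z (a z)) κ then (1 : ℚ) else 0 := by
  have h1 := A.not_free_star a σ κ z
  have h2 := free_star hP a σ κ z
  unfold g
  rw [Fintype.sum_bool]
  cases haz : a z
  · rw [haz] at h1 h2
    simp only [Bool.not_false] at h1
    rw [if_neg h1, zero_add]
    by_cases hf : A.Free (A.lane (.lab z false)) (A.star a σ κ)
    · rw [if_pos hf, if_pos (h2 hf)]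
    · rw [if_neg hf]
      split_ifs <;> norm_num
  · rw [haz] at h1 h2
    simp only [Bool.not_true] at h1
    rw [if_neg h1, add_zero]
    by_cases hf : A.Free (A.lane (.lab z true)) (A.star a σ κ)
    · rw [if_pos hf, if_pos (h2 hf)]
    · rw [if_neg hf]
      split_ifs <;> norm_num

open Classical in
theorem T_le (hP : A.Bij) (a : Fin E.Z → Bool) (σ : ∀ z b, Fin (E.m (.s z b))) (κ : Pt E) :
    A.T κ ≤ ∑ z, if A.Op z (a z) (σ z (a z)) κ then (1 : ℚ) else 0 := by
  rw [← T_star a σ κ, ← sum_g hP]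
  exact Finset.sum_le_sum fun z _ => g_star_le hP a σ κ z

theorem sum_T_le (hP : A.Bij) (a : Fin E.Z → Bool) (σ : ∀ z b, Fin (E.m (.s z b))) :
    ∑ κ : Pt E, A.T κ ≤ ∑ z, A.cO z (a z) (σ z (a z)) := by
  classical
  refine (Finset.sum_le_sum fun κ _ => T_le hP a σ κ).trans ?_
  rw [Finset.sum_comm]
  rfl

/-! ### Equality -/

section Equality

variable (A) in
theorem exists_ne (hpos : ∀ i, 2 ≤ E.m i) (z : Fin E.Z) (a : Bool) : ∃ σ, σ ≠ A.σ0 z a := by
  have := hpos (.s z a)
  have : Nontrivial (Fin (E.m (.s z a))) := Fin.nontrivial_iff_two_le.2 this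
  exact _root_.exists_ne (A.σ0 z a)

variable (hP : A.Bij) (hpos : ∀ i, 2 ≤ E.m i)
  (h2 : ∑ z : Fin E.Z, (1 - ∑ b, (E.mult z b : ℚ) / E.Mod b.supp) =
      ∑ τ, (1 : ℚ) / E.Mod (E.suppT τ))

include hP hpos h2

theorem cO_eq (z : Fin E.Z) (a : Bool) (σ : Fin (E.m (.s z a))) (hσ : σ ≠ A.σ0 z a) :
    A.cO z a σ = Fintype.card (Pt E) * om E z := by
  classical
  set N : ℚ := (Fintype.card (Pt E) : ℚ) with hN
  -- the minimizers
  have hmin : ∀ z (a : Bool), ∃ σ, σ ≠ A.σ0 z a ∧ ∀ σ', σ' ≠ A.σ0 z a → A.cO z a σ ≤ A.cO z a σ' := by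
    intro z a
    obtain ⟨σ₁, hσ₁⟩ := A.exists_ne hpos z a
    obtain ⟨σ, hσ, h⟩ := Finset.exists_min_image (univ.filter (fun σ => σ ≠ A.σ0 z a))
      (fun σ => A.cO z a σ) ⟨σ₁, by simp [hσ₁]⟩
    exact ⟨σ, by simpa using hσ, fun σ' h' => h σ' (by simp [h'])⟩
  choose sm hsm1 hsm2 using hmin
  have hcard : ∀ z (a : Bool), ((univ.filter (fun σ => σ ≠ A.σ0 z a)).card : ℚ) =
      (E.m (.s z a) : ℚ) - 1 := by
    intro z a
    rw [Finset.filter_ne' univ (A.σ0 z a), Finset.card_erase_of_mem (mem_univ _), card_univ,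
      Fintype.card_fin]
    have := hpos (.s z a)
    push_cast [Nat.cast_sub (show 1 ≤ E.m (.s z a) by omega)]
    ring
  have hle : ∀ z (a : Bool), A.cO z a (sm z a) ≤ N * om E z := by
    intro z a
    have h := sum_cO hP hpos z a
    have h' : ∑ σ ∈ univ.filter (fun σ => σ ≠ A.σ0 z a), A.cO z a (sm z a) ≤
        ∑ σ ∈ univ.filter (fun σ => σ ≠ A.σ0 z a), A.cO z a σ :=
      Finset.sum_le_sum fun σ hσ => hsm2 z a σ (by simpa using hσ)
    rw [h, Finset.sum_const, nsmul_eq_mul, hcard] at h'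
    have hm : (0 : ℚ) < (E.m (.s z a) : ℚ) - 1 := by
      have : (2 : ℚ) ≤ E.m (.s z a) := by exact_mod_cast hpos (.s z a)
      linarith
    exact le_of_mul_le_mul_left h' hm
  have hTs := A.sum_T hpos
  rw [← h2] at hTs
  have hmineq : ∀ z (a : Bool), A.cO z a (sm z a) = N * om E z := by
    intro z a
    have h3 := sum_T_le hP (fun _ => a) sm
    have h4 : ∑ z, A.cO z a (sm z a) ≤ ∑ z, N * om E z := Finset.sum_le_sum fun z _ => hle z a
    have h5 : ∑ z, A.cO z a (sm z a) = ∑ z, N * om E z := by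
      refine le_antisymm h4 ?_
      rw [← Finset.mul_sum]
      exact le_of_eq_of_le hTs.symm h3
    exact (Finset.sum_eq_sum_iff_of_le fun z _ => hle z a).1 h5 z (mem_univ _)
  have h6 : ∑ σ ∈ univ.filter (fun σ => σ ≠ A.σ0 z a), N * om E z =
      ∑ σ ∈ univ.filter (fun σ => σ ≠ A.σ0 z a), A.cO z a σ := by
    rw [sum_cO hP hpos z a, Finset.sum_const, nsmul_eq_mul, hcard]
  refine ((Finset.sum_eq_sum_iff_of_le fun σ hσ => ?_).1 h6 σ (by simp [hσ])).symm
  rw [← hmineq z a]
  exact hsm2 z a σ (by simpa using hσ)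

open Classical in
theorem T_eq (a : Fin E.Z → Bool) (σ : ∀ z b, Fin (E.m (.s z b)))
    (hσ : ∀ z b, σ z b ≠ A.σ0 z b) (κ : Pt E) :
    A.T κ = ∑ z, if A.Op z (a z) (σ z (a z)) κ then (1 : ℚ) else 0 := by
  have hTs := A.sum_T hpos
  rw [← h2] at hTs
  have h5 : ∑ κ : Pt E, A.T κ =
      ∑ κ : Pt E, ∑ z, if A.Op z (a z) (σ z (a z)) κ then (1 : ℚ) else 0 := by
    rw [Finset.sum_comm, hTs, Finset.mul_sum]
    exact Finset.sum_congr rfl fun z _ => (cO_eq hP hpos h2 z (a z) _ (hσ z (a z))).symm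
  exact (Finset.sum_eq_sum_iff_of_le fun κ _ => T_le hP a σ κ).1 h5 κ (mem_univ _)

/-- All slices (except for the slices of the labels) are open at the same points. -/
theorem Op_iff (z : Fin E.Z) (κ : Pt E) (a a' : Bool) (σ : Fin (E.m (.s z a)))
    (σ' : Fin (E.m (.s z a'))) (hσ : σ ≠ A.σ0 z a) (hσ' : σ' ≠ A.σ0 z a') :
    A.Op z a σ κ ↔ A.Op z a' σ' κ := by
  classical
  choose σd hσd using A.exists_ne hpos
  have key : ∀ (a : Bool) (σ : Fin (E.m (.s z a))), σ ≠ A.σ0 z a →
      (if A.Op z a σ κ then (1 : ℚ) else 0) =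
      A.T κ - ∑ y ∈ univ.erase z, if A.Op y false (σd y false) κ then (1 : ℚ) else 0 := by
    intro a σ hσ
    have h := T_eq hP hpos h2 (Function.update (fun _ => false) z a)
      (Function.update σd z (Function.update (σd z) a σ)) (by
        intro y b
        by_cases hy : y = z
        · subst hy
          rw [Function.update_self]
          by_cases hb : b = a
          · subst hb
            rw [Function.update_self]
            exact hσ
          · rw [Function.update_of_ne hb]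
            exact hσd _ _
        · rw [Function.update_of_ne hy]
          exact hσd _ _) κ
    rw [← Finset.add_sum_erase univ _ (mem_univ z)] at h
    have h3 : ∑ y ∈ univ.erase z, (if A.Op y (Function.update (fun _ => false) z a y)
        (Function.update σd z (Function.update (σd z) a σ) y
          (Function.update (fun _ => false) z a y)) κ then (1 : ℚ) else 0) =
        ∑ y ∈ univ.erase z, if A.Op y false (σd y false) κ then (1 : ℚ) else 0 := by
      refine Finset.sum_congr rfl fun y hy => ?_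
      have hy : y ≠ z := Finset.ne_of_mem_erase hy
      rw [Function.update_of_ne hy, Function.update_of_ne hy]
    rw [h3] at h
    have h4 : (if A.Op z (Function.update (fun _ => false) z a z)
        (Function.update σd z (Function.update (σd z) a σ) z
          (Function.update (fun _ => false) z a z)) κ then (1 : ℚ) else 0) =
        if A.Op z a σ κ then (1 : ℚ) else 0 := by
      have hu : ∀ a' : Bool, a' = a →
          (A.Op z a' (Function.update (σd z) a σ a') κ ↔ A.Op z a σ κ) := by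
        rintro _ rfl
        rw [Function.update_self]
      rw [Function.update_self (f := σd)]
      simp only [hu _ (Function.update_self z a (fun _ => false))]
    rw [h4] at h
    linarith
  have h := (key a σ hσ).trans (key a' σ' hσ').symm
  by_cases h5 : A.Op z a σ κ <;> by_cases h6 : A.Op z a' σ' κ <;> simp [h5, h6] at h ⊢

end Equality

theorem free_congr (z : Fin E.Z) (a : Bool) {κ κ' : Pt E}
    (h : ∀ i, (∀ y, y ≠ z → i ≠ .nu y) → (∀ y b, y ≠ z → i ≠ .s y b) → κ i = κ' i) :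
    A.Free (A.lane (.lab z a)) κ ↔ A.Free (A.lane (.lab z a)) κ' := by
  refine forall_congr' fun j => forall_congr' fun hj => exists_congr fun i =>
    and_congr_right fun hi => ?_
  have hcl : j.cl = z := by
    by_contra hc
    exact A.lane_ne_of_cl hc hj
  rw [h i]
  · rintro y hy rfl
    exact hy ((nu_mem hi).symm.trans hcl)
  · rintro y b hy rfl
    exact hy ((s_mem hi).symm.trans hcl)

theorem g_congr (z : Fin E.Z) {κ κ' : Pt E}
    (h : ∀ i, (∀ y, y ≠ z → i ≠ .nu y) → (∀ y b, y ≠ z → i ≠ .s y b) → κ i = κ' i) :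
    A.g z κ = A.g z κ' := by
  classical
  unfold g
  exact Finset.sum_congr rfl fun a _ => if_congr (free_congr z a h) rfl rfl

open Classical in
theorem g_eq (hP : A.Bij) (hpos : ∀ i, 2 ≤ E.m i)
    (h2 : ∑ z : Fin E.Z, (1 - ∑ b, (E.mult z b : ℚ) / E.Mod b.supp) =
      ∑ τ, (1 : ℚ) / E.Mod (E.suppT τ)) (σd : ∀ z b, Fin (E.m (.s z b)))
    (hσd : ∀ z b, σd z b ≠ A.σ0 z b) (z : Fin E.Z) (κ : Pt E) :
    A.g z κ = if A.Op z false (σd z false) κ then (1 : ℚ) else 0 := by
  set κs : Pt E := A.star (fun _ => false) σd κ with hκs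
  have h3 : A.g z κs = if A.Op z false (σd z false) κ then (1 : ℚ) else 0 := by
    have h4 : ∑ y, A.g y κs = ∑ y, if A.Op y false (σd y false) κ then (1 : ℚ) else 0 := by
      rw [sum_g hP, hκs, T_star]
      exact T_eq hP hpos h2 (fun _ => false) σd hσd κ
    exact (Finset.sum_eq_sum_iff_of_le fun y _ => g_star_le hP (fun _ => false) σd κ y).1 h4 z
      (mem_univ _)
  let κm : Pt E := fun i => if i = .nu z ∨ i = .s z false ∨ i = .s z true then κs i else κ i
  have hm : ∀ i, κm i = if i = .nu z ∨ i = .s z false ∨ i = .s z true then κs i else κ i :=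
    fun _ => rfl
  have h5 : A.T κm = A.T κ := by
    refine A.T_congr fun i hi1 hi2 => ?_
    rw [hm, if_neg]
    rintro (h | h | h)
    · exact hi1 _ h
    · exact hi2 _ _ h
    · exact hi2 _ _ h
  have h6 : ∀ y, y ≠ z → A.g y κm = A.g y κ := by
    intro y hy
    refine g_congr y fun i hi1 hi2 => ?_
    rw [hm, if_neg]
    rintro (h | h | h)
    · exact hi1 z hy.symm h
    · exact hi2 z _ hy.symm h
    · exact hi2 z _ hy.symm h
  have h7 : A.g z κm = A.g z κ := by
    have e1 := sum_g hP κm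
    have e2 := sum_g hP κ
    rw [← Finset.add_sum_erase univ _ (mem_univ z)] at e1 e2
    rw [Finset.sum_congr rfl fun y hy => h6 y (Finset.ne_of_mem_erase hy), h5] at e1
    linarith
  have h8 : A.g z κm = A.g z κs := by
    refine g_congr z fun i hi1 hi2 => ?_
    rw [hm]
    split_ifs with hc
    · rfl
    · push Not at hc
      refine (star_eq i (fun y => ?_) (fun y b => ?_)).symm
      · by_cases hy : y = z
        · rw [hy]; exact hc.1
        · exact hi1 y hy
      · by_cases hy : y = z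
        · rw [hy]
          cases b
          · exact hc.2.1
          · exact hc.2.2
        · exact hi2 y b hy
  rw [← h7, h8, h3]

end Arr

/-- Part A. -/
theorem structA (E : Env) {Lane : Type} [Fintype Lane] [DecidableEq Lane]
    (hL : Fintype.card Lane = 2 * E.Z) (A : E.Arr Lane) (hpos : ∀ i, 2 ≤ E.m i)
    (h1 : ∀ z, ∑ j ∈ univ.filter (fun j : E.RJ => j.cl = z ∧ j.nonmain = true),
      (1 : ℚ) / E.Mod j.supp + ∑ τ, (1 : ℚ) / E.Mod (E.suppT τ) < 1)
    (h2 : ∑ z : Fin E.Z, (1 - ∑ b, (E.mult z b : ℚ) / E.Mod b.supp) =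
      ∑ τ, (1 : ℚ) / E.Mod (E.suppT τ)) :
    ∃ (P : Fin E.Z → Bool → Lane) (Ω : Fin E.Z → (∀ i, Fin (E.m i)) → Prop),
      (∀ ℓ, ∃! p : Fin E.Z × Bool, P p.1 p.2 = ℓ) ∧
      (∀ z a, A.lane (.lab z a) = P z a) ∧
      (∀ z a b e c, A.lane (.main z a b e c) = P z a) ∧
      (∀ j : E.RJ, A.lane j = P j.cl false ∨ A.lane j = P j.cl true) ∧
      (∀ κ, Nat.card {z // Ω z κ} = Nat.card {τ // A.Act τ κ}) ∧
      (∀ z κ (σ : Fin (E.m (.s z false))), σ ≠ A.res (.lab z false) (.s z false) →
        (Ω z κ ↔ ∀ b e c, A.res (.main z false b e c) (.s z false) = σ →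
          ∃ i ∈ b.supp, κ i ≠ A.res (.main z false b e c) i)) ∧
      (∀ z κ, Ω z κ → ∃! a, A.Free (P z a) κ) ∧
      (∀ z κ, ¬ Ω z κ → ∀ a, ¬ A.Free (P z a) κ) := by
  classical
  have hP : A.Bij := A.P_bij hL hpos h1
  choose σd hσd using A.exists_ne hpos
  have hg := Arr.g_eq hP hpos h2 σd hσd
  refine ⟨fun z a => A.lane (.lab z a), fun z κ => A.Op z false (σd z false) κ,
    fun ℓ => hP.existsUnique ℓ, fun _ _ => rfl, fun z a b e c => Arr.main_lane hP z a b e c,
    fun j => Arr.lane_cases hP j, fun κ => ?_, fun z κ σ hσ => ?_, fun z κ h => ?_,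
    fun z κ h => ?_⟩
  · have h := Arr.T_eq hP hpos h2 (fun _ => false) σd hσd κ
    rw [Arr.T, Finset.sum_boole, Finset.sum_boole] at h
    rw [Nat.card_eq_fintype_card, Nat.card_eq_fintype_card, Fintype.card_subtype,
      Fintype.card_subtype]
    refine (Nat.cast_injective (R := ℚ) h).symm.trans (congrArg Finset.card ?_)
    ext τ
    rw [mem_filter, mem_filter]
    rfl
  · exact Arr.Op_iff hP hpos h2 z κ false false _ σ (hσd z false) hσ
  · have h' := hg z κ
    rw [if_pos h, Arr.g, Fintype.sum_bool] at h'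
    by_cases ht : A.Free (A.lane (.lab z true)) κ <;>
      by_cases hf : A.Free (A.lane (.lab z false)) κ
    · rw [if_pos ht, if_pos hf] at h'
      norm_num at h'
    · exact ⟨true, ht, fun a ha => by
        cases a
        · exact absurd ha hf
        · rfl⟩
    · exact ⟨false, hf, fun a ha => by
        cases a
        · rfl
        · exact absurd ha ht⟩
    · rw [if_neg ht, if_neg hf] at h'
      norm_num at h'
  · have h' := hg z κ
    rw [if_neg h, Arr.g, Fintype.sum_bool] at h'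
    intro a ha
    by_cases ht : A.Free (A.lane (.lab z true)) κ <;>
      by_cases hf : A.Free (A.lane (.lab z false)) κ
    · rw [if_pos ht, if_pos hf] at h'
      norm_num at h'
    · rw [if_pos ht, if_neg hf] at h'
      norm_num at h'
    · rw [if_neg ht, if_pos hf] at h'
      norm_num at h'
    · cases a
      · exact hf ha
      · exact ht ha

end Env

end Pool.Agent.Lib.Pinwheel
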