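import Pool.Agent.Lib.Pinwheel.Defs

/-!
# The forced structure, part B: phases and cosets
-/

namespace Pool.Agent.Lib.Pinwheel

open Finset

lemma exists_fin_ne_range {n N : ℕ} (f : Fin n → Fin N) (h : n < N) : ∃ v, ∀ t, f t ≠ v := by
  by_contra hc
  push Not at hc
  have := Fintype.card_le_of_surjective f hc
  simp at this
  omega

lemma exists_fin_ne {N : ℕ} (a : Fin N) (h : 2 ≤ N) : ∃ v : Fin N, v ≠ a := by
  have : Nontrivial (Fin N) := Fin.nontrivial_iff_two_le.2 h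
  exact exists_ne a

lemma card_fin_ne {N : ℕ} (a : Fin N) : Fintype.card {v : Fin N // v ≠ a} = N - 1 := by
  rw [Fintype.card_subtype_compl]
  simp

/-- A relation which is injective from the left and total has to be a bijection when the target is
not larger. -/
lemma bij_of_card {α β : Type*} [Fintype α] [Fintype β] (P : α → β → Prop)
    (hex : ∀ a, ∃ b, P a b) (hinj : ∀ a a' b, P a b → P a' b → a = a')
    (hcard : Fintype.card β ≤ Fintype.card α) :
    (∀ b, ∃ a, P a b) ∧ ∀ a b b', P a b → P a b' → b = b' := by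
  choose F hF using hex
  have hFinj : Function.Injective F := by
    intro a a' h
    have h1 := hF a
    rw [h] at h1
    exact hinj _ _ _ h1 (hF a')
  have hle := Fintype.card_le_of_injective F hFinj
  have hbij := (Fintype.bijective_iff_injective_and_card F).2 ⟨hFinj, le_antisymm hle hcard⟩
  have key : ∀ a b, P a b → b = F a := by
    intro a b h
    obtain ⟨a', rfl⟩ := hbij.2 b
    rw [hinj _ _ _ (hF a') h]
  exact ⟨fun b => by obtain ⟨a, rfl⟩ := hbij.2 b; exact ⟨a, hF a⟩,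
    fun a b b' h h' => (key a b h).trans (key a b' h').symm⟩

lemma surj_of_card {α β : Type*} [Fintype α] [Fintype β] (f : α → β) (hf : Function.Injective f)
    (hcard : Fintype.card β ≤ Fintype.card α) : Function.Surjective f :=
  ((Fintype.bijective_iff_injective_and_card f).2
    ⟨hf, le_antisymm (Fintype.card_le_of_injective f hf) hcard⟩).2

lemma inj_of_card {α β : Type*} [Fintype α] [Fintype β] (f : α → β) (hf : Function.Surjective f)
    (hcard : Fintype.card α ≤ Fintype.card β) : Function.Injective f :=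
  ((Fintype.bijective_iff_surjective_and_card f).2
    ⟨hf, le_antisymm hcard (Fintype.card_le_of_surjective f hf)⟩).1

namespace Env

/-- The hypotheses of part B. -/
structure BD (E : Env) (Q : ℕ) where
  hE : E.Good Q
  r : ∀ (z : Fin E.Z) (b : Cell E.X), Fin (E.m (.s z false) - 1) → Fin (E.mult z b) →
    ∀ i, Fin (E.m i)
  σ₀ : ∀ z : Fin E.Z, Fin (E.m (.s z false))
  tres : E.Tok → ∀ i, Fin (E.m i)
  Ω : Fin E.Z → (∀ i, Fin (E.m i)) → Prop
  hσ : ∀ z b e c, r z b e c (.s z false) ≠ σ₀ z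
  hd : ∀ z b e c b' e' c', (⟨b, e, c⟩ : Σ b, (_ : Fin (E.m (.s z false) - 1)) ×
      Fin (E.mult z b)) ≠ ⟨b', e', c'⟩ →
    r z b e c (.s z false) = r z b' e' c' (.s z false) →
    ∃ i, i ∈ b.supp ∧ i ∈ b'.supp ∧ r z b e c i ≠ r z b' e' c' i
  O1 : ∀ κ, Nat.card {z // Ω z κ} = Nat.card {τ // ∀ i ∈ E.suppT τ, κ i = tres τ i}
  O2 : ∀ z κ (σ : Fin (E.m (.s z false))), σ ≠ σ₀ z →
    (Ω z κ ↔ ∀ b e c, r z b e c (.s z false) = σ → ∃ i ∈ b.supp, κ i ≠ r z b e c i)

namespace BD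

variable {E : Env} {Q : ℕ} (D : BD E Q)

/-- activity of a token -/
def Act (τ : E.Tok) (κ : ∀ i, Fin (E.m i)) : Prop := ∀ i ∈ E.suppT τ, κ i = D.tres τ i

/-- only the auxiliary token `x` is active -/
def Solo (x : Fin E.X) (κ : ∀ i, Fin (E.m i)) : Prop :=
  D.Act (.inl x) κ ∧ ∀ τ, τ ≠ .inl x → ¬ D.Act τ κ

lemma step {z : Fin E.Z} {κ : ∀ i, Fin (E.m i)} {i₀ : Idx E.Z E.X} {c : Fin (E.m i₀)}
    {σ : Fin (E.m (.s z false))} (h : D.Ω z κ) (hn : ¬ D.Ω z (Function.update κ i₀ c))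
    (hs : σ ≠ D.σ₀ z) :
    ∃ b e c', D.r z b e c' (.s z false) = σ ∧ i₀ ∈ b.supp ∧ D.r z b e c' i₀ = c ∧
      ∀ i ∈ b.supp, i ≠ i₀ → D.r z b e c' i = κ i := by
  rw [D.O2 z _ σ hs] at hn
  push Not at hn
  obtain ⟨b, e, c', hsl, hcov⟩ := hn
  obtain ⟨i, hi, hne⟩ := (D.O2 z κ σ hs).1 h b e c' hsl
  have hii : i = i₀ := by
    by_contra hne'
    have := hcov i hi
    rw [Function.update_of_ne hne'] at this
    exact hne this
  subst hii
  refine ⟨b, e, c', hsl, hi, ?_, ?_⟩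
  · have := hcov i hi
    rw [Function.update_self] at this
    exact this.symm
  · intro j hj hji
    have := hcov j hj
    rw [Function.update_of_ne hji] at this
    exact this.symm

lemma not_Ω_of_none {κ : ∀ i, Fin (E.m i)} (h : ∀ τ, ¬ D.Act τ κ) (z : Fin E.Z) :
    ¬ D.Ω z κ := by
  intro hz
  have h0 : Nat.card {τ // ∀ i ∈ E.suppT τ, κ i = D.tres τ i} = 0 := by
    have : IsEmpty {τ // ∀ i ∈ E.suppT τ, κ i = D.tres τ i} := ⟨fun τ => h τ.1 τ.2⟩
    exact Nat.card_of_isEmpty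
  have h1 := D.O1 κ
  rw [h0, Nat.card_eq_zero] at h1
  rcases h1 with h | h
  · exact h.false ⟨z, hz⟩
  · exact h.not_finite inferInstance

lemma exists_Ω_of_act {κ : ∀ i, Fin (E.m i)} {τ : E.Tok} (h : D.Act τ κ) : ∃ z, D.Ω z κ := by
  by_contra hc
  push Not at hc
  have h0 : Nat.card {z // D.Ω z κ} = 0 := by
    have : IsEmpty {z // D.Ω z κ} := ⟨fun z => hc z.1 z.2⟩
    exact Nat.card_of_isEmpty
  have h1 := D.O1 κ
  rw [h0] at h1
  have h2 := h1.symm
  rw [Nat.card_eq_zero] at h2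
  rcases h2 with h2 | h2
  · exact h2.false ⟨τ, h⟩
  · exact h2.not_finite inferInstance

lemma none_update {x : Fin E.X} {κ : ∀ i, Fin (E.m i)} (hs : D.Solo x κ)
    {c : Fin (E.m (.kx x))} (hc : c ≠ D.tres (.inl x) (.kx x)) :
    ∀ τ, ¬ D.Act τ (Function.update κ (.kx x) c) := by
  intro τ hτ
  by_cases hx : τ = .inl x
  · subst hx
    have := hτ (.kx x) (by simp [suppT])
    rw [Function.update_self] at this
    exact hc this
  · apply hs.2 τ hx
    intro i hi
    have hne : i ≠ .kx x := by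
      rintro rfl
      rcases τ with x' | t
      · simp only [suppT, mem_insert, mem_singleton, reduceCtorEq, Idx.kx.injEq, false_or] at hi
        exact hx (by rw [hi])
      · simp [suppT] at hi
    have := hτ i hi
    rwa [Function.update_of_ne hne] at this

include D in
lemma two_le_s (z : Fin E.Z) (a : Bool) : 16 ≤ E.m (.s z a) := D.hE.big _ (by simp) (by simp)

include D in
lemma two_le_kx (x : Fin E.X) : 16 ≤ E.m (.kx x) := D.hE.big _ (by simp) (by simp)

include D in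
lemma two_le_k : 16 ≤ E.m .k := D.hE.big _ (by simp) (by simp)

include D in
lemma two_le_kM : 16 ≤ E.m .kM := D.hE.big _ (by simp) (by simp)

lemma exists_slice (z : Fin E.Z) : ∃ σ, σ ≠ D.σ₀ z :=
  exists_fin_ne _ (by have := D.two_le_s z false; omega)

lemma A1 {x : Fin E.X} {z : Fin E.Z} {κ : ∀ i, Fin (E.m i)} {σ : Fin (E.m (.s z false))}
    {c : Fin (E.m (.kx x))} (hs : D.Solo x κ) (h : D.Ω z κ) (hσ : σ ≠ D.σ₀ z)
    (hc : c ≠ D.tres (.inl x) (.kx x)) :
    ∃ e c', D.r z (.b4 x) e c' (.s z false) = σ ∧ D.r z (.b4 x) e c' (.kx x) = c ∧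
      D.r z (.b4 x) e c' .R = κ .R ∧ D.r z (.b4 x) e c' .k = κ .k ∧
      D.r z (.b4 x) e c' .A = κ .A := by
  obtain ⟨b, e, c', hsl, hi, hcc, hrest⟩ :=
    D.step h (D.not_Ω_of_none (D.none_update hs hc) z) hσ
  rcases b with _ | _ | _ | _ | x'
  · simp [Cell.supp] at hi
  · simp [Cell.supp] at hi
  · simp [Cell.supp] at hi
  · simp [Cell.supp] at hi
  · simp only [Cell.supp, mem_insert, mem_singleton, reduceCtorEq, Idx.kx.injEq, false_or] at hi
    subst hi
    exact ⟨e, c', hsl, hcc, hrest _ (by simp [Cell.supp]) (by simp),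
      hrest _ (by simp [Cell.supp]) (by simp), hrest _ (by simp [Cell.supp]) (by simp)⟩

lemma inC_of_solo {x : Fin E.X} {z : Fin E.Z} {κ : ∀ i, Fin (E.m i)} (hs : D.Solo x κ)
    (h : D.Ω z κ) : E.inC x z = true := by
  obtain ⟨σ, hσ⟩ := D.exists_slice z
  obtain ⟨c, hc⟩ := exists_fin_ne (D.tres (.inl x) (.kx x)) (by have := D.two_le_kx x; omega)
  obtain ⟨e, c', _⟩ := D.A1 hs h hσ hc
  by_contra hn
  have : E.mult z (.b4 x) = 0 := by simp [mult, hn]
  rw [this] at c'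
  exact c'.elim0

lemma A2 {x : Fin E.X} {z : Fin E.Z} {κ : ∀ i, Fin (E.m i)} (hs : D.Solo x κ) (h : D.Ω z κ)
    (e : Fin (E.m (.s z false) - 1)) (c : Fin (E.mult z (.b4 x))) :
    D.r z (.b4 x) e c .R = κ .R ∧ D.r z (.b4 x) e c .k = κ .k ∧
      D.r z (.b4 x) e c .A = κ .A := by
  have hx := D.inC_of_solo hs h
  have hm : E.mult z (.b4 x) = E.m (.kx x) - 1 := by simp [mult, hx]
  have key := (bij_of_card
    (α := {σ : Fin (E.m (.s z false)) // σ ≠ D.σ₀ z} ×
      {c : Fin (E.m (.kx x)) // c ≠ D.tres (.inl x) (.kx x)})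
    (β := Fin (E.m (.s z false) - 1) × Fin (E.mult z (.b4 x)))
    (fun p q => D.r z (.b4 x) q.1 q.2 (.s z false) = p.1.1 ∧
      D.r z (.b4 x) q.1 q.2 (.kx x) = p.2.1 ∧ D.r z (.b4 x) q.1 q.2 .R = κ .R ∧
      D.r z (.b4 x) q.1 q.2 .k = κ .k ∧ D.r z (.b4 x) q.1 q.2 .A = κ .A) ?_ ?_ ?_).1
  · obtain ⟨_, _, _, h1, h2, h3⟩ := key (e, c)
    exact ⟨h1, h2, h3⟩
  · rintro ⟨⟨σ, hσ⟩, ⟨c, hc⟩⟩
    obtain ⟨e, c', h⟩ := D.A1 hs h hσ hc
    exact ⟨(e, c'), h⟩
  · rintro ⟨⟨σ, hσ⟩, ⟨c, hc⟩⟩ ⟨⟨σ', hσ'⟩, ⟨c', hc'⟩⟩ q ⟨h1, h2, _⟩ ⟨h1', h2', _⟩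
    simp only [Prod.mk.injEq, Subtype.mk.injEq]
    exact ⟨h1.symm.trans h1', h2.symm.trans h2'⟩
  · rw [Fintype.card_prod, Fintype.card_prod, Fintype.card_fin, Fintype.card_fin, card_fin_ne,
      card_fin_ne, hm]


lemma exists_solo (x : Fin E.X) (ρ : Fin (E.m .R)) : ∃ κ, D.Solo x κ ∧ κ .R = ρ := by
  have hkM := D.hE.kM_n
  obtain ⟨v, hv⟩ := exists_fin_ne_range (fun t : Fin E.n => D.tres (.inr t) .kM) (by omega)
  have hw : ∀ x' : Fin E.X, ∃ w : Fin (E.m (.kx x')), w ≠ D.tres (.inl x') (.kx x') :=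
    fun x' => exists_fin_ne _ (by have := D.two_le_kx x'; omega)
  choose w hw using hw
  let κ : ∀ i, Fin (E.m i) := fun i => match i with
    | .R => ρ
    | .k => D.tres (.inl x) .k
    | .A => D.tres (.inl x) .A
    | .kM => v
    | .kx x' => if x' = x then D.tres (.inl x) (.kx x') else w x'
    | .nu z => D.tres (.inl x) (.nu z)
    | .s z a => D.tres (.inl x) (.s z a)
  refine ⟨κ, ⟨?_, ?_⟩, rfl⟩
  · intro i hi
    simp only [suppT, mem_insert, mem_singleton] at hi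
    rcases hi with rfl | rfl | rfl
    · rfl
    · rfl
    · simp [κ]
  · intro τ hτ h
    rcases τ with x' | t
    · have hx' : x' ≠ x := fun h => hτ (by rw [h])
      have := h (.kx x') (by simp [suppT])
      simp only [κ, hx', if_false] at this
      exact hw x' this
    · have := h .kM (by simp [suppT])
      exact hv t this.symm

lemma card_track (x : Fin E.X) : Fintype.card {z : Fin E.Z // E.inC x z = true} ≤ E.R := by
  have hf : ∀ z : {z : Fin E.Z // E.inC x z = true}, z.1.1 - x.1 < E.R := by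
    intro z
    have := z.2
    simp only [inC, decide_eq_true_eq] at this
    omega
  have := Fintype.card_le_of_injective
    (fun z : {z : Fin E.Z // E.inC x z = true} => (⟨z.1.1 - x.1, hf z⟩ : Fin E.R)) (by
      intro z z' h
      have h1 := z.2
      have h2 := z'.2
      simp only [inC, decide_eq_true_eq] at h1 h2
      simp only [Fin.mk.injEq] at h
      apply Subtype.ext
      apply Fin.ext
      omega)
  simpa using this

/-- In a track, phases and visited clusters correspond. -/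
lemma track (x : Fin E.X) :
    (∀ z : Fin E.Z, E.inC x z = true → ∃ κ, D.Solo x κ ∧ D.Ω z κ) ∧
      ∀ z z' κ κ', D.Solo x κ → D.Solo x κ' → D.Ω z κ → D.Ω z' κ' → κ .R = κ' .R → z = z' := by
  have key := bij_of_card (α := Fin (E.m .R)) (β := {z : Fin E.Z // E.inC x z = true})
    (fun ρ z => ∃ κ, D.Solo x κ ∧ κ .R = ρ ∧ D.Ω z.1 κ) ?_ ?_ ?_
  · refine ⟨?_, ?_⟩
    · intro z hz
      obtain ⟨ρ, κ, hs, _, h⟩ := key.1 ⟨z, hz⟩
      exact ⟨κ, hs, h⟩
    · intro z z' κ κ' hs hs' h h' hR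
      have := key.2 (κ .R) ⟨z, D.inC_of_solo hs h⟩ ⟨z', D.inC_of_solo hs' h'⟩ ⟨κ, hs, rfl, h⟩
        ⟨κ', hs', hR.symm, h'⟩
      simpa using this
  · intro ρ
    obtain ⟨κ, hs, hR⟩ := D.exists_solo x ρ
    obtain ⟨z, hz⟩ := D.exists_Ω_of_act hs.1
    exact ⟨⟨z, D.inC_of_solo hs hz⟩, κ, hs, hR, hz⟩
  · rintro ρ ρ' z ⟨κ, hs, hR, h⟩ ⟨κ', hs', hR', h'⟩
    have hx := D.inC_of_solo hs h
    have hm : E.mult z (.b4 x) = E.m (.kx x) - 1 := by simp [mult, hx]
    have h1 := D.two_le_kx x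
    have h2 := D.two_le_s z.1 false
    have e : Fin (E.m (.s z.1 false) - 1) := ⟨0, by omega⟩
    have c : Fin (E.mult z.1 (.b4 x)) := ⟨0, by omega⟩
    rw [← hR, ← hR', ← (D.A2 hs h e c).1, ← (D.A2 hs' h' e c).1]
  · rw [Fintype.card_fin]
    exact card_track x

include D in
lemma exists_track (z : Fin E.Z) : ∃ x, E.inC x z = true := by
  have h1 := D.hE.XZ
  have h2 := D.hE.Z4
  have h3 := D.hE.two_le
  have h4 := z.2
  by_cases h : z.1 < E.X
  · exact ⟨⟨z.1, h⟩, by simp only [inC, decide_eq_true_eq]; omega⟩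
  · exact ⟨⟨E.X - 1, by omega⟩, by simp only [inC, decide_eq_true_eq]; omega⟩

lemma exists_Ω (z : Fin E.Z) : ∃ κ, D.Ω z κ := by
  obtain ⟨x, hx⟩ := D.exists_track z
  obtain ⟨κ, _, h⟩ := (D.track x).1 z hx
  exact ⟨κ, h⟩

/-- The phase of a cluster. -/
noncomputable def ph (z : Fin E.Z) : Fin (E.m .R) := (D.exists_Ω z).choose .R

/-- Every slice contains a `b1` job for every other phase. -/
lemma B1 (z : Fin E.Z) {σ : Fin (E.m (.s z false))} (hσ : σ ≠ D.σ₀ z) {ρ : Fin (E.m .R)}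
    (hρ : ρ ≠ D.ph z) :
    ∃ e c, D.r z .b1 e c (.s z false) = σ ∧ D.r z .b1 e c .R = ρ := by
  have hne : ∀ e c, D.r z .b1 e c .R ≠ D.ph z := by
    intro e c
    obtain ⟨i, hi, h⟩ := (D.O2 z _ _ (D.hσ z .b1 e c)).1 (D.exists_Ω z).choose_spec .b1 e c rfl
    simp only [Cell.supp, mem_singleton] at hi
    subst hi
    exact h.symm
  have hsurj := surj_of_card
    (α := Fin (E.m (.s z false) - 1) × Fin (E.mult z .b1))
    (β := {σ : Fin (E.m (.s z false)) // σ ≠ D.σ₀ z} × {ρ : Fin (E.m .R) // ρ ≠ D.ph z})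
    (fun p => (⟨D.r z .b1 p.1 p.2 (.s z false), D.hσ z .b1 p.1 p.2⟩,
      ⟨D.r z .b1 p.1 p.2 .R, hne p.1 p.2⟩)) ?_ ?_
  · obtain ⟨⟨e, c⟩, h⟩ := hsurj (⟨σ, hσ⟩, ⟨ρ, hρ⟩)
    simp only [Prod.mk.injEq, Subtype.mk.injEq] at h
    exact ⟨e, c, h.1, h.2⟩
  · rintro ⟨e, c⟩ ⟨e', c'⟩ h
    simp only [Prod.mk.injEq, Subtype.mk.injEq] at h
    by_contra hne'
    obtain ⟨i, hi, _, hri⟩ := D.hd z .b1 e c .b1 e' c' (by
      intro h'
      apply hne'
      simpa using h') h.1
    simp only [Cell.supp, mem_singleton] at hi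
    subst hi
    exact hri h.2
  · rw [Fintype.card_prod, Fintype.card_prod, Fintype.card_fin, Fintype.card_fin, card_fin_ne,
      card_fin_ne]
    exact le_rfl

lemma B2 {z : Fin E.Z} {κ : ∀ i, Fin (E.m i)} (h : D.Ω z κ) : κ .R = D.ph z := by
  by_contra hne
  obtain ⟨σ, hσ⟩ := D.exists_slice z
  obtain ⟨e, c, h1, h2⟩ := D.B1 z hσ hne
  obtain ⟨i, hi, h3⟩ := (D.O2 z κ σ hσ).1 h .b1 e c h1
  simp only [Cell.supp, mem_singleton] at hi
  subst hi
  exact h3 h2.symm

lemma B3 (z : Fin E.Z) (b : Cell E.X) (hb : b ≠ .b1) (_ : Idx.R ∈ b.supp (Z := E.Z))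
    (e : Fin (E.m (.s z false) - 1)) (c : Fin (E.mult z b)) : D.r z b e c .R = D.ph z := by
  by_contra hne
  obtain ⟨e', c', h1, h2⟩ := D.B1 z (D.hσ z b e c) hne
  obtain ⟨i, hi, hi', h3⟩ := D.hd z b e c .b1 e' c' (by
    intro h
    exact hb (congrArg Sigma.fst h)) h1.symm
  simp only [Cell.supp, mem_singleton] at hi'
  subst hi'
  exact h3 h2.symm

/-- The rows in which a cluster is visited. -/
def rows (z : Fin E.Z) : Set (Fin (E.m .k)) := {a | ∃ κ, D.Ω z κ ∧ κ .k = a}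

open Classical in
lemma card_rows (z : Fin E.Z) :
    Fintype.card {a // a ∈ D.rows z} ≤ 1 + (if E.mo z then 1 else 0) := by
  have hne : ∀ e c, D.r z .b2 e c .k ∉ D.rows z := by
    rintro e c ⟨κ, h, hk⟩
    obtain ⟨i, hi, h'⟩ := (D.O2 z _ _ (D.hσ z .b2 e c)).1 h .b2 e c rfl
    simp only [Cell.supp, mem_insert, mem_singleton] at hi
    rcases hi with rfl | rfl
    · rw [D.B2 h, D.B3 z .b2 (by simp) (by simp [Cell.supp])] at h'
      exact h' rfl
    · exact h' hk
  have hinj : Function.Injective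
      (fun p : Fin (E.m (.s z false) - 1) × Fin (E.mult z .b2) =>
        ((⟨D.r z .b2 p.1 p.2 (.s z false), D.hσ z .b2 p.1 p.2⟩,
          ⟨D.r z .b2 p.1 p.2 .k, hne p.1 p.2⟩) :
          {σ : Fin (E.m (.s z false)) // σ ≠ D.σ₀ z} × {a : Fin (E.m .k) // a ∉ D.rows z})) := by
    rintro ⟨e, c⟩ ⟨e', c'⟩ h
    simp only [Prod.mk.injEq, Subtype.mk.injEq] at h
    by_contra hne'
    obtain ⟨i, hi, _, hri⟩ := D.hd z .b2 e c .b2 e' c' (by
      intro h'
      apply hne'
      simpa using h') h.1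
    simp only [Cell.supp, mem_insert, mem_singleton] at hi
    rcases hi with rfl | rfl
    · rw [D.B3 z .b2 (by simp) (by simp [Cell.supp]),
        D.B3 z .b2 (by simp) (by simp [Cell.supp])] at hri
      exact hri rfl
    · exact hri h.2
  have hle := Fintype.card_le_of_injective _ hinj
  rw [Fintype.card_prod, Fintype.card_prod, Fintype.card_fin, Fintype.card_fin, card_fin_ne] at hle
  have h1 := D.two_le_s z false
  have h2 := Nat.le_of_mul_le_mul_left hle (by omega)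
  have h3 : Fintype.card {a : Fin (E.m .k) // a ∉ D.rows z} =
      E.m .k - Fintype.card {a : Fin (E.m .k) // a ∈ D.rows z} := by
    rw [Fintype.card_subtype_compl, Fintype.card_fin]
  have h4 : Fintype.card {a : Fin (E.m .k) // a ∈ D.rows z} ≤ E.m .k := by
    simpa using Fintype.card_subtype_le (fun a : Fin (E.m .k) => a ∈ D.rows z)
  rw [h3] at h2
  have h5 := D.two_le_k
  simp only [mult] at h2
  split_ifs at h2 ⊢ <;> omega

lemma row_of_track {x : Fin E.X} {z : Fin E.Z} (h : E.inC x z = true) :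
    D.tres (.inl x) .k ∈ D.rows z := by
  obtain ⟨κ, hs, hκ⟩ := (D.track x).1 z h
  exact ⟨κ, hκ, hs.1 .k (by simp [suppT])⟩

lemma B0 (z : Fin E.Z) (e : Fin (E.m (.s z false) - 1)) (c : Fin (E.mult z .b1)) :
    D.r z .b1 e c .R ≠ D.ph z := by
  obtain ⟨i, hi, h⟩ := (D.O2 z _ _ (D.hσ z .b1 e c)).1 (D.exists_Ω z).choose_spec .b1 e c rfl
  simp only [Cell.supp, mem_singleton] at hi
  subst hi
  exact h.symm

/-- A machine visit: in every slice there is a `b5` job in the row. -/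
lemma D1 {z : Fin E.Z} {κ : ∀ i, Fin (E.m i)} (h : D.Ω z κ) (hx : ∀ x, ¬ D.Act (.inl x) κ)
    {σ : Fin (E.m (.s z false))} (hσ : σ ≠ D.σ₀ z) :
    E.mo z = true ∧ ∃ e c, D.r z .b5 e c (.s z false) = σ ∧ D.r z .b5 e c .k = κ .k := by
  have hkM := D.hE.kM_n
  obtain ⟨v, hv⟩ := exists_fin_ne_range (fun t : Fin E.n => D.tres (.inr t) .kM) (by omega)
  have hn : ∀ τ, ¬ D.Act τ (Function.update κ .kM v) := by
    intro τ hτ
    rcases τ with x | t
    · apply hx x
      intro i hi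
      have hne : i ≠ .kM := by
        rintro rfl
        simp [suppT] at hi
      have := hτ i hi
      rwa [Function.update_of_ne hne] at this
    · have := hτ .kM (by simp [suppT])
      rw [Function.update_self] at this
      exact hv t this.symm
  obtain ⟨b, e, c', hsl, hi, hcc, hrest⟩ := D.step h (D.not_Ω_of_none hn z) hσ
  rcases b with _ | _ | _ | _ | x'
  · simp [Cell.supp] at hi
  · simp [Cell.supp] at hi
  · simp [Cell.supp] at hi
  · refine ⟨?_, e, c', hsl, hrest _ (by simp [Cell.supp]) (by simp)⟩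
    by_contra hn
    have : E.mult z .b5 = 0 := by simp [mult, hn]
    rw [this] at c'
    exact c'.elim0
  · simp [Cell.supp] at hi

/-- In a row with a `b5` job of some slice only the coordinate `kM` matters. -/
lemma D2 {z : Fin E.Z} {κ : ∀ i, Fin (E.m i)} {σ : Fin (E.m (.s z false))} (hσ : σ ≠ D.σ₀ z)
    {e₀ : Fin (E.m (.s z false) - 1)} {c₀ : Fin (E.mult z .b5)}
    (hs : D.r z .b5 e₀ c₀ (.s z false) = σ) (hk : D.r z .b5 e₀ c₀ .k = κ .k)
    (hR : κ .R = D.ph z) :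
    D.Ω z κ ↔ ∀ e c, D.r z .b5 e c (.s z false) = σ → D.r z .b5 e c .k = κ .k →
      D.r z .b5 e c .kM ≠ κ .kM := by
  rw [D.O2 z κ σ hσ]
  constructor
  · intro h e c h1 h2 h3
    obtain ⟨i, hi, hne⟩ := h .b5 e c h1
    simp only [Cell.supp, mem_insert, mem_singleton] at hi
    rcases hi with rfl | rfl | rfl
    · rw [D.B3 z .b5 (by simp) (by simp [Cell.supp])] at hne
      exact hne hR
    · exact hne h2.symm
    · exact hne h3.symm
  · intro h b e c h1
    by_contra hcov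
    push Not at hcov
    have key : b ≠ .b5 → Idx.k ∈ b.supp (Z := E.Z) →
        (∀ i, i ∈ b.supp (Z := E.Z) → i ∈ (Cell.b5 (X := E.X)).supp (Z := E.Z) →
          i = .R ∨ i = .k) → b ≠ .b1 → Idx.R ∈ b.supp (Z := E.Z) → False := by
      intro hb hkb hint hb1 hRb
      obtain ⟨i, hi, hi', hne⟩ := D.hd z b e c .b5 e₀ c₀ (by
        intro h'
        exact hb (congrArg Sigma.fst h')) (h1.trans hs.symm)
      rcases hint i hi hi' with rfl | rfl
      · rw [D.B3 z b hb1 hRb, D.B3 z .b5 (by simp) (by simp [Cell.supp])] at hne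
        exact hne rfl
      · rw [hk, ← hcov .k hkb] at hne
        exact hne rfl
    rcases b with _ | _ | _ | _ | x'
    · have h2 := hcov .R (by simp [Cell.supp])
      exact D.B0 z e c (h2.symm.trans hR)
    · exact key (by simp) (by simp [Cell.supp]) (by simp [Cell.supp]) (by simp)
        (by simp [Cell.supp])
    · exact key (by simp) (by simp [Cell.supp]) (by simp [Cell.supp]) (by simp)
        (by simp [Cell.supp])
    · exact h e c h1 (hcov .k (by simp [Cell.supp])).symm (hcov .kM (by simp [Cell.supp])).symm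
    · exact key (by simp) (by simp [Cell.supp]) (by simp [Cell.supp]) (by simp)
        (by simp [Cell.supp])

/-- Machine visits only depend on the coordinates `R`, `k`, `kM`. -/
lemma transfer {z : Fin E.Z} {κ κ' : ∀ i, Fin (E.m i)} (h : D.Ω z κ)
    (hx : ∀ x, ¬ D.Act (.inl x) κ) (hR : κ .R = κ' .R) (hk : κ .k = κ' .k)
    (hM : κ .kM = κ' .kM) : D.Ω z κ' := by
  obtain ⟨σ, hσ⟩ := D.exists_slice z
  obtain ⟨_, e, c, h1, h2⟩ := D.D1 h hx hσ
  rw [D.D2 hσ h1 (h2.trans hk) (hR.symm.trans (D.B2 h)), ← hk, ← hM]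
  exact (D.D2 hσ h1 h2 (D.B2 h)).1 h

lemma exists_A : ∃ v : Fin (E.m .A), ∀ x : Fin E.X, D.tres (.inl x) .A ≠ v :=
  exists_fin_ne_range _ D.hE.A_lt

/-- An aux-inactive point with given coordinates. -/
noncomputable def pt (ρ : Fin (E.m .R)) (a : Fin (E.m .k)) (c : Fin (E.m .kM)) :
    ∀ i, Fin (E.m i) := fun i => match i with
  | .R => ρ
  | .k => a
  | .A => D.exists_A.choose
  | .kM => c
  | .kx x => D.tres (.inl x) (.kx x)
  | .nu z => ⟨0, lt_of_lt_of_le (by norm_num) (D.hE.big (.nu z) (by simp) (by simp))⟩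
  | .s z a => ⟨0, lt_of_lt_of_le (by norm_num) (D.hE.big (.s z a) (by simp) (by simp))⟩

lemma pt_aux (ρ : Fin (E.m .R)) (a : Fin (E.m .k)) (c : Fin (E.m .kM)) (x : Fin E.X) :
    ¬ D.Act (.inl x) (D.pt ρ a c) := by
  intro h
  have h1 := h .A (by simp [suppT])
  exact D.exists_A.choose_spec x h1.symm

/-- Every machine-open cluster is machine-visited. -/
lemma D3 {z : Fin E.Z} (hz : E.mo z = true) :
    ∃ κ, D.Ω z κ ∧ ∀ x, ¬ D.Act (.inl x) κ := by
  classical
  by_contra hc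
  push Not at hc
  have hm : E.mult z .b5 = E.m .kM - 1 := by simp [mult, hz]
  let J := Fin (E.m (.s z false) - 1) × Fin (E.mult z .b5)
  let f : J → Fin (E.m (.s z false)) × Fin (E.m .k) := fun p =>
    (D.r z .b5 p.1 p.2 (.s z false), D.r z .b5 p.1 p.2 .k)
  let F : J → Set.range f × Fin (E.m .kM) := fun p =>
    (⟨f p, p, rfl⟩, D.r z .b5 p.1 p.2 .kM)
  have hF : Function.Bijective F := by
    constructor
    · rintro ⟨e, c⟩ ⟨e', c'⟩ h
      have h1 : D.r z .b5 e c (.s z false) = D.r z .b5 e' c' (.s z false) :=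
        congrArg (fun q => q.1.1.1) h
      have h2 : D.r z .b5 e c .k = D.r z .b5 e' c' .k := congrArg (fun q => q.1.1.2) h
      have h3 : D.r z .b5 e c .kM = D.r z .b5 e' c' .kM := congrArg (fun q => q.2) h
      by_contra hne'
      obtain ⟨i, hi, _, hri⟩ := D.hd z .b5 e c .b5 e' c' (by
        intro h'
        apply hne'
        simp only [Sigma.mk.injEq, heq_eq_eq, true_and] at h'
        exact Prod.ext h'.1 h'.2) h1
      simp only [Cell.supp, mem_insert, mem_singleton] at hi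
      rcases hi with rfl | rfl | rfl
      · rw [D.B3 z .b5 (by simp) (by simp [Cell.supp]),
          D.B3 z .b5 (by simp) (by simp [Cell.supp])] at hri
        exact hri rfl
      · exact hri h2
      · exact hri h3
    · rintro ⟨⟨_, ⟨⟨e, c⟩, rfl⟩⟩, v⟩
      have hnot : ¬ D.Ω z (D.pt (D.ph z) (D.r z .b5 e c .k) v) := by
        intro h
        obtain ⟨x, hx⟩ := hc _ h
        exact D.pt_aux _ _ _ x hx
      rw [D.D2 (κ := D.pt (D.ph z) (D.r z .b5 e c .k) v) (D.hσ z .b5 e c) rfl rfl rfl] at hnot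
      push Not at hnot
      obtain ⟨e', c', h1, h2, h3⟩ := hnot
      exact ⟨(e', c'), Prod.ext (Subtype.ext (Prod.ext h1 h2)) h3⟩
  have hcard := Nat.card_congr (Equiv.ofBijective F hF)
  rw [Nat.card_prod, Nat.card_prod, Nat.card_fin, Nat.card_fin, Nat.card_fin, hm] at hcard
  have h1 := D.two_le_s z false
  have h2 := D.two_le_kM
  have h3 := D.hE.kM_s z false
  have hdvd : E.m .kM ∣ (E.m (.s z false) - 1) * (E.m .kM - 1) := by
    rw [hcard]
    exact Dvd.intro_left _ rfl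
  have hcop : Nat.Coprime (E.m .kM) (E.m .kM - 1) := by
    have : E.m .kM = (E.m .kM - 1) + 1 := by omega
    rw [this]
    simp
  have h4 := Nat.le_of_dvd (by omega) (hcop.dvd_of_dvd_mul_right hdvd)
  omega

/-- The row of a machine visit is not the row of a track of the cluster. -/
lemma D4 {x : Fin E.X} {z : Fin E.Z} {κ : ∀ i, Fin (E.m i)} (h : D.Ω z κ)
    (hx : ∀ x, ¬ D.Act (.inl x) κ) (hC : E.inC x z = true) : κ .k ≠ D.tres (.inl x) .k := by
  intro hk
  obtain ⟨σ, hσ⟩ := D.exists_slice z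
  obtain ⟨_, e, c, h1, h2⟩ := D.D1 h hx hσ
  obtain ⟨κ', hs, hκ'⟩ := (D.track x).1 z hC
  obtain ⟨v, hv⟩ := exists_fin_ne (D.tres (.inl x) (.kx x)) (by have := D.two_le_kx x; omega)
  obtain ⟨e', c', h3, _, _, h4, _⟩ := D.A1 hs hκ' hσ hv
  have h5 : κ' .k = D.tres (.inl x) .k := hs.1 .k (by simp [suppT])
  obtain ⟨i, hi, hi', hne⟩ := D.hd z (.b4 x) e' c' .b5 e c (by
    intro h'
    simpa using congrArg Sigma.fst h') (h3.trans h1.symm)
  have hi2 : i = .R ∨ i = .k := by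
    revert hi hi'
    cases i <;> simp [Cell.supp]
  rcases hi2 with rfl | rfl
  · rw [D.B3 z (.b4 x) (by simp) (by simp [Cell.supp]),
      D.B3 z .b5 (by simp) (by simp [Cell.supp])] at hne
    exact hne rfl
  · rw [h4, h2, hk, h5] at hne
    exact hne rfl

lemma D5 {x x' : Fin E.X} {z : Fin E.Z} (h : E.inC x z = true) (h' : E.inC x' z = true) :
    D.tres (.inl x) .k = D.tres (.inl x') .k := by
  classical
  by_contra hne
  have hcr := D.card_rows z
  rw [Fintype.card_subtype] at hcr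
  by_cases hz : E.mo z = true
  · obtain ⟨κ, hκ, hx⟩ := D.D3 hz
    have h1 := D.D4 hκ hx h
    have h2 := D.D4 hκ hx h'
    have hsub : ({κ .k, D.tres (.inl x) .k, D.tres (.inl x') .k} : Finset (Fin (E.m .k))) ⊆
        univ.filter fun a => a ∈ D.rows z := by
      intro a ha
      simp only [mem_insert, mem_singleton] at ha
      simp only [mem_filter, mem_univ, true_and]
      rcases ha with rfl | rfl | rfl
      · exact ⟨κ, hκ, rfl⟩
      · exact D.row_of_track h
      · exact D.row_of_track h'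
    have hc := Finset.card_le_card hsub
    rw [Finset.card_insert_of_notMem (by
      simp only [mem_insert, mem_singleton, not_or]
      exact ⟨h1, h2⟩), Finset.card_pair hne] at hc
    rw [if_pos hz] at hcr
    omega
  · have hsub : ({D.tres (.inl x) .k, D.tres (.inl x') .k} : Finset (Fin (E.m .k))) ⊆
        univ.filter fun a => a ∈ D.rows z := by
      intro a ha
      simp only [mem_insert, mem_singleton] at ha
      simp only [mem_filter, mem_univ, true_and]
      rcases ha with rfl | rfl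
      · exact D.row_of_track h
      · exact D.row_of_track h'
    have hc := Finset.card_le_card hsub
    rw [Finset.card_pair hne] at hc
    rw [if_neg hz] at hcr
    omega

lemma D6' (j : ℕ) (hj : j < E.X) (h0 : 0 < E.X) :
    D.tres (.inl ⟨j, hj⟩) .k = D.tres (.inl ⟨0, h0⟩) .k := by
  induction j with
  | zero => rfl
  | succ j ih =>
    rw [← ih (by omega)]
    have h1 := D.hE.XZ
    have h2 := D.hE.two_le
    apply D.D5 (z := ⟨j + 1, by omega⟩)
    · simp only [inC, decide_eq_true_eq]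
      omega
    · simp only [inC, decide_eq_true_eq]
      omega

lemma D6 (x x' : Fin E.X) : D.tres (.inl x) .k = D.tres (.inl x') .k := by
  have h0 : 0 < E.X := lt_of_le_of_lt (Nat.zero_le _) x.2
  exact (D.D6' x.1 x.2 h0).trans (D.D6' x'.1 x'.2 h0).symm

lemma D7 {z : Fin E.Z} {κ : ∀ i, Fin (E.m i)} (h : D.Ω z κ)
    (hx : ∀ x, ¬ D.Act (.inl x) κ) (x : Fin E.X) : κ .k ≠ D.tres (.inl x) .k := by
  obtain ⟨x', hx'⟩ := D.exists_track z
  rw [D.D6 x x']
  exact D.D4 h hx hx'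

/-- Machine tokens and auxiliary tokens are in different rows. -/
lemma D8 (t : Fin E.n) (x : Fin E.X) : D.tres (.inr t) .k ≠ D.tres (.inl x) .k := by
  have hR : 0 < E.m .R := by have := D.hE.two_le; unfold R at this; omega
  have ha : D.Act (.inr t) (D.pt ⟨0, hR⟩ (D.tres (.inr t) .k) (D.tres (.inr t) .kM)) := by
    intro i hi
    simp only [suppT, mem_insert, mem_singleton] at hi
    rcases hi with rfl | rfl <;> rfl
  obtain ⟨z, hz⟩ := D.exists_Ω_of_act ha
  exact D.D7 hz (D.pt_aux _ _ _) x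

lemma D9 {t : Fin E.n} {κ : ∀ i, Fin (E.m i)} (h : D.Act (.inr t) κ) (x : Fin E.X) :
    ¬ D.Act (.inl x) κ := by
  intro h'
  apply D.D8 t x
  rw [← h .k (by simp [suppT]), ← h' .k (by simp [suppT])]

include D in
lemma card_mo : E.m .R * E.n ≤ Fintype.card {z : Fin E.Z // E.mo z = true} := by
  have h1 : Fintype.card {z : Fin E.Z // E.mo z = true} =
      ((range E.Z).filter fun z => E.mo z = true).card := by
    rw [Fintype.card_subtype]
    apply Finset.card_nbij (fun z => z.1)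
    · intro z hz
      simp only [coe_filter, mem_univ, true_and, Set.mem_ofPred_eq] at hz
      simp only [coe_filter, mem_range, Set.mem_ofPred_eq]
      exact ⟨z.2, hz⟩
    · intro z _ z' _ h
      exact Fin.ext h
    · intro z hz
      simp only [coe_filter, mem_range, Set.mem_ofPred_eq] at hz
      exact ⟨⟨z, hz.1⟩, by simpa using hz.2, rfl⟩
  have h2 : 0 < E.R := by have := D.hE.two_le; omega
  rw [h1, Finset.card_eq_sum_card_fiberwise (f := fun z => z % E.R) (t := range E.R) (by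
    intro z _
    simp only [coe_range, Set.mem_Iio]
    exact Nat.mod_lt _ h2)]
  rw [Finset.sum_congr rfl (g := fun _ => E.n) (by
    intro r hr
    rw [Finset.filter_filter]
    exact D.hE.count r (mem_range.1 hr))]
  simp [R]

/-- The machine coset of a cluster is unique. -/
lemma uniq {z : Fin E.Z} {κ κ' : ∀ i, Fin (E.m i)} (h : D.Ω z κ)
    (hx : ∀ x, ¬ D.Act (.inl x) κ) (h' : D.Ω z κ') (hx' : ∀ x, ¬ D.Act (.inl x) κ') :
    κ .k = κ' .k ∧ κ .kM = κ' .kM := by
  classical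
  let P := Fin (E.m .R) × Fin (E.m .k) × Fin (E.m .kM)
  let pp : P → ∀ i, Fin (E.m i) := fun p => D.pt p.1 p.2.1 p.2.2
  let W := {q : P × Fin E.Z // D.Ω q.2 (pp q.1)}
  have hW : Nat.card W ≤ E.m .R * E.n := by
    have e1 : W ≃ Σ p : P, {z : Fin E.Z // D.Ω z (pp p)} :=
      Equiv.subtypeProdEquivSigmaSubtype (fun p z => D.Ω z (pp p))
    have e2 : {q : P × E.Tok // D.Act q.2 (pp q.1)} ≃ Σ p : P, {τ : E.Tok // D.Act τ (pp p)} :=
      Equiv.subtypeProdEquivSigmaSubtype (fun p τ => D.Act τ (pp p))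
    have h3 : Nat.card W = Nat.card {q : P × E.Tok // D.Act q.2 (pp q.1)} := by
      rw [Nat.card_congr e1, Nat.card_congr e2, Nat.card_sigma, Nat.card_sigma]
      exact Finset.sum_congr rfl fun p _ => D.O1 (pp p)
    rw [h3]
    have h4 : E.m .R * E.n = Nat.card (Fin (E.m .R) × Fin E.n) := by simp
    rw [h4]
    have hact : ∀ q : Fin (E.m .R) × Fin E.n, D.Act (.inr q.2)
        (pp (q.1, D.tres (.inr q.2) .k, D.tres (.inr q.2) .kM)) := by
      intro q i hi
      simp only [suppT, mem_insert, mem_singleton] at hi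
      rcases hi with rfl | rfl <;> rfl
    apply Nat.card_le_card_of_surjective
      (fun q : Fin (E.m .R) × Fin E.n =>
        (⟨((q.1, D.tres (.inr q.2) .k, D.tres (.inr q.2) .kM), .inr q.2), hact q⟩ :
          {q : P × E.Tok // D.Act q.2 (pp q.1)}))
    rintro ⟨⟨⟨ρ, a, c⟩, τ⟩, hq⟩
    rcases τ with x | t
    · exact absurd hq (D.pt_aux _ _ _ x)
    · refine ⟨(ρ, t), ?_⟩
      have ha : a = D.tres (.inr t) .k := hq .k (by simp [suppT])
      have hc : c = D.tres (.inr t) .kM := hq .kM (by simp [suppT])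
      subst ha hc
      rfl
  have hmo : ∀ q : W, E.mo q.1.2 = true := by
    intro q
    obtain ⟨σ, hσ⟩ := D.exists_slice q.1.2
    exact (D.D1 q.2 (D.pt_aux _ _ _) hσ).1
  have hinj := inj_of_card (fun q : W => (⟨q.1.2, hmo q⟩ : {z : Fin E.Z // E.mo z = true})) (by
    rintro ⟨z, hz⟩
    obtain ⟨κ, hκ, hx⟩ := D.D3 hz
    exact ⟨⟨((κ .R, κ .k, κ .kM), z), D.transfer hκ hx rfl rfl rfl⟩, rfl⟩) (by
    rw [← Nat.card_eq_fintype_card]
    exact hW.trans D.card_mo)
  have := @hinj ⟨((κ .R, κ .k, κ .kM), z), D.transfer h hx rfl rfl rfl⟩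
    ⟨((κ' .R, κ' .k, κ' .kM), z), D.transfer h' hx' rfl rfl rfl⟩ rfl
  exact ⟨congrArg (fun q => q.1.1.2.1) this, congrArg (fun q => q.1.1.2.2) this⟩

end BD

/-- Part B. `Ω z` is described by the main jobs of the lane `(z, false)` in any slice. -/
theorem structB (E : Env) {Q : ℕ} (hE : E.Good Q)
    (r : ∀ (z : Fin E.Z) (b : Cell E.X), Fin (E.m (.s z false) - 1) → Fin (E.mult z b) →
      ∀ i, Fin (E.m i))
    (σ₀ : ∀ z : Fin E.Z, Fin (E.m (.s z false)))
    (tres : E.Tok → ∀ i, Fin (E.m i))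
    (Ω : Fin E.Z → (∀ i, Fin (E.m i)) → Prop)
    (hσ : ∀ z b e c, r z b e c (.s z false) ≠ σ₀ z)
    (hd : ∀ z b e c b' e' c', (⟨b, e, c⟩ : Σ b, (_ : Fin (E.m (.s z false) - 1)) ×
        Fin (E.mult z b)) ≠ ⟨b', e', c'⟩ →
      r z b e c (.s z false) = r z b' e' c' (.s z false) →
      ∃ i, i ∈ b.supp ∧ i ∈ b'.supp ∧ r z b e c i ≠ r z b' e' c' i)
    (O1 : ∀ κ, Nat.card {z // Ω z κ} = Nat.card {τ // ∀ i ∈ E.suppT τ, κ i = tres τ i})
    (O2 : ∀ z κ (σ : Fin (E.m (.s z false))), σ ≠ σ₀ z →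
      (Ω z κ ↔ ∀ b e c, r z b e c (.s z false) = σ → ∃ i ∈ b.supp, κ i ≠ r z b e c i)) :
    ∃ (ρ : Fin E.Z → Fin (E.m .R)) (γ : Fin E.Z → Fin (E.m .k) × Fin (E.m .kM)),
      (∀ (x : Fin E.X) (z z' : Fin E.Z), E.inC x z = true → E.inC x z' = true → ρ z = ρ z' →
        z = z') ∧
      (∀ (x : Fin E.X) κ, (∀ i ∈ E.suppT (.inl x), κ i = tres (.inl x) i) →
        (∀ τ, τ ≠ .inl x → ∃ i ∈ E.suppT τ, κ i ≠ tres τ i) →
        ∀ z, Ω z κ → E.inC x z = true ∧ ρ z = κ .R) ∧
      (∀ (t : Fin E.n) κ, (∀ i ∈ E.suppT (.inr t), κ i = tres (.inr t) i) →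
        (∀ z, Ω z κ ↔ E.mo z = true ∧ ρ z = κ .R ∧ γ z = (κ .k, κ .kM)) ∧
        ∀ x, ∃ i ∈ E.suppT (.inl x), κ i ≠ tres (.inl x) i) := by
  classical
  let D : BD E Q := ⟨hE, r, σ₀, tres, Ω, hσ, hd, O1, O2⟩
  have hk : 0 < E.m .k := by have := D.two_le_k; omega
  have hkM : 0 < E.m .kM := by have := D.two_le_kM; omega
  refine ⟨D.ph, fun z => if hz : E.mo z = true then ((D.D3 hz).choose .k, (D.D3 hz).choose .kM)
    else (⟨0, hk⟩, ⟨0, hkM⟩), ?_, ?_, ?_⟩
  · intro x z z' h h' hph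
    obtain ⟨κ, hs, hκ⟩ := (D.track x).1 z h
    obtain ⟨κ', hs', hκ'⟩ := (D.track x).1 z' h'
    exact (D.track x).2 z z' κ κ' hs hs' hκ hκ' (by rw [D.B2 hκ, D.B2 hκ', hph])
  · intro x κ h1 h2 z hz
    have hs : D.Solo x κ := by
      refine ⟨h1, ?_⟩
      intro τ hτ h
      obtain ⟨i, hi, hne⟩ := h2 τ hτ
      exact hne (h i hi)
    exact ⟨D.inC_of_solo hs hz, (D.B2 hz).symm⟩
  · intro t κ ht
    have hx := fun x => D.D9 (t := t) (κ := κ) ht x
    refine ⟨?_, ?_⟩
    · intro z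
      constructor
      · intro hz
        obtain ⟨σ, hσ'⟩ := D.exists_slice z
        have hmo := (D.D1 hz hx hσ').1
        have hu := D.uniq (D.D3 hmo).choose_spec.1 (D.D3 hmo).choose_spec.2 hz hx
        refine ⟨hmo, (D.B2 hz).symm, ?_⟩
        beta_reduce
        rw [dif_pos hmo, hu.1, hu.2]
      · rintro ⟨hmo, hR, hγ⟩
        beta_reduce at hγ
        rw [dif_pos hmo, Prod.mk.injEq] at hγ
        exact D.transfer (D.D3 hmo).choose_spec.1 (D.D3 hmo).choose_spec.2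
          ((D.B2 (D.D3 hmo).choose_spec.1).trans hR) hγ.1 hγ.2
    · intro x
      by_contra hc
      push Not at hc
      exact hx x hc

end Env

end Pool.Agent.Lib.Pinwheel
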