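import Pool.Agent.Lib.Pinwheel.SoundBlk
import Pool.Agent.Lib.Pinwheel.StructA
import Pool.Agent.Lib.Pinwheel.StructB

/-!
# The forced structure of a block schedule
-/

namespace Pool.Agent.Lib.Pinwheel

open Finset

namespace Env

variable {E : Env}

namespace Blk

variable {B : ℕ} {al : ℕ → ℕ} {Q : ℕ}

/-- The forced structure. -/
structure Forced (K : E.Blk B al) (hE : E.Good Q) where
  /-- the lanes of a cluster -/
  P : Fin E.Z → Bool → K.Lane
  /-- the cluster is visited -/
  Ω : Fin E.Z → (∀ i, Fin (E.m i)) → Prop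
  /-- the phase of a cluster -/
  ρ : Fin E.Z → Fin (E.m .R)
  /-- the machine coset of a cluster -/
  γ : Fin E.Z → Fin (E.m .k) × Fin (E.m .kM)
  P_bij : ∀ ℓ, ∃! p : Fin E.Z × Bool, P p.1 p.2 = ℓ
  lab : ∀ z a, K.laneOf (.lab z a) = P z a
  card : ∀ κ, Nat.card {z // Ω z κ} = Nat.card {τ // (K.arr hE).Act τ κ}
  free : ∀ z κ, Ω z κ → ∃! a, (K.arr hE).Free (P z a) κ
  notfree : ∀ z κ, ¬ Ω z κ → ∀ a, ¬ (K.arr hE).Free (P z a) κ
  track : ∀ (x : Fin E.X) (z z' : Fin E.Z), E.inC x z = true → E.inC x z' = true → ρ z = ρ z' →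
    z = z'
  aux : ∀ (x : Fin E.X) κ, (K.arr hE).Act (.inl x) κ →
    (∀ τ, τ ≠ .inl x → ¬ (K.arr hE).Act τ κ) → ∀ z, Ω z κ → E.inC x z = true ∧ ρ z = κ .R
  mach : ∀ (t : Fin E.n) κ, (K.arr hE).Act (.inr t) κ →
    (∀ z, Ω z κ ↔ E.mo z = true ∧ ρ z = κ .R ∧ γ z = (κ .k, κ .kM)) ∧
    ∀ x, ¬ (K.arr hE).Act (.inl x) κ

theorem exists_forced (K : E.Blk B al) (hE : E.Good Q) (hB : 2 * E.Z ≤ B) :
    Nonempty (K.Forced hE) := by
  obtain ⟨P, Ω, a1, a2, a3, a4, a5, a6, a7, a8⟩ := E.structA (K.card_lane hB) (K.arr hE)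
    hE.m_pos (E.dens_h1 hE) (E.dens_h2 hE)
  have hσ : ∀ z b e c, (K.arr hE).res (.main z false b e c) (.s z false) ≠
      (K.arr hE).res (.lab z false) (.s z false) := by
    intro z b e c
    obtain ⟨i, h1, h2, h3⟩ := (K.arr hE).disj (.main z false b e c) (.lab z false)
      (by simp) ((a3 z false b e c).trans (a2 z false).symm)
    have hi : i = .s z false := by
      simp only [RJ.supp, Finset.mem_insert, Finset.mem_singleton] at h1 h2
      rcases h2 with rfl | rfl
      · rcases h1 with h1 | h1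
        · cases h1
        · rcases b with _ | _ | _ | _ | x <;> simp [Cell.supp] at h1
      · rfl
    subst hi
    exact h3
  have hd : ∀ z b e c b' e' c', (⟨b, e, c⟩ : Σ b, (_ : Fin (E.m (.s z false) - 1)) ×
        Fin (E.mult z b)) ≠ ⟨b', e', c'⟩ →
      (K.arr hE).res (.main z false b e c) (.s z false) =
        (K.arr hE).res (.main z false b' e' c') (.s z false) →
      ∃ i, i ∈ b.supp ∧ i ∈ b'.supp ∧ (K.arr hE).res (.main z false b e c) i ≠
        (K.arr hE).res (.main z false b' e' c') i := by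
    intro z b e c b' e' c' hne hs
    obtain ⟨i, h1, h2, h3⟩ := (K.arr hE).disj (.main z false b e c) (.main z false b' e' c')
      (by
        intro h
        injection h with _ _ h1 h2 h3
        subst h1
        exact hne (by rw [h2, eq_of_heq h3]))
      ((a3 z false b e c).trans (a3 z false b' e' c').symm)
    simp only [RJ.supp, Finset.mem_insert] at h1 h2
    by_cases hi : i = .s z false
    · subst hi
      exact absurd hs h3
    · exact ⟨i, h1.resolve_left hi, h2.resolve_left hi, h3⟩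
  obtain ⟨ρ, γ, b1, b2, b3⟩ := E.structB hE
    (fun z b e c => (K.arr hE).res (.main z false b e c))
    (fun z => (K.arr hE).res (.lab z false) (.s z false)) (K.arr hE).tres Ω hσ hd a5 a6
  refine ⟨⟨P, Ω, ρ, γ, a1, a2, a5, a7, a8, b1, ?_, ?_⟩⟩
  · intro x κ h1 h2
    refine b2 x κ h1 fun τ hτ => ?_
    have := h2 τ hτ
    unfold Arr.Act at this
    push Not at this
    exact this
  · intro t κ h
    refine ⟨(b3 t κ h).1, fun x => ?_⟩
    have := (b3 t κ h).2 x
    unfold Arr.Act
    push Not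
    exact this

end Blk

end Env

end Pool.Agent.Lib.Pinwheel
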