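import Pool.Agent.Lib.Pinwheel.SoundAux
import Pool.Agent.Lib.Pinwheel.Geom

/-!
# The visits of the machine tokens
-/

namespace Pool.Agent.Lib.Pinwheel

open Finset

namespace Env

variable {E : Env}

theorem Good.X_pos {Q : ℕ} (hE : E.Good Q) : 0 < E.X := by
  have h1 := hE.XZ
  have h2 := hE.Z4
  have h3 := hE.two_le
  omega

theorem Good.coprime {Q : ℕ} (hE : E.Good Q) : Nat.Coprime Q E.R := by
  have h1 := hE.stride (.inl ⟨0, hE.X_pos⟩)
  have h2 : Nat.Coprime (E.Mod (E.suppT (.inl ⟨0, hE.X_pos⟩))) E.R := by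
    refine Nat.Coprime.prod_left fun i hi => hE.cop i .R ?_
    rintro rfl
    simp [suppT] at hi
  rw [Nat.coprime_iff_gcd_eq_one] at h2 ⊢
  rw [Nat.gcd_comm, Nat.gcd_rec, ← h1, ← Nat.gcd_rec, Nat.gcd_comm]
  exact h2

namespace Blk

variable {B : ℕ} {al : ℕ → ℕ} {Q : ℕ} {K : E.Blk B al} {hE : E.Good Q}

theorem Forced.mach_visit (F : K.Forced hE) (t : Fin E.n) (u : ℕ)
    (h : u % E.Mod (E.suppT (.inr t)) = K.r (.inr (.inr (.inr t)))) :
    ∃ z a, (F.P z a).1.1 = K.pos (.inr (.inr (.inr t))) u ∧ E.mo z = true ∧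
      F.ρ z = co hE u .R ∧ F.γ z = (co hE u .k, co hE u .kM) ∧
      (K.arr hE).Free (F.P z a) (co hE u) := by
  have h1 := (K.act_iff hE (.inr t) u).2 h
  have hw : ∀ w, K.pos (.inl w) 0 ≠ K.pos (.inr (.inr (.inr t))) u := K.tok_not_wall (.inr t) u h
  obtain ⟨⟨z, a⟩, hp, -⟩ := F.P_bij ⟨⟨K.pos (.inr (.inr (.inr t))) u, K.pos_lt _ _⟩, hw⟩
  have h2 : (K.arr hE).Free (F.P z a) (co hE u) := by
    rw [K.free_iff hE]
    refine ⟨.inr t, h, ?_⟩
    dsimp only at hp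
    rw [hp]
  have h3 : F.Ω z (co hE u) := by
    by_contra h4
    exact F.notfree z _ h4 a h2
  obtain ⟨h5, h6, h7⟩ := ((F.mach t _ h1).1 z).1 h3
  refine ⟨z, a, ?_, h5, h6, h7, h2⟩
  dsimp only at hp
  rw [hp]

theorem Forced.mach_unique (F : K.Forced hE) (t t' : Fin E.n) (u : ℕ)
    (h : u % E.Mod (E.suppT (.inr t)) = K.r (.inr (.inr (.inr t))))
    (h' : u % E.Mod (E.suppT (.inr t')) = K.r (.inr (.inr (.inr t')))) (z : Fin E.Z) (a a' : Bool)
    (ha : (F.P z a).1.1 = K.pos (.inr (.inr (.inr t))) u)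
    (ha' : (F.P z a').1.1 = K.pos (.inr (.inr (.inr t'))) u)
    (hf : (K.arr hE).Free (F.P z a) (co hE u)) (hf' : (K.arr hE).Free (F.P z a') (co hE u)) :
    t = t' := by
  have h3 : F.Ω z (co hE u) := by
    by_contra h4
    exact F.notfree z _ h4 a hf
  obtain ⟨a₀, -, h5⟩ := F.free z _ h3
  have h6 : a = a' := (h5 a hf).trans (h5 a' hf').symm
  subst h6
  exact Sum.inr_injective (K.tok_unique (.inr t) (.inr t') u h h' (ha.symm.trans ha'))

theorem Forced.P_inj (F : K.Forced hE) (z z' : Fin E.Z) (a a' : Bool)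
    (h : (F.P z a).1.1 = (F.P z' a').1.1) : z = z' ∧ a = a' := by
  have h1 : F.P z a = F.P z' a' := Subtype.ext (Fin.ext h)
  obtain ⟨p, -, h2⟩ := F.P_bij (F.P z a)
  have h3 := h2 (z, a) rfl
  have h4 := h2 (z', a') h1.symm
  have h5 := h3.trans h4.symm
  exact ⟨congrArg Prod.fst h5, congrArg Prod.snd h5⟩

/-- The geometry of the lanes. -/
theorem Forced.geom (F : K.Forced hE) :
    ∃ (q : ZMod E.R), IsUnit q ∧ (q * (Q : ZMod E.R) = 1) ∧
    ((∃ (m : ℤ) (c : ZMod E.R), (∀ z : Fin E.Z, q * ((F.ρ z : ℕ) : ZMod E.R) = c + (z : ℕ)) ∧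
      ∀ z : Fin E.Z, E.R ≤ z → z + E.R < E.Z → ∀ a,
        m + 2 * (z : ℕ) ≤ (F.P z a).1.1 ∧ ((F.P z a).1.1 : ℤ) ≤ m + 2 * (z : ℕ) + 1) ∨
    (∃ (m : ℤ) (c : ZMod E.R), (∀ z : Fin E.Z, q * ((F.ρ z : ℕ) : ZMod E.R) = c - (z : ℕ)) ∧
      ∀ z : Fin E.Z, E.R ≤ z → z + E.R < E.Z → ∀ a,
        m - 2 * (z : ℕ) ≤ (F.P z a).1.1 ∧ ((F.P z a).1.1 : ℤ) ≤ m - 2 * (z : ℕ) + 1)) := by
  have hR := hE.two_le
  have hZ := hE.Z4
  have hX := hE.XZ
  have hRdef : E.m .R = E.R := rfl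
  have : Fact (1 < E.R) := ⟨by omega⟩
  set qu : (ZMod E.R)ˣ := (ZMod.unitOfCoprime Q hE.coprime)⁻¹ with hqu
  have hq1 : (qu : ZMod E.R) * (Q : ZMod E.R) = 1 := by
    have : (Q : ZMod E.R) = ((ZMod.unitOfCoprime Q hE.coprime : (ZMod E.R)ˣ) : ZMod E.R) :=
      (ZMod.coe_unitOfCoprime Q hE.coprime).symm
    rw [this, hqu, Units.inv_mul]
  have hcast : ∀ z z' : Fin E.Z, ((F.ρ z : ℕ) : ZMod E.R) = ((F.ρ z' : ℕ) : ZMod E.R) →
      F.ρ z = F.ρ z' := by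
    intro z z' h
    have h1 := (ZMod.natCast_eq_natCast_iff' _ _ _).1 h
    have hl : (F.ρ z : ℕ) < E.R := (F.ρ z).2
    have hl' : (F.ρ z' : ℕ) < E.R := (F.ρ z').2
    rw [Nat.mod_eq_of_lt hl, Nat.mod_eq_of_lt hl'] at h1
    exact Fin.ext h1
  refine ⟨qu, qu.isUnit, hq1, ?_⟩
  have key := Pinwheel.geom E.R E.Z hR hZ
    (fun z a => if h : z < E.Z then ((F.P ⟨z, h⟩ a).1.1 : ℤ) else 0)
    (fun z => if h : z < E.Z then (qu : ZMod E.R) * ((F.ρ ⟨z, h⟩ : ℕ) : ZMod E.R) else 0)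
    (by
      intro z hz z' hz' a a' h
      simp only [hz, hz', dif_pos] at h
      have := F.P_inj ⟨z, hz⟩ ⟨z', hz'⟩ a a' (by exact_mod_cast h)
      exact ⟨congrArg Fin.val this.1, this.2⟩)
    (by
      intro x z z' hx h1 h2 h3 h4 h
      have hz : z < E.Z := by omega
      have hz' : z' < E.Z := by omega
      simp only [hz, hz', dif_pos] at h
      have h5 := hcast _ _ (qu.isUnit.mul_left_cancel h)
      have hx' : x < E.X := by omega
      have := F.track ⟨x, hx'⟩ ⟨z, hz⟩ ⟨z', hz'⟩ (by simp [inC]; omega) (by simp [inC]; omega) h5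
      exact congrArg Fin.val this)
    (by
      intro z hz z' hz' h1 h2 h a a'
      simp only [hz, hz', dif_pos] at h ⊢
      have h3 : ((F.ρ ⟨z', hz'⟩ : ℕ) : ZMod E.R) = ((F.ρ ⟨z, hz⟩ : ℕ) : ZMod E.R) + Q := by
        refine qu.isUnit.mul_left_cancel ?_
        rw [h, mul_add, hq1]
      have h4 : (F.ρ ⟨z', hz'⟩ : ℕ) = ((F.ρ ⟨z, hz⟩ : ℕ) + Q) % E.m .R := by
        have h5 : (((F.ρ ⟨z', hz'⟩ : ℕ) : ℕ) : ZMod E.R) = (((F.ρ ⟨z, hz⟩ : ℕ) + Q : ℕ) : ZMod E.R) := by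
          rw [h3]
          push_cast
          ring
        have h6 := (ZMod.natCast_eq_natCast_iff' _ _ _).1 h5
        have hl : (F.ρ ⟨z', hz'⟩ : ℕ) < E.R := (F.ρ ⟨z', hz'⟩).2
        rw [Nat.mod_eq_of_lt hl] at h6
        exact h6
      have hne : (⟨z, hz⟩ : Fin E.Z) ≠ ⟨z', hz'⟩ := by
        intro h5
        rw [← h5] at h
        have : (1 : ZMod E.R) = 0 := by
          have h6 : (qu : ZMod E.R) * ((F.ρ ⟨z, hz⟩ : ℕ) : ZMod E.R) + 0 =
            (qu : ZMod E.R) * ((F.ρ ⟨z, hz⟩ : ℕ) : ZMod E.R) + 1 := by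
            rw [add_zero]
            exact h
          exact (add_left_cancel h6).symm
        exact one_ne_zero this
      have hx : min (min z z') (E.X - 1) < E.X := by omega
      have := F.aux_step ⟨min (min z z') (E.X - 1), hx⟩ ⟨z, hz⟩ ⟨z', hz'⟩
        (by simp only [inC, decide_eq_true_eq]; omega)
        (by simp only [inC, decide_eq_true_eq]; omega) hne h4 a a'
      exact_mod_cast this)
  rcases key with ⟨m, c, k1, k2⟩ | ⟨m, c, k1, k2⟩
  · refine Or.inl ⟨m, c, fun z => ?_, fun z h1 h2 a => ?_⟩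
    · have := k1 z z.2
      simpa using this
    · have := k2 z h1 h2 a
      simpa using this
  · refine Or.inr ⟨m, c, fun z => ?_, fun z h1 h2 a => ?_⟩
    · have := k1 z z.2
      simpa using this
    · have := k2 z h1 h2 a
      simpa using this

end Blk

end Env

end Pool.Agent.Lib.Pinwheel
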