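import Pool.Agent.Lib.CookLevin.Tab
import Pool.Agent.Lib.CookLevin.TabPoly

/-!
# The clauses for the chains of assignments of a local rule, with restart and clock
-/

namespace Pool.Agent.Lib.Pinwheel.Sp

open Pool.Agent.Lib.PolyTime Pool.Agent.Lib.CookLevin Pool.Agent.Lib.CookLevin.Rule

/-- The clause saying that the word at the position `off` is different from `v`. -/
def dif (b off : ℕ) (v : List Bool) : List (ℕ × Bool) :=
  (List.range b).map fun j => (off + j, !(v.getD j false))

/-- the word of length `b` at the position `off` -/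
def cell (b : ℕ) (e : ℕ → Bool) (off : ℕ) : List Bool := (List.range b).map fun j => e (off + j)

theorem length_cell (b : ℕ) (e : ℕ → Bool) (off : ℕ) : (cell b e off).length = b := by
  simp [cell]

theorem sat_dif {b : ℕ} {e : ℕ → Bool} {off : ℕ} {v : List Bool} (hv : v.length = b) :
    Sat e (dif b off v) ↔ cell b e off ≠ v := by
  rw [Ne, List.ext_getElem_iff]
  simp only [length_cell, hv, true_and, not_forall]
  constructor
  · rintro ⟨l, hl, h⟩
    rw [dif, List.mem_map] at hl
    obtain ⟨j, hj, rfl⟩ := hl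
    rw [List.mem_range] at hj
    refine ⟨j, hj, hj, ?_⟩
    simp only at h
    rw [List.getD_eq_getElem _ _ (by omega)] at h
    simp only [cell, List.getElem_map, List.getElem_range, h]
    simp
  · rintro ⟨j, hj, _, h⟩
    refine ⟨_, List.mem_map.2 ⟨j, List.mem_range.2 hj, rfl⟩, ?_⟩
    simp only
    rw [List.getD_eq_getElem _ _ (by omega)]
    simp only [cell, List.getElem_map, List.getElem_range] at h
    revert h
    cases e (off + j) <;> cases v[j] <;> simp

variable (R : Rule)

/-- number of variables -/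
def nv (W m : ℕ) : ℕ := (W + 1) * R.b + 2 * m

/-- the cell `W` is blank -/
def cl1 (W : ℕ) : List (List (ℕ × Bool)) :=
  ((allBits R.b).filter fun v => decide (v ≠ R.bl)).map fun v => dif R.b (W * R.b) v

/-- patterns -/
def pat0 : List (List Bool × List Bool × List Bool) :=
  ((allBits R.b).product ((allBits R.b).product (allBits R.b))).filter
    fun p => decide (R.acc p.1 = false ∧ p.2.2 ≠ R.R0 p.1 p.2.1)

/-- patterns -/
def pat1 : List ((List Bool × List Bool) × (List Bool × List Bool) × List Bool) :=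
  (((allBits R.b).product (allBits R.b)).product
    (((allBits R.b).product (allBits R.b)).product (allBits R.b))).filter
    fun p => decide (R.acc p.1.1 = false ∧ p.2.2 ≠ R.R1 p.1.1 p.1.2 p.2.1.1 p.2.1.2)

/-- the cell `0` -/
def cl2 (W m : ℕ) : List (List (ℕ × Bool)) :=
  (pat0 R).map fun p => dif R.b 0 p.1 ++ dif R.b R.b p.2.1 ++ dif R.b (nv R W m) p.2.2

/-- the cells `1, ..., W - 1` -/
def cl3 (W m : ℕ) : List (List (ℕ × Bool)) :=
  (List.range (W - 1)).flatMap fun i => (pat1 R).map fun p =>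
    dif R.b 0 p.1.1 ++ dif R.b (i * R.b) p.1.2 ++ dif R.b ((i + 1) * R.b) p.2.1.1 ++
      dif R.b ((i + 2) * R.b) p.2.1.2 ++ dif R.b (nv R W m + (i + 1) * R.b) p.2.2

/-- restart -/
def cl4 (W m : ℕ) (ini : List (List Bool)) : List (List (ℕ × Bool)) :=
  (List.range W).flatMap fun i => ((allBits R.b).filter fun y =>
    decide (y ≠ ini.getD i [])).flatMap fun y =>
      ((allBits R.b).filter fun u => R.acc u).map fun u =>
        dif R.b 0 u ++ dif R.b (nv R W m + i * R.b) y

/-- clock -/
def cl5 (W m : ℕ) : List (List (ℕ × Bool)) :=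
  ((allBits R.b).filter fun u => !(R.acc u)).map fun u =>
    dif R.b 0 u ++ (List.range m).map fun i => ((W + 1) * R.b + m + i, true)

/-- clock -/
def cl6 (W m : ℕ) : List (List (ℕ × Bool)) :=
  (List.range m).flatMap fun i =>
    [[((W + 1) * R.b + m + i, false), ((W + 1) * R.b + i, false)],
     [((W + 1) * R.b + m + i, false), (nv R W m + ((W + 1) * R.b + i), true)]] ++
    ((List.range m).filter fun j => decide (i < j)).flatMap fun j =>
      [[((W + 1) * R.b + m + i, false), ((W + 1) * R.b + j, true),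
        (nv R W m + ((W + 1) * R.b + j), false)],
       [((W + 1) * R.b + m + i, false), ((W + 1) * R.b + j, false),
        (nv R W m + ((W + 1) * R.b + j), true)]]

/-- all clauses -/
def cls (W m : ℕ) (ini : List (List Bool)) : List (List (ℕ × Bool)) :=
  cl1 R W ++ cl2 R W m ++ cl3 R W m ++ cl4 R W m ini ++ cl5 R W m ++ cl6 R W m

/-- two assignments -/
def join (N : ℕ) (s s' : ℕ → Bool) (v : ℕ) : Bool := if v < N then s v else s' (v - N)

theorem cell_join_left {b N : ℕ} {s s' : ℕ → Bool} {off : ℕ} (h : off + b ≤ N) :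
    cell b (join N s s') off = cell b s off := by
  refine List.map_congr_left fun j hj => ?_
  rw [List.mem_range] at hj
  rw [join, if_pos (by omega)]

theorem cell_join_right {b N : ℕ} {s s' : ℕ → Bool} {off : ℕ} :
    cell b (join N s s') (N + off) = cell b s' off := by
  refine List.map_congr_left fun j _ => ?_
  rw [join, if_neg (by omega)]
  congr 1
  omega

/-- the meaning of the clauses -/
structure Sem (W m : ℕ) (ini : List (List Bool)) (s s' : ℕ → Bool) : Prop where
  edge : cell R.b s (W * R.b) = R.bl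
  zero : R.acc (cell R.b s 0) = false → cell R.b s' 0 = R.R0 (cell R.b s 0) (cell R.b s R.b)
  step : R.acc (cell R.b s 0) = false → ∀ i < W - 1, cell R.b s' ((i + 1) * R.b) =
    R.R1 (cell R.b s 0) (cell R.b s (i * R.b)) (cell R.b s ((i + 1) * R.b))
      (cell R.b s ((i + 2) * R.b))
  rest : R.acc (cell R.b s 0) = true → ∀ i < W, cell R.b s' (i * R.b) = ini.getD i []
  clk : R.acc (cell R.b s 0) = false → ∃ i < m, s ((W + 1) * R.b + m + i) = true
  inc : ∀ i < m, s ((W + 1) * R.b + m + i) = true → s ((W + 1) * R.b + i) = false ∧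
    s' ((W + 1) * R.b + i) = true ∧
    ∀ j < m, i < j → s ((W + 1) * R.b + j) = s' ((W + 1) * R.b + j)

theorem bd {W m b i : ℕ} (h : i ≤ W) : i * b + b ≤ (W + 1) * b + 2 * m := by
  have : (i + 1) * b ≤ (W + 1) * b := Nat.mul_le_mul_right _ (by omega)
  have h2 : (i + 1) * b = i * b + b := by ring
  omega

theorem sem1 (W m : ℕ) (s s' : ℕ → Bool) :
    (∀ c ∈ cl1 R W, Sat (join (nv R W m) s s') c) ↔ cell R.b s (W * R.b) = R.bl := by
  have e1 : cell R.b (join (nv R W m) s s') (W * R.b) = cell R.b s (W * R.b) :=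
    cell_join_left (bd le_rfl)
  simp only [cl1, List.mem_map, List.mem_filter, decide_eq_true_eq, mem_allBits]
  constructor
  · intro h
    by_contra hn
    have h1 := h _ ⟨_, ⟨length_cell R.b s (W * R.b), hn⟩, rfl⟩
    rw [sat_dif (length_cell _ _ _)] at h1
    exact h1 e1
  · rintro h c ⟨v, ⟨hv, hv1⟩, rfl⟩
    rw [sat_dif hv, e1, h]
    exact fun h' => hv1 h'.symm

theorem sem2 (W m : ℕ) (hW : 0 < W) (s s' : ℕ → Bool) :
    (∀ c ∈ cl2 R W m, Sat (join (nv R W m) s s') c) ↔
      (R.acc (cell R.b s 0) = false → cell R.b s' 0 = R.R0 (cell R.b s 0) (cell R.b s R.b)) := by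
  have e0 : cell R.b (join (nv R W m) s s') 0 = cell R.b s 0 :=
    cell_join_left (by have := bd (m := m) (b := R.b) (Nat.zero_le W); simpa [nv] using this)
  have e1 : cell R.b (join (nv R W m) s s') R.b = cell R.b s R.b := by
    refine cell_join_left ?_
    have := bd (m := m) (b := R.b) (i := 1) (W := W) (by omega)
    simpa [nv] using this
  have e2 : cell R.b (join (nv R W m) s s') (nv R W m) = cell R.b s' 0 :=
    cell_join_right (off := 0)
  simp only [cl2, pat0, List.mem_map, List.mem_filter, decide_eq_true_eq, mem_allBits, mem_prod]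
  constructor
  · intro h ha
    by_contra hn
    have h1 := h _ ⟨(cell R.b s 0, cell R.b s R.b, cell R.b s' 0),
      ⟨⟨length_cell _ _ _, length_cell _ _ _, length_cell _ _ _⟩, ha, hn⟩, rfl⟩
    simp only [sat_append] at h1
    rw [sat_dif (length_cell _ _ _), sat_dif (length_cell _ _ _), sat_dif (length_cell _ _ _),
      e0, e1, e2] at h1
    simp at h1
  · rintro h c ⟨⟨u, v, w⟩, ⟨⟨hu, hv, hw⟩, ha, hn⟩, rfl⟩
    simp only at hu hv hw ha hn
    simp only [sat_append]
    rw [sat_dif hu, sat_dif hv, sat_dif hw, e0, e1, e2]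
    by_contra hc
    simp only [ne_eq, not_or, not_not] at hc
    obtain ⟨⟨rfl, rfl⟩, rfl⟩ := hc
    exact hn (h ha)

theorem sem3 (W m : ℕ) (s s' : ℕ → Bool) :
    (∀ c ∈ cl3 R W m, Sat (join (nv R W m) s s') c) ↔
      (R.acc (cell R.b s 0) = false → ∀ i < W - 1, cell R.b s' ((i + 1) * R.b) =
    R.R1 (cell R.b s 0) (cell R.b s (i * R.b)) (cell R.b s ((i + 1) * R.b))
      (cell R.b s ((i + 2) * R.b))) := by
  have e0 : cell R.b (join (nv R W m) s s') 0 = cell R.b s 0 :=
    cell_join_left (by have := bd (m := m) (b := R.b) (Nat.zero_le W); simpa [nv] using this)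
  have e1 : ∀ i ≤ W, cell R.b (join (nv R W m) s s') (i * R.b) = cell R.b s (i * R.b) :=
    fun i hi => cell_join_left (bd hi)
  have e2 : ∀ i, cell R.b (join (nv R W m) s s') (nv R W m + i * R.b) = cell R.b s' (i * R.b) :=
    fun i => cell_join_right
  simp only [cl3, pat1, List.mem_flatMap, List.mem_range, List.mem_map, List.mem_filter,
    decide_eq_true_eq, mem_allBits, mem_prod]
  constructor
  · intro h ha i hi
    by_contra hn
    have h1 := h _ ⟨i, hi, ((cell R.b s 0, cell R.b s (i * R.b)),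
      (cell R.b s ((i + 1) * R.b), cell R.b s ((i + 2) * R.b)), cell R.b s' ((i + 1) * R.b)),
      ⟨⟨⟨length_cell _ _ _, length_cell _ _ _⟩, ⟨length_cell _ _ _, length_cell _ _ _⟩,
        length_cell _ _ _⟩, ha, hn⟩, rfl⟩
    simp only [sat_append] at h1
    rw [sat_dif (length_cell _ _ _), sat_dif (length_cell _ _ _), sat_dif (length_cell _ _ _),
      sat_dif (length_cell _ _ _), sat_dif (length_cell _ _ _), e0, e1 i (by omega),
      e1 (i + 1) (by omega), e1 (i + 2) (by omega), e2] at h1
    simp at h1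
  · rintro h c ⟨i, hi, ⟨⟨u, v⟩, ⟨w, x⟩, y⟩, ⟨⟨⟨hu, hv⟩, ⟨hw, hx⟩, hy⟩, ha, hn⟩, rfl⟩
    simp only at hu hv hw hx hy ha hn
    simp only [sat_append]
    rw [sat_dif hu, sat_dif hv, sat_dif hw, sat_dif hx, sat_dif hy, e0, e1 i (by omega),
      e1 (i + 1) (by omega), e1 (i + 2) (by omega), e2]
    by_contra hc
    simp only [ne_eq, not_or, not_not] at hc
    obtain ⟨⟨⟨⟨rfl, rfl⟩, rfl⟩, rfl⟩, rfl⟩ := hc
    exact hn (h ha i hi)

theorem sem4 (W m : ℕ) (ini : List (List Bool)) (s s' : ℕ → Bool) :
    (∀ c ∈ cl4 R W m ini, Sat (join (nv R W m) s s') c) ↔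
      (R.acc (cell R.b s 0) = true → ∀ i < W, cell R.b s' (i * R.b) = ini.getD i []) := by
  have e0 : cell R.b (join (nv R W m) s s') 0 = cell R.b s 0 :=
    cell_join_left (by have := bd (m := m) (b := R.b) (Nat.zero_le W); simpa [nv] using this)
  have e2 : ∀ i, cell R.b (join (nv R W m) s s') (nv R W m + i * R.b) = cell R.b s' (i * R.b) :=
    fun i => cell_join_right
  simp only [cl4, List.mem_flatMap, List.mem_range, List.mem_map, List.mem_filter,
    decide_eq_true_eq, mem_allBits]
  constructor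
  · intro h ha i hi
    by_contra hn
    have h1 := h _ ⟨i, hi, cell R.b s' (i * R.b), ⟨length_cell _ _ _, hn⟩, cell R.b s 0,
      ⟨length_cell _ _ _, ha⟩, rfl⟩
    simp only [sat_append] at h1
    rw [sat_dif (length_cell _ _ _), sat_dif (length_cell _ _ _), e0, e2] at h1
    simp at h1
  · rintro h c ⟨i, hi, y, ⟨hy, hn⟩, u, ⟨hu, ha⟩, rfl⟩
    simp only [sat_append]
    rw [sat_dif hu, sat_dif hy, e0, e2]
    by_contra hc
    simp only [ne_eq, not_or, not_not] at hc
    obtain ⟨rfl, rfl⟩ := hc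
    exact hn (h ha i hi)

theorem sem5 (W m : ℕ) (s s' : ℕ → Bool) :
    (∀ c ∈ cl5 R W m, Sat (join (nv R W m) s s') c) ↔
      (R.acc (cell R.b s 0) = false → ∃ i < m, s ((W + 1) * R.b + m + i) = true) := by
  have e0 : cell R.b (join (nv R W m) s s') 0 = cell R.b s 0 :=
    cell_join_left (by have := bd (m := m) (b := R.b) (Nat.zero_le W); simpa [nv] using this)
  have e1 : Sat (join (nv R W m) s s') ((List.range m).map fun i => ((W + 1) * R.b + m + i, true)) ↔
      ∃ i < m, s ((W + 1) * R.b + m + i) = true := by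
    constructor
    · rintro ⟨l, hl, h⟩
      obtain ⟨i, hi, rfl⟩ := List.mem_map.1 hl
      rw [List.mem_range] at hi
      refine ⟨i, hi, ?_⟩
      simp only [join, nv] at h
      rwa [if_pos (by omega)] at h
    · rintro ⟨i, hi, h⟩
      refine ⟨_, List.mem_map.2 ⟨i, List.mem_range.2 hi, rfl⟩, ?_⟩
      simp only [join, nv]
      rwa [if_pos (by omega)]
  simp only [cl5, List.mem_map, List.mem_filter, mem_allBits, Bool.not_eq_true']
  constructor
  · intro h ha
    have h1 := h _ ⟨cell R.b s 0, ⟨length_cell _ _ _, ha⟩, rfl⟩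
    rw [sat_append, sat_dif (length_cell _ _ _), e0, e1] at h1
    rcases h1 with h1 | h1
    · exact absurd rfl h1
    · exact h1
  · rintro h c ⟨u, ⟨hu, ha⟩, rfl⟩
    rw [sat_append, sat_dif hu, e0, e1]
    by_cases hc : cell R.b s 0 = u
    · right
      exact h (by rw [hc]; exact ha)
    · exact Or.inl hc

theorem sem6 (W m : ℕ) (s s' : ℕ → Bool) :
    (∀ c ∈ cl6 R W m, Sat (join (nv R W m) s s') c) ↔
      (∀ i < m, s ((W + 1) * R.b + m + i) = true → s ((W + 1) * R.b + i) = false ∧
    s' ((W + 1) * R.b + i) = true ∧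
    ∀ j < m, i < j → s ((W + 1) * R.b + j) = s' ((W + 1) * R.b + j)) := by
  have e1 : ∀ i < m, join (nv R W m) s s' ((W + 1) * R.b + m + i) = s ((W + 1) * R.b + m + i) := by
    intro i hi
    simp only [join, nv]
    rw [if_pos (by omega)]
  have e2 : ∀ i < m, join (nv R W m) s s' ((W + 1) * R.b + i) = s ((W + 1) * R.b + i) := by
    intro i hi
    simp only [join, nv]
    rw [if_pos (by omega)]
  have e3 : ∀ v, join (nv R W m) s s' (nv R W m + v) = s' v := by
    intro v
    simp only [join]
    rw [if_neg (by omega)]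
    congr 1
    omega
  simp only [cl6, List.mem_flatMap, List.mem_range, List.mem_append, List.mem_filter,
    decide_eq_true_eq, List.mem_cons, List.not_mem_nil, or_false]
  constructor
  · intro h i hi hs
    have h1 := h _ ⟨i, hi, Or.inl (Or.inl rfl)⟩
    have h2 := h _ ⟨i, hi, Or.inl (Or.inr rfl)⟩
    simp only [Sat, List.mem_cons, List.not_mem_nil, or_false, exists_eq_or_imp, exists_eq_left,
      e1 i hi, e2 i hi, e3, hs] at h1 h2
    refine ⟨by simpa using h1, by simpa using h2, fun j hj hij => ?_⟩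
    have h3 := h _ ⟨i, hi, Or.inr ⟨j, ⟨hj, hij⟩, Or.inl rfl⟩⟩
    have h4 := h _ ⟨i, hi, Or.inr ⟨j, ⟨hj, hij⟩, Or.inr rfl⟩⟩
    simp only [Sat, List.mem_cons, List.not_mem_nil, or_false, exists_eq_or_imp, exists_eq_left,
      e1 i hi, e2 j hj, e3, hs] at h3 h4
    revert h3 h4
    cases s ((W + 1) * R.b + j) <;> cases s' ((W + 1) * R.b + j) <;> simp
  · rintro h c ⟨i, hi, hc⟩
    by_cases hs : s ((W + 1) * R.b + m + i) = true
    · obtain ⟨h1, h2, h3⟩ := h i hi hs
      rcases hc with (rfl | rfl) | ⟨j, ⟨hj, hij⟩, rfl | rfl⟩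
      · simp only [Sat, List.mem_cons, List.not_mem_nil, or_false, exists_eq_or_imp,
          exists_eq_left, e1 i hi, e2 i hi, h1]
        simp
      · simp only [Sat, List.mem_cons, List.not_mem_nil, or_false, exists_eq_or_imp,
          exists_eq_left, e1 i hi, e3, h2]
        simp
      · simp only [Sat, List.mem_cons, List.not_mem_nil, or_false, exists_eq_or_imp,
          exists_eq_left, e1 i hi, e2 j hj, e3, h3 j hj hij]
        cases s' ((W + 1) * R.b + j) <;> simp
      · simp only [Sat, List.mem_cons, List.not_mem_nil, or_false, exists_eq_or_imp,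
          exists_eq_left, e1 i hi, e2 j hj, e3, h3 j hj hij]
        cases s' ((W + 1) * R.b + j) <;> simp
    · have hs' : s ((W + 1) * R.b + m + i) = false := by simpa using hs
      have : ((W + 1) * R.b + m + i, false) ∈ c := by
        rcases hc with (rfl | rfl) | ⟨j, ⟨hj, hij⟩, rfl | rfl⟩ <;> simp
      exact ⟨_, this, by rw [e1 i hi]; exact hs'⟩

theorem sem (W m : ℕ) (hW : 0 < W) (ini : List (List Bool)) (s s' : ℕ → Bool) :
    (∀ c ∈ cls R W m ini, Sat (join (nv R W m) s s') c) ↔ Sem R W m ini s s' := by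
  simp only [cls, List.forall_mem_append]
  rw [sem1, sem2 R W m hW, sem3, sem4, sem5, sem6]
  constructor
  · rintro ⟨⟨⟨⟨⟨h1, h2⟩, h3⟩, h4⟩, h5⟩, h6⟩
    exact ⟨h1, h2, h3, h4, h5, h6⟩
  · rintro ⟨h1, h2, h3, h4, h5, h6⟩
    exact ⟨⟨⟨⟨⟨h1, h2⟩, h3⟩, h4⟩, h5⟩, h6⟩

/-! ### all variables are small -/

theorem dif_lt {b off : ℕ} {v : List Bool} {n : ℕ} (h : off + b ≤ n) :
    ∀ l ∈ dif b off v, l.1 < n := by
  intro l hl
  rw [dif, List.mem_map] at hl
  obtain ⟨j, hj, rfl⟩ := hl
  rw [List.mem_range] at hj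
  simp only
  omega

theorem wf (W m : ℕ) (hW : 0 < W) (ini : List (List Bool)) :
    ∀ c ∈ cls R W m ini, ∀ l ∈ c, l.1 < 2 * nv R W m := by
  have hbd : ∀ i ≤ W, i * R.b + R.b ≤ nv R W m := fun i hi => bd hi
  have h0 : 0 + R.b ≤ nv R W m := by simpa using hbd 0 (Nat.zero_le _)
  have h1 : R.b + R.b ≤ nv R W m := by simpa using hbd 1 hW
  intro c hc
  simp only [cls, List.mem_append] at hc
  rcases hc with ((((hc | hc) | hc) | hc) | hc) | hc
  · rw [cl1, List.mem_map] at hc
    obtain ⟨v, -, rfl⟩ := hc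
    exact dif_lt (by have := hbd W le_rfl; omega)
  · rw [cl2, List.mem_map] at hc
    obtain ⟨p, -, rfl⟩ := hc
    simp only [List.forall_mem_append]
    exact ⟨⟨dif_lt (by omega), dif_lt (by omega)⟩, dif_lt (by omega)⟩
  · rw [cl3, List.mem_flatMap] at hc
    obtain ⟨i, hi, hc⟩ := hc
    rw [List.mem_range] at hi
    rw [List.mem_map] at hc
    obtain ⟨p, -, rfl⟩ := hc
    have b0 := hbd i (by omega)
    have b1 := hbd (i + 1) (by omega)
    have b2 := hbd (i + 2) (by omega)
    simp only [List.forall_mem_append]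
    exact ⟨⟨⟨⟨dif_lt (by omega), dif_lt (by omega)⟩, dif_lt (by omega)⟩, dif_lt (by omega)⟩,
      dif_lt (by omega)⟩
  · simp only [cl4, List.mem_flatMap, List.mem_range, List.mem_map] at hc
    obtain ⟨i, hi, y, -, u, -, rfl⟩ := hc
    have b0 := hbd i (by omega)
    simp only [List.forall_mem_append]
    exact ⟨dif_lt (by omega), dif_lt (by omega)⟩
  · simp only [cl5, List.mem_map] at hc
    obtain ⟨u, -, rfl⟩ := hc
    simp only [List.forall_mem_append]
    refine ⟨dif_lt (by omega), ?_⟩
    intro l hl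
    obtain ⟨i, hi, rfl⟩ := List.mem_map.1 hl
    rw [List.mem_range] at hi
    simp only [nv]
    omega
  · simp only [cl6, List.mem_flatMap, List.mem_range, List.mem_append, List.mem_filter,
      decide_eq_true_eq, List.mem_cons, List.not_mem_nil, or_false] at hc
    obtain ⟨i, hi, hc⟩ := hc
    have hn : nv R W m = (W + 1) * R.b + 2 * m := rfl
    rcases hc with (rfl | rfl) | ⟨j, ⟨hj, -⟩, rfl | rfl⟩
    all_goals
      intro l hl
      simp only [List.mem_cons, List.not_mem_nil, or_false] at hl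
      rcases hl with rfl | rfl | rfl <;> simp only <;> omega

/-! ### polynomial time -/

section

open PolyF

variable {α : Type*} [TEnc α]

theorem polyF_dif (b : ℕ) {off : α → ℕ} {v : α → List Bool} (hoff : PolyF off) (hv : PolyF v) :
    PolyF (fun x => dif b (off x) (v x)) := by
  refine (PolyF.map (l := fun _ : α => List.range b)
    (h := fun x j => (off x + j, !((v x).getD j false)))
    (PolyF.const _) ?_)
  have hf : PolyF (fun p : α × ℕ => p.1) := fst'
  refine PolyF.pair ?_ ?_
  · exact (hoff.comp hf).natAdd snd'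
  · have h1 : PolyF (fun p : α × ℕ => ((v p.1)[p.2]?).getD false) :=
      PolyF.getD (PolyF.getElem? snd' (hv.comp hf)) (PolyF.const false)
    exact (PolyF.not h1).congr fun p => by rw [List.getD_eq_getElem?_getD]

theorem polyF_nv {W m : α → ℕ} (hW : PolyF W) (hm : PolyF m) :
    PolyF (fun x => nv R (W x) (m x)) :=
  (hW.succ.natMul (PolyF.const R.b)).natAdd ((PolyF.const 2).natMul hm)

theorem polyF_cl1 {W : α → ℕ} (hW : PolyF W) : PolyF (fun x => cl1 R (W x)) := by
  refine PolyF.map (l := fun _ : α => (allBits R.b).filter fun v => decide (v ≠ R.bl))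
    (h := fun x v => dif R.b (W x * R.b) v) (PolyF.const _) ?_
  exact polyF_dif R.b ((hW.comp fst').natMul (PolyF.const _)) snd'

theorem polyF_cl2 {W m : α → ℕ} (hW : PolyF W) (hm : PolyF m) :
    PolyF (fun x => cl2 R (W x) (m x)) := by
  refine PolyF.map (l := fun _ : α => pat0 R)
    (h := fun x p => dif R.b 0 p.1 ++ dif R.b R.b p.2.1 ++ dif R.b (nv R (W x) (m x)) p.2.2)
    (PolyF.const _) ?_
  have h1 : PolyF (fun q : α × (List Bool × List Bool × List Bool) => dif R.b 0 q.2.1) :=
    polyF_dif R.b (PolyF.const 0) snd'.fst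
  have h2 : PolyF (fun q : α × (List Bool × List Bool × List Bool) => dif R.b R.b q.2.2.1) :=
    polyF_dif R.b (PolyF.const R.b) snd'.snd.fst
  have h3 : PolyF (fun q : α × (List Bool × List Bool × List Bool) =>
      dif R.b (nv R (W q.1) (m q.1)) q.2.2.2) :=
    polyF_dif R.b (polyF_nv R (hW.comp fst') (hm.comp fst')) snd'.snd.snd
  exact (h1.append h2).append h3

theorem polyF_cl3_one {ι : Type*} [TEnc ι] {W m i : ι → ℕ}
    {p : ι → (List Bool × List Bool) × (List Bool × List Bool) × List Bool}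
    (hW : PolyF W) (hm : PolyF m) (hi : PolyF i) (hp : PolyF p) :
    PolyF (fun x => dif R.b 0 (p x).1.1 ++ dif R.b (i x * R.b) (p x).1.2 ++
      dif R.b ((i x + 1) * R.b) (p x).2.1.1 ++ dif R.b ((i x + 2) * R.b) (p x).2.1.2 ++
      dif R.b (nv R (W x) (m x) + (i x + 1) * R.b) (p x).2.2) := by
  have h1 := polyF_dif R.b (PolyF.const (α := ι) 0) hp.fst.fst
  have h2 := polyF_dif R.b (hi.natMul (PolyF.const R.b)) hp.fst.snd
  have h3 := polyF_dif R.b (hi.succ.natMul (PolyF.const R.b)) hp.snd.fst.fst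
  have h4 := polyF_dif R.b (hi.succ.succ.natMul (PolyF.const R.b)) hp.snd.fst.snd
  have h5 := polyF_dif R.b ((polyF_nv R hW hm).natAdd (hi.succ.natMul (PolyF.const R.b)))
    hp.snd.snd
  exact (((h1.append h2).append h3).append h4).append h5

/-- the clauses for one cell -/
def body3 (L : List ((List Bool × List Bool) × (List Bool × List Bool) × List Bool))
    (W m i : ℕ) : List (List (ℕ × Bool)) :=
  L.map fun p => dif R.b 0 p.1.1 ++ dif R.b (i * R.b) p.1.2 ++ dif R.b ((i + 1) * R.b) p.2.1.1 ++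
      dif R.b ((i + 2) * R.b) p.2.1.2 ++ dif R.b (nv R W m + (i + 1) * R.b) p.2.2

theorem polyF_body3 (L : List ((List Bool × List Bool) × (List Bool × List Bool) × List Bool))
    {W m : α → ℕ} (hW : PolyF W) (hm : PolyF m) :
    PolyF (fun r : α × ℕ => body3 R L (W r.1) (m r.1) r.2) :=
  PolyF.map (l := fun _ : α × ℕ => L)
    (h := fun r p => dif R.b 0 p.1.1 ++ dif R.b (r.2 * R.b) p.1.2 ++
      dif R.b ((r.2 + 1) * R.b) p.2.1.1 ++ dif R.b ((r.2 + 2) * R.b) p.2.1.2 ++
      dif R.b (nv R (W r.1) (m r.1) + (r.2 + 1) * R.b) p.2.2) (PolyF.const _)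
    (polyF_cl3_one R (hW.comp fst'.fst) (hm.comp fst'.fst) fst'.snd snd')

theorem polyF_cl3 {W m : α → ℕ} (hW : PolyF W) (hm : PolyF m) :
    PolyF (fun x => cl3 R (W x) (m x)) :=
  (PolyF.flatMap (l := fun x => List.range (W x - 1))
    (h := fun x i => body3 R (pat1 R) (W x) (m x) i) hW.pred.range
    (polyF_body3 R (pat1 R) hW hm)).congr fun _ => rfl

theorem polyF_cl4 {W m : α → ℕ} {ini : α → List (List Bool)} (hW : PolyF W) (hm : PolyF m)
    (hini : PolyF ini) : PolyF (fun x => cl4 R (W x) (m x) (ini x)) := by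
  refine PolyF.flatMap (l := fun x => List.range (W x))
    (h := fun x i => ((allBits R.b).filter fun y =>
    decide (y ≠ (ini x).getD i [])).flatMap fun y =>
      ((allBits R.b).filter fun u => R.acc u).map fun u =>
        dif R.b 0 u ++ dif R.b (nv R (W x) (m x) + i * R.b) y) hW.range ?_
  refine PolyF.flatMap (l := fun p : α × ℕ => (allBits R.b).filter
      fun y => decide (y ≠ (ini p.1).getD p.2 []))
    (h := fun p y => ((allBits R.b).filter fun u => R.acc u).map fun u =>
        dif R.b 0 u ++ dif R.b (nv R (W p.1) (m p.1) + p.2 * R.b) y) ?_ ?_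
  · refine PolyF.filterProp (l := fun _ : α × ℕ => allBits R.b)
      (p := fun p y => y ≠ (ini p.1).getD p.2 []) (PolyF.const _) ?_
    have h1 : PolyF (fun q : (α × ℕ) × List Bool => ((ini q.1.1)[q.1.2]?).getD []) :=
      PolyF.getD (PolyF.getElem? fst'.snd (hini.comp fst'.fst)) (PolyF.const [])
    have h2 : PolyF (fun q : (α × ℕ) × List Bool => (ini q.1.1).getD q.1.2 []) :=
      h1.congr fun q => by rw [List.getD_eq_getElem?_getD]
    exact PolyF.decide_not (PolyF.eq (f := fun q : (α × ℕ) × List Bool => q.2) snd' h2)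
  · refine PolyF.map (l := fun _ : (α × ℕ) × List Bool => (allBits R.b).filter fun u => R.acc u)
      (h := fun q u => dif R.b 0 u ++ dif R.b (nv R (W q.1.1) (m q.1.1) + q.1.2 * R.b) q.2)
      (PolyF.const _) ?_
    have h1 : PolyF (fun r : ((α × ℕ) × List Bool) × List Bool => dif R.b 0 r.2) :=
      polyF_dif R.b (PolyF.const 0) snd'
    have h2 : PolyF (fun r : ((α × ℕ) × List Bool) × List Bool =>
        dif R.b (nv R (W r.1.1.1) (m r.1.1.1) + r.1.1.2 * R.b) r.1.2) :=
      polyF_dif R.b ((polyF_nv R (hW.comp fst'.fst.fst) (hm.comp fst'.fst.fst)).natAdd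
        (fst'.fst.snd.natMul (PolyF.const _))) fst'.snd
    exact h1.append h2

theorem polyF_cl5 {W m : α → ℕ} (hW : PolyF W) (hm : PolyF m) :
    PolyF (fun x => cl5 R (W x) (m x)) := by
  refine PolyF.map (l := fun _ : α => (allBits R.b).filter fun u => !(R.acc u))
    (h := fun x u => dif R.b 0 u ++ (List.range (m x)).map fun i =>
      ((W x + 1) * R.b + m x + i, true)) (PolyF.const _) ?_
  have h1 : PolyF (fun q : α × List Bool => dif R.b 0 q.2) := polyF_dif R.b (PolyF.const 0) snd'
  have h2 : PolyF (fun q : α × List Bool => (List.range (m q.1)).map fun i =>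
      ((W q.1 + 1) * R.b + m q.1 + i, true)) := by
    refine PolyF.map (l := fun q : α × List Bool => List.range (m q.1))
      (h := fun q i => ((W q.1 + 1) * R.b + m q.1 + i, true)) (hm.comp fst').range ?_
    exact PolyF.pair (((((hW.comp fst'.fst).succ.natMul (PolyF.const R.b)).natAdd
      (hm.comp fst'.fst))).natAdd snd') (PolyF.const true)
  exact h1.append h2

theorem polyF_cl6 {W m : α → ℕ} (hW : PolyF W) (hm : PolyF m) :
    PolyF (fun x => cl6 R (W x) (m x)) := by
  refine PolyF.flatMap (l := fun x => List.range (m x))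
    (h := fun x i => [[((W x + 1) * R.b + m x + i, false), ((W x + 1) * R.b + i, false)],
     [((W x + 1) * R.b + m x + i, false), (nv R (W x) (m x) + ((W x + 1) * R.b + i), true)]] ++
    ((List.range (m x)).filter fun j => decide (i < j)).flatMap fun j =>
      [[((W x + 1) * R.b + m x + i, false), ((W x + 1) * R.b + j, true),
        (nv R (W x) (m x) + ((W x + 1) * R.b + j), false)],
       [((W x + 1) * R.b + m x + i, false), ((W x + 1) * R.b + j, false),
        (nv R (W x) (m x) + ((W x + 1) * R.b + j), true)]]) hm.range ?_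
  have a1 : PolyF (fun p : α × ℕ => (W p.1 + 1) * R.b + m p.1 + p.2) :=
    ((((hW.comp fst').succ.natMul (PolyF.const R.b)).natAdd (hm.comp fst'))).natAdd snd'
  have a2 : PolyF (fun p : α × ℕ => (W p.1 + 1) * R.b + p.2) :=
    ((hW.comp fst').succ.natMul (PolyF.const R.b)).natAdd snd'
  have a3 : PolyF (fun p : α × ℕ => nv R (W p.1) (m p.1) + ((W p.1 + 1) * R.b + p.2)) :=
    (polyF_nv R (hW.comp fst') (hm.comp fst')).natAdd a2
  refine PolyF.append ?_ ?_
  · exact ((a1.pair (PolyF.const false)).cons ((a2.pair (PolyF.const false)).cons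
      (PolyF.const []))).cons (((a1.pair (PolyF.const false)).cons ((a3.pair
      (PolyF.const true)).cons (PolyF.const []))).cons (PolyF.const []))
  · refine PolyF.flatMap (l := fun p : α × ℕ => (List.range (m p.1)).filter
        fun j => decide (p.2 < j))
      (h := fun p j => [[((W p.1 + 1) * R.b + m p.1 + p.2, false), ((W p.1 + 1) * R.b + j, true),
        (nv R (W p.1) (m p.1) + ((W p.1 + 1) * R.b + j), false)],
       [((W p.1 + 1) * R.b + m p.1 + p.2, false), ((W p.1 + 1) * R.b + j, false),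
        (nv R (W p.1) (m p.1) + ((W p.1 + 1) * R.b + j), true)]]) ?_ ?_
    · refine PolyF.filterProp (l := fun p : α × ℕ => List.range (m p.1))
        (p := fun p j => p.2 < j) (hm.comp fst').range ?_
      exact PolyF.natLt fst'.snd snd'
    · have b1 : PolyF (fun q : (α × ℕ) × ℕ => (W q.1.1 + 1) * R.b + m q.1.1 + q.1.2) :=
        a1.comp fst'
      have b2 : PolyF (fun q : (α × ℕ) × ℕ => (W q.1.1 + 1) * R.b + q.2) :=
        ((hW.comp fst'.fst).succ.natMul (PolyF.const R.b)).natAdd snd'
      have b3 : PolyF (fun q : (α × ℕ) × ℕ =>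
          nv R (W q.1.1) (m q.1.1) + ((W q.1.1 + 1) * R.b + q.2)) :=
        (polyF_nv R (hW.comp fst'.fst) (hm.comp fst'.fst)).natAdd b2
      exact ((b1.pair (PolyF.const false)).cons ((b2.pair (PolyF.const true)).cons
        ((b3.pair (PolyF.const false)).cons (PolyF.const [])))).cons
        (((b1.pair (PolyF.const false)).cons ((b2.pair (PolyF.const false)).cons
        ((b3.pair (PolyF.const true)).cons (PolyF.const [])))).cons (PolyF.const []))

theorem polyF_cls {W m : α → ℕ} {ini : α → List (List Bool)} (hW : PolyF W) (hm : PolyF m)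
    (hini : PolyF ini) : PolyF (fun x => cls R (W x) (m x) (ini x)) :=
  (((((polyF_cl1 R hW).append (polyF_cl2 R hW hm)).append (polyF_cl3 R hW hm)).append
    (polyF_cl4 R hW hm hini)).append (polyF_cl5 R hW hm)).append (polyF_cl6 R hW hm)

end

end Pool.Agent.Lib.Pinwheel.Sp
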