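import Mathlib

/-!
# Polynomial space
-/

namespace Pool.Agent.Lib.Pinwheel

open Turing

/-- The language `{x | V x = true}` of binary words is decided by a Turing machine (with several
stacks) which uses polynomial space: started with `x` it halts with output `V x`, and in all
configurations before, the stacks have length at most `p |x|`. -/
def PSpace (V : List Bool → Bool) : Prop :=
  ∃ (tm : FinTM2) (ea : tm.Γ tm.k₀ ≃ Bool) (eb : tm.Γ tm.k₁ ≃ Bool) (p : Polynomial ℕ), ∀ x,
    (∃ t, (flip bind tm.step)^[t] (some (initList tm (x.map ea.invFun))) =
      some (haltList tm [eb.invFun (V x)])) ∧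
    ∀ t c, (flip bind tm.step)^[t] (some (initList tm (x.map ea.invFun))) = some c →
      ∀ k, (c.stk k).length ≤ p.eval x.length

end Pool.Agent.Lib.Pinwheel
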