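import Pool.Agent.Lib.Pinwheel.TokDefs

/-!
# The token machine: basic facts
-/

namespace Pool.Agent.Lib.Pinwheel

theorem tA_eq (n g : ℕ) (hg : g < n) : ∃ a, tA n g = 9 * a ∧ a + g = n ∧ 1 ≤ a :=
  ⟨n - g, rfl, by omega, by omega⟩

theorem uH_eq (n g : ℕ) (hg : g ≤ n) : uH n g = 9 * (tK n * g) + 1 := by
  unfold uH tZ tA
  obtain ⟨a, rfl⟩ := Nat.exists_eq_add_of_le hg
  have h1 : g + a - g = a := by omega
  rw [h1]
  have h2 : tK (g + a) * (9 * (g + a)) = 9 * (tK (g + a) * g) + tK (g + a) * (9 * a) := by ring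
  omega

theorem climb_bounds (n : ℕ) (C : List ℕ) (g i : ℕ) (hg : g < n) :
    1 ≤ climb n C g i ∧ climb n C g i ≤ tZ n + 4 := by
  have hu := uH_eq n g hg.le
  obtain ⟨a, ha, hag, ha1⟩ := tA_eq n g hg
  have hK : 3 ≤ tK n := by unfold tK; omega
  have hZ : tZ n = 9 * (tK n * g) + 9 * (tK n * a) := by unfold tZ; rw [← hag]; ring
  have h3 : 3 * a ≤ tK n * a := Nat.mul_le_mul_right _ hK
  unfold climb
  split_ifs with h1 h2 h4 h5 h6
  · have h7 : (tK n - i) * tA n g ≤ tK n * tA n g := Nat.mul_le_mul_right _ (Nat.sub_le _ _)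
    have h8 : tK n * tA n g = 9 * (tK n * a) := by rw [ha]; ring
    omega
  · omega
  · omega
  · omega
  · omega
  · omega

theorem climb_inj (n : ℕ) (C : List ℕ) (g g' i : ℕ) (hg : g < n) (hg' : g' < n)
    (h : climb n C g i = climb n C g' i) : g = g' := by
  have hu := uH_eq n g hg.le
  have hu' := uH_eq n g' hg'.le
  obtain ⟨a, ha, hag, ha1⟩ := tA_eq n g hg
  obtain ⟨a', ha', hag', ha1'⟩ := tA_eq n g' hg'
  have hK : 3 ≤ tK n := by unfold tK; omega
  have hZ : tZ n = 9 * (tK n * g) + 9 * (tK n * a) := by unfold tZ; rw [← hag]; ring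
  have hZ' : tZ n = 9 * (tK n * g') + 9 * (tK n * a') := by unfold tZ; rw [← hag']; ring
  have h3 : 3 * a ≤ tK n * a := Nat.mul_le_mul_right _ hK
  have h3' : 3 * a' ≤ tK n * a' := Nat.mul_le_mul_right _ hK
  have hKg : ∀ x y : ℕ, tK n * x = tK n * y → x = y := fun x y hxy =>
    Nat.eq_of_mul_eq_mul_left (by omega) hxy
  unfold climb at h
  by_cases h1 : i + 2 ≤ tK n
  · rw [if_pos h1, if_pos h1] at h
    have h7 : (tK n - i) * tA n g ≤ tK n * tA n g := Nat.mul_le_mul_right _ (Nat.sub_le _ _)
    have h8 : tK n * tA n g = 9 * (tK n * a) := by rw [ha]; ring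
    have h7' : (tK n - i) * tA n g' ≤ tK n * tA n g' := Nat.mul_le_mul_right _ (Nat.sub_le _ _)
    have h8' : tK n * tA n g' = 9 * (tK n * a') := by rw [ha']; ring
    have h9 : (tK n - i) * tA n g = (tK n - i) * tA n g' := by omega
    have h10 : tA n g = tA n g' := Nat.eq_of_mul_eq_mul_left (by omega) h9
    omega
  · rw [if_neg h1, if_neg h1] at h
    by_cases h2 : i + 1 = tK n
    · rw [if_pos h2, if_pos h2] at h
      split_ifs at h <;> omega
    · rw [if_neg h2, if_neg h2] at h
      have hgu : uH n g = uH n g' → g = g' := fun hh => hKg _ _ (by omega)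
      split_ifs at h
      · omega
      · omega
      · omega
      · exact hgu h
      · exact hgu h

theorem slot_pos (n : ℕ) (ins : Instr) (i g : ℕ) (v : Bool) (hg : g < n) (hi : i < tLam n) :
    1 ≤ slot n ins i g v ∧ slot n ins i g v + 2 ≤ tZ n + tS n + 6 := by
  have _ := hi
  have hu := uH_eq n g hg.le
  obtain ⟨a, ha, hag, ha1⟩ := tA_eq n g hg
  have hK : 3 ≤ tK n := by unfold tK; omega
  have hZ : tZ n = 9 * (tK n * g) + 9 * (tK n * a) := by unfold tZ; rw [← hag]; ring
  have h3 : 3 * a ≤ tK n * a := Nat.mul_le_mul_right _ hK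
  have hc := climb_bounds n ins.2 g i hg
  have hv : vH n g = uH n g + tS n := rfl
  unfold slot
  split_ifs with h1 h2 h4 h5 h6 h7 h8
  · omega
  · omega
  · have h9 : 1 * tA n g ≤ i * tA n g := Nat.mul_le_mul_right _ h6.2.1
    omega
  · omega
  · omega
  · omega
  · omega
  · omega

theorem slot_inj (n : ℕ) (ins : Instr) (i g g' : ℕ) (v v' : Bool) (hg : g < n) (hg' : g' < n)
    (hi : i < tLam n) (h : slot n ins i g v = slot n ins i g' v') : g = g' ∧ v = v' := by
  have _ := hi
  have hu := uH_eq n g hg.le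
  have hu' := uH_eq n g' hg'.le
  obtain ⟨a, ha, hag, ha1⟩ := tA_eq n g hg
  obtain ⟨a', ha', hag', ha1'⟩ := tA_eq n g' hg'
  have hK : 3 ≤ tK n := by unfold tK; omega
  have hZ : tZ n = 9 * (tK n * g) + 9 * (tK n * a) := by unfold tZ; rw [← hag]; ring
  have hZ' : tZ n = 9 * (tK n * g') + 9 * (tK n * a') := by unfold tZ; rw [← hag']; ring
  have h3 : 3 * a ≤ tK n * a := Nat.mul_le_mul_right _ hK
  have h3' : 3 * a' ≤ tK n * a' := Nat.mul_le_mul_right _ hK
  have hS : tS n = tZ n + 18 * n := by unfold tS tZ; ring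
  have hc := climb_bounds n ins.2 g i hg
  have hc' := climb_bounds n ins.2 g' i hg'
  have hv : vH n g = uH n g + tS n := rfl
  have hv' : vH n g' = uH n g' + tS n := rfl
  have hKg : ∀ x y : ℕ, tK n * x = tK n * y → x = y := fun x y hxy =>
    Nat.eq_of_mul_eq_mul_left (by omega) hxy
  have hgu : uH n g = uH n g' → g = g' := fun hh => hKg _ _ (by omega)
  have hcl : climb n ins.2 g i = climb n ins.2 g' i → g = g' := climb_inj n ins.2 g g' i hg hg'
  have hia : i * tA n g = 9 * (i * a) := by rw [ha]; ring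
  have hia' : i * tA n g' = 9 * (i * a') := by rw [ha']; ring
  unfold slot at h
  by_cases h1 : i + 2 = tLam n
  · rw [if_pos h1, if_pos h1] at h
    have h4 : uH n g + tA n g = uH n g' + tA n g' → g = g' := by
      intro h5
      have h6 : tZ n + tA n g = tZ n + tA n g' + 9 * (tK n * a) - 9 * (tK n * a') := by omega
      obtain ⟨k, hk⟩ : ∃ k, tK n = k + 2 := ⟨tK n - 2, by omega⟩
      rw [hk] at hZ hZ' hu hu'
      rcases lt_trichotomy g g' with h7 | h7 | h7
      · obtain ⟨d, rfl⟩ := Nat.exists_eq_add_of_lt h7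
        exfalso
        have h8 : (k + 2) * (g + d + 1) = (k + 2) * g + k * (d + 1) + 2 * (d + 1) := by ring
        omega
      · exact h7
      · obtain ⟨d, rfl⟩ := Nat.exists_eq_add_of_lt h7
        exfalso
        have h8 : (k + 2) * (g' + d + 1) = (k + 2) * g' + k * (d + 1) + 2 * (d + 1) := by ring
        omega
    cases v <;> cases v'
    · simp only [Bool.false_eq_true, if_false] at h
      exact ⟨h4 h, rfl⟩
    · exfalso
      simp only [Bool.false_eq_true, if_false, if_true] at h
      omega
    · exfalso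
      simp only [Bool.false_eq_true, if_false, if_true] at h
      omega
    · simp only [if_true] at h
      exact ⟨h4 (by omega), rfl⟩
  · rw [if_neg h1, if_neg h1] at h
    cases v <;> cases v'
    · simp only [Bool.false_eq_true, if_false] at h
      refine ⟨?_, rfl⟩
      split_ifs at h
      · exact hcl h
      · exact hgu h
    · exfalso
      simp only [Bool.false_eq_true, if_false, if_true] at h
      split_ifs at h with h5 h6 h7 h8 h9
      all_goals omega
    · exfalso
      simp only [Bool.false_eq_true, if_false, if_true] at h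
      split_ifs at h with h5 h6 h7 h8 h9
      all_goals omega
    · simp only [if_true] at h
      refine ⟨?_, rfl⟩
      split_ifs at h with h5 h6 h7 h8 h9
      · omega
      · have h12 : 1 * a ≤ i * a := Nat.mul_le_mul_right _ (by omega)
        apply hgu
        omega
      · have h12 : 1 * a' ≤ i * a' := Nat.mul_le_mul_right _ (by omega)
        apply hgu
        omega
      · apply hgu
        omega
      · apply hgu
        omega
      · apply hcl
        omega

theorem tMo_le (n : ℕ) (prog : List Instr) (z : ℕ) (hz : z < tCl n prog)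
    (h : tMo n prog z = true) : tR n prog ≤ z ∧ z + tR n prog < tCl n prog := by
  unfold tMo at h
  rw [decide_eq_true_eq] at h
  obtain ⟨g, hg, v, hv⟩ := h
  have hlam : 0 < tLam n := by unfold tLam; omega
  have hR : 0 < tR n prog := by
    rcases Nat.eq_zero_or_pos (tR n prog) with h0 | h0
    · unfold tCl at hz; rw [h0] at hz; omega
    · exact h0
  obtain ⟨h1, h2⟩ := slot_pos n (prog.getD (z % tR n prog / tLam n) (1, []))
    (z % tR n prog % tLam n) g v hg (Nat.mod_lt _ hlam)
  rw [← hv] at h1 h2
  have h3 := Nat.div_add_mod z (tR n prog)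
  have h4 := Nat.mod_lt z hR
  have h5 : tR n prog * 1 ≤ tR n prog * (z / tR n prog) := Nat.mul_le_mul_left _ h1
  have h6 : tR n prog * (z / tR n prog + 2) ≤ tR n prog * (tZ n + tS n + 6) :=
    Nat.mul_le_mul_left _ h2
  have h7 : tR n prog * (z / tR n prog + 2) = tR n prog * (z / tR n prog) + 2 * tR n prog := by ring
  unfold tCl
  omega

theorem tMo_count (n : ℕ) (prog : List Instr) (r : ℕ) (hr : r < tR n prog) :
    ((Finset.range (tCl n prog)).filter fun z => tMo n prog z = true ∧ z % tR n prog = r).card =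
      2 * n := by
  have hlam : 0 < tLam n := by unfold tLam; omega
  have hR : 0 < tR n prog := by omega
  set ins := prog.getD (r / tLam n) (1, []) with hins
  set i := r % tLam n with hi
  have hil : i < tLam n := Nat.mod_lt _ hlam
  have hset : ((Finset.range (tCl n prog)).filter fun z => tMo n prog z = true ∧
      z % tR n prog = r) = (Finset.range n ×ˢ (Finset.univ : Finset Bool)).image
        (fun p => tR n prog * slot n ins i p.1 p.2 + r) := by
    ext z
    simp only [Finset.mem_filter, Finset.mem_range, Finset.mem_image, Finset.mem_product,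
      Finset.mem_univ, and_true, Prod.exists]
    constructor
    · rintro ⟨hz, hmo, hzr⟩
      unfold tMo at hmo
      rw [decide_eq_true_eq] at hmo
      obtain ⟨g, hg, v, hv⟩ := hmo
      refine ⟨g, v, hg, ?_⟩
      rw [hzr] at hv
      have h3 := Nat.div_add_mod z (tR n prog)
      rw [hzr, hv] at h3
      exact h3
    · rintro ⟨g, v, hg, rfl⟩
      obtain ⟨h1, h2⟩ := slot_pos n ins i g v hg hil
      have h4 : (tR n prog * slot n ins i g v + r) % tR n prog = r := by
        rw [Nat.mul_add_mod]; exact Nat.mod_eq_of_lt hr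
      have h5 : (tR n prog * slot n ins i g v + r) / tR n prog = slot n ins i g v := by
        rw [Nat.mul_add_div hR, Nat.div_eq_of_lt hr, add_zero]
      refine ⟨?_, ?_, h4⟩
      · have h6 : tR n prog * (slot n ins i g v + 2) ≤ tR n prog * (tZ n + tS n + 6) :=
          Nat.mul_le_mul_left _ h2
        have h7 : tR n prog * (slot n ins i g v + 2) =
          tR n prog * slot n ins i g v + 2 * tR n prog := by ring
        unfold tCl
        omega
      · unfold tMo
        rw [decide_eq_true_eq, h4, h5]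
        exact ⟨g, hg, v, rfl⟩
  rw [hset, Finset.card_image_of_injOn]
  · simp [mul_comm]
  · rintro ⟨g, v⟩ hgv ⟨g', v'⟩ hgv' heq
    simp only [Finset.coe_product, Finset.coe_range, Finset.coe_univ, Set.mem_prod, Set.mem_Iio,
      Set.mem_univ, and_true] at hgv hgv'
    simp only [Nat.add_right_cancel_iff] at heq
    have h5 : slot n ins i g v = slot n ins i g' v' := Nat.eq_of_mul_eq_mul_left hR heq
    obtain ⟨rfl, rfl⟩ := slot_inj n ins i g g' v v' hgv hgv' hil h5
    rfl

end Pool.Agent.Lib.Pinwheel
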