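import Pool.Agent.Lib.Pinwheel.Defs

/-!
# Guess-and-check programs and the token machine
-/

namespace Pool.Agent.Lib.Pinwheel

/-- An instruction: `(0, [g])` resets the bit `g`, `(1, C)` requires that some bit of `C` is true,
`(2, C)` requires that some bit of `C` is false. -/
abbrev Instr : Type := ℕ × List ℕ

/-- The relation between the state before and after an instruction, for `n` bits. -/
def Rel (n : ℕ) (ins : Instr) (s s' : ℕ → Bool) : Prop :=
  if ins.1 = 0 then ∀ g < n, g ≠ ins.2.headD 0 → s' g = s g
  else (∀ g < n, s' g = s g) ∧ ∃ g ∈ ins.2, g < n ∧ s g = decide (ins.1 = 1)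

/-- A run of length `N` of a program; the program is repeated cyclically. -/
def PRun (n : ℕ) (prog : List Instr) (N : ℕ) (σ : ℕ → ℕ → Bool) : Prop :=
  ∀ i < N, Rel n (prog.getD (i % prog.length) (1, [])) (σ i) (σ (i + 1))

/-- allowance of the tokens of the group `g` -/
def tA (n g : ℕ) : ℕ := 9 * (n - g)

def tK (n : ℕ) : ℕ := 2 * n + 1

def tZ (n : ℕ) : ℕ := tK n * (9 * n)

def tS (n : ℕ) : ℕ := (tK n + 2) * (9 * n)

/-- home of the group `g` in the lower line -/
def uH (n g : ℕ) : ℕ := tZ n + 1 - tK n * tA n g

/-- home of the group `g` in the upper line -/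
def vH (n g : ℕ) : ℕ := uH n g + tS n

/-- number of phases of an instruction -/
def tLam (n : ℕ) : ℕ := tS n / 9 + tK n + 10

/-- The column of the group `g` in phase `i` of the test of `C` in the lower line. -/
def climb (n : ℕ) (C : List ℕ) (g i : ℕ) : ℕ :=
  if i + 2 ≤ tK n then tZ n + 1 - (tK n - i) * tA n g
  else if i + 1 = tK n then (if g ∈ C then tZ n + 1 - tA n g else tZ n + 1 - tA n g - 3)
  else if i = tK n then (if g = 0 then tZ n + 4 else uH n g)
  else uH n g

/-- The open columns in phase `i < tLam n` of the instruction `ins`: one for each group `g < n` and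
each line `v`. -/
def slot (n : ℕ) (ins : Instr) (i g : ℕ) (v : Bool) : ℕ :=
  if i + 2 = tLam n then (if v then vH n g else uH n g) + tA n g
  else if v then
    (if ins.1 = 0 then
      (if g = ins.2.headD 0 ∧ 0 < i ∧ i + 2 < tLam n then
        min (vH n g) (uH n g + i * tA n g - 4) else vH n g)
    else if ins.1 = 1 then vH n g
    else climb n ins.2 g i + tS n)
  else (if ins.1 = 1 then climb n ins.2 g i else uH n g)

/-- number of phases of the program -/
def tR (n : ℕ) (prog : List Instr) : ℕ := tLam n * prog.length

/-- number of clusters -/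
def tCl (n : ℕ) (prog : List Instr) : ℕ := tR n prog * (tZ n + tS n + 6)

/-- The open clusters of the token machine. -/
def tMo (n : ℕ) (prog : List Instr) (z : ℕ) : Bool :=
  decide (∃ g < n, ∃ v : Bool, z / tR n prog =
    slot n (prog.getD (z % tR n prog / tLam n) (1, [])) (z % tR n prog % tLam n) g v)

/-- The allowances of the `2 * n` tokens. -/
def tAl (n t : ℕ) : ℕ := tA n (t / 2) + 3 * (t % 2)

end Pool.Agent.Lib.Pinwheel
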